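import Pool.Agent.Lib.HLT.Defs

/-!
MODULE SSQ.AP.  Sums over short progressions in mean square, from short exponential sums.

`SI x B W Z z`: the statement of `Pool.Agent.VM.si6` for one `x`: for all `H` with `W ≤ H ≤ Z` and all real `α` the mean square over `u ≤ 2x`
of `∑ (u < n ≤ u + H, n ≤ 2x) ff z n e(n α)` is at most `x H² / (log x)^B`.  `fz z x`: `ff z` restricted to `[1, 2x]`, on the integers.

PROOF of `ap_ms`.  For `u ∈ [0, 2x]`: `∑ i ∈ [1,V], fz (u + q i) = ∑ (u < n ≤ u + q V, n ≤ 2x, n ≡ u mod q) ff n`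
`= (1/q) ∑ a < q, e(-u a/q) ∑ (u < n ≤ u + q V, n ≤ 2x) ff n e(n a/q)` (orthogonality of additive characters modulo `q`).  So by
Cauchy its square is at most `(1/q) ∑ a < q, ‖∑ (u < n ≤ u + qV, n ≤ 2x) ff n e(n a/q)‖²`; sum over `u` and use `hSI` with `H = q V`,
`α = a/q`.
-/

set_option autoImplicit false

open Finset

namespace Pool.Agent.SSQ

open Pool.Agent.HLT

/-- `ff z` restricted to `[1, 2x]` -/
noncomputable def fz (z x : ℕ) (n : ℤ) : ℝ := if 1 ≤ n ∧ n ≤ 2 * (x : ℤ) then ff z n.toNat else 0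

/-- the input on short exponential sums -/
def SI (x B z : ℕ) (W Z : ℝ) : Prop := ∀ (H : ℕ) (α : ℝ), W ≤ H → (H : ℝ) ≤ Z →
  ∑ u ∈ range (2 * x + 1), ‖∑ n ∈ (Ioc u (u + H)).filter (fun n => n ≤ 2 * x), (ff z n : ℂ) * ex (n * α)‖ ^ 2 ≤
    x * (H : ℝ) ^ 2 / Real.log x ^ B

namespace APAux

lemma ex_eq_one_iff {N : ℕ} (hN : 0 < N) (k : ℤ) : ex (k / N) = 1 ↔ (N : ℤ) ∣ k := by
  unfold ex
  rw [Complex.exp_eq_one_iff]
  have hN' : (N : ℂ) ≠ 0 := by exact_mod_cast hN.ne'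
  have hpi : (2 * (Real.pi : ℂ) * Complex.I) ≠ 0 := Complex.two_pi_I_ne_zero
  constructor
  · rintro ⟨m, hm⟩
    refine ⟨m, ?_⟩
    have h1 : ((k : ℂ) / N) * (2 * (Real.pi : ℂ) * Complex.I) = m * (2 * (Real.pi : ℂ) * Complex.I) := by
      rw [← hm]
      push_cast
      ring
    have h2 := mul_right_cancel₀ hpi h1
    rw [div_eq_iff hN'] at h2
    have h3 : ((k : ℤ) : ℂ) = ((N * m : ℤ) : ℂ) := by
      rw [h2]
      push_cast
      ring
    exact_mod_cast h3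
  · rintro ⟨m, rfl⟩
    refine ⟨m, ?_⟩
    push_cast
    field_simp

lemma sum_exq {N : ℕ} (hN : 0 < N) (k : ℤ) :
    ∑ ξ ∈ range N, ex (k * (ξ / N)) = if (N : ℤ) ∣ k then (N : ℂ) else 0 := by
  have h1 : ∀ ξ : ℕ, ex (k * (ξ / N)) = ex (k / N) ^ ξ := by
    intro ξ
    rw [← ex_nat_mul]
    congr 1
    ring
  simp_rw [h1]
  split_ifs with h
  · rw [(ex_eq_one_iff hN k).2 h]
    simp
  · have hne : ex (k / N) ≠ 1 := fun h' => h ((ex_eq_one_iff hN k).1 h')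
    rw [geom_sum_eq hne]
    have h2 : ex (k / N) ^ N = 1 := by
      rw [← ex_nat_mul]
      have h3 : ((N : ℝ) * ((k : ℝ) / N)) = ((k : ℤ) : ℝ) := by
        have : (N : ℝ) ≠ 0 := by exact_mod_cast hN.ne'
        field_simp
      rw [h3]
      exact ex_int k
    rw [h2, sub_self, zero_div]

/-- the progression sum as a sum over the window -/
lemma prog (z x q V u : ℕ) (hq : 1 ≤ q) :
    ∑ i ∈ Icc 1 V, fz z x ((u : ℤ) + (q : ℤ) * i) =
      ∑ n ∈ (Ioc u (u + q * V)).filter (fun n => n ≤ 2 * x), (if (q : ℤ) ∣ ((n : ℤ) - u) then ff z n else 0) := by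
  have h1 : ∑ n ∈ (Ioc u (u + q * V)).filter (fun n => n ≤ 2 * x), (if (q : ℤ) ∣ ((n : ℤ) - u) then ff z n else 0) =
      ∑ n ∈ (Ioc u (u + q * V)).filter (fun n : ℕ => (q : ℤ) ∣ ((n : ℤ) - (u : ℤ))), fz z x (n : ℤ) := by
    rw [Finset.sum_filter, Finset.sum_filter]
    refine Finset.sum_congr rfl fun n hn => ?_
    rw [Finset.mem_Ioc] at hn
    unfold fz
    by_cases h1 : n ≤ 2 * x
    · rw [if_pos h1]
      by_cases h2 : (q : ℤ) ∣ ((n : ℤ) - u)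
      · rw [if_pos h2, if_pos h2, if_pos ⟨by omega, by exact_mod_cast h1⟩, Int.toNat_natCast]
      · rw [if_neg h2, if_neg h2]
    · rw [if_neg h1]
      have h3 : ¬ (1 ≤ (n : ℤ) ∧ (n : ℤ) ≤ 2 * (x : ℤ)) := by
        rintro ⟨-, h⟩
        apply h1
        exact_mod_cast h
      rw [if_neg h3]
      split_ifs <;> rfl
  rw [h1]
  refine Finset.sum_bij (fun i _ => u + q * i) ?_ ?_ ?_ ?_
  · intro i hi
    rw [Finset.mem_Icc] at hi
    rw [Finset.mem_filter, Finset.mem_Ioc]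
    refine ⟨⟨?_, ?_⟩, ⟨(i : ℤ), by push_cast; ring⟩⟩
    · have : 0 < q * i := Nat.mul_pos hq hi.1
      omega
    · exact Nat.add_le_add_left (Nat.mul_le_mul_left q hi.2) u
  · intro i _ j _ h
    have h2 : q * i = q * j := by omega
    exact Nat.eq_of_mul_eq_mul_left hq h2
  · intro n hn
    rw [Finset.mem_filter, Finset.mem_Ioc] at hn
    obtain ⟨⟨h2, h3⟩, h4⟩ := hn
    have h5 : q ∣ n - u := by
      have h6 : ((n - u : ℕ) : ℤ) = (n : ℤ) - u := by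
        rw [Nat.cast_sub h2.le]
      rw [← h6] at h4
      exact_mod_cast h4
    obtain ⟨i, hi⟩ := h5
    refine ⟨i, ?_, by omega⟩
    rw [Finset.mem_Icc]
    constructor
    · rcases Nat.eq_zero_or_pos i with h | h
      · rw [h, mul_zero] at hi
        omega
      · exact h
    · have h6 : q * i ≤ q * V := by omega
      exact Nat.le_of_mul_le_mul_left h6 hq
  · intro i _
    congr 1

lemma main_id (z x q V u : ℕ) (hq : 1 ≤ q) :
    (q : ℂ) * ((∑ i ∈ Icc 1 V, fz z x ((u : ℤ) + (q : ℤ) * i) : ℝ) : ℂ) =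
      ∑ a ∈ range q, ex (-(u * ((a : ℝ) / q))) *
        ∑ n ∈ (Ioc u (u + q * V)).filter (fun n => n ≤ 2 * x), (ff z n : ℂ) * ex (n * ((a : ℝ) / q)) := by
  rw [prog z x q V u hq]
  have h1 : ∀ a ∈ range q, ex (-(u * ((a : ℝ) / q))) *
        ∑ n ∈ (Ioc u (u + q * V)).filter (fun n => n ≤ 2 * x), (ff z n : ℂ) * ex (n * ((a : ℝ) / q)) =
      ∑ n ∈ (Ioc u (u + q * V)).filter (fun n => n ≤ 2 * x), (ff z n : ℂ) * ex ((((n : ℤ) - u : ℤ) : ℝ) * ((a : ℝ) / q)) := by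
    intro a _
    rw [Finset.mul_sum]
    refine Finset.sum_congr rfl fun n _ => ?_
    have h2 : (((n : ℤ) - u : ℤ) : ℝ) * ((a : ℝ) / q) = -(u * ((a : ℝ) / q)) + n * ((a : ℝ) / q) := by
      push_cast
      ring
    rw [h2, ex_add]
    ring
  rw [Finset.sum_congr rfl h1, Finset.sum_comm, Complex.ofReal_sum, Finset.mul_sum]
  refine Finset.sum_congr rfl fun n _ => ?_
  rw [← Finset.mul_sum, sum_exq hq]
  split_ifs
  · ring
  · simp

end APAux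

open APAux

theorem ap_ms (x B z : ℕ) (W Z : ℝ) (hSI : SI x B z W Z) (q V : ℕ) (hq : 1 ≤ q) (hV : W ≤ ((q * V : ℕ) : ℝ))
    (hV2 : ((q * V : ℕ) : ℝ) ≤ Z) :
    ∑ u ∈ Icc (0 : ℤ) (2 * x), (∑ i ∈ Icc 1 V, fz z x (u + (q : ℤ) * i)) ^ 2 ≤
      x * ((q : ℝ) * V) ^ 2 / Real.log x ^ B := by
  have hq0 : (0 : ℝ) < q := by exact_mod_cast hq
  have e0 : ∑ u ∈ Icc (0 : ℤ) (2 * x), (∑ i ∈ Icc 1 V, fz z x (u + (q : ℤ) * i)) ^ 2 =
      ∑ u ∈ range (2 * x + 1), (∑ i ∈ Icc 1 V, fz z x ((u : ℤ) + (q : ℤ) * i)) ^ 2 := by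
    symm
    refine Finset.sum_bij (fun (u : ℕ) _ => (u : ℤ)) ?_ ?_ ?_ ?_
    · intro u hu
      rw [Finset.mem_range] at hu
      rw [Finset.mem_Icc]
      constructor
      · exact Int.natCast_nonneg u
      · have : u ≤ 2 * x := by omega
        exact_mod_cast this
    · intro a _ b _ h
      exact_mod_cast h
    · intro u hu
      rw [Finset.mem_Icc] at hu
      refine ⟨u.toNat, ?_, by omega⟩
      rw [Finset.mem_range]
      omega
    · intro u _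
      rfl
  rw [e0]
  set E : ℕ → ℕ → ℂ := fun a u =>
    ∑ n ∈ (Ioc u (u + q * V)).filter (fun n => n ≤ 2 * x), (ff z n : ℂ) * ex (n * ((a : ℝ) / q)) with hE
  have h1 : ∀ u ∈ range (2 * x + 1), (∑ i ∈ Icc 1 V, fz z x ((u : ℤ) + (q : ℤ) * i)) ^ 2 ≤
      1 / (q : ℝ) * ∑ a ∈ range q, ‖E a u‖ ^ 2 := by
    intro u _
    obtain ⟨S, hS⟩ : ∃ S, S = ∑ i ∈ Icc 1 V, fz z x ((u : ℤ) + (q : ℤ) * i) := ⟨_, rfl⟩
    rw [← hS]
    have h2 := main_id z x q V u hq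
    rw [← hS] at h2
    have h3 : (q : ℝ) * |S| ≤ ∑ a ∈ range q, ‖E a u‖ := by
      have h4 : ‖(q : ℂ) * ((S : ℝ) : ℂ)‖ = (q : ℝ) * |S| := by
        rw [norm_mul, Complex.norm_real, Complex.norm_natCast, Real.norm_eq_abs]
      rw [← h4, h2]
      refine (norm_sum_le _ _).trans (le_of_eq ?_)
      refine Finset.sum_congr rfl fun a _ => ?_
      rw [norm_mul, norm_ex, one_mul]
    have h4 : (∑ a ∈ range q, ‖E a u‖) ^ 2 ≤ (q : ℝ) * ∑ a ∈ range q, ‖E a u‖ ^ 2 := by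
      have h5 := sq_sum_le_card_mul_sum_sq (s := range q) (f := fun a => ‖E a u‖)
      rwa [Finset.card_range] at h5
    have h5 : ((q : ℝ) * |S|) ^ 2 ≤ (q : ℝ) * ∑ a ∈ range q, ‖E a u‖ ^ 2 :=
      (pow_le_pow_left₀ (by positivity) h3 2).trans h4
    rw [mul_pow, sq_abs] at h5
    rw [one_div, ← div_eq_inv_mul, le_div_iff₀ hq0]
    have h6 : (q : ℝ) * (S ^ 2 * q) ≤ (q : ℝ) * ∑ a ∈ range q, ‖E a u‖ ^ 2 := by
      calc (q : ℝ) * (S ^ 2 * q) = (q : ℝ) ^ 2 * S ^ 2 := by ring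
        _ ≤ _ := h5
    exact le_of_mul_le_mul_left h6 hq0
  refine (Finset.sum_le_sum h1).trans ?_
  rw [← Finset.mul_sum, Finset.sum_comm]
  have h2 : ∀ a ∈ range q, ∑ u ∈ range (2 * x + 1), ‖E a u‖ ^ 2 ≤ x * ((q * V : ℕ) : ℝ) ^ 2 / Real.log x ^ B := by
    intro a _
    exact hSI (q * V) ((a : ℝ) / q) hV hV2
  calc 1 / (q : ℝ) * ∑ a ∈ range q, ∑ u ∈ range (2 * x + 1), ‖E a u‖ ^ 2 ≤
      1 / (q : ℝ) * ∑ _a ∈ range q, (x * ((q * V : ℕ) : ℝ) ^ 2 / Real.log x ^ B : ℝ) :=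
        mul_le_mul_of_nonneg_left (Finset.sum_le_sum h2) (by positivity)
    _ = x * ((q : ℝ) * V) ^ 2 / Real.log x ^ B := by
        rw [Finset.sum_const, Finset.card_range, nsmul_eq_mul]
        push_cast
        field_simp

end Pool.Agent.SSQ
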