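import Mathlib

/-!
MODULE SSQ.All (pure, Mathlib only).  From pairs `d ≠ d'` in short blocks to all `d ∈ (D, 2D]`.

`blk D D0 b` are the `d ∈ (D, 2D]` in `(D + b D0, D + (b+1) D0]`.  `g d k h` is any function with `|g| ≤ F`.
PROOF of `all_bound`.  For one block: expand the square, `∑_(k,h) (∑ d ∈ blk, g d k h)² = ∑ d ∑ d' ∑_(k,h) g d k h * g d' k h`;
the diagonal gives at most `D0 K H F²`, each of the at most `D0²` pairs `d ≠ d'` at most `P` (use `hP` for `d < d'`, and symmetry).  Sum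
over the `D / D0 + 1 ≤ 2 D / D0` blocks and Cauchy: `(∑ b |S b|)² ≤ (D / D0 + 1) ∑ b (S b)²`, so the total is at most
`(2 D / D0)² (D0 K H F² + D0² P) = 4 D² (K H F² / D0 + P)`.
`part_bound`: a partial sum `D < d ≤ y` is a sum of full blocks and at most `D0` further terms.
-/

set_option autoImplicit false

open Finset

namespace Pool.Agent.SSQ

/-- the block `b` -/
def blk (D D0 b : ℕ) : Finset ℕ := (Ioc D (2 * D)).filter (fun d => D + b * D0 < d ∧ d ≤ D + (b + 1) * D0)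

namespace AllAux

lemma card_blk (D D0 b : ℕ) : (blk D D0 b).card ≤ D0 := by
  have h : blk D D0 b ⊆ Ioc (D + b * D0) (D + b * D0 + D0) := by
    intro d hd
    simp only [blk, mem_filter, mem_Ioc] at hd
    rw [mem_Ioc]
    refine ⟨hd.2.1, ?_⟩
    have := hd.2.2
    rw [add_mul, one_mul, ← add_assoc] at this
    exact this
  calc (blk D D0 b).card ≤ (Ioc (D + b * D0) (D + b * D0 + D0)).card := card_le_card h
    _ = D0 := by rw [Nat.card_Ioc]; omega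

lemma blk_close {D D0 b d d' : ℕ} (hd : d ∈ blk D D0 b) (hd' : d' ∈ blk D D0 b) :
    D < d ∧ d' ≤ 2 * D ∧ d' < d + D0 := by
  simp only [blk, mem_filter, mem_Ioc] at hd hd'
  refine ⟨hd.1.1, hd'.1.2, ?_⟩
  have h1 := hd.2.1
  have h2 := hd'.2.2
  rw [add_mul, one_mul, ← add_assoc] at h2
  omega

lemma blk_eq {D D0 b : ℕ} (h : D + (b + 1) * D0 ≤ 2 * D) :
    blk D D0 b = Ioc (D + b * D0) (D + (b + 1) * D0) := by
  ext d
  simp only [blk, mem_filter, mem_Ioc]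
  constructor
  · rintro ⟨_, h1⟩
    exact h1
  · rintro ⟨h1, h2⟩
    exact ⟨⟨by omega, by omega⟩, h1, h2⟩

lemma sum_blocks (g : ℕ → ℝ) (D D0 : ℕ) : ∀ m : ℕ, D + m * D0 ≤ 2 * D →
    ∑ d ∈ Ioc D (D + m * D0), g d = ∑ b ∈ range m, ∑ d ∈ blk D D0 b, g d := by
  intro m
  induction m with
  | zero => intro _; simp
  | succ m ih =>
    intro h
    have hm : m * D0 ≤ (m + 1) * D0 := Nat.mul_le_mul_right _ (Nat.le_succ m)
    rw [sum_range_succ, ← ih (by omega), blk_eq h]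
    exact (sum_Ioc_consecutive g (by omega) (by omega)).symm

lemma block_bound (g : ℕ → ℕ → ℤ → ℝ) (F P : ℝ) (hF : ∀ d k h, |g d k h| ≤ F) (hP0 : 0 ≤ P)
    (K H D D0 : ℕ) (h₀ : ℤ)
    (hP : ∀ d d' : ℕ, D < d → d < d' → d' ≤ 2 * D → d' < d + D0 →
      |∑ k ∈ Ioc K (2 * K), ∑ h ∈ Ioc h₀ (h₀ + H), g d k h * g d' k h| ≤ P) (b : ℕ) :
    ∑ k ∈ Ioc K (2 * K), ∑ h ∈ Ioc h₀ (h₀ + H), (∑ d ∈ blk D D0 b, g d k h) ^ 2 ≤
      (D0 : ℝ) * ((K : ℝ) * H * F ^ 2) + (D0 : ℝ) ^ 2 * P := by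
  set G : ℕ → ℕ → ℝ := fun d d' =>
    ∑ k ∈ Ioc K (2 * K), ∑ h ∈ Ioc h₀ (h₀ + H), g d k h * g d' k h with hG
  have hGsymm : ∀ d d', G d d' = G d' d := by
    intro d d'
    simp only [hG]
    refine sum_congr rfl fun k _ => sum_congr rfl fun h _ => mul_comm _ _
  have hdiag : ∀ d, G d d ≤ (K : ℝ) * H * F ^ 2 := by
    intro d
    have h1 : ∀ k h, g d k h * g d k h ≤ F ^ 2 := by
      intro k h
      have := hF d k h
      rw [← sq, ← sq_abs]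
      exact pow_le_pow_left₀ (abs_nonneg _) this 2
    calc G d d ≤ ∑ k ∈ Ioc K (2 * K), ∑ h ∈ Ioc h₀ (h₀ + (H : ℤ)), F ^ 2 :=
          sum_le_sum fun k _ => sum_le_sum fun h _ => h1 k h
      _ = (K : ℝ) * H * F ^ 2 := by
          simp only [sum_const, Nat.card_Ioc, Int.card_Ioc, nsmul_eq_mul]
          have e1 : 2 * K - K = K := by omega
          have e2 : (h₀ + (H : ℤ) - h₀).toNat = H := by omega
          rw [e1, e2]
          ring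
  have hoff : ∀ d ∈ blk D D0 b, ∀ d' ∈ blk D D0 b, d ≠ d' → G d d' ≤ P := by
    intro d hd d' hd' hne
    rcases lt_or_gt_of_ne hne with hlt | hgt
    · obtain ⟨h1, h2, h3⟩ := blk_close hd hd'
      exact (le_abs_self _).trans (hP d d' h1 hlt h2 h3)
    · obtain ⟨h1, h2, h3⟩ := blk_close hd' hd
      rw [hGsymm]
      exact (le_abs_self _).trans (hP d' d h1 hgt h2 h3)
  have hexp : ∑ k ∈ Ioc K (2 * K), ∑ h ∈ Ioc h₀ (h₀ + (H : ℤ)), (∑ d ∈ blk D D0 b, g d k h) ^ 2 =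
      ∑ d ∈ blk D D0 b, ∑ d' ∈ blk D D0 b, G d d' := by
    have e1 : ∀ k h, (∑ d ∈ blk D D0 b, g d k h) ^ 2 =
        ∑ d ∈ blk D D0 b, ∑ d' ∈ blk D D0 b, g d k h * g d' k h := by
      intro k h
      rw [sq, sum_mul_sum]
    simp only [e1, hG]
    calc ∑ k ∈ Ioc K (2 * K), ∑ h ∈ Ioc h₀ (h₀ + (H : ℤ)), ∑ d ∈ blk D D0 b,
          ∑ d' ∈ blk D D0 b, g d k h * g d' k h
        = ∑ k ∈ Ioc K (2 * K), ∑ d ∈ blk D D0 b, ∑ h ∈ Ioc h₀ (h₀ + (H : ℤ)),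
          ∑ d' ∈ blk D D0 b, g d k h * g d' k h := sum_congr rfl fun k _ => sum_comm
      _ = ∑ d ∈ blk D D0 b, ∑ k ∈ Ioc K (2 * K), ∑ h ∈ Ioc h₀ (h₀ + (H : ℤ)),
          ∑ d' ∈ blk D D0 b, g d k h * g d' k h := sum_comm
      _ = ∑ d ∈ blk D D0 b, ∑ k ∈ Ioc K (2 * K), ∑ d' ∈ blk D D0 b,
          ∑ h ∈ Ioc h₀ (h₀ + (H : ℤ)), g d k h * g d' k h :=
          sum_congr rfl fun d _ => sum_congr rfl fun k _ => sum_comm
      _ = ∑ d ∈ blk D D0 b, ∑ d' ∈ blk D D0 b, ∑ k ∈ Ioc K (2 * K),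
          ∑ h ∈ Ioc h₀ (h₀ + (H : ℤ)), g d k h * g d' k h :=
          sum_congr rfl fun d _ => sum_comm
  rw [hexp]
  set Q : ℝ := (K : ℝ) * H * F ^ 2 with hQ
  have hQ0 : 0 ≤ Q := by positivity
  have hcard : ((blk D D0 b).card : ℝ) ≤ D0 := by exact_mod_cast card_blk D D0 b
  calc ∑ d ∈ blk D D0 b, ∑ d' ∈ blk D D0 b, G d d'
      ≤ ∑ d ∈ blk D D0 b, ∑ d' ∈ blk D D0 b, ((if d' = d then Q else 0) + P) := by
        refine sum_le_sum fun d hd => sum_le_sum fun d' hd' => ?_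
        by_cases h : d' = d
        · subst h
          rw [if_pos rfl]
          have := hdiag d'
          linarith
        · rw [if_neg h, zero_add]
          exact hoff d hd d' hd' (Ne.symm h)
    _ = ∑ d ∈ blk D D0 b, (Q + (blk D D0 b).card * P) := by
        refine sum_congr rfl fun d hd => ?_
        rw [sum_add_distrib, sum_ite_eq' , if_pos hd, sum_const, nsmul_eq_mul]
    _ = (blk D D0 b).card * (Q + (blk D D0 b).card * P) := by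
        rw [sum_const, nsmul_eq_mul]
    _ ≤ (D0 : ℝ) * (Q + D0 * P) := by
        have h0 : (0 : ℝ) ≤ (blk D D0 b).card := Nat.cast_nonneg _
        refine mul_le_mul hcard ?_ (by positivity) (by positivity)
        have := mul_le_mul_of_nonneg_right hcard hP0
        linarith
    _ = (D0 : ℝ) * Q + (D0 : ℝ) ^ 2 * P := by ring

end AllAux

theorem all_bound (g : ℕ → ℕ → ℤ → ℝ) (F P : ℝ) (hF : ∀ d k h, |g d k h| ≤ F) (hP0 : 0 ≤ P) (K H D D0 : ℕ) (h₀ : ℤ)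
    (hD0 : 1 ≤ D0) (hD : D0 ≤ D)
    (hP : ∀ d d' : ℕ, D < d → d < d' → d' ≤ 2 * D → d' < d + D0 →
      |∑ k ∈ Ioc K (2 * K), ∑ h ∈ Ioc h₀ (h₀ + H), g d k h * g d' k h| ≤ P) :
    ∑ k ∈ Ioc K (2 * K), ∑ h ∈ Ioc h₀ (h₀ + H), (∑ b ∈ range (D / D0 + 1), |∑ d ∈ blk D D0 b, g d k h|) ^ 2 ≤
      4 * (D : ℝ) ^ 2 * ((K : ℝ) * H * F ^ 2 / D0 + P) := by
  set n : ℕ := D / D0 + 1 with hn
  set Q : ℝ := (K : ℝ) * H * F ^ 2 with hQ
  have hQ0 : 0 ≤ Q := by positivity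
  have hD0r : (0 : ℝ) < D0 := by exact_mod_cast hD0
  have hDr : (D0 : ℝ) ≤ D := by exact_mod_cast hD
  have hnle : (n : ℝ) ≤ 2 * D / D0 := by
    have h1 : ((D / D0 : ℕ) : ℝ) ≤ (D : ℝ) / D0 := Nat.cast_div_le
    have h2 : (1 : ℝ) ≤ (D : ℝ) / D0 := by rw [le_div_iff₀ hD0r]; linarith
    rw [hn]
    push_cast
    have h3 : (2 : ℝ) * D / D0 = D / D0 + D / D0 := by ring
    rw [h3]
    linarith
  have hn0 : (0 : ℝ) ≤ n := Nat.cast_nonneg _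
  have hcs : ∀ k h, (∑ b ∈ range n, |∑ d ∈ blk D D0 b, g d k h|) ^ 2 ≤
      (n : ℝ) * ∑ b ∈ range n, (∑ d ∈ blk D D0 b, g d k h) ^ 2 := by
    intro k h
    have := sq_sum_le_card_mul_sum_sq (s := range n) (f := fun b => |∑ d ∈ blk D D0 b, g d k h|)
    simpa only [card_range, sq_abs] using this
  calc ∑ k ∈ Ioc K (2 * K), ∑ h ∈ Ioc h₀ (h₀ + (H : ℤ)),
        (∑ b ∈ range n, |∑ d ∈ blk D D0 b, g d k h|) ^ 2
      ≤ ∑ k ∈ Ioc K (2 * K), ∑ h ∈ Ioc h₀ (h₀ + (H : ℤ)),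
        (n : ℝ) * ∑ b ∈ range n, (∑ d ∈ blk D D0 b, g d k h) ^ 2 :=
        sum_le_sum fun k _ => sum_le_sum fun h _ => hcs k h
    _ = (n : ℝ) * ∑ b ∈ range n, ∑ k ∈ Ioc K (2 * K), ∑ h ∈ Ioc h₀ (h₀ + (H : ℤ)),
        (∑ d ∈ blk D D0 b, g d k h) ^ 2 := by
        simp only [← mul_sum]
        congr 1
        calc ∑ k ∈ Ioc K (2 * K), ∑ h ∈ Ioc h₀ (h₀ + (H : ℤ)), ∑ b ∈ range n,
              (∑ d ∈ blk D D0 b, g d k h) ^ 2
            = ∑ k ∈ Ioc K (2 * K), ∑ b ∈ range n, ∑ h ∈ Ioc h₀ (h₀ + (H : ℤ)),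
              (∑ d ∈ blk D D0 b, g d k h) ^ 2 := sum_congr rfl fun k _ => sum_comm
          _ = _ := sum_comm
    _ ≤ (n : ℝ) * ∑ b ∈ range n, ((D0 : ℝ) * Q + (D0 : ℝ) ^ 2 * P) := by
        refine mul_le_mul_of_nonneg_left ?_ hn0
        exact sum_le_sum fun b _ => AllAux.block_bound g F P hF hP0 K H D D0 h₀ hP b
    _ = (n : ℝ) ^ 2 * ((D0 : ℝ) * Q + (D0 : ℝ) ^ 2 * P) := by
        rw [sum_const, card_range, nsmul_eq_mul]
        ring
    _ ≤ (2 * D / D0 : ℝ) ^ 2 * ((D0 : ℝ) * Q + (D0 : ℝ) ^ 2 * P) := by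
        refine mul_le_mul_of_nonneg_right ?_ (by positivity)
        exact pow_le_pow_left₀ hn0 hnle 2
    _ = 4 * (D : ℝ) ^ 2 * (Q / D0 + P) := by
        field_simp
        ring

theorem part_bound (g : ℕ → ℝ) (F : ℝ) (hF : ∀ d, |g d| ≤ F) (D D0 y : ℕ) (hD0 : 1 ≤ D0) (hy1 : D ≤ y) (hy2 : y ≤ 2 * D) :
    |∑ d ∈ Ioc D y, g d| ≤ (∑ b ∈ range (D / D0 + 1), |∑ d ∈ blk D D0 b, g d|) + D0 * F := by
  set q : ℕ := (y - D) / D0 with hq
  have hqD : q * D0 ≤ y - D := Nat.div_mul_le_self _ _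
  have hrem : y - D < q * D0 + D0 := by
    have := Nat.lt_div_mul_add (a := y - D) (b := D0) hD0
    rw [← hq] at this
    exact this
  have hF0 : 0 ≤ F := (abs_nonneg _).trans (hF 0)
  have hqle : q ≤ D / D0 := Nat.div_le_div_right (by omega)
  have hsplit : ∑ d ∈ Ioc D y, g d =
      ∑ b ∈ range q, ∑ d ∈ blk D D0 b, g d + ∑ d ∈ Ioc (D + q * D0) y, g d := by
    rw [← AllAux.sum_blocks g D D0 q (by omega)]
    exact (sum_Ioc_consecutive g (by omega) (by omega)).symm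
  rw [hsplit]
  have h1 : |∑ b ∈ range q, ∑ d ∈ blk D D0 b, g d| ≤
      ∑ b ∈ range (D / D0 + 1), |∑ d ∈ blk D D0 b, g d| := by
    calc |∑ b ∈ range q, ∑ d ∈ blk D D0 b, g d| ≤ ∑ b ∈ range q, |∑ d ∈ blk D D0 b, g d| :=
          abs_sum_le_sum_abs _ _
      _ ≤ _ := by
          refine sum_le_sum_of_subset_of_nonneg ?_ fun _ _ _ => abs_nonneg _
          exact range_subset_range.2 (by omega)
  have h2 : |∑ d ∈ Ioc (D + q * D0) y, g d| ≤ D0 * F := by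
    calc |∑ d ∈ Ioc (D + q * D0) y, g d| ≤ ∑ d ∈ Ioc (D + q * D0) y, |g d| :=
          abs_sum_le_sum_abs _ _
      _ ≤ ∑ d ∈ Ioc (D + q * D0) y, F := sum_le_sum fun d _ => hF d
      _ = ((y - (D + q * D0) : ℕ) : ℝ) * F := by rw [sum_const, Nat.card_Ioc, nsmul_eq_mul]
      _ ≤ D0 * F := by
          refine mul_le_mul_of_nonneg_right ?_ hF0
          exact_mod_cast (by omega : y - (D + q * D0) ≤ D0)
  exact (abs_add_le _ _).trans (add_le_add h1 h2)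

end Pool.Agent.SSQ
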