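import Mathlib

/-!
Module AvG: the average of the factors `∏ (1 - 1 / p)⁻¹` over the primes `p > w` which divide `φ j`.
-/

set_option autoImplicit false

namespace Pool.Agent.SSQ

namespace AvGAux

open Finset

theorem stepR (a : ℝ) (ha : 2 ≤ a) :
    (1 + ((1 - 1 / a)⁻¹ - 1) / a) * (1 + 2 / a) ≤ 1 + 2 / (a - 1) := by
  have h0 : 0 < a := by linarith
  have h1 : 0 < a - 1 := by linarith
  have h2 : (1 - 1 / a)⁻¹ = a / (a - 1) := by
    rw [one_sub_div h0.ne', inv_div]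
  have h3 : (1 + ((1 - 1 / a)⁻¹ - 1) / a) * (1 + 2 / a) =
      1 + 2 / (a - 1) - (a - 2) / (a ^ 2 * (a - 1)) := by
    rw [h2]
    field_simp
    ring
  rw [h3]
  have h4 : 0 ≤ (a - 2) / (a ^ 2 * (a - 1)) := by
    apply div_nonneg (by linarith) (by positivity)
  linarith

theorem bnn (p : ℕ) (hp : 2 ≤ p) : 0 ≤ (1 - 1 / (p : ℝ))⁻¹ - 1 := by
  have h0 : (2 : ℝ) ≤ p := by exact_mod_cast hp
  have h1 : (0 : ℝ) < (p : ℝ) - 1 := by linarith
  have h2 : (1 - 1 / (p : ℝ))⁻¹ - 1 = 1 / ((p : ℝ) - 1) := by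
    rw [one_sub_div (by linarith), inv_div]
    field_simp
    ring
  rw [h2]
  positivity

theorem prod_le (P : Finset ℕ) : ∀ w : ℕ, 1 ≤ w → (∀ p ∈ P, w < p) →
    ∏ p ∈ P, (1 + ((1 - 1 / (p : ℝ))⁻¹ - 1) / (p : ℝ)) ≤ 1 + 2 / (w : ℝ) := by
  induction P using Finset.induction_on_min with
  | empty =>
    intro w hw _
    rw [prod_empty]
    have : (0 : ℝ) ≤ 2 / (w : ℝ) := by positivity
    linarith
  | insert a s hlt ih =>
    intro w hw hP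
    have ha : a ∉ s := fun h => lt_irrefl a (hlt a h)
    have hwa : w < a := hP a (mem_insert_self a s)
    rw [prod_insert ha]
    have h1 := ih a (by omega) hlt
    have ha2 : (2 : ℝ) ≤ a := by
      have : 2 ≤ a := by omega
      exact_mod_cast this
    have h2 : 0 ≤ 1 + ((1 - 1 / (a : ℝ))⁻¹ - 1) / (a : ℝ) := by
      have := bnn a (by omega)
      positivity
    have h3 : (w : ℝ) ≤ (a : ℝ) - 1 := by
      have : (w : ℝ) + 1 ≤ a := by exact_mod_cast hwa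
      linarith
    have hw0 : (0 : ℝ) < w := by exact_mod_cast hw
    calc (1 + ((1 - 1 / (a : ℝ))⁻¹ - 1) / (a : ℝ)) *
          ∏ p ∈ s, (1 + ((1 - 1 / (p : ℝ))⁻¹ - 1) / (p : ℝ))
        ≤ (1 + ((1 - 1 / (a : ℝ))⁻¹ - 1) / (a : ℝ)) * (1 + 2 / (a : ℝ)) :=
          mul_le_mul_of_nonneg_left h1 h2
      _ ≤ 1 + 2 / ((a : ℝ) - 1) := stepR a ha2
      _ ≤ 1 + 2 / (w : ℝ) := by
          have : 2 / ((a : ℝ) - 1) ≤ 2 / (w : ℝ) := div_le_div_of_nonneg_left (by norm_num) hw0 h3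
          linarith

theorem dvd_iff (S : Finset ℕ) (hS : ∀ p ∈ S, p.Prime) (n : ℕ) :
    (∏ p ∈ S, p) ∣ n ↔ ∀ p ∈ S, p ∣ n := by
  constructor
  · intro h p hp
    exact (dvd_prod_of_mem (fun p => p) hp).trans h
  · intro h
    exact Finset.prod_primes_dvd n (fun p hp => (hS p hp).prime) h

end AvGAux

open Finset AvGAux in
theorem avgG {ι : Type*} [DecidableEq ι] (P : Finset ℕ) (w : ℕ) (hw1 : 1 ≤ w)
    (hP : ∀ p ∈ P, p.Prime ∧ w < p) (J : Finset ι) (φ : ι → ℕ)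
    (N E : ℝ) (hN : 0 ≤ N) (hE : 0 ≤ E)
    (hcount : ∀ S ⊆ P, ((J.filter (fun j => (∏ p ∈ S, p) ∣ φ j)).card : ℝ) ≤
      N / (∏ p ∈ S, (p : ℝ)) + E) :
    ∑ j ∈ J, ∏ p ∈ P.filter (fun p => p ∣ φ j), (1 - 1 / (p : ℝ))⁻¹ ≤
      N * (1 + 2 / w) + E * ∏ p ∈ P, (1 - 1 / (p : ℝ))⁻¹ := by
  have _ := hE
  obtain ⟨b, hb⟩ : ∃ b : ℕ → ℝ, b = fun p : ℕ => (1 - 1 / (p : ℝ))⁻¹ - 1 := ⟨_, rfl⟩
  have hb0 : ∀ p ∈ P, 0 ≤ b p := by
    intro p hp
    rw [hb]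
    exact bnn p (hP p hp).1.two_le
  have h1b : ∀ p : ℕ, (1 - 1 / (p : ℝ))⁻¹ = 1 + b p := by
    intro p
    rw [hb]
    ring
  have hS0 : ∀ S ⊆ P, 0 ≤ ∏ p ∈ S, b p := fun S hS => prod_nonneg fun p hp => hb0 p (hS hp)
  have hexp : ∀ j, ∏ p ∈ P.filter (fun p => p ∣ φ j), (1 - 1 / (p : ℝ))⁻¹ =
      ∑ S ∈ P.powerset, if (∏ p ∈ S, p) ∣ φ j then ∏ p ∈ S, b p else 0 := by
    intro j
    simp only [h1b]
    rw [Finset.prod_one_add, ← sum_filter]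
    apply sum_congr _ (fun _ _ => rfl)
    ext S
    rw [mem_powerset, mem_filter, mem_powerset]
    constructor
    · intro h
      have h2 : S ⊆ P := h.trans (filter_subset _ _)
      refine ⟨h2, (dvd_iff S (fun p hp => (hP p (h2 hp)).1) _).2 ?_⟩
      intro p hp
      exact (mem_filter.1 (h hp)).2
    · rintro ⟨h2, h3⟩ p hp
      rw [mem_filter]
      exact ⟨h2 hp, (dvd_iff S (fun p hp => (hP p (h2 hp)).1) _).1 h3 p hp⟩
  calc ∑ j ∈ J, ∏ p ∈ P.filter (fun p => p ∣ φ j), (1 - 1 / (p : ℝ))⁻¹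
      = ∑ j ∈ J, ∑ S ∈ P.powerset, if (∏ p ∈ S, p) ∣ φ j then ∏ p ∈ S, b p else 0 :=
        sum_congr rfl fun j _ => hexp j
    _ = ∑ S ∈ P.powerset, ∑ j ∈ J, if (∏ p ∈ S, p) ∣ φ j then ∏ p ∈ S, b p else 0 := sum_comm
    _ = ∑ S ∈ P.powerset, ((J.filter (fun j => (∏ p ∈ S, p) ∣ φ j)).card : ℝ) * ∏ p ∈ S, b p := by
        apply sum_congr rfl
        intro S _
        rw [← sum_filter, sum_const, nsmul_eq_mul]
    _ ≤ ∑ S ∈ P.powerset, (N / (∏ p ∈ S, (p : ℝ)) + E) * ∏ p ∈ S, b p := by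
        apply sum_le_sum
        intro S hS
        rw [mem_powerset] at hS
        exact mul_le_mul_of_nonneg_right (hcount S hS) (hS0 S hS)
    _ = N * ∑ S ∈ P.powerset, ∏ p ∈ S, (b p / p) + E * ∑ S ∈ P.powerset, ∏ p ∈ S, b p := by
        rw [mul_sum, mul_sum, ← sum_add_distrib]
        apply sum_congr rfl
        intro S _
        rw [prod_div_distrib]
        ring
    _ = N * ∏ p ∈ P, (1 + b p / p) + E * ∏ p ∈ P, (1 + b p) := by
        rw [Finset.prod_one_add, Finset.prod_one_add]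
    _ ≤ N * (1 + 2 / w) + E * ∏ p ∈ P, (1 - 1 / (p : ℝ))⁻¹ := by
        have h4 := prod_le P w hw1 (fun p hp => (hP p hp).2)
        have h5 : ∏ p ∈ P, (1 + b p / p) ≤ 1 + 2 / (w : ℝ) := by
          rw [hb]
          exact h4
        have h6 : ∏ p ∈ P, (1 + b p) = ∏ p ∈ P, (1 - 1 / (p : ℝ))⁻¹ :=
          prod_congr rfl fun p _ => (h1b p).symm
        rw [h6]
        have h7 := mul_le_mul_of_nonneg_left h5 hN
        linarith

end Pool.Agent.SSQ
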