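import Pool.Agent.Lib.SSQ.Final

/-!
# One dyadic block of differences
-/

set_option autoImplicit false

open Finset Filter

namespace Pool.Agent.SSQ

open Pool.Agent.HLB Pool.Agent.HLT Pool.Agent.HLU Pool.Agent.SQP

/-- facts on the parameters, for large `K` -/
lemma ev_par (ε : ℝ) (hε : 0 < ε) (x₀ : ℕ) : ∀ᶠ K : ℕ in atTop, ∀ D H : ℕ, Real.exp (Real.log (Real.log K) ^ 4) ≤ D →
    (D : ℝ) * ((D : ℝ) * K) ^ (1 / 6 + ε) ≤ H → H ≤ K →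
    x₀ ≤ 5 * D * K ∧ 1 ≤ K ∧ 3 ≤ D ∧ 4 * D ≤ K ∧ Real.log K ≤ Real.log ((5 * D * K : ℕ) : ℝ) ∧
      Real.log ((5 * D * K : ℕ) : ℝ) ≤ 3 * Real.log K ∧
      Real.exp (Real.log (Real.log ((5 * D * K : ℕ) : ℝ)) ^ 3) ≤ D := by
  have e1 : ∀ᶠ K : ℕ in atTop, (4 : ℝ) ≤ (K : ℝ) ^ (1 / 6 : ℝ) :=
    ((tendsto_rpow_atTop (by norm_num : (0 : ℝ) < 1 / 6)).comp tendsto_natCast_atTop_atTop).eventually
      (eventually_ge_atTop _)
  have h0 : Tendsto (fun x : ℕ => Real.log (Real.log x)) atTop atTop :=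
    Real.tendsto_log_atTop.comp (Real.tendsto_log_atTop.comp tendsto_natCast_atTop_atTop)
  filter_upwards [e1, h0.eventually (eventually_ge_atTop (4 : ℝ)), ev_L 7, eventually_ge_atTop (max x₀ 5)] with
    K e1 ht hL hK D H hD hDH hHK
  have hK5 : 5 ≤ K := (le_max_right _ _).trans hK
  have hKx : x₀ ≤ K := (le_max_left _ _).trans hK
  have hK0 : (5 : ℝ) ≤ K := by exact_mod_cast hK5
  set t := Real.log (Real.log K) with ht0
  have hD3r : (3 : ℝ) ≤ D := by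
    refine le_trans ?_ hD
    have h1 := Real.add_one_le_exp (t ^ 4)
    have h2 : (4 : ℝ) ^ 4 ≤ t ^ 4 := pow_le_pow_left₀ (by norm_num) ht 4
    norm_num at h2
    linarith
  have hD2r : (2 : ℝ) ≤ D := by linarith
  have hD2 : 3 ≤ D := by exact_mod_cast hD3r
  have hpow : (4 : ℝ) ≤ ((D : ℝ) * K) ^ (1 / 6 + ε) := by
    have h1 : (K : ℝ) ^ (1 / 6 : ℝ) ≤ ((D : ℝ) * K) ^ (1 / 6 : ℝ) :=
      Real.rpow_le_rpow (by linarith) (by nlinarith) (by norm_num)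
    have h2 : ((D : ℝ) * K) ^ (1 / 6 : ℝ) ≤ ((D : ℝ) * K) ^ (1 / 6 + ε) :=
      Real.rpow_le_rpow_of_exponent_le (by nlinarith) (by linarith)
    linarith
  have h4D : (4 : ℝ) * D ≤ K := by
    have h1 : (H : ℝ) ≤ K := by exact_mod_cast hHK
    nlinarith
  have h4Dn : 4 * D ≤ K := by exact_mod_cast h4D
  have hxc : ((5 * D * K : ℕ) : ℝ) = 5 * D * K := by push_cast; ring
  have hlow : (K : ℝ) ≤ ((5 * D * K : ℕ) : ℝ) := by
    rw [hxc]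
    nlinarith
  have hupp : ((5 * D * K : ℕ) : ℝ) ≤ (K : ℝ) ^ 3 := by
    rw [hxc]
    have h1 : (D : ℝ) ≤ K := by linarith
    have h2 : (5 : ℝ) * D * K ≤ K * K * K := by
      have h3 : (5 : ℝ) * D ≤ K * K := mul_le_mul hK0 h1 (by linarith) (by linarith)
      exact mul_le_mul_of_nonneg_right h3 (by linarith)
    nlinarith
  have hl1 : Real.log K ≤ Real.log ((5 * D * K : ℕ) : ℝ) := Real.log_le_log (by linarith) hlow
  have hl2 : Real.log ((5 * D * K : ℕ) : ℝ) ≤ 3 * Real.log K := by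
    have h1 := Real.log_le_log (by linarith) hupp
    rw [Real.log_pow] at h1
    exact_mod_cast h1
  refine ⟨?_, by omega, hD2, h4Dn, hl1, hl2, ?_⟩
  · have h1 : K ≤ 5 * D * K := Nat.le_mul_of_pos_left K (by omega)
    exact hKx.trans h1
  · refine le_trans (Real.exp_le_exp.2 ?_) hD
    have hlog0 : 0 < Real.log ((5 * D * K : ℕ) : ℝ) := by linarith
    have h1 : Real.log (Real.log ((5 * D * K : ℕ) : ℝ)) ≤ t + 2 := by
      have h2 := Real.log_le_log hlog0 hl2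
      rw [Real.log_mul (by norm_num) (by linarith)] at h2
      have h3 : Real.log 3 ≤ 2 := by
        have := Real.log_le_sub_one_of_pos (by norm_num : (0 : ℝ) < 3)
        linarith
      linarith
    have h2 : 0 ≤ Real.log (Real.log ((5 * D * K : ℕ) : ℝ)) := Real.log_nonneg (by linarith)
    calc Real.log (Real.log ((5 * D * K : ℕ) : ℝ)) ^ 3 ≤ (t + 2) ^ 3 := pow_le_pow_left₀ h2 h1 3
      _ ≤ t ^ 4 := by nlinarith [pow_le_pow_left₀ (by norm_num : (0:ℝ) ≤ 4) ht 3, pow_le_pow_left₀ (by norm_num : (0:ℝ) ≤ 4) ht 2, mul_nonneg (by linarith : (0:ℝ) ≤ t - 4) (pow_nonneg (by linarith : (0:ℝ) ≤ t) 3), mul_nonneg (by linarith : (0:ℝ) ≤ t - 4) (pow_nonneg (by linarith : (0:ℝ) ≤ t) 2), mul_nonneg (by linarith : (0:ℝ) ≤ t - 4) (by linarith : (0:ℝ) ≤ t)]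

/-- one block: arbitrary weights, and the formula -/
theorem block (ε : ℝ) (hε : 0 < ε) (A B0 : ℕ) : ∃ B : ℕ, B0 ≤ B ∧ ∃ K₀ : ℕ, ∀ K D H : ℕ, ∀ h₀ : ℤ, K₀ ≤ K →
    Real.exp (Real.log (Real.log K) ^ 4) ≤ D → (D : ℝ) * ((D : ℝ) * K) ^ (1 / 6 + ε) ≤ H → H ≤ K → |h₀| ≤ 2 * K →
    (∀ c : ℕ → ℝ, (∀ d, |c d| ≤ 1) → ∃ E : Finset (ℕ × ℤ), (E.card : ℝ) ≤ K * H / Real.log K ^ A ∧
      ∀ k ∈ Ioc K (2 * K), ∀ h ∈ Ioc h₀ (h₀ + H), (k, h) ∉ E → ∀ n : ℕ, (n : ℤ) = (k : ℤ) ^ 2 + h →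
        ∀ M₁ M₂ : ℕ, k ≤ M₁ + 2 * D → M₁ ≤ M₂ → M₂ + D ≤ k →
          |∑ m ∈ Ico M₁ M₂, c (k - m) * (G0 (n - m ^ 2) - G1 (zA B (5 * D * K)) (n - m ^ 2))| ≤
            D / Real.log K ^ A) ∧
    (∀ k ∈ Ioc K (2 * K), ∀ h ∈ Ioc h₀ (h₀ + H), ∀ n : ℕ, (n : ℤ) = (k : ℤ) ^ 2 + h →
        (∀ M₁ M₂ : ℕ, k ≤ M₁ + 2 * D → M₁ ≤ M₂ → M₂ + D ≤ k →
          |∑ m ∈ Ico M₁ M₂, G1 (zA B (5 * D * K)) (n - m ^ 2) -
            SQ (zA B (5 * D * K)) n * ∑ m ∈ Ico M₁ M₂, 1 / Real.log ((n - m ^ 2 : ℕ) : ℝ)| ≤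
              D / Real.log K ^ A)) := by
  obtain ⟨B, hB, h1⟩ := exc ε hε (A + 2) B0
  refine ⟨B, hB, ?_⟩
  obtain ⟨x₀, hx₀⟩ := eventually_atTop.mp (h1.and (sieve_sh A B))
  obtain ⟨K₀, hK₀⟩ := eventually_atTop.mp ((ev_par ε hε x₀).and (ev_L 16))
  refine ⟨K₀, fun K D H h₀ hK hD hDH hHK hh => ?_⟩
  obtain ⟨hpar, hL⟩ := hK₀ K hK
  obtain ⟨hx, hK1, hD2, h4D, hl1, hl2, hexp⟩ := hpar D H hD hDH hHK
  obtain ⟨hexc, hsv⟩ := hx₀ _ hx
  set x := 5 * D * K with hxdef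
  set L := Real.log x with hLdef
  set l := Real.log K with hl
  have hl0 : 0 < l := by linarith
  have hL0 : 0 < L := by linarith
  have hLl : ∀ N : ℕ, l ^ N ≤ L ^ N := fun N => pow_le_pow_left₀ hl0.le hl1 N
  have hD0 : (0 : ℝ) ≤ D := Nat.cast_nonneg D
  refine ⟨fun c hc => ?_, fun k hk h hh' n hn M₁ M₂ hM1 hM2 hM3 => ?_⟩
  · obtain ⟨E, hE1, hE2⟩ := hexc K D H h₀ rfl hK1 h4D hDH hHK hh hexp c hc
    refine ⟨E, ?_, fun k hk h hh' hkh n hn M₁ M₂ hM1 hM2 hM3 => ?_⟩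
    · refine hE1.trans ?_
      refine div_le_div_of_nonneg_left (by positivity) (by positivity) ?_
      calc l ^ A ≤ l ^ (A + 2) := pow_le_pow_right₀ (by linarith) (by omega)
        _ ≤ L ^ (A + 2) := hLl _
    · have g : Geo K D H h₀ x k n h := ⟨rfl, hD2, h4D, hHK, hh, hk, hh', hn⟩
      have h2 := g.weights (zA B x) c (2 * (D : ℝ) / L ^ (A + 2)) (fun y hy1 hy2 => hE2 k hk h hh' hkh y hy1 hy2)
        M₁ M₂ hM1 hM2 hM3
      refine h2.trans ?_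
      have h3 : 8 * (2 * (D : ℝ) / L ^ (A + 2)) = D / L ^ A * (16 / L ^ 2) := by
        rw [pow_add]
        field_simp
        ring
      rw [h3]
      have h4 : (16 : ℝ) / L ^ 2 ≤ 1 := by
        rw [div_le_one (by positivity)]
        nlinarith
      calc (D : ℝ) / L ^ A * (16 / L ^ 2) ≤ D / L ^ A := mul_le_of_le_one_right (by positivity) h4
        _ ≤ D / l ^ A := div_le_div_of_nonneg_left hD0 (by positivity) (hLl A)
  · have g : Geo K D H h₀ x k n h := ⟨rfl, hD2, h4D, hHK, hh, hk, hh', hn⟩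
    have hk' := Finset.mem_Ioc.1 hk
    have hM0 : 1 ≤ M₁ := by omega
    have hI : Ico M₁ M₂ = Ioc (M₁ - 1) ((M₁ - 1) + (M₂ - M₁)) := by
      ext m
      rw [Finset.mem_Ico, Finset.mem_Ioc]
      omega
    rw [hI]
    have h2 := hsv n (M₁ - 1) (M₂ - M₁) D hexp (by omega) (g.sq_lt (by omega))
    refine h2.trans ?_
    exact div_le_div_of_nonneg_left hD0 (by positivity) (hLl A)

end Pool.Agent.SSQ
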