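import Pool.Agent.Lib.SQP.Sieve

/-!
MODULE SSQ.Sieve.  The sieve model of the primes on `n - m²`, `m` in a very short interval.

PROOF of `brun_vf`: copy `VK.brun_fine` (VK/BrunFine.lean); in the second bound replace `x^(1/20) = exp (l / 20)` by `exp (t ^ 3)` with
`t = log (log x)`: `(2m+1)(c1 + A t) ≤ C t²` and `C t² + C' ≤ t³` for large `t` (here an additional factor `(log x)^B = exp (B t)` is
wanted, harmless).
PROOF of `sieve_sh`: as `SQP.sieve_sq` (SQP/Sieve.lean), for the interval `m ∈ (m₀, m₀ + N]`: write `m = m₀ + i`, `i ∈ [1, N]`; the condition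
`m % p ∉ sqr n p` is `i % p ∉ F p` with `F p = {r < p : (m₀ + r) % p ∈ sqr n p}`, which has the same number of elements as `sqr n p`, so the product in `brun_det`
is the same `ρ`.  Summation by parts (`abel_mono`) with the weights `1 / log (n - m²)`.  Every partial sum is at most
`2 W / L^(A+3) + exp (t³) / L^(A+3) ≤ 3 W / L^(A+3)`.
-/

set_option autoImplicit false

open Finset Filter

namespace Pool.Agent.SSQ

open Pool.Agent.HLB Pool.Agent.HLT Pool.Agent.HLU Pool.Agent.SQP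

namespace SieveAux

/-- The classes `r` modulo `p` with `(m₀ + r) ^ 2 = n` modulo `p`. -/
def Fs (n m₀ p : ℕ) : Finset ℕ := (range p).filter (fun r => (m₀ + r) % p ∈ sqr n p)

lemma Fs_sub (n m₀ p : ℕ) : Fs n m₀ p ⊆ range p := Finset.filter_subset _ _

lemma card_Fs (n m₀ : ℕ) {p : ℕ} (hp : 0 < p) : (Fs n m₀ p).card = (sqr n p).card := by
  refine Finset.card_bij (fun r _ => (m₀ + r) % p) ?_ ?_ ?_
  · intro r hr
    exact (Finset.mem_filter.mp hr).2
  · intro a ha b hb hab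
    have h3 := Finset.mem_range.mp (Finset.mem_filter.mp ha).1
    have h4 := Finset.mem_range.mp (Finset.mem_filter.mp hb).1
    have h5 : m₀ + a ≡ m₀ + b [MOD p] := hab
    have h6 : a ≡ b [MOD p] := Nat.ModEq.add_left_cancel' m₀ h5
    have h7 : a % p = b % p := h6
    rwa [Nat.mod_eq_of_lt h3, Nat.mod_eq_of_lt h4] at h7
  · intro s hs
    have hs' : s < p := Finset.mem_range.mp (sqr_sub n p hs)
    have hm := Nat.mod_lt m₀ hp
    have hd := Nat.div_add_mod m₀ p
    have e1 : m₀ + (s + (p - m₀ % p)) = s + p * (m₀ / p + 1) := by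
      rw [Nat.mul_add, Nat.mul_one]
      omega
    have e2 : (m₀ + (s + (p - m₀ % p)) % p) % p = s := by
      rw [Nat.add_mod_mod, e1, Nat.add_mul_mod_self_left, Nat.mod_eq_of_lt hs']
    refine ⟨(s + (p - m₀ % p)) % p, ?_, e2⟩
    unfold Fs
    rw [Finset.mem_filter, e2]
    exact ⟨Finset.mem_range.mpr (Nat.mod_lt _ hp), hs⟩

lemma mem_Fs (n m₀ i : ℕ) {p : ℕ} (hp : 0 < p) :
    (m₀ + i) % p ∈ sqr n p ↔ i % p ∈ Fs n m₀ p := by
  unfold Fs
  rw [Finset.mem_filter, Nat.add_mod_mod]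
  exact ⟨fun h => ⟨Finset.mem_range.mpr (Nat.mod_lt _ hp), h⟩, fun h => h.2⟩

lemma sum_shift (m₀ N : ℕ) (f : ℕ → ℝ) :
    ∑ m ∈ Ioc m₀ (m₀ + N), f m = ∑ i ∈ range N, f (m₀ + (i + 1)) := by
  induction N with
  | zero => simp
  | succ N ih =>
    rw [← Nat.add_assoc, Finset.sum_range_succ, ← ih, Finset.sum_Ioc_succ_top (by omega)]
    rfl

end SieveAux

open SieveAux

theorem brun_vf (r A B : ℕ) : ∀ᶠ x : ℕ in atTop, ∃ k : ℕ, Even k ∧
    (r * ∑ p ∈ Nat.primesLE (zA A x), 1 / (p : ℝ)) ^ (k + 1) / ((k + 1).factorial : ℝ) ≤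
      1 / Real.log x ^ B ∧
    (k + 2) * ((1 + (zA A x : ℝ)) * (1 + r)) ^ (k + 1) ≤ Real.exp (Real.log (Real.log x) ^ 3) / Real.log x ^ B := by
  have hr : (0 : ℝ) ≤ r := Nat.cast_nonneg r
  have hA : (0 : ℝ) ≤ A := Nat.cast_nonneg A
  have hB : (0 : ℝ) ≤ B := Nat.cast_nonneg B
  have hc : 0 < 2 / (9 * (r + 1) * Real.exp 2) := by positivity
  set c1 : ℝ := 1 + Real.log (2 * (1 + r)) with hc1
  have hc1' : 1 ≤ c1 := by
    have : 0 ≤ Real.log (2 * (1 + r)) := Real.log_nonneg (by linarith)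
    linarith
  have e1 := tendsto_loglog_nat.eventually (ev_log_small A _ hc)
  have e2 := tendsto_loglog_nat.eventually
    (eventually_ge_atTop ((2 * ((B : ℝ) + 1) + 3) * (c1 + A) + B))
  have e3 := tendsto_loglog_nat.eventually (eventually_ge_atTop (1 : ℝ))
  have e4 := tendsto_log_nat.eventually (eventually_ge_atTop (1 : ℝ))
  filter_upwards [e1, e2, e3, e4, eventually_ge_atTop 1] with x h1 h2 h3 h4 hx1
  set l := Real.log (x : ℝ) with hl
  set t := Real.log l with ht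
  have hlpos : 0 < l := by linarith only [h4]
  have hel : Real.exp t = l := Real.exp_log hlpos
  set m := ⌈((B : ℝ) + 1) * t⌉₊ with hm
  have hm1 : ((B : ℝ) + 1) * t ≤ m := Nat.le_ceil _
  have hm2 : (m : ℝ) < ((B : ℝ) + 1) * t + 1 := Nat.ceil_lt_add_one (by positivity)
  refine ⟨2 * m, even_two_mul m, ?_, ?_⟩
  · have hsum := sum_inv_le_zA A x h4
    have hsum0 : 0 ≤ ∑ p ∈ Nat.primesLE (zA A x), 1 / (p : ℝ) :=
      Finset.sum_nonneg fun p _ => by positivity
    have hM : r * ∑ p ∈ Nat.primesLE (zA A x), 1 / (p : ℝ) ≤ r * (9 * (2 / (9 * (r + 1) * Real.exp 2) * t)) := by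
      gcongr
      calc _ ≤ 9 * (1 + Real.log (1 + A * t)) := hsum
        _ ≤ _ := by gcongr
    have hM2 : (r * ∑ p ∈ Nat.primesLE (zA A x), 1 / (p : ℝ)) * Real.exp 2 ≤ ((2 * m + 1 : ℕ) : ℝ) := by
      calc _ ≤ r * (9 * (2 / (9 * (r + 1) * Real.exp 2) * t)) * Real.exp 2 := by gcongr
        _ = r / (r + 1) * (2 * t) := by field_simp
        _ ≤ 1 * (2 * t) := by
            gcongr
            rw [div_le_one (by (clear * -; positivity))]
            linarith
        _ ≤ _ := by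
            push_cast
            nlinarith only [h3, hm1]
    have := pow_div_fact_le _ (2 * m + 1) (by (clear * -; positivity)) (by omega) hM2
    refine this.trans ?_
    rw [one_div, ← hel, ← Real.exp_nat_mul, ← Real.exp_neg]
    apply Real.exp_le_exp.mpr
    push_cast
    nlinarith only [h3, hm1]
  · have hz : (zA A x : ℝ) ≤ l ^ A := Nat.floor_le (by positivity)
    have hlA : 1 ≤ l ^ A := one_le_pow₀ h4
    have hz1 : (1 + (zA A x : ℝ)) * (1 + r) ≤ Real.exp (Real.log (2 * (1 + r)) + A * t) := by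
      rw [Real.exp_add, Real.exp_log (by positivity), mul_comm (A : ℝ) t, mul_comm t (A : ℝ),
        Real.exp_nat_mul, hel]
      nlinarith only [hz, hlA]
    have hk : ((2 * m : ℕ) : ℝ) + 2 ≤ Real.exp ((2 * m : ℕ) + 1) := by
      have := Real.add_one_le_exp (((2 * m : ℕ) : ℝ) + 1)
      linarith only [this]
    have hsx : Real.exp (t ^ 3) / l ^ B = Real.exp (t ^ 3 - B * t) := by
      rw [Real.exp_sub, Real.exp_nat_mul, hel]
    rw [hsx]
    calc (((2 * m : ℕ) : ℝ) + 2) * ((1 + (zA A x : ℝ)) * (1 + r)) ^ (2 * m + 1)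
        ≤ Real.exp ((2 * m : ℕ) + 1) * Real.exp (Real.log (2 * (1 + r)) + A * t) ^ (2 * m + 1) := by
          gcongr
      _ = Real.exp ((2 * m + 1) * (c1 + A * t)) := by
          rw [← Real.exp_nat_mul, ← Real.exp_add]
          congr 1
          push_cast
          rw [hc1]
          ring
      _ ≤ Real.exp (t ^ 3 - B * t) := by
          apply Real.exp_le_exp.mpr
          have h5 : 2 * (m : ℝ) + 1 ≤ (2 * (B + 1) + 3) * t := by nlinarith only [h3, hm2]
          have h6 : c1 + A * t ≤ (c1 + A) * t := by nlinarith only [hc1', h3]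
          have h7 : (2 * (m : ℝ) + 1) * (c1 + A * t) ≤ ((2 * (B + 1) + 3) * t) * ((c1 + A) * t) := by
            gcongr
          have h8 : ((2 * ((B : ℝ) + 1) + 3) * (c1 + A) + B) * t ^ 2 ≤ t * t ^ 2 :=
            mul_le_mul_of_nonneg_right h2 (by positivity)
          have h9 : (B : ℝ) * t ≤ B * t ^ 2 := by
            have : t ≤ t ^ 2 := by nlinarith only [h3]
            exact mul_le_mul_of_nonneg_left this hB
          have h10 : t * t ^ 2 = t ^ 3 := by ring
          have h11 : ((2 * ((B : ℝ) + 1) + 3) * (c1 + A) + B) * t ^ 2 =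
              ((2 * (B + 1) + 3) * t) * ((c1 + A) * t) + B * t ^ 2 := by ring
          linarith only [h7, h8, h9, h10, h11]

theorem sieve_sh (A B : ℕ) : ∀ᶠ x : ℕ in atTop, ∀ n m₀ N W : ℕ, Real.exp (Real.log (Real.log x) ^ 3) ≤ W → N ≤ W →
    (m₀ + N) ^ 2 + 2 ≤ n →
    |∑ m ∈ Ioc m₀ (m₀ + N), G1 (zA B x) (n - m ^ 2) -
      SQ (zA B x) n * ∑ m ∈ Ioc m₀ (m₀ + N), 1 / Real.log ((n - m ^ 2 : ℕ) : ℝ)| ≤ W / Real.log x ^ A := by
  filter_upwards [brun_vf 2 B (A + 3), DZ_inv_le B, ev_log 4] with x hb hD hL n m₀ N W hW hNW hMn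
  set L := Real.log x with hLdef
  set z := zA B x with hz
  have hL0 : 0 < L := by linarith
  have hW0 : (0 : ℝ) ≤ W := Nat.cast_nonneg W
  rcases Nat.eq_zero_or_pos N with hN | hN
  · subst hN
    simp only [Nat.add_zero, Finset.Ioc_self, Finset.sum_empty, mul_zero, sub_zero, abs_zero]
    positivity
  obtain ⟨M, rfl⟩ : ∃ M, N = M + 1 := ⟨N - 1, by omega⟩
  obtain ⟨k, hk, hk1, hk2⟩ := hb
  have hle : ∀ m : ℕ, m ≤ m₀ + (M + 1) → m ^ 2 + 2 ≤ n := fun m hm => by
    have := Nat.pow_le_pow_left hm 2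
    omega
  set ρ : ℝ := ∏ p ∈ Nat.primesLE z, (1 - ((sqr n p).card : ℝ) / p) with hρ
  have hρF : ∏ p ∈ Nat.primesLE z, (1 - ((Fs n m₀ p).card : ℝ) / p) = ρ := by
    rw [hρ]
    refine Finset.prod_congr rfl fun p hp => ?_
    rw [card_Fs n m₀ (Nat.mem_primesLE.1 hp).2.pos]
  set ind : ℕ → ℝ := fun i => if ∀ p ∈ Nat.primesLE z, (i + 1) % p ∉ Fs n m₀ p then 1 else 0 with hind
  set c : ℕ → ℝ := fun i => ind i - ρ with hc
  set g : ℕ → ℝ := fun i => 1 / Real.log ((n - (m₀ + (i + 1)) ^ 2 : ℕ) : ℝ) with hg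
  have hC : ∀ y ≤ M, |∑ i ∈ range (y + 1), c i| ≤ 3 * W / L ^ (A + 3) := by
    intro y hy
    have h1 := brun_det 2 z k (y + 1) hk (Fs n m₀) (fun p hp =>
      ⟨Fs_sub n m₀ p, by
        rw [card_Fs n m₀ (Nat.mem_primesLE.1 hp).2.pos]
        exact card_sqr_le n (Nat.mem_primesLE.1 hp).2⟩)
    rw [hρF] at h1
    push_cast at h1 hk1 hk2
    have h2 : ∑ i ∈ range (y + 1), c i =
        (((Icc 1 (y + 1)).filter (fun n_1 => ∀ p ∈ Nat.primesLE z, n_1 % p ∉ Fs n m₀ p)).card : ℝ) -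
          ((y : ℝ) + 1) * ρ := by
      rw [hc]
      simp only
      rw [Finset.sum_sub_distrib, Finset.sum_const, Finset.card_range, nsmul_eq_mul,
        Finset.card_filter]
      push_cast
      congr 1
      rw [hind, Finset.range_eq_Ico]
      have := Finset.sum_Ico_add' (fun i : ℕ => if ∀ p ∈ Nat.primesLE z, i % p ∉ Fs n m₀ p then (1 : ℝ) else 0)
        0 (y + 1) 1
      rw [this]
      rfl
    have hyW : (y : ℝ) + 1 ≤ W := by
      have : y + 1 ≤ W := by omega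
      exact_mod_cast this
    have hy0 : (0 : ℝ) ≤ y := Nat.cast_nonneg y
    have h5 : 2 * ((y : ℝ) + 1) * ((2 * ∑ p ∈ Nat.primesLE z, 1 / (p : ℝ)) ^ (k + 1) / ((k + 1).factorial : ℝ)) ≤
        2 * W / L ^ (A + 3) := by
      calc _ ≤ 2 * (W : ℝ) * (1 / L ^ (A + 3)) :=
            mul_le_mul (by linarith) hk1 (by positivity) (by positivity)
        _ = 2 * W / L ^ (A + 3) := by ring
    have h6 : Real.exp (Real.log L ^ 3) / L ^ (A + 3) ≤ W / L ^ (A + 3) :=
      div_le_div_of_nonneg_right hW (by positivity)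
    rw [h2]
    have h7 : 3 * (W : ℝ) / L ^ (A + 3) = 2 * W / L ^ (A + 3) + W / L ^ (A + 3) := by ring
    rw [h7]
    have h8 := h1.trans (add_le_add h5 (hk2.trans h6))
    exact h8
  have hgM : ∀ i ≤ M, 2 ≤ n - (m₀ + (i + 1)) ^ 2 := fun i hi => by
    have := hle (m₀ + (i + 1)) (by omega)
    omega
  have key := abel_mono M c g 2 (3 * W / L ^ (A + 3)) (fun m _ => inv_log_nonneg _) (inv_log_le _)
    (fun m hm => by
      rw [hg]
      simp only
      have h1 := hgM (m + 1) hm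
      have h2 : n - (m₀ + (m + 1 + 1)) ^ 2 ≤ n - (m₀ + (m + 1)) ^ 2 :=
        Nat.sub_le_sub_left (Nat.pow_le_pow_left (by omega) 2) n
      have h3 : (0 : ℝ) < Real.log ((n - (m₀ + (m + 1 + 1)) ^ 2 : ℕ) : ℝ) :=
        Real.log_pos (by exact_mod_cast h1)
      refine one_div_le_one_div_of_le h3 (Real.log_le_log ?_ (by exact_mod_cast h2))
      have : 0 < n - (m₀ + (m + 1 + 1)) ^ 2 := by omega
      exact_mod_cast this) hC
  have hmain : ∑ m ∈ Ioc m₀ (m₀ + (M + 1)), G1 z (n - m ^ 2) -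
      SQ z n * ∑ m ∈ Ioc m₀ (m₀ + (M + 1)), 1 / Real.log ((n - m ^ 2 : ℕ) : ℝ) =
      (DZ z)⁻¹ * ∑ m ∈ range (M + 1), g m * c m := by
    rw [sum_shift m₀ (M + 1) (fun m => G1 z (n - m ^ 2)),
      sum_shift m₀ (M + 1) (fun m => 1 / Real.log ((n - m ^ 2 : ℕ) : ℝ)),
      ← prod_sqr, ← hρ, mul_assoc, Finset.mul_sum, Finset.mul_sum, Finset.mul_sum,
      ← Finset.sum_sub_distrib]
    refine Finset.sum_congr rfl fun m hm => ?_
    have hm' : m ≤ M := Nat.lt_succ_iff.mp (Finset.mem_range.mp hm)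
    have h1 := hle (m₀ + (m + 1)) (by omega)
    have hicF : ic z (n - (m₀ + (m + 1)) ^ 2) = ind m := by
      rw [ic_eq (by omega : (m₀ + (m + 1)) ^ 2 ≤ n), hind]
      refine if_congr ?_ rfl rfl
      refine forall_congr' fun p => forall_congr' fun hp => ?_
      rw [mem_Fs n m₀ (m + 1) (Nat.mem_primesLE.1 hp).2.pos]
    unfold G1 nuz
    rw [hicF]
    rw [hc, hg]
    simp only
    ring
  rw [hmain, abs_mul, abs_of_nonneg (inv_nonneg.mpr (DZ_pos z).le)]
  calc (DZ z)⁻¹ * |∑ m ∈ range (M + 1), g m * c m| ≤ L * (2 * 2 * (3 * W / L ^ (A + 3))) :=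
        mul_le_mul hD key (abs_nonneg _) hL0.le
    _ = (W / L ^ A) * (12 / L ^ 2) := by
        rw [pow_add]
        field_simp
        ring
    _ ≤ W / L ^ A := by
        refine mul_le_of_le_one_right (by positivity) ?_
        rw [div_le_one (by positivity)]
        nlinarith

end Pool.Agent.SSQ
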