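import Pool.Agent.Lib.SSQ.AvG
import Pool.Agent.Lib.HLT.Defs
import Pool.Agent.Lib.SSQ.Sieve

/-!
# Averages of the local factors over `k` and over the differences
-/

set_option autoImplicit false

open Finset Filter

namespace Pool.Agent.SSQ

open Pool.Agent.HLB Pool.Agent.HLT Pool.Agent.HLU Pool.Agent.SQP

/-- the primes between `w` and `z` -/
def Pwz (w z : ℕ) : Finset ℕ := (Nat.primesLE z).filter (fun p => w < p)

/-- the local factor -/
noncomputable def GGf (w z n : ℕ) : ℝ := ∏ p ∈ (Pwz w z).filter (fun p => p ∣ n), (1 - 1 / (p : ℝ))⁻¹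

lemma fac_ge {p : ℕ} (hp : p.Prime) : 1 ≤ (1 - 1 / (p : ℝ))⁻¹ := by
  have h1 := Pool.Agent.HL.one_sub_inv_pos hp
  refine (one_le_inv₀ h1).2 ?_
  have : (0 : ℝ) ≤ 1 / (p : ℝ) := by positivity
  linarith

lemma Pwz_prime {w z p : ℕ} (hp : p ∈ Pwz w z) : p.Prime ∧ w < p :=
  ⟨(Nat.mem_primesLE.1 (Finset.mem_filter.1 hp).1).2, (Finset.mem_filter.1 hp).2⟩

lemma GGf_ge (w z n : ℕ) : 1 ≤ GGf w z n := by
  unfold GGf
  have : ∀ S : Finset ℕ, (∀ p ∈ S, p.Prime) → 1 ≤ ∏ p ∈ S, (1 - 1 / (p : ℝ))⁻¹ := by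
    intro S hS
    calc (1 : ℝ) = ∏ _p ∈ S, 1 := by simp
      _ ≤ _ := Finset.prod_le_prod (fun _ _ => zero_le_one) fun p hp => fac_ge (hS p hp)
  exact this _ fun p hp => (Pwz_prime (Finset.mem_filter.1 hp).1).1

lemma GGf_mul (w z a b : ℕ) : GGf w z (a * b) ≤ GGf w z a * GGf w z b := by
  classical
  unfold GGf
  set Pa := (Pwz w z).filter (fun p => p ∣ a)
  set Pb := (Pwz w z).filter (fun p => p ∣ b)
  have h1 : (Pwz w z).filter (fun p => p ∣ a * b) = Pa ∪ Pb := by
    ext p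
    simp only [Pa, Pb, Finset.mem_union, Finset.mem_filter]
    constructor
    · rintro ⟨h1, h2⟩
      rcases (Pwz_prime h1).1.dvd_mul.1 h2 with h | h
      · exact Or.inl ⟨h1, h⟩
      · exact Or.inr ⟨h1, h⟩
    · rintro (⟨h1, h2⟩ | ⟨h1, h2⟩)
      · exact ⟨h1, Dvd.dvd.mul_right h2 _⟩
      · exact ⟨h1, Dvd.dvd.mul_left h2 _⟩
  rw [h1, ← Finset.prod_union_inter]
  have h2 : 1 ≤ ∏ p ∈ Pa ∩ Pb, (1 - 1 / (p : ℝ))⁻¹ := by
    calc (1 : ℝ) = ∏ _p ∈ Pa ∩ Pb, 1 := by simp
      _ ≤ _ := Finset.prod_le_prod (fun _ _ => zero_le_one) fun p hp =>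
        fac_ge (Pwz_prime (Finset.mem_filter.1 (Finset.mem_inter.1 hp).1).1).1
  have h3 : 0 ≤ ∏ p ∈ Pa ∪ Pb, (1 - 1 / (p : ℝ))⁻¹ := by
    refine Finset.prod_nonneg fun p hp => ?_
    have : p ∈ Pwz w z := by
      rcases Finset.mem_union.1 hp with h | h
      · exact (Finset.mem_filter.1 h).1
      · exact (Finset.mem_filter.1 h).1
    linarith [fac_ge (Pwz_prime this).1]
  exact le_mul_of_one_le_right h3 h2

lemma prod_Pwz (w z : ℕ) : ∏ p ∈ Pwz w z, (1 - 1 / (p : ℝ))⁻¹ ≤ (DZ z)⁻¹ := by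
  classical
  unfold DZ
  rw [← Finset.prod_inv_distrib]
  have hsub : Pwz w z ⊆ Nat.primesLE z := Finset.filter_subset _ _
  rw [← Finset.prod_sdiff hsub]
  have h1 : 1 ≤ ∏ p ∈ Nat.primesLE z \ Pwz w z, (1 - 1 / (p : ℝ))⁻¹ := by
    calc (1 : ℝ) = ∏ _p ∈ Nat.primesLE z \ Pwz w z, 1 := by simp
      _ ≤ _ := Finset.prod_le_prod (fun _ _ => zero_le_one) fun p hp =>
        fac_ge (Nat.mem_primesLE.1 (Finset.mem_sdiff.1 hp).1).2
  have h2 : 0 ≤ ∏ p ∈ Pwz w z, (1 - 1 / (p : ℝ))⁻¹ := by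
    refine Finset.prod_nonneg fun p hp => ?_
    linarith [fac_ge (Pwz_prime hp).1]
  exact le_mul_of_one_le_left h2 h1

/-- a set of congruent integers in an interval -/
lemma card_cong (K s : ℕ) (hs : 0 < s) (T : Finset ℕ) (hT : T ⊆ Ioc K (2 * K))
    (hc : ∀ a ∈ T, ∀ b ∈ T, a ≤ b → s ∣ b - a) : (T.card : ℝ) ≤ K / s + 1 := by
  have h1 : T.card ≤ K / s + 1 := by
    have h2 : T.card ≤ (range (K / s + 1)).card := by
      refine Finset.card_le_card_of_injOn (fun k => (k - K - 1) / s) ?_ ?_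
      · intro k hk
        have h3 := Finset.mem_Ioc.1 (hT hk)
        change (k - K - 1) / s ∈ ((range (K / s + 1) : Finset ℕ) : Set ℕ)
        rw [Finset.mem_coe, Finset.mem_range]
        have h4 : (k - K - 1) / s ≤ K / s := Nat.div_le_div_right (by omega)
        omega
      · intro a ha b hb hab
        simp only at hab
        have h3 := Finset.mem_Ioc.1 (hT ha)
        have h4 := Finset.mem_Ioc.1 (hT hb)
        have key : ∀ a b : ℕ, K < a → a ≤ b → s ∣ b - a → (a - K - 1) / s = (b - K - 1) / s → a = b := by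
          intro a b h1 h2 h3 h4
          obtain ⟨t, ht⟩ := h3
          have h5 : b - K - 1 = (a - K - 1) + s * t := by omega
          rw [h5, Nat.add_mul_div_left _ _ hs] at h4
          have h6 : t = 0 := by omega
          rw [h6] at ht
          omega
        rcases le_total a b with h | h
        · exact key a b h3.1 h (hc a ha b hb h) hab
        · exact (key b a h4.1 h (hc b hb a ha h) hab.symm).symm
    rwa [Finset.card_range] at h2
  calc (T.card : ℝ) ≤ ((K / s + 1 : ℕ) : ℝ) := by exact_mod_cast h1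
    _ ≤ K / s + 1 := by
        push_cast
        linarith [(Nat.cast_div_le : ((K / s : ℕ) : ℝ) ≤ (K : ℝ) / s)]

/-- average over `k` -/
theorem avg_k (w z K c : ℕ) (hw : 2 ≤ w) (hc : c ≤ 2 * K) :
    ∑ k ∈ Ioc K (2 * K), GGf w z (2 * k - c) ≤ K * (1 + 2 / w) + (DZ z)⁻¹ := by
  classical
  have h := avgG (Pwz w z) w (by omega) (fun p hp => Pwz_prime hp) (Ioc K (2 * K)) (fun k => 2 * k - c) K 1
    (Nat.cast_nonneg _) zero_le_one (fun S hS => by
      have hpos : 0 < ∏ p ∈ S, p := Finset.prod_pos fun p hp => (Pwz_prime (hS hp)).1.pos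
      have hodd : Nat.Coprime (∏ p ∈ S, p) 2 := by
        refine Nat.Coprime.prod_left fun p hp => ?_
        have h1 := Pwz_prime (hS hp)
        rw [Nat.coprime_primes h1.1 Nat.prime_two]
        omega
      have h1 := card_cong K (∏ p ∈ S, p) hpos ((Ioc K (2 * K)).filter (fun k => (∏ p ∈ S, p) ∣ 2 * k - c))
        (Finset.filter_subset _ _) (fun a ha b hb hab => by
          rw [Finset.mem_filter, Finset.mem_Ioc] at ha hb
          have h2 : (∏ p ∈ S, p) ∣ (2 * b - c) - (2 * a - c) := Nat.dvd_sub hb.2 ha.2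
          have h3 : (2 * b - c) - (2 * a - c) = 2 * (b - a) := by omega
          rw [h3] at h2
          exact hodd.dvd_of_dvd_mul_left h2)
      push_cast at h1 ⊢
      exact h1)
  rw [one_mul] at h
  exact h.trans (by linarith [prod_Pwz w z])

/-- average over the differences -/
theorem avg_u (w z d D : ℕ) (hw : 1 ≤ w) (hd : d ≤ 2 * D) :
    ∑ d' ∈ Ioc d (2 * D), GGf w z (d' - d) ≤ ((2 * D - d : ℕ) : ℝ) * (1 + 2 / w) := by
  classical
  have h := avgG (Pwz w z) w (by omega) (fun p hp => Pwz_prime hp) (Ioc d (2 * D)) (fun k => k - d) ((2 * D - d : ℕ) : ℝ) 0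
    (Nat.cast_nonneg _) le_rfl (fun S hS => by
      have hpos : 0 < ∏ p ∈ S, p := Finset.prod_pos fun p hp => (Pwz_prime (hS hp)).1.pos
      have h1 : ((Ioc d (2 * D)).filter (fun k => (∏ p ∈ S, p) ∣ k - d)).card ≤ (2 * D - d) / ∏ p ∈ S, p := by
        rw [← Nat.Ioc_filter_dvd_card_eq_div]
        refine Finset.card_le_card_of_injOn (fun k => k - d) ?_ ?_
        · intro k hk
          rw [Finset.mem_coe, Finset.mem_filter, Finset.mem_Ioc] at hk
          change k - d ∈ (((Ioc 0 (2 * D - d)).filter (fun x => (∏ p ∈ S, p) ∣ x) : Finset ℕ) : Set ℕ)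
          rw [Finset.mem_coe, Finset.mem_filter, Finset.mem_Ioc]
          exact ⟨⟨by omega, by omega⟩, hk.2⟩
        · intro a ha b hb hab
          rw [Finset.mem_coe, Finset.mem_filter, Finset.mem_Ioc] at ha hb
          simp only at hab
          omega
      have h2 : (((Ioc d (2 * D)).filter (fun k => (∏ p ∈ S, p) ∣ k - d)).card : ℝ) ≤
          (((2 * D - d) / ∏ p ∈ S, p : ℕ) : ℝ) := by exact_mod_cast h1
      rw [add_zero]
      refine h2.trans (Nat.cast_div_le.trans ?_)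
      push_cast
      exact le_rfl)
  rw [zero_mul, add_zero] at h
  exact h

end Pool.Agent.SSQ
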