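import Pool.Agent.Lib.SSQ.Cor2

/-!
From dyadic blocks of `k` to all `n ≤ x` near a square: all but a proportion `δ`, with `p ≤ C √n log n`.
-/

set_option autoImplicit false

open Finset Filter

namespace Pool.Agent.SSQ


open Cor2Aux (ev_log ev_rpow ev_log_pow log_two_bound nearest)

def Key4 (ε : ℝ) : Prop := ∀ δ : ℝ, 0 < δ → ∃ C K₀ : ℕ, ∀ K H : ℕ, ∀ h₀ : ℤ, K₀ ≤ K → (K : ℝ) ^ (1 / 6 + ε) ≤ H → H ≤ K →
  |h₀| ≤ 2 * K → ∃ E : Finset (ℕ × ℤ), (E.card : ℝ) ≤ δ * (K * H) ∧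
    ∀ k ∈ Ioc K (2 * K), ∀ h ∈ Ioc h₀ (h₀ + H), (k, h) ∉ E →
      ∃ m p : ℕ, p.Prime ∧ (k : ℤ) ^ 2 + h = (m : ℤ) ^ 2 + p ∧ (p : ℝ) ≤ C * (K * Real.log K)

namespace CorCAux

theorem expC_bound (C : ℕ) (K n : ℝ) (hK : 1 ≤ K) (hn : K ^ 2 ≤ n) :
    C * (K * Real.log K) ≤ C * (Real.sqrt n * Real.log n) := by
  have hK0 : 0 < K := by linarith
  have hlogK0 : 0 ≤ Real.log K := Real.log_nonneg hK
  have hsq : K ≤ Real.sqrt n := Real.le_sqrt_of_sq_le hn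
  have h1 : 2 * Real.log K ≤ Real.log n := by
    have h2 := Real.log_le_log (by positivity) hn
    rw [Real.log_pow] at h2
    exact_mod_cast h2
  have h2 : Real.log K ≤ Real.log n := by linarith
  apply mul_le_mul_of_nonneg_left _ (Nat.cast_nonneg C)
  exact mul_le_mul hsq h2 hlogK0 (Real.sqrt_nonneg _)

/-- one block: the exceptional set for one or for four windows -/
theorem block {ε δ : ℝ} {C K₀ : ℕ} (hδ : 0 ≤ δ) (hK : ∀ K H : ℕ, ∀ h₀ : ℤ, K₀ ≤ K → (K : ℝ) ^ (1 / 6 + ε) ≤ H → H ≤ K →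
    |h₀| ≤ 2 * K → ∃ E : Finset (ℕ × ℤ), (E.card : ℝ) ≤ δ * (K * H) ∧
    ∀ k ∈ Ioc K (2 * K), ∀ h ∈ Ioc h₀ (h₀ + H), (k, h) ∉ E →
      ∃ m p : ℕ, p.Prime ∧ (k : ℤ) ^ 2 + h = (m : ℤ) ^ 2 + p ∧ (p : ℝ) ≤ C * (K * Real.log K))
    (hε : 1 / 6 + ε ≤ 1) (K t : ℕ) (hK₀ : K₀ ≤ K) (hK1 : 1 ≤ K)
    (ht : (K : ℝ) ^ (1 / 6 + ε) ≤ ((2 * t + 1 : ℕ) : ℝ)) :
    ∃ E : Finset (ℕ × ℤ), (E.card : ℝ) ≤ 4 * (δ * (K * ((2 * t + 1 : ℕ) : ℝ))) ∧
    ∀ k ∈ Ioc K (2 * K), ∀ h : ℤ, -(t : ℤ) ≤ h → h ≤ t → -(2 * K : ℤ) < h → h ≤ 2 * K →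
      (k, h) ∉ E → ∃ m p : ℕ, p.Prime ∧ (k : ℤ) ^ 2 + h = (m : ℤ) ^ 2 + p ∧
        (p : ℝ) ≤ C * (K * Real.log K) := by
  classical
  by_cases hc : 2 * t + 1 ≤ K
  · obtain ⟨E, hE1, hE2⟩ := hK K (2 * t + 1) (-(t : ℤ) - 1) hK₀ ht hc (by
      have e : |-(t : ℤ) - 1| = (t : ℤ) + 1 := by
        rw [abs_of_nonpos (by omega)]; ring
      rw [e]; omega)
    refine ⟨E, hE1.trans ?_, fun k hk h h1 h2 _ _ hE => hE2 k hk h
      (Finset.mem_Ioc.2 ⟨by omega, by push_cast; omega⟩) hE⟩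
    have : 0 ≤ δ * ((K : ℝ) * ((2 * t + 1 : ℕ) : ℝ)) := by positivity
    linarith
  · rw [not_le] at hc
    have hKr : (1 : ℝ) ≤ K := by exact_mod_cast hK1
    have hKK : (K : ℝ) ^ (1 / 6 + ε) ≤ K := by
      calc (K : ℝ) ^ (1 / 6 + ε) ≤ (K : ℝ) ^ (1 : ℝ) := Real.rpow_le_rpow_of_exponent_le hKr hε
        _ = K := Real.rpow_one _
    obtain ⟨E1, hE1, hF1⟩ := hK K K (-(2 * K : ℤ)) hK₀ hKK le_rfl (by
      rw [abs_of_nonpos (by omega)]; omega)
    obtain ⟨E2, hE2, hF2⟩ := hK K K (-(K : ℤ)) hK₀ hKK le_rfl (by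
      rw [abs_of_nonpos (by omega)]; omega)
    obtain ⟨E3, hE3, hF3⟩ := hK K K 0 hK₀ hKK le_rfl (by
      rw [abs_zero]; omega)
    obtain ⟨E4, hE4, hF4⟩ := hK K K (K : ℤ) hK₀ hKK le_rfl (by
      rw [abs_of_nonneg (by omega)]; omega)
    refine ⟨E1 ∪ E2 ∪ E3 ∪ E4, ?_, ?_⟩
    · have c1 : (E1 ∪ E2 ∪ E3 ∪ E4).card ≤ E1.card + E2.card + E3.card + E4.card := by
        have a1 := Finset.card_union_le (E1 ∪ E2 ∪ E3) E4
        have a2 := Finset.card_union_le (E1 ∪ E2) E3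
        have a3 := Finset.card_union_le E1 E2
        omega
      have c2 : ((E1 ∪ E2 ∪ E3 ∪ E4).card : ℝ) ≤ (E1.card : ℝ) + E2.card + E3.card + E4.card := by
        exact_mod_cast c1
      have c3 : δ * ((K : ℝ) * K) ≤ δ * (K * ((2 * t + 1 : ℕ) : ℝ)) := by
        apply mul_le_mul_of_nonneg_left _ hδ
        apply mul_le_mul_of_nonneg_left _ (by linarith)
        exact_mod_cast hc.le
      linarith
    · intro k hk h _ _ h3 h4 hE
      simp only [Finset.mem_union, not_or] at hE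
      obtain ⟨⟨⟨n1, n2⟩, n3⟩, n4⟩ := hE
      by_cases b1 : h ≤ -(K : ℤ)
      · exact hF1 k hk h (Finset.mem_Ioc.2 ⟨h3, by omega⟩) n1
      · by_cases b2 : h ≤ 0
        · exact hF2 k hk h (Finset.mem_Ioc.2 ⟨by omega, by omega⟩) n2
        · by_cases b3 : h ≤ K
          · exact hF3 k hk h (Finset.mem_Ioc.2 ⟨by omega, by omega⟩) n3
          · exact hF4 k hk h (Finset.mem_Ioc.2 ⟨by omega, by omega⟩) n4

end CorCAux

open CorCAux

theorem corC (ε : ℝ) (hε : 0 < ε) (hε1 : ε ≤ 5 / 12) (hkey : Key4 ε) (δ : ℝ) (hδ : 0 < δ) : ∃ C x₀ : ℕ, ∀ x : ℕ, x₀ ≤ x →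
    ∀ S : Finset ℕ, S ⊆ Icc 1 x → (∀ n ∈ S, ∃ k : ℕ, (|(n : ℤ) - (k : ℤ) ^ 2| : ℝ) ≤ (x : ℝ) ^ (1 / 12 + ε)) →
      (∀ n ∈ S, ¬ ∃ m p : ℕ, p.Prime ∧ n = m ^ 2 + p ∧ (p : ℝ) ≤ C * (Real.sqrt n * Real.log n)) →
      (S.card : ℝ) ≤ δ * (x : ℝ) ^ (7 / 12 + ε) := by
  classical
  obtain ⟨C, K₀, hK⟩ := hkey (δ / 96) (by positivity)
  have ev : ∀ᶠ x : ℝ in atTop, (18 / δ + 30 ≤ Real.log x ∧
      Real.log x ^ 1 ≤ x ^ (1 / 6 : ℝ) ∧ (2 : ℝ) ^ (1 / 6 + ε) ≤ x ^ (ε / 2) ∧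
      (K₀ : ℝ) ≤ x ^ (1 / 3 : ℝ) ∧ Real.exp (Real.exp 2) ≤ x ^ (1 / 3 : ℝ) ∧
      2 ≤ x ^ (1 / 2 : ℝ)) ∧ 1 ≤ x := by
    filter_upwards [ev_log (18 / δ + 30), ev_log_pow 1 (1 / 6) (by norm_num),
      ev_rpow (ε / 2) (by linarith) ((2 : ℝ) ^ (1 / 6 + ε)),
      ev_rpow (1 / 3) (by norm_num) K₀, ev_rpow (1 / 3) (by norm_num) (Real.exp (Real.exp 2)),
      ev_rpow (1 / 2) (by norm_num) 2,
      eventually_ge_atTop (1 : ℝ)] with x h1 h2 h3 h5 h6 h7 h8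
    exact ⟨⟨h1, h2, h3, h5, h6, h7⟩, h8⟩
  obtain ⟨x₀, hx₀⟩ := eventually_atTop.1 (tendsto_natCast_atTop_atTop.eventually ev)
  refine ⟨C, x₀, fun x hx S hS hS1 hS2 => ?_⟩
  obtain ⟨⟨c1, c2, c3, c5, c6, c7⟩, c8⟩ := hx₀ x hx
  rw [pow_one] at c2
  set X : ℝ := (x : ℝ) with hX
  have hX0 : 0 < X := by linarith
  set L := Real.log X with hL
  have h18 : 0 < 18 / δ := by positivity
  have hL30 : 30 ≤ L := by linarith
  have hL0 : 0 < L := by linarith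
  set T := X ^ (1 / 12 + ε) with hT
  set R := X ^ (1 / 2 : ℝ) with hR
  set Y := R / L with hY
  have hT1 : 1 ≤ T := Real.one_le_rpow c8 (by linarith)
  have hR0 : 0 < R := Real.rpow_pos_of_pos hX0 _
  have h36 : X ^ (1 / 3 : ℝ) * X ^ (1 / 6 : ℝ) = R := by
    rw [← Real.rpow_add hX0, hR]; norm_num
  have hRR : R * R = X := by
    rw [hR, ← Real.rpow_add hX0]; norm_num
  have h3pos : 0 < X ^ (1 / 3 : ℝ) := Real.rpow_pos_of_pos hX0 _
  have h6pos : 0 < X ^ (1 / 6 : ℝ) := Real.rpow_pos_of_pos hX0 _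
  have hYge : X ^ (1 / 3 : ℝ) ≤ Y := by
    rw [hY, le_div_iff₀ hL0, ← h36]
    exact mul_le_mul_of_nonneg_left c2 h3pos.le
  have hexp1 : (1 : ℝ) ≤ Real.exp (Real.exp 2) := Real.one_le_exp (Real.exp_pos _).le
  have hY1 : 1 ≤ Y := by linarith
  set t := ⌊T⌋₊ with ht
  have ht1 : (t : ℝ) ≤ T := Nat.floor_le (by linarith)
  have ht2 : T < t + 1 := Nat.lt_floor_add_one T
  have ht0 : (0 : ℝ) ≤ t := by positivity
  have hTX : T ≤ X := by
    calc T ≤ X ^ (1 : ℝ) := Real.rpow_le_rpow_of_exponent_le c8 (by linarith)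
      _ = X := Real.rpow_one X
  -- the exceptional sets
  have hE : ∀ i : ℕ, ∃ E : Finset (ℕ × ℤ), (E.card : ℝ) ≤ δ / 8 * T * ((2 ^ i : ℕ) : ℝ) ∧
      (Y ≤ ((2 ^ i : ℕ) : ℝ) → ((2 ^ i : ℕ) : ℝ) ≤ 2 * R →
        ∀ k ∈ Ioc (2 ^ i) (2 * 2 ^ i), ∀ h : ℤ, -(t : ℤ) ≤ h → h ≤ t →
          -(2 * ((2 ^ i : ℕ) : ℤ)) < h → h ≤ 2 * ((2 ^ i : ℕ) : ℤ) →
          (k, h) ∉ E → ∃ m p : ℕ, p.Prime ∧ (k : ℤ) ^ 2 + h = (m : ℤ) ^ 2 + p ∧
            (p : ℝ) ≤ C * (((2 ^ i : ℕ) : ℝ) * Real.log ((2 ^ i : ℕ) : ℝ))) := by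
    intro i
    by_cases hi : Y ≤ ((2 ^ i : ℕ) : ℝ) ∧ ((2 ^ i : ℕ) : ℝ) ≤ 2 * R
    · obtain ⟨hi1, hi2⟩ := hi
      have hKpos : (0 : ℝ) < ((2 ^ i : ℕ) : ℝ) := by positivity
      obtain ⟨E, hE1, hE2⟩ := CorCAux.block (by positivity) hK (by linarith) (2 ^ i) t (by
          have : (K₀ : ℝ) ≤ ((2 ^ i : ℕ) : ℝ) := (c5.trans hYge).trans hi1
          exact_mod_cast this) Nat.one_le_two_pow (by
          have e1 : ((2 ^ i : ℕ) : ℝ) ^ (1 / 6 + ε) ≤ (2 * R) ^ (1 / 6 + ε) :=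
            Real.rpow_le_rpow hKpos.le hi2 (by linarith)
          have e2 : (2 * R) ^ (1 / 6 + ε) = 2 ^ (1 / 6 + ε) * X ^ (1 / 12 + ε / 2) := by
            rw [Real.mul_rpow (by norm_num) hR0.le, hR, ← Real.rpow_mul hX0.le]
            congr 2; ring
          have e3 : X ^ (ε / 2) * X ^ (1 / 12 + ε / 2) = T := by
            rw [hT, ← Real.rpow_add hX0]; congr 1; ring
          have e4 : (2 : ℝ) ^ (1 / 6 + ε) * X ^ (1 / 12 + ε / 2) ≤ T := by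
            rw [← e3]
            exact mul_le_mul_of_nonneg_right c3 (Real.rpow_nonneg hX0.le _)
          push_cast at e1 ⊢
          linarith)
      refine ⟨E, hE1.trans ?_, fun _ _ => hE2⟩
      have hnum : ((2 * t + 1 : ℕ) : ℝ) ≤ 3 * T := by
        push_cast
        linarith
      calc 4 * (δ / 96 * (((2 ^ i : ℕ) : ℝ) * ((2 * t + 1 : ℕ) : ℝ)))
          ≤ 4 * (δ / 96 * (((2 ^ i : ℕ) : ℝ) * (3 * T))) := by
            apply mul_le_mul_of_nonneg_left _ (by norm_num)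
            apply mul_le_mul_of_nonneg_left _ (by positivity)
            exact mul_le_mul_of_nonneg_left hnum hKpos.le
        _ = δ / 8 * T * ((2 ^ i : ℕ) : ℝ) := by ring
    · refine ⟨∅, ?_, fun h1 h2 => absurd ⟨h1, h2⟩ hi⟩
      rw [Finset.card_empty, Nat.cast_zero]
      positivity
  choose E hE1 hE2 using hE
  set J := Nat.log 2 ⌊2 * R⌋₊ with hJ
  set P : Finset (ℕ × ℤ) := (range (⌊2 * Y⌋₊ + 1)) ×ˢ (Icc (-(t : ℤ)) t) with hP
  have hsub : S ⊆ (P ∪ (range (J + 1)).biUnion E).image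
      (fun p => ((p.1 : ℤ) ^ 2 + p.2).toNat) := by
    intro n hn
    obtain ⟨k0, hk0⟩ := hS1 n hn
    have hnx := Finset.mem_Icc.1 (hS hn)
    obtain ⟨k, hkl, hku, hkn⟩ := nearest n hnx.1
    set h : ℤ := (n : ℤ) - (k : ℤ) ^ 2 with hh
    have hnr : (n : ℝ) = (k : ℝ) ^ 2 + (h : ℝ) := by
      rw [hh]; push_cast; ring
    have hhT : |(h : ℝ)| ≤ T := by
      have e1 : |(h : ℝ)| ≤ |(((n : ℤ) - (k0 : ℤ) ^ 2 : ℤ) : ℝ)| := by
        exact_mod_cast hkn k0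
      refine e1.trans ?_
      push_cast at hk0 ⊢
      exact hk0
    have hht : h.natAbs ≤ t := by
      apply Nat.le_floor
      rw [Nat.cast_natAbs, Int.cast_abs]
      exact hhT
    have hht1 : -(t : ℤ) ≤ h := by omega
    have hht2 : h ≤ t := by omega
    refine Finset.mem_image.2 ⟨(k, h), ?_, ?_⟩
    · by_cases hks : (k : ℝ) ≤ 2 * Y
      · apply Finset.mem_union_left
        rw [hP, Finset.mem_product]
        refine ⟨Finset.mem_range.2 ?_, Finset.mem_Icc.2 ⟨hht1, hht2⟩⟩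
        have := Nat.le_floor hks
        show k < ⌊2 * Y⌋₊ + 1
        omega
      · rw [not_le] at hks
        apply Finset.mem_union_right
        have hk2 : 2 < k := by
          have : (2 : ℝ) < k := by linarith
          exact_mod_cast this
        set i := Nat.log 2 (k - 1) with hi
        have hi1 : 2 ^ i ≤ k - 1 := Nat.pow_log_le_self 2 (by omega)
        have hi2 : k - 1 < 2 ^ (i + 1) := Nat.lt_pow_succ_log_self (by norm_num) _
        rw [pow_succ] at hi2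
        have hki1 : 2 ^ i < k := by omega
        have hki2 : k ≤ 2 * 2 ^ i := by omega
        have hki2r : (k : ℝ) ≤ 2 * ((2 ^ i : ℕ) : ℝ) := by exact_mod_cast hki2
        have hki1r : (((2 ^ i : ℕ) : ℝ)) < k := by exact_mod_cast hki1
        have hki2z : (k : ℤ) ≤ 2 * ((2 ^ i : ℕ) : ℤ) := by exact_mod_cast hki2
        have hYi : Y ≤ ((2 ^ i : ℕ) : ℝ) := by linarith
        have hnX : (n : ℝ) ≤ X := by rw [hX]; exact Nat.cast_le.2 hnx.2
        have hk2X : (k : ℝ) ^ 2 ≤ 2 * X := by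
          have := neg_abs_le (h : ℝ)
          linarith
        have hkR : (k : ℝ) ≤ 2 * R := by
          by_contra hcon
          rw [not_le] at hcon
          have q1 : (2 * R) * (2 * R) < (k : ℝ) * k :=
            mul_self_lt_mul_self (by positivity) hcon
          have q2 : (2 * R) * (2 * R) = 4 * X := by rw [← hRR]; ring
          rw [q2, ← pow_two] at q1
          linarith
        have hiR : ((2 ^ i : ℕ) : ℝ) ≤ 2 * R := by linarith
        have hilog : i ≤ J := Nat.le_log_of_pow_le (by norm_num) (Nat.le_floor hiR)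
        refine Finset.mem_biUnion.2 ⟨i, Finset.mem_range.2 (by omega), ?_⟩
        by_contra hnE
        obtain ⟨m, p, hp, hmp, hpb⟩ := hE2 i hYi hiR k (Finset.mem_Ioc.2 ⟨hki1, hki2⟩) h
          hht1 hht2 (by linarith) (by linarith) hnE
        apply hS2 n hn
        refine ⟨m, p, hp, ?_, hpb.trans ?_⟩
        · have : (n : ℤ) = (m : ℤ) ^ 2 + p := by rw [← hmp, hh]; ring
          exact_mod_cast this
        · apply expC_bound
          · linarith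
          · -- K^2 ≤ n
            have e1 : ((2 ^ i : ℕ) : ℝ) + 1 ≤ k := by exact_mod_cast hki1
            have e2 : -((k : ℝ) - 1) ≤ (h : ℝ) := by exact_mod_cast hkl
            have e3 : (0 : ℝ) ≤ ((2 ^ i : ℕ) : ℝ) := by positivity
            rw [hnr]
            nlinarith
    · show ((k : ℤ) ^ 2 + h).toNat = n
      have : (k : ℤ) ^ 2 + h = n := by rw [hh]; ring
      rw [this]; simp
  -- counting
  have hcard : (S.card : ℝ) ≤ (2 * Y + 1) * (3 * T) + δ / 8 * T * (4 * R) := by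
    have e1 := (Finset.card_le_card hsub).trans Finset.card_image_le
    have e2 := e1.trans (Finset.card_union_le _ _)
    have hsum : ∑ i ∈ range (J + 1), ((2 ^ i : ℕ) : ℝ) ≤ 4 * R := by
      have g1 : ∑ i ∈ range (J + 1), ((2 ^ i : ℕ) : ℝ) = 2 ^ (J + 1) - 1 := by
        push_cast
        have := geom_sum_eq (x := (2 : ℝ)) (by norm_num) (J + 1)
        rw [this]
        norm_num
      have hfl : 1 ≤ ⌊2 * R⌋₊ := Nat.le_floor (by push_cast; linarith)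
      have g2 : 2 ^ J ≤ ⌊2 * R⌋₊ := Nat.pow_log_le_self 2 (by omega)
      have g3 : ((2 ^ J : ℕ) : ℝ) ≤ 2 * R :=
        (Nat.cast_le.2 g2).trans (Nat.floor_le (by positivity))
      push_cast at g3
      rw [g1, pow_succ]
      linarith
    have e3 : (((range (J + 1)).biUnion E).card : ℝ) ≤ δ / 8 * T * (4 * R) := by
      calc (((range (J + 1)).biUnion E).card : ℝ)
          ≤ ((∑ i ∈ range (J + 1), (E i).card : ℕ) : ℝ) := by
            exact_mod_cast Finset.card_biUnion_le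
        _ = ∑ i ∈ range (J + 1), ((E i).card : ℝ) := by push_cast; rfl
        _ ≤ ∑ i ∈ range (J + 1), δ / 8 * T * ((2 ^ i : ℕ) : ℝ) :=
            Finset.sum_le_sum (fun i _ => hE1 i)
        _ = δ / 8 * T * ∑ i ∈ range (J + 1), ((2 ^ i : ℕ) : ℝ) := by rw [Finset.mul_sum]
        _ ≤ δ / 8 * T * (4 * R) := mul_le_mul_of_nonneg_left hsum (by positivity)
    have e4 : (P.card : ℝ) ≤ (2 * Y + 1) * (3 * T) := by
      rw [hP, Finset.card_product, Finset.card_range, Int.card_Icc]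
      have f1 : ((t : ℤ) + 1 - -(t : ℤ)).toNat = 2 * t + 1 := by omega
      rw [f1]
      push_cast
      have f2 : ((⌊2 * Y⌋₊ : ℕ) : ℝ) ≤ 2 * Y := Nat.floor_le (by positivity)
      apply mul_le_mul (by linarith) (by linarith) (by positivity) (by positivity)
    have e7 : (S.card : ℝ) ≤ (P.card : ℝ) + (((range (J + 1)).biUnion E).card : ℝ) := by
      exact_mod_cast e2
    linarith
  refine hcard.trans ?_
  -- the final inequality
  have hZ : X ^ (7 / 12 + ε) = R * T := by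
    rw [hR, hT, ← Real.rpow_add hX0]; congr 1; ring
  rw [hZ]
  have hRT : 0 < R * T := by positivity
  have g1 : (2 * Y + 1) * (3 * T) ≤ δ / 2 * (R * T) := by
    calc (2 * Y + 1) * (3 * T) ≤ (3 * Y) * (3 * T) :=
          mul_le_mul_of_nonneg_right (by linarith) (by linarith)
      _ = 9 / L * (R * T) := by rw [hY]; ring
      _ ≤ δ / 2 * (R * T) := by
          apply mul_le_mul_of_nonneg_right _ hRT.le
          rw [div_le_iff₀ hL0]
          have : 18 / δ ≤ L := by linarith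
          rw [div_le_iff₀ hδ] at this
          linarith
  calc (2 * Y + 1) * (3 * T) + δ / 8 * T * (4 * R)
      ≤ δ / 2 * (R * T) + δ / 2 * (R * T) := by
        have : δ / 8 * T * (4 * R) = δ / 2 * (R * T) := by ring
        linarith
    _ = δ * (R * T) := by ring

end Pool.Agent.SSQ
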