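import Pool.Agent.Lib.SSQ.Exc
import Pool.Agent.Lib.SQP.Trunc

/-!
# From `ff` to the primes
-/

set_option autoImplicit false

open Finset Filter

namespace Pool.Agent.SSQ

open Pool.Agent.HLB Pool.Agent.HLT Pool.Agent.HLU Pool.Agent.SQP

lemma G0_sub_G1 (z k : ℕ) (hk : 2 ≤ k) : G0 k - G1 z k = 1 / Real.log k * ff z k := by
  have h1 : 0 < Real.log (k : ℝ) := Real.log_pos (by exact_mod_cast hk)
  unfold G0 G1 ff HLT.lp
  split_ifs
  · field_simp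
  · field_simp
    ring

/-- the facts on one pair `(k, h)` -/
structure Geo (K D H : ℕ) (h₀ : ℤ) (x k n : ℕ) (h : ℤ) : Prop where
  hx : x = 5 * D * K
  hD : 3 ≤ D
  hDK : 4 * D ≤ K
  hH : H ≤ K
  hh : |h₀| ≤ 2 * K
  hk : k ∈ Ioc K (2 * K)
  hh' : h ∈ Ioc h₀ (h₀ + H)
  hn : (n : ℤ) = (k : ℤ) ^ 2 + h

variable {K D H : ℕ} {h₀ : ℤ} {x k n : ℕ} {h : ℤ}

lemma Geo.sq_lt (g : Geo K D H h₀ x k n h) {m : ℕ} (hm : m + D ≤ k) : m ^ 2 + 2 ≤ n := by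
  obtain ⟨hx, hD, hDK, hH, hh, hk, hh', hn⟩ := g
  rw [Finset.mem_Ioc] at hk hh'
  have h1 := abs_le.1 hh
  have h2 : (m : ℤ) + D ≤ k := by exact_mod_cast hm
  have h3 : (3 : ℤ) ≤ D := by exact_mod_cast hD
  have h4 : (4 : ℤ) * D ≤ K := by exact_mod_cast hDK
  have h5 : (K : ℤ) < k := by exact_mod_cast hk.1
  have h6 : (0 : ℤ) ≤ m := Nat.cast_nonneg m
  have h7 : ((m : ℤ)) ^ 2 + 2 ≤ n := by
    rw [hn]
    have h8 : (m : ℤ) ^ 2 ≤ (k - D) ^ 2 := by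
      apply pow_le_pow_left₀ h6
      linarith
    nlinarith [hh'.1]
  exact_mod_cast h7

lemma Geo.form (g : Geo K D H h₀ x k n h) {m : ℕ} (hm : m + D ≤ k) :
    lf (k - m) k h = ((n - m ^ 2 : ℕ) : ℤ) := by
  have h1 := g.sq_lt hm
  rw [Nat.cast_sub (by omega : m ^ 2 ≤ n), g.hn]
  unfold lf
  rw [Nat.cast_sub (by omega : m ≤ k)]
  push_cast
  ring

lemma Geo.upper (g : Geo K D H h₀ x k n h) {m : ℕ} (hm : m + D ≤ k) (hm2 : k ≤ m + 2 * D) :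
    n - m ^ 2 ≤ 9 * D * K ∧ n - m ^ 2 ≤ 2 * x := by
  have h1 := g.sq_lt hm
  obtain ⟨hx, hD, hDK, hH, hh, hk, hh', hn⟩ := g
  rw [Finset.mem_Ioc] at hk hh'
  have h2 := abs_le.1 hh
  have h3 : (3 : ℤ) ≤ D := by exact_mod_cast hD
  have h4 : (4 : ℤ) * D ≤ K := by exact_mod_cast hDK
  have h5 : (K : ℤ) < k := by exact_mod_cast hk.1
  have h5' : (k : ℤ) ≤ 2 * K := by exact_mod_cast hk.2
  have h6 : (k : ℤ) ≤ m + 2 * D := by exact_mod_cast hm2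
  have h7 : (H : ℤ) ≤ K := by exact_mod_cast hH
  have h8 : ((n - m ^ 2 : ℕ) : ℤ) ≤ 9 * D * K := by
    rw [Nat.cast_sub (by omega : m ^ 2 ≤ n), hn]
    have h9 : ((k : ℤ) - 2 * D) ^ 2 ≤ (m : ℤ) ^ 2 := by
      apply pow_le_pow_left₀
      · linarith
      · linarith
    push_cast
    nlinarith [hh'.2]
  have h9 : n - m ^ 2 ≤ 9 * D * K := by exact_mod_cast h8
  refine ⟨h9, h9.trans ?_⟩
  rw [hx]
  nlinarith

lemma Geo.fz (g : Geo K D H h₀ x k n h) (z : ℕ) {m : ℕ} (hm : m + D ≤ k) (hm2 : k ≤ m + 2 * D) :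
    fz z x (lf (k - m) k h) = ff z (n - m ^ 2) := by
  have h1 := g.sq_lt hm
  have h2 := (g.upper hm hm2).2
  rw [g.form hm]
  unfold SSQ.fz
  rw [if_pos ⟨by omega, by exact_mod_cast h2⟩, Int.toNat_natCast]

/-- the reflection `d = k - m` -/
lemma sum_refl (f : ℕ → ℝ) (k M₁ M₂ : ℕ) (h1 : M₁ ≤ M₂) (h2 : M₂ ≤ k) :
    ∑ m ∈ Ico M₁ M₂, f (k - m) = ∑ d ∈ Ioc (k - M₂) (k - M₁), f d := by
  refine Finset.sum_nbij' (fun m => k - m) (fun d => k - d) ?_ ?_ ?_ ?_ ?_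
  · intro m hm
    rw [Finset.mem_Ico] at hm
    rw [Finset.mem_Ioc]
    omega
  · intro d hd
    rw [Finset.mem_Ioc] at hd
    rw [Finset.mem_Ico]
    omega
  · intro m hm
    rw [Finset.mem_Ico] at hm
    omega
  · intro d hd
    rw [Finset.mem_Ioc] at hd
    omega
  · intro m _
    rfl

/-- summation by parts -/
lemma Geo.weights (g : Geo K D H h₀ x k n h) (z : ℕ) (c : ℕ → ℝ) (T : ℝ)
    (hT : ∀ y : ℕ, D ≤ y → y ≤ 2 * D → |∑ d ∈ Ioc D y, c d * SSQ.fz z x (lf d k h)| ≤ T)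
    (M₁ M₂ : ℕ) (h1 : k ≤ M₁ + 2 * D) (h2 : M₁ ≤ M₂) (h3 : M₂ + D ≤ k) :
    |∑ m ∈ Ico M₁ M₂, c (k - m) * (G0 (n - m ^ 2) - G1 z (n - m ^ 2))| ≤ 8 * T := by
  have hT0 : 0 ≤ T := (abs_nonneg _).trans (hT D le_rfl (by omega))
  rcases h2.eq_or_lt with h | hlt
  · rw [h, Finset.Ico_self, Finset.sum_empty, abs_zero]
    linarith
  obtain ⟨N, hN⟩ : ∃ N, M₂ = M₁ + (N + 1) := ⟨M₂ - M₁ - 1, by omega⟩
  have hsum : ∑ m ∈ Ico M₁ M₂, c (k - m) * (G0 (n - m ^ 2) - G1 z (n - m ^ 2)) =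
      ∑ i ∈ range (N + 1), (1 / Real.log ((n - (M₁ + i) ^ 2 : ℕ) : ℝ)) *
        (c (k - (M₁ + i)) * SSQ.fz z x (lf (k - (M₁ + i)) k h)) := by
    rw [Finset.sum_Ico_eq_sum_range, hN, Nat.add_sub_cancel_left]
    refine Finset.sum_congr rfl fun i hi => ?_
    rw [Finset.mem_range] at hi
    have h4 : (M₁ + i) + D ≤ k := by omega
    rw [G0_sub_G1 z _ (by have := g.sq_lt h4; omega), g.fz z h4 (by omega)]
    ring
  rw [hsum]
  have key := abel_mono N (fun i => c (k - (M₁ + i)) * SSQ.fz z x (lf (k - (M₁ + i)) k h))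
    (fun i => 1 / Real.log ((n - (M₁ + i) ^ 2 : ℕ) : ℝ)) 2 (2 * T) (fun m _ => inv_log_nonneg _) (inv_log_le _)
    (fun i hi => by
      have h4 : (M₁ + (i + 1)) + D ≤ k := by omega
      have h5 := g.sq_lt h4
      have h6 : n - (M₁ + (i + 1)) ^ 2 ≤ n - (M₁ + i) ^ 2 :=
        Nat.sub_le_sub_left (Nat.pow_le_pow_left (by omega) 2) n
      have h7 : (0 : ℝ) < Real.log ((n - (M₁ + (i + 1)) ^ 2 : ℕ) : ℝ) := by
        refine Real.log_pos ?_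
        have : 2 ≤ n - (M₁ + (i + 1)) ^ 2 := by omega
        exact_mod_cast this
      refine one_div_le_one_div_of_le h7 (Real.log_le_log ?_ (by exact_mod_cast h6))
      have : 0 < n - (M₁ + (i + 1)) ^ 2 := by omega
      exact_mod_cast this)
    (fun y hy => by
      have h4 : ∑ i ∈ range (y + 1), c (k - (M₁ + i)) * SSQ.fz z x (lf (k - (M₁ + i)) k h) =
          ∑ m ∈ Ico M₁ (M₁ + (y + 1)), c (k - m) * SSQ.fz z x (lf (k - m) k h) := by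
        rw [Finset.sum_Ico_eq_sum_range, Nat.add_sub_cancel_left]
      rw [h4, sum_refl (fun d => c d * SSQ.fz z x (lf d k h)) k M₁ (M₁ + (y + 1)) (by omega) (by omega)]
      have h5 : ∑ d ∈ Ioc D (k - M₁), c d * SSQ.fz z x (lf d k h) =
          ∑ d ∈ Ioc D (k - (M₁ + (y + 1))), c d * SSQ.fz z x (lf d k h) +
            ∑ d ∈ Ioc (k - (M₁ + (y + 1))) (k - M₁), c d * SSQ.fz z x (lf d k h) :=
        (Finset.sum_Ioc_consecutive _ (by omega) (by omega)).symm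
      have h6 := hT (k - M₁) (by omega) (by omega)
      have h7 := hT (k - (M₁ + (y + 1))) (by omega) (by omega)
      rw [abs_le] at h6 h7 ⊢
      constructor <;> linarith [h6.1, h6.2, h7.1, h7.2])
  calc _ ≤ 2 * 2 * (2 * T) := key
    _ = 8 * T := by ring

end Pool.Agent.SSQ
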