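import Pool.Agent.Lib.SSQ.LowS

/-!
# The sieve model has the expected size in intervals whose length is a power of the logarithm
-/

set_option autoImplicit false

open Finset Filter

namespace Pool.Agent.SSQ

open Pool.Agent.HLB Pool.Agent.HLT Pool.Agent.HLU Pool.Agent.SQP

open SieveAux

lemma DZ_le_one' (z : ℕ) : DZ z ≤ 1 := by
  unfold DZ
  refine Finset.prod_le_one (fun p hp => (Pool.Agent.HL.one_sub_inv_pos (Nat.mem_primesLE.1 hp).2).le) fun p _ => ?_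
  have : (0 : ℝ) ≤ 1 / (p : ℝ) := by positivity
  linarith

/-- lower bound for the model -/
theorem low_G1 : ∃ K : ℕ, ∀ B : ℕ, ∀ᶠ x : ℕ in atTop, ∀ n m₀ D : ℕ,
    4 * Real.log x ^ (2 * K * (B + 1) + 4) ≤ D → (m₀ + D) ^ 2 + 2 ≤ n →
    (∀ m ∈ Ioc m₀ (m₀ + D), n - m ^ 2 ≤ 2 * x) →
    (D : ℝ) / (8 * Real.log x ^ 4) ≤ ∑ m ∈ Ioc m₀ (m₀ + D), G1 (zA B x) (n - m ^ 2) := by
  classical
  obtain ⟨K, hK⟩ := low_det 2
  refine ⟨K, fun B => ?_⟩
  filter_upwards [DZ_inv_le B, HLU.ev_log 4, eventually_ge_atTop 1] with x hDZ hL hx1 n m₀ D hDL hMn hup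
  set L := Real.log x with hLdef
  set z := zA B x with hz
  have hL0 : 0 < L := by linarith
  have hL1 : 1 ≤ L := by linarith
  have hDpos0 : (0 : ℝ) ≤ D := Nat.cast_nonneg D
  have hxpos : (0 : ℝ) < x := by exact_mod_cast hx1
  have hle : ∀ m : ℕ, m ≤ m₀ + D → m ^ 2 + 2 ≤ n := fun m hm => by
    have := Nat.pow_le_pow_left hm 2
    omega
  -- the level
  have hzL : (z : ℝ) ≤ L ^ B := Nat.floor_le (by positivity)
  have hz1 : ((z + 1 : ℕ) : ℝ) ≤ L ^ (B + 1) := by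
    push_cast
    have h1 : (1 : ℝ) ≤ L ^ B := one_le_pow₀ hL1
    calc (z : ℝ) + 1 ≤ 2 * L ^ B := by linarith
      _ ≤ L ^ B * L := by nlinarith
      _ = L ^ (B + 1) := by rw [pow_succ]
  have hR : (((z + 1) ^ K : ℕ) : ℝ) ^ 2 ≤ L ^ (2 * K * (B + 1)) := by
    push_cast at hz1 ⊢
    calc (((z : ℝ) + 1) ^ K) ^ 2 ≤ ((L ^ (B + 1)) ^ K) ^ 2 :=
          pow_le_pow_left₀ (by positivity) (pow_le_pow_left₀ (by positivity) hz1 K) 2
      _ = L ^ (2 * K * (B + 1)) := by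
          rw [← pow_mul, ← pow_mul]
          congr 1
          ring
  -- the local densities
  set ρ : ℝ := ∏ p ∈ Nat.primesLE z, (1 - ((sqr n p).card : ℝ) / p) with hρ
  have hρF : ∏ p ∈ Nat.primesLE z, (1 - ((Fs n m₀ p).card : ℝ) / p) = ρ := by
    rw [hρ]
    refine Finset.prod_congr rfl fun p hp => ?_
    rw [card_Fs n m₀ (Nat.mem_primesLE.1 hp).2.pos]
  have hDZ1 : 1 / L ≤ DZ z := by
    rw [div_le_iff₀ hL0]
    have h8 := DZ_pos z
    calc (1 : ℝ) = DZ z * (DZ z)⁻¹ := (mul_inv_cancel₀ h8.ne').symm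
      _ ≤ DZ z * L := mul_le_mul_of_nonneg_left hDZ h8.le
  have hρ1 : 1 / L ^ 3 ≤ ρ := by
    have h1 := prod_sqr z n
    have h2 := SQ_ge z n
    have h3 := DZ_pos z
    have h4 : ρ = DZ z * SQ z n := by
      rw [← h1, hρ, ← mul_assoc, mul_inv_cancel₀ h3.ne', one_mul]
    have h5 : DZ z * DZ z ^ 2 ≤ ρ := by
      rw [h4]
      exact mul_le_mul_of_nonneg_left h2 h3.le
    calc 1 / L ^ 3 = (1 / L) ^ 3 := by rw [div_pow, one_pow]
      _ ≤ DZ z ^ 3 := pow_le_pow_left₀ (by positivity) hDZ1 3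
      _ = DZ z * DZ z ^ 2 := by ring
      _ ≤ ρ := h5
  -- the sieve
  have hs := hK z D (Fs n m₀) (fun p hp =>
      ⟨Fs_sub n m₀ p, by
        rw [card_Fs n m₀ (Nat.mem_primesLE.1 hp).2.pos]
        exact card_sqr_le n (Nat.mem_primesLE.1 hp).2⟩)
  rw [hρF] at hs
  set T := (Ioc m₀ (m₀ + D)).filter (fun m => ∀ p ∈ Nat.primesLE z, m % p ∉ sqr n p) with hT
  have hcard : ((Icc 1 D).filter (fun n_1 => ∀ p ∈ Nat.primesLE z, n_1 % p ∉ Fs n m₀ p)).card ≤ T.card := by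
    refine Finset.card_le_card_of_injOn (fun i => m₀ + i) ?_ ?_
    · intro i hi
      rw [Finset.mem_coe, Finset.mem_filter, Finset.mem_Icc] at hi
      change m₀ + i ∈ (T : Set ℕ)
      rw [Finset.mem_coe, hT, Finset.mem_filter, Finset.mem_Ioc]
      refine ⟨⟨by omega, by omega⟩, fun p hp => ?_⟩
      rw [mem_Fs n m₀ i (Nat.mem_primesLE.1 hp).2.pos]
      exact hi.2 p hp
    · intro a _ b _ hab
      simpa using hab
  have hcount : (D : ℝ) / (4 * L ^ 3) ≤ T.card := by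
    have h1 : (((Icc 1 D).filter (fun n_1 => ∀ p ∈ Nat.primesLE z, n_1 % p ∉ Fs n m₀ p)).card : ℝ) ≤ T.card := by
      exact_mod_cast hcard
    have h2 : (D : ℝ) * (1 / L ^ 3) ≤ D * ρ := mul_le_mul_of_nonneg_left hρ1 hDpos0
    have h3 : L ^ (2 * K * (B + 1)) ≤ D / (4 * L ^ 3) := by
      rw [le_div_iff₀ (by positivity)]
      calc L ^ (2 * K * (B + 1)) * (4 * L ^ 3) = 4 * L ^ (2 * K * (B + 1) + 3) := by rw [pow_add]; ring
        _ ≤ 4 * L ^ (2 * K * (B + 1) + 4) :=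
            mul_le_mul_of_nonneg_left (pow_le_pow_right₀ hL1 (by omega)) (by norm_num)
        _ ≤ D := hDL
    have h4 : (D : ℝ) / (4 * L ^ 3) = 1 / 2 * (D * (1 / L ^ 3)) - D / (4 * L ^ 3) := by
      field_simp
      ring
    rw [h4]
    linarith
  calc (D : ℝ) / (8 * L ^ 4) = (D : ℝ) / (4 * L ^ 3) * (1 / (2 * L)) := by
        field_simp
        ring
    _ ≤ T.card * (1 / (2 * L)) := mul_le_mul_of_nonneg_right hcount (by positivity)
    _ = ∑ _m ∈ T, 1 / (2 * L) := by rw [Finset.sum_const, nsmul_eq_mul]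
    _ ≤ ∑ m ∈ T, G1 z (n - m ^ 2) := by
        refine Finset.sum_le_sum fun m hm => ?_
        rw [hT, Finset.mem_filter] at hm
        have hm2 := Finset.mem_Ioc.1 hm.1
        have h1 := hle m hm2.2
        have h2 := hup m hm.1
        unfold G1 nuz
        rw [ic_eq (by omega : m ^ 2 ≤ n), if_pos hm.2, mul_one]
        have h3 : (1 : ℝ) ≤ (DZ z)⁻¹ := (one_le_inv₀ (DZ_pos z)).2 (DZ_le_one' z)
        have h5 : 2 ≤ n - m ^ 2 := by omega
        have h6 : (0 : ℝ) < Real.log ((n - m ^ 2 : ℕ) : ℝ) := Real.log_pos (by exact_mod_cast h5)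
        have h7 : ((n - m ^ 2 : ℕ) : ℝ) ≤ 2 * (x : ℝ) := by exact_mod_cast h2
        have h8 : (0 : ℝ) < ((n - m ^ 2 : ℕ) : ℝ) := by
          have : 0 < n - m ^ 2 := by omega
          exact_mod_cast this
        have h9 := Real.log_le_log h8 h7
        rw [Real.log_mul (by norm_num) hxpos.ne'] at h9
        have h10 := Real.log_two_lt_d9
        have h11 : Real.log ((n - m ^ 2 : ℕ) : ℝ) ≤ 2 * L := by linarith
        have h12 : 1 / (2 * L) ≤ 1 / Real.log ((n - m ^ 2 : ℕ) : ℝ) := one_div_le_one_div_of_le h6 h11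
        calc 1 / (2 * L) ≤ 1 / Real.log ((n - m ^ 2 : ℕ) : ℝ) := h12
          _ = 1 * (1 / Real.log ((n - m ^ 2 : ℕ) : ℝ)) := (one_mul _).symm
          _ ≤ (DZ z)⁻¹ * (1 / Real.log ((n - m ^ 2 : ℕ) : ℝ)) :=
              mul_le_mul_of_nonneg_right h3 (by positivity)
    _ ≤ ∑ m ∈ Ioc m₀ (m₀ + D), G1 z (n - m ^ 2) :=
        Finset.sum_le_sum_of_subset_of_nonneg (Finset.filter_subset _ _) fun m _ _ => G1_nonneg _ _

end Pool.Agent.SSQ
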