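import Pool.Agent.Lib.SSQ.ExcL
import Pool.Agent.Lib.SSQ.Final
import Pool.Agent.Lib.SSQ.LowG

/-!
# Existence, for one block of differences whose size is a power of the logarithm
-/

set_option autoImplicit false

open Finset Filter

namespace Pool.Agent.SSQ

open Pool.Agent.HLB Pool.Agent.HLT Pool.Agent.HLU Pool.Agent.SQP

/-- the theorem for one block, with a power of the logarithm -/
def Key3 (ε : ℝ) : Prop := ∀ A : ℕ, ∃ N K₀ : ℕ, ∀ K H : ℕ, ∀ h₀ : ℤ, K₀ ≤ K → (K : ℝ) ^ (1 / 6 + ε) ≤ H → H ≤ K →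
  |h₀| ≤ 2 * K →
  ∃ E : Finset (ℕ × ℤ), (E.card : ℝ) ≤ K * H / Real.log K ^ A ∧
    ∀ k ∈ Ioc K (2 * K), ∀ h ∈ Ioc h₀ (h₀ + H), (k, h) ∉ E →
      ∃ m p : ℕ, p.Prime ∧ (k : ℤ) ^ 2 + h = (m : ℤ) ^ 2 + p ∧
        (p : ℝ) ≤ 9 * K * Real.log K ^ N

/-- the parameters -/
lemma ev_parL (ε : ℝ) (hε : 0 < ε) (N x₀ : ℕ) : ∀ᶠ K : ℕ in atTop, ∀ D H : ℕ, 3 ≤ D → (D : ℝ) ≤ Real.log K ^ N →
    (K : ℝ) ^ (1 / 6 + ε) ≤ H → H ≤ K →
    x₀ ≤ 5 * D * K ∧ 1 ≤ K ∧ 4 * D ≤ K ∧ Real.log K ≤ Real.log ((5 * D * K : ℕ) : ℝ) ∧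
      Real.log ((5 * D * K : ℕ) : ℝ) ≤ 3 * Real.log K ∧
      (D : ℝ) * ((D : ℝ) * K) ^ (1 / 6 + ε / 2) ≤ H := by
  have e1 := VK.SIAux.ev_log N (δ := 1 / 4) (by norm_num)
  have e2 := VK.SIAux.ev_log (2 * N) (δ := ε / 2) (by linarith)
  filter_upwards [e1, e2, ev_L 7, eventually_ge_atTop (max x₀ 300)] with K e1 e2 hL hK D H hD hDN hKH hHK
  have hK5 : 300 ≤ K := (le_max_right _ _).trans hK
  have hKx : x₀ ≤ K := (le_max_left _ _).trans hK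
  have hK0 : (300 : ℝ) ≤ K := by exact_mod_cast hK5
  have hKpos : (0 : ℝ) < K := by linarith
  have hK1r : (1 : ℝ) ≤ K := by linarith
  have hDr : (3 : ℝ) ≤ D := by exact_mod_cast hD
  have hl1' : (1 : ℝ) ≤ Real.log K := by linarith
  have hDK : (D : ℝ) ≤ (K : ℝ) ^ (1 / 4 : ℝ) := hDN.trans e1
  have hq : (K : ℝ) ^ (1 / 4 : ℝ) * (K : ℝ) ^ (1 / 4 : ℝ) = (K : ℝ) ^ (1 / 2 : ℝ) := by
    rw [← Real.rpow_add hKpos]
    norm_num
  have hh : (K : ℝ) ^ (1 / 2 : ℝ) * (K : ℝ) ^ (1 / 2 : ℝ) = K := by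
    rw [← Real.rpow_add hKpos]
    norm_num
  have h16 : (16 : ℝ) ≤ (K : ℝ) ^ (1 / 2 : ℝ) := by
    have h1 : (256 : ℝ) ^ (1 / 2 : ℝ) ≤ (K : ℝ) ^ (1 / 2 : ℝ) :=
      Real.rpow_le_rpow (by norm_num) (by linarith) (by norm_num)
    have h2 : (256 : ℝ) ^ (1 / 2 : ℝ) = 16 := by
      rw [show (256 : ℝ) = 16 ^ (2 : ℝ) by norm_num, ← Real.rpow_mul (by norm_num)]
      norm_num
    rwa [h2] at h1
  have hq1 : (1 : ℝ) ≤ (K : ℝ) ^ (1 / 4 : ℝ) := Real.one_le_rpow hK1r (by norm_num)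
  have h4D : (4 : ℝ) * D ≤ K := by
    have h1 : (K : ℝ) ^ (1 / 4 : ℝ) ≤ (K : ℝ) ^ (1 / 2 : ℝ) := by nlinarith
    nlinarith
  have h4Dn : 4 * D ≤ K := by exact_mod_cast h4D
  have hxc : ((5 * D * K : ℕ) : ℝ) = 5 * D * K := by push_cast; ring
  have hlow : (K : ℝ) ≤ ((5 * D * K : ℕ) : ℝ) := by
    rw [hxc]
    nlinarith
  have hupp : ((5 * D * K : ℕ) : ℝ) ≤ (K : ℝ) ^ 3 := by
    rw [hxc]
    have h1 : (D : ℝ) ≤ K := by linarith
    have h2 : (5 : ℝ) * D * K ≤ K * K * K := by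
      have h3 : (5 : ℝ) * D ≤ K * K := mul_le_mul (by linarith) h1 (by linarith) (by linarith)
      exact mul_le_mul_of_nonneg_right h3 (by linarith)
    nlinarith
  have hl1 : Real.log K ≤ Real.log ((5 * D * K : ℕ) : ℝ) := Real.log_le_log (by linarith) hlow
  have hl2 : Real.log ((5 * D * K : ℕ) : ℝ) ≤ 3 * Real.log K := by
    have h1 := Real.log_le_log (by linarith) hupp
    rw [Real.log_pow] at h1
    exact_mod_cast h1
  refine ⟨?_, by omega, h4Dn, hl1, hl2, ?_⟩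
  · have h1 : K ≤ 5 * D * K := Nat.le_mul_of_pos_left K (by omega)
    exact hKx.trans h1
  · refine le_trans ?_ hKH
    have hD2 : (D : ℝ) ^ 2 ≤ (K : ℝ) ^ (ε / 2) := by
      refine le_trans ?_ e2
      calc (D : ℝ) ^ 2 ≤ (Real.log K ^ N) ^ 2 := pow_le_pow_left₀ (by linarith) hDN 2
        _ = Real.log K ^ (2 * N) := by rw [← pow_mul, mul_comm]
    by_cases hε1 : 1 / 6 + ε / 2 ≤ 1
    swap
    · exfalso
      push Not at hε1
      have h1 : (K : ℝ) ^ (1 : ℝ) < (K : ℝ) ^ (1 / 6 + ε) :=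
        Real.rpow_lt_rpow_of_exponent_lt (by linarith) (by linarith)
      rw [Real.rpow_one] at h1
      have h2 : (H : ℝ) ≤ K := by exact_mod_cast hHK
      linarith
    have h1 : ((D : ℝ) * K) ^ (1 / 6 + ε / 2) ≤ D * (K : ℝ) ^ (1 / 6 + ε / 2) := by
      rw [Real.mul_rpow (by linarith) (by linarith)]
      refine mul_le_mul_of_nonneg_right ?_ (by positivity)
      calc (D : ℝ) ^ (1 / 6 + ε / 2) ≤ (D : ℝ) ^ (1 : ℝ) :=
            Real.rpow_le_rpow_of_exponent_le (by linarith) hε1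
        _ = D := Real.rpow_one _
    calc (D : ℝ) * ((D : ℝ) * K) ^ (1 / 6 + ε / 2) ≤ D * (D * (K : ℝ) ^ (1 / 6 + ε / 2)) :=
          mul_le_mul_of_nonneg_left h1 (by linarith)
      _ = (D : ℝ) ^ 2 * (K : ℝ) ^ (1 / 6 + ε / 2) := by ring
      _ ≤ (K : ℝ) ^ (ε / 2) * (K : ℝ) ^ (1 / 6 + ε / 2) := mul_le_mul_of_nonneg_right hD2 (by positivity)
      _ = (K : ℝ) ^ (1 / 6 + ε) := by
          rw [← Real.rpow_add (by linarith)]
          congr 1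
          ring

theorem keyL (ε : ℝ) (hε : 0 < ε) : Key3 ε := by
  intro A
  obtain ⟨B, N0, -, hexc0⟩ := excL (ε / 2) (by linarith) (A + 7) 0
  obtain ⟨Ks, hlow0⟩ := low_G1
  obtain ⟨N1, hN1⟩ : ∃ N1 : ℕ, N1 = max N0 (2 * Ks * (B + 1) + 4) := ⟨_, rfl⟩
  obtain ⟨x₀, hx₀⟩ := eventually_atTop.mp (hexc0.and (hlow0 B))
  obtain ⟨K₀, hK₀⟩ := eventually_atTop.mp ((ev_parL ε hε (2 * N1 + 1) x₀).and (ev_L (5 * 3 ^ N1 + 20)))
  refine ⟨2 * N1 + 1, K₀, fun K H h₀ hK hHl hHK hh => ?_⟩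
  obtain ⟨hpar, hL⟩ := hK₀ K hK
  set l := Real.log K with hl
  have h3N : (1 : ℝ) ≤ 3 ^ N1 := one_le_pow₀ (by norm_num)
  have hl20 : 20 ≤ l := by linarith
  have hl0 : 0 < l := by linarith
  have hl1' : 1 ≤ l := by linarith
  obtain ⟨D, hD⟩ : ∃ D : ℕ, D = ⌈4 * (3 * l) ^ N1⌉₊ := ⟨_, rfl⟩
  have hDl : 4 * (3 * l) ^ N1 ≤ D := by rw [hD]; exact Nat.le_ceil _
  have hpow1 : (1 : ℝ) ≤ (3 * l) ^ N1 := one_le_pow₀ (by linarith)
  have hDu : (D : ℝ) ≤ l ^ (2 * N1 + 1) := by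
    have h1 : (D : ℝ) ≤ 4 * (3 * l) ^ N1 + 1 := by
      rw [hD]
      exact (Nat.ceil_lt_add_one (by positivity)).le
    have h2 : (3 * l) ^ N1 = 3 ^ N1 * l ^ N1 := mul_pow _ _ _
    have h3 : 1 ≤ l ^ N1 := one_le_pow₀ hl1'
    calc (D : ℝ) ≤ 5 * (3 * l) ^ N1 := by linarith
      _ = (5 * 3 ^ N1) * l ^ N1 := by rw [h2]; ring
      _ ≤ l * l ^ N1 := mul_le_mul_of_nonneg_right (by linarith) (by positivity)
      _ = l ^ (N1 + 1) := by rw [pow_succ]; ring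
      _ ≤ l ^ (2 * N1 + 1) := pow_le_pow_right₀ hl1' (by omega)
  have hD3 : 3 ≤ D := by
    have : (3 : ℝ) ≤ D := by linarith
    exact_mod_cast this
  have hDpos : (0 : ℝ) < D := by
    have : 0 < D := by omega
    exact_mod_cast this
  obtain ⟨hxx, hK1, h4D, hl1, hl2, hDH⟩ := hpar D H hD3 hDu hHl hHK
  have hKr : (1 : ℝ) ≤ K := by exact_mod_cast hK1
  obtain ⟨hexc, hlow⟩ := hx₀ _ hxx
  set x := 5 * D * K with hx
  set L := Real.log (x : ℝ) with hLd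
  have hL0 : 0 < L := by linarith
  have hL1 : 1 ≤ L := by linarith
  have hLN : ∀ N : ℕ, N ≤ N1 → 4 * L ^ N ≤ D := by
    intro N hN
    refine le_trans ?_ hDl
    refine mul_le_mul_of_nonneg_left ?_ (by norm_num)
    calc L ^ N ≤ L ^ N1 := pow_le_pow_right₀ hL1 hN
      _ ≤ (3 * l) ^ N1 := pow_le_pow_left₀ hL0.le hl2 _
  obtain ⟨E, hE1, hE2⟩ := hexc K D H h₀ rfl hK1 h4D hDH hHK hh (hLN N0 (by rw [hN1]; exact le_max_left _ _))
    (fun _ => 1) (fun _ => by simp)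
  refine ⟨E, ?_, fun k hk h hh' hkh => ?_⟩
  · refine hE1.trans ?_
    refine div_le_div_of_nonneg_left (by positivity) (by positivity) ?_
    calc l ^ A ≤ l ^ (A + 7) := pow_le_pow_right₀ hl1' (by omega)
      _ ≤ L ^ (A + 7) := pow_le_pow_left₀ hl0.le hl1 _
  have hk' := Finset.mem_Ioc.1 hk
  have hh'' := Finset.mem_Ioc.1 hh'
  have hpos : 0 ≤ (k : ℤ) ^ 2 + h := by
    have h1 := abs_le.1 hh
    have h2 : (K : ℤ) + 1 ≤ k := by exact_mod_cast hk'.1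
    have h3 : (0 : ℤ) ≤ K := Int.natCast_nonneg K
    nlinarith [hh''.1, h1.1]
  obtain ⟨n, hn⟩ : ∃ n : ℕ, (n : ℤ) = (k : ℤ) ^ 2 + h := ⟨((k : ℤ) ^ 2 + h).toNat, Int.toNat_of_nonneg hpos⟩
  have g : Geo K D H h₀ x k n h := ⟨rfl, hD3, h4D, hHK, hh, hk, hh', hn⟩
  have h1 := g.weights (zA B x) (fun _ => 1) (2 * (D : ℝ) / L ^ (A + 7))
    (fun y hy1 hy2 => hE2 k hk h hh' hkh y hy1 hy2) (k - 2 * D) (k - D) (by omega) (by omega) (by omega)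
  simp only [one_mul] at h1
  rw [Finset.sum_sub_distrib] at h1
  have hI : Ico (k - 2 * D) (k - D) = Ioc (k - 2 * D - 1) ((k - 2 * D - 1) + D) := by
    ext m
    rw [Finset.mem_Ico, Finset.mem_Ioc]
    omega
  have h2 := hlow n (k - 2 * D - 1) D (hLN _ (by rw [hN1]; exact le_max_right _ _))
    (g.sq_lt (by omega)) (fun m hm => by
      rw [Finset.mem_Ioc] at hm
      have h4 := (g.upper (m := m) (by omega) (by omega)).2
      omega)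
  rw [← hI] at h2
  have herr : 8 * (2 * (D : ℝ) / L ^ (A + 7)) < D / (8 * L ^ 4) := by
    rw [← mul_div_assoc, div_lt_div_iff₀ (by positivity) (by positivity)]
    have h3 : L ^ (A + 7) = L ^ A * L ^ 3 * L ^ 4 := by rw [← pow_add, ← pow_add]
    have h4 : 1 ≤ L ^ A := one_le_pow₀ hL1
    have h5 : (20 : ℝ) ^ 3 ≤ L ^ 3 := pow_le_pow_left₀ (by norm_num) (by linarith) 3
    have h6 : (128 : ℝ) < L ^ A * L ^ 3 := by
      norm_num at h5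
      nlinarith
    rw [h3]
    calc 8 * (2 * (D : ℝ)) * (8 * L ^ 4) = D * (128 * L ^ 4) := by ring
      _ < D * (L ^ A * L ^ 3 * L ^ 4) := by
          refine mul_lt_mul_of_pos_left ?_ hDpos
          exact mul_lt_mul_of_pos_right h6 (by positivity)
  have hsum : 0 < ∑ m ∈ Ico (k - 2 * D) (k - D), G0 (n - m ^ 2) := by
    rw [abs_le] at h1
    linarith [h1.1]
  obtain ⟨m, hm, hm0⟩ := Finset.exists_ne_zero_of_sum_ne_zero hsum.ne'
  have hp : (n - m ^ 2).Prime := by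
    unfold G0 at hm0
    by_contra hcon
    rw [if_neg hcon] at hm0
    exact hm0 rfl
  rw [Finset.mem_Ico] at hm
  have h3 := g.sq_lt (m := m) (by omega)
  have h4 := (g.upper (m := m) (by omega) (by omega)).1
  refine ⟨m, n - m ^ 2, hp, ?_, ?_⟩
  · rw [← hn, Nat.cast_sub (by omega : m ^ 2 ≤ n)]
    push_cast
    ring
  · calc ((n - m ^ 2 : ℕ) : ℝ) ≤ ((9 * D * K : ℕ) : ℝ) := by exact_mod_cast h4
      _ = 9 * K * D := by push_cast; ring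
      _ ≤ 9 * K * l ^ (2 * N1 + 1) := mul_le_mul_of_nonneg_left hDu (by positivity)

end Pool.Agent.SSQ
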