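import Pool.Agent.Lib.SSQ.Cor2
import Pool.Agent.Lib.SSQ.KeyL

/-!
From dyadic blocks of `k` to all `n ≤ x` near a square, with a power of the logarithm (as `Cor2`).
-/

set_option autoImplicit false

open Finset Filter

namespace Pool.Agent.SSQ

open Cor2Aux (ev_log ev_rpow ev_log_pow log_two_bound nearest)

namespace CorLAux

theorem expL_bound (N : ℕ) (K n : ℝ) (hK : Real.exp (Real.exp 2) ≤ K) (hn : K ^ 2 ≤ n) :
    9 * K * Real.log K ^ N ≤ Real.sqrt n * Real.log n ^ (N + 1) := by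
  have hK0 : 0 < K := (Real.exp_pos _).trans_le hK
  have hlogK : Real.exp 2 ≤ Real.log K := by
    rw [Real.le_log_iff_exp_le hK0]; exact hK
  have he : (7 : ℝ) ≤ Real.exp 2 := by
    have h1 := Real.exp_one_gt_d9
    have h2 : Real.exp 2 = Real.exp 1 * Real.exp 1 := by
      rw [← Real.exp_add]
      norm_num
    rw [h2]
    nlinarith
  have hlogK0 : 0 < Real.log K := by linarith
  have hsq : K ≤ Real.sqrt n := Real.le_sqrt_of_sq_le hn
  have h1 : 2 * Real.log K ≤ Real.log n := by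
    have h2 := Real.log_le_log (by positivity) hn
    rw [Real.log_pow] at h2
    exact_mod_cast h2
  have h2 : Real.log K ≤ Real.log n := by linarith
  have h3 : (9 : ℝ) ≤ Real.log n := by linarith
  have h4 : Real.log K ^ N ≤ Real.log n ^ N := pow_le_pow_left₀ hlogK0.le h2 N
  calc 9 * K * Real.log K ^ N = K * (9 * Real.log K ^ N) := by ring
    _ ≤ Real.sqrt n * (Real.log n * Real.log n ^ N) := by
        refine mul_le_mul hsq ?_ (by positivity) (Real.sqrt_nonneg _)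
        exact mul_le_mul h3 h4 (by positivity) (by linarith)
    _ = Real.sqrt n * Real.log n ^ (N + 1) := by rw [pow_succ]; ring

/-- one block: the exceptional set for one or for four windows -/
theorem block {ε : ℝ} {A K₀ N : ℕ} (hK : ∀ K H : ℕ, ∀ h₀ : ℤ, K₀ ≤ K → (K : ℝ) ^ (1 / 6 + ε) ≤ H → H ≤ K →
    |h₀| ≤ 2 * K → ∃ E : Finset (ℕ × ℤ), (E.card : ℝ) ≤ K * H / Real.log K ^ A ∧
    ∀ k ∈ Ioc K (2 * K), ∀ h ∈ Ioc h₀ (h₀ + H), (k, h) ∉ E →
      ∃ m p : ℕ, p.Prime ∧ (k : ℤ) ^ 2 + h = (m : ℤ) ^ 2 + p ∧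
        (p : ℝ) ≤ 9 * K * Real.log K ^ N)
    (hε : 1 / 6 + ε ≤ 1) (K t : ℕ) (hK₀ : K₀ ≤ K) (hK1 : 1 ≤ K) (hlog : 0 < Real.log K)
    (ht : (K : ℝ) ^ (1 / 6 + ε) ≤ ((2 * t + 1 : ℕ) : ℝ)) :
    ∃ E : Finset (ℕ × ℤ), (E.card : ℝ) ≤ 4 * (K * ((2 * t + 1 : ℕ) : ℝ) / Real.log K ^ A) ∧
    ∀ k ∈ Ioc K (2 * K), ∀ h : ℤ, -(t : ℤ) ≤ h → h ≤ t → -(2 * K : ℤ) < h → h ≤ 2 * K →
      (k, h) ∉ E → ∃ m p : ℕ, p.Prime ∧ (k : ℤ) ^ 2 + h = (m : ℤ) ^ 2 + p ∧
        (p : ℝ) ≤ 9 * K * Real.log K ^ N := by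
  classical
  have hlogA : 0 < Real.log K ^ A := by positivity
  by_cases hc : 2 * t + 1 ≤ K
  · obtain ⟨E, hE1, hE2⟩ := hK K (2 * t + 1) (-(t : ℤ) - 1) hK₀ ht hc (by
      have e : |-(t : ℤ) - 1| = (t : ℤ) + 1 := by
        rw [abs_of_nonpos (by omega)]; ring
      rw [e]; omega)
    refine ⟨E, hE1.trans ?_, fun k hk h h1 h2 _ _ hE => hE2 k hk h
      (Finset.mem_Ioc.2 ⟨by omega, by push_cast; omega⟩) hE⟩
    have : 0 ≤ (K : ℝ) * ((2 * t + 1 : ℕ) : ℝ) / Real.log K ^ A := by positivity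
    linarith
  · rw [not_le] at hc
    have hKr : (1 : ℝ) ≤ K := by exact_mod_cast hK1
    have hKK : (K : ℝ) ^ (1 / 6 + ε) ≤ K := by
      calc (K : ℝ) ^ (1 / 6 + ε) ≤ (K : ℝ) ^ (1 : ℝ) := Real.rpow_le_rpow_of_exponent_le hKr hε
        _ = K := Real.rpow_one _
    obtain ⟨E1, hE1, hF1⟩ := hK K K (-(2 * K : ℤ)) hK₀ hKK le_rfl (by
      rw [abs_of_nonpos (by omega)]; omega)
    obtain ⟨E2, hE2, hF2⟩ := hK K K (-(K : ℤ)) hK₀ hKK le_rfl (by
      rw [abs_of_nonpos (by omega)]; omega)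
    obtain ⟨E3, hE3, hF3⟩ := hK K K 0 hK₀ hKK le_rfl (by
      rw [abs_zero]; omega)
    obtain ⟨E4, hE4, hF4⟩ := hK K K (K : ℤ) hK₀ hKK le_rfl (by
      rw [abs_of_nonneg (by omega)]; omega)
    refine ⟨E1 ∪ E2 ∪ E3 ∪ E4, ?_, ?_⟩
    · have c1 : (E1 ∪ E2 ∪ E3 ∪ E4).card ≤ E1.card + E2.card + E3.card + E4.card := by
        have a1 := Finset.card_union_le (E1 ∪ E2 ∪ E3) E4
        have a2 := Finset.card_union_le (E1 ∪ E2) E3
        have a3 := Finset.card_union_le E1 E2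
        omega
      have c2 : ((E1 ∪ E2 ∪ E3 ∪ E4).card : ℝ) ≤ (E1.card : ℝ) + E2.card + E3.card + E4.card := by
        exact_mod_cast c1
      have c3 : (K : ℝ) * K / Real.log K ^ A ≤ K * ((2 * t + 1 : ℕ) : ℝ) / Real.log K ^ A := by
        apply div_le_div_of_nonneg_right _ hlogA.le
        apply mul_le_mul_of_nonneg_left _ (by linarith)
        exact_mod_cast hc.le
      linarith
    · intro k hk h _ _ h3 h4 hE
      simp only [Finset.mem_union, not_or] at hE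
      obtain ⟨⟨⟨n1, n2⟩, n3⟩, n4⟩ := hE
      by_cases b1 : h ≤ -(K : ℤ)
      · exact hF1 k hk h (Finset.mem_Ioc.2 ⟨h3, by omega⟩) n1
      · by_cases b2 : h ≤ 0
        · exact hF2 k hk h (Finset.mem_Ioc.2 ⟨by omega, by omega⟩) n2
        · by_cases b3 : h ≤ K
          · exact hF3 k hk h (Finset.mem_Ioc.2 ⟨by omega, by omega⟩) n3
          · exact hF4 k hk h (Finset.mem_Ioc.2 ⟨by omega, by omega⟩) n4

end CorLAux

open CorLAux

theorem corL (ε : ℝ) (hε : 0 < ε) (hε1 : ε ≤ 5 / 12) (hkey : Key3 ε) (A : ℕ) : ∃ B x₀ : ℕ, ∀ x : ℕ, x₀ ≤ x →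
    ∀ S : Finset ℕ, S ⊆ Icc 1 x → (∀ n ∈ S, ∃ k : ℕ, (|(n : ℤ) - (k : ℤ) ^ 2| : ℝ) ≤ (x : ℝ) ^ (1 / 12 + ε)) →
      (∀ n ∈ S, ¬ ∃ m p : ℕ, p.Prime ∧ n = m ^ 2 + p ∧
        (p : ℝ) ≤ Real.sqrt n * Real.log n ^ B) →
      (S.card : ℝ) ≤ (x : ℝ) ^ (7 / 12 + ε) / Real.log x ^ A := by
  classical
  obtain ⟨N, K₀, hK⟩ := hkey (A + 2)
  have ev : ∀ᶠ x : ℝ in atTop, (3 ^ (A + 2) * 96 + 30 ≤ Real.log x ∧
      Real.log x ^ (A + 1) ≤ x ^ (1 / 6 : ℝ) ∧ (2 : ℝ) ^ (1 / 6 + ε) ≤ x ^ (ε / 2) ∧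
      (K₀ : ℝ) ≤ x ^ (1 / 3 : ℝ) ∧ Real.exp (Real.exp 2) ≤ x ^ (1 / 3 : ℝ) ∧
      2 ≤ x ^ (1 / 2 : ℝ)) ∧ 1 ≤ x := by
    filter_upwards [ev_log (3 ^ (A + 2) * 96 + 30), ev_log_pow (A + 1) (1 / 6) (by norm_num),
      ev_rpow (ε / 2) (by linarith) ((2 : ℝ) ^ (1 / 6 + ε)),
      ev_rpow (1 / 3) (by norm_num) K₀, ev_rpow (1 / 3) (by norm_num) (Real.exp (Real.exp 2)),
      ev_rpow (1 / 2) (by norm_num) 2,
      eventually_ge_atTop (1 : ℝ)] with x h1 h2 h3 h5 h6 h7 h8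
    exact ⟨⟨h1, h2, h3, h5, h6, h7⟩, h8⟩
  obtain ⟨x₀, hx₀⟩ := eventually_atTop.1 (tendsto_natCast_atTop_atTop.eventually ev)
  refine ⟨N + 1, x₀, fun x hx S hS hS1 hS2 => ?_⟩
  obtain ⟨⟨c1, c2, c3, c5, c6, c7⟩, c8⟩ := hx₀ x hx
  set X : ℝ := (x : ℝ) with hX
  have hX0 : 0 < X := by linarith
  set L := Real.log X with hL
  have h3A : (0 : ℝ) < 3 ^ (A + 2) := by positivity
  have hL30 : 30 ≤ L := by nlinarith
  have hL0 : 0 < L := by linarith
  set T := X ^ (1 / 12 + ε) with hT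
  set R := X ^ (1 / 2 : ℝ) with hR
  set Y := R / L ^ (A + 1) with hY
  have hT1 : 1 ≤ T := Real.one_le_rpow c8 (by linarith)
  have hR0 : 0 < R := Real.rpow_pos_of_pos hX0 _
  have h36 : X ^ (1 / 3 : ℝ) * X ^ (1 / 6 : ℝ) = R := by
    rw [← Real.rpow_add hX0, hR]; norm_num
  have hRR : R * R = X := by
    rw [hR, ← Real.rpow_add hX0]; norm_num
  have h3pos : 0 < X ^ (1 / 3 : ℝ) := Real.rpow_pos_of_pos hX0 _
  have h6pos : 0 < X ^ (1 / 6 : ℝ) := Real.rpow_pos_of_pos hX0 _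
  have hYge : X ^ (1 / 3 : ℝ) ≤ Y := by
    rw [hY, le_div_iff₀ (by positivity), ← h36]
    exact mul_le_mul_of_nonneg_left c2 h3pos.le
  have hexp1 : (1 : ℝ) ≤ Real.exp (Real.exp 2) := Real.one_le_exp (Real.exp_pos _).le
  have hY1 : 1 ≤ Y := by linarith
  set t := ⌊T⌋₊ with ht
  have ht1 : (t : ℝ) ≤ T := Nat.floor_le (by linarith)
  have ht2 : T < t + 1 := Nat.lt_floor_add_one T
  have ht0 : (0 : ℝ) ≤ t := by positivity
  have hTX : T ≤ X := by
    calc T ≤ X ^ (1 : ℝ) := Real.rpow_le_rpow_of_exponent_le c8 (by linarith)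
      _ = X := Real.rpow_one X
  set bound := 4 * (2 * R * (3 * T) / (L / 3) ^ (A + 2)) with hbound
  have hbound0 : 0 ≤ bound := by positivity
  -- the exceptional sets
  have hE : ∀ i : ℕ, ∃ E : Finset (ℕ × ℤ), (E.card : ℝ) ≤ bound ∧
      (Y ≤ ((2 ^ i : ℕ) : ℝ) → ((2 ^ i : ℕ) : ℝ) ≤ 2 * R →
        ∀ k ∈ Ioc (2 ^ i) (2 * 2 ^ i), ∀ h : ℤ, -(t : ℤ) ≤ h → h ≤ t →
          -(2 * ((2 ^ i : ℕ) : ℤ)) < h → h ≤ 2 * ((2 ^ i : ℕ) : ℤ) →
          (k, h) ∉ E → ∃ m p : ℕ, p.Prime ∧ (k : ℤ) ^ 2 + h = (m : ℤ) ^ 2 + p ∧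
            (p : ℝ) ≤ 9 * ((2 ^ i : ℕ) : ℝ) *
              Real.log ((2 ^ i : ℕ) : ℝ) ^ N) := by
    intro i
    by_cases hi : Y ≤ ((2 ^ i : ℕ) : ℝ) ∧ ((2 ^ i : ℕ) : ℝ) ≤ 2 * R
    · obtain ⟨hi1, hi2⟩ := hi
      have hKpos : (0 : ℝ) < ((2 ^ i : ℕ) : ℝ) := by positivity
      have hlogK : L / 3 ≤ Real.log ((2 ^ i : ℕ) : ℝ) := by
        have e1 : X ^ (1 / 3 : ℝ) ≤ ((2 ^ i : ℕ) : ℝ) := hYge.trans hi1
        have e2 := Real.log_le_log h3pos e1
        rw [Real.log_rpow hX0] at e2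
        linarith
      obtain ⟨E, hE1, hE2⟩ := CorLAux.block hK (by linarith) (2 ^ i) t (by
          have : (K₀ : ℝ) ≤ ((2 ^ i : ℕ) : ℝ) := (c5.trans hYge).trans hi1
          exact_mod_cast this) Nat.one_le_two_pow (by linarith) (by
          have e1 : ((2 ^ i : ℕ) : ℝ) ^ (1 / 6 + ε) ≤ (2 * R) ^ (1 / 6 + ε) :=
            Real.rpow_le_rpow hKpos.le hi2 (by linarith)
          have e2 : (2 * R) ^ (1 / 6 + ε) = 2 ^ (1 / 6 + ε) * X ^ (1 / 12 + ε / 2) := by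
            rw [Real.mul_rpow (by norm_num) hR0.le, hR, ← Real.rpow_mul hX0.le]
            congr 2; ring
          have e3 : X ^ (ε / 2) * X ^ (1 / 12 + ε / 2) = T := by
            rw [hT, ← Real.rpow_add hX0]; congr 1; ring
          have e4 : (2 : ℝ) ^ (1 / 6 + ε) * X ^ (1 / 12 + ε / 2) ≤ T := by
            rw [← e3]
            exact mul_le_mul_of_nonneg_right c3 (Real.rpow_nonneg hX0.le _)
          push_cast at e1 ⊢
          linarith)
      refine ⟨E, hE1.trans ?_, fun _ _ => hE2⟩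
      rw [hbound]
      have hpow : (L / 3) ^ (A + 2) ≤ Real.log ((2 ^ i : ℕ) : ℝ) ^ (A + 2) :=
        pow_le_pow_left₀ (by positivity) hlogK _
      have hnum : ((2 ^ i : ℕ) : ℝ) * ((2 * t + 1 : ℕ) : ℝ) ≤ 2 * R * (3 * T) := by
        apply mul_le_mul hi2 _ (by positivity) (by positivity)
        push_cast
        linarith
      exact mul_le_mul_of_nonneg_left
        (div_le_div₀ (by positivity) hnum (by positivity) hpow) (by norm_num)
    · exact ⟨∅, by simpa using hbound0, fun h1 h2 => absurd ⟨h1, h2⟩ hi⟩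
  choose E hE1 hE2 using hE
  set P : Finset (ℕ × ℤ) := (range (⌊2 * Y⌋₊ + 1)) ×ˢ (Icc (-(t : ℤ)) t) with hP
  have hsub : S ⊆ (P ∪ (range (Nat.log 2 x + 1)).biUnion E).image
      (fun p => ((p.1 : ℤ) ^ 2 + p.2).toNat) := by
    intro n hn
    obtain ⟨k0, hk0⟩ := hS1 n hn
    have hnx := Finset.mem_Icc.1 (hS hn)
    obtain ⟨k, hkl, hku, hkn⟩ := nearest n hnx.1
    set h : ℤ := (n : ℤ) - (k : ℤ) ^ 2 with hh
    have hnr : (n : ℝ) = (k : ℝ) ^ 2 + (h : ℝ) := by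
      rw [hh]; push_cast; ring
    have hhT : |(h : ℝ)| ≤ T := by
      have e1 : |(h : ℝ)| ≤ |(((n : ℤ) - (k0 : ℤ) ^ 2 : ℤ) : ℝ)| := by
        exact_mod_cast hkn k0
      refine e1.trans ?_
      push_cast at hk0 ⊢
      exact hk0
    have hht : h.natAbs ≤ t := by
      apply Nat.le_floor
      rw [Nat.cast_natAbs, Int.cast_abs]
      exact hhT
    have hht1 : -(t : ℤ) ≤ h := by omega
    have hht2 : h ≤ t := by omega
    refine Finset.mem_image.2 ⟨(k, h), ?_, ?_⟩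
    · by_cases hks : (k : ℝ) ≤ 2 * Y
      · apply Finset.mem_union_left
        rw [hP, Finset.mem_product]
        refine ⟨Finset.mem_range.2 ?_, Finset.mem_Icc.2 ⟨hht1, hht2⟩⟩
        have := Nat.le_floor hks
        show k < ⌊2 * Y⌋₊ + 1
        omega
      · rw [not_le] at hks
        apply Finset.mem_union_right
        have hk2 : 2 < k := by
          have : (2 : ℝ) < k := by linarith
          exact_mod_cast this
        set i := Nat.log 2 (k - 1) with hi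
        have hi1 : 2 ^ i ≤ k - 1 := Nat.pow_log_le_self 2 (by omega)
        have hi2 : k - 1 < 2 ^ (i + 1) := Nat.lt_pow_succ_log_self (by norm_num) _
        rw [pow_succ] at hi2
        have hki1 : 2 ^ i < k := by omega
        have hki2 : k ≤ 2 * 2 ^ i := by omega
        have hki2r : (k : ℝ) ≤ 2 * ((2 ^ i : ℕ) : ℝ) := by exact_mod_cast hki2
        have hki1r : (((2 ^ i : ℕ) : ℝ)) < k := by exact_mod_cast hki1
        have hki2z : (k : ℤ) ≤ 2 * ((2 ^ i : ℕ) : ℤ) := by exact_mod_cast hki2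
        have hYi : Y ≤ ((2 ^ i : ℕ) : ℝ) := by linarith
        have hnX : (n : ℝ) ≤ X := by rw [hX]; exact Nat.cast_le.2 hnx.2
        have hk2X : (k : ℝ) ^ 2 ≤ 2 * X := by
          have := neg_abs_le (h : ℝ)
          linarith
        have hkR : (k : ℝ) ≤ 2 * R := by
          by_contra hcon
          rw [not_le] at hcon
          have : (2 * R) * (2 * R) < (k : ℝ) * k := by nlinarith
          nlinarith
        have hiR : ((2 ^ i : ℕ) : ℝ) ≤ 2 * R := by linarith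
        have hRX : 2 * R ≤ X := by rw [← hRR]; nlinarith
        have hix : 2 ^ i ≤ x := by
          have : ((2 ^ i : ℕ) : ℝ) ≤ (x : ℝ) := hiR.trans hRX
          exact Nat.cast_le.1 this
        have hilog : i ≤ Nat.log 2 x := Nat.le_log_of_pow_le (by norm_num) hix
        refine Finset.mem_biUnion.2 ⟨i, Finset.mem_range.2 (by omega), ?_⟩
        by_contra hnE
        obtain ⟨m, p, hp, hmp, hpb⟩ := hE2 i hYi hiR k (Finset.mem_Ioc.2 ⟨hki1, hki2⟩) h
          hht1 hht2 (by linarith) (by linarith) hnE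
        apply hS2 n hn
        refine ⟨m, p, hp, ?_, hpb.trans ?_⟩
        · have : (n : ℤ) = (m : ℤ) ^ 2 + p := by rw [← hmp, hh]; ring
          exact_mod_cast this
        · apply expL_bound
          · exact (c6.trans hYge).trans hYi
          · -- K^2 ≤ n
            have e1 : ((2 ^ i : ℕ) : ℝ) + 1 ≤ k := by exact_mod_cast hki1
            have e2 : -((k : ℝ) - 1) ≤ (h : ℝ) := by exact_mod_cast hkl
            have e3 : (0 : ℝ) ≤ ((2 ^ i : ℕ) : ℝ) := by positivity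
            rw [hnr]
            nlinarith
    · show ((k : ℤ) ^ 2 + h).toNat = n
      have : (k : ℤ) ^ 2 + h = n := by rw [hh]; ring
      rw [this]; simp
  -- counting
  have hcard : (S.card : ℝ) ≤ (2 * Y + 1) * (3 * T) + (2 * L) * bound := by
    have e1 := (Finset.card_le_card hsub).trans Finset.card_image_le
    have e2 := e1.trans (Finset.card_union_le _ _)
    have e3 : (((range (Nat.log 2 x + 1)).biUnion E).card : ℝ) ≤
        ((Nat.log 2 x + 1 : ℕ) : ℝ) * bound := by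
      calc (((range (Nat.log 2 x + 1)).biUnion E).card : ℝ)
          ≤ ((∑ i ∈ range (Nat.log 2 x + 1), (E i).card : ℕ) : ℝ) := by
            exact_mod_cast Finset.card_biUnion_le
        _ = ∑ i ∈ range (Nat.log 2 x + 1), ((E i).card : ℝ) := by push_cast; rfl
        _ ≤ ∑ i ∈ range (Nat.log 2 x + 1), bound := Finset.sum_le_sum (fun i _ => hE1 i)
        _ = ((Nat.log 2 x + 1 : ℕ) : ℝ) * bound := by
            rw [Finset.sum_const, Finset.card_range, nsmul_eq_mul]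
    have e4 : (P.card : ℝ) ≤ (2 * Y + 1) * (3 * T) := by
      rw [hP, Finset.card_product, Finset.card_range, Int.card_Icc]
      have f1 : ((t : ℤ) + 1 - -(t : ℤ)).toNat = 2 * t + 1 := by omega
      rw [f1]
      push_cast
      have f2 : ((⌊2 * Y⌋₊ : ℕ) : ℝ) ≤ 2 * Y := Nat.floor_le (by positivity)
      apply mul_le_mul (by linarith) (by linarith) (by positivity) (by positivity)
    have e5 := log_two_bound x (by
      have : (1 : ℝ) ≤ (x : ℝ) := c8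
      exact_mod_cast this) (by linarith)
    have e6 : ((Nat.log 2 x + 1 : ℕ) : ℝ) * bound ≤ (2 * L) * bound :=
      mul_le_mul_of_nonneg_right e5 hbound0
    have e7 : (S.card : ℝ) ≤ (P.card : ℝ) + (((range (Nat.log 2 x + 1)).biUnion E).card : ℝ) := by
      exact_mod_cast e2
    linarith
  refine hcard.trans ?_
  -- the final inequality
  have hZ : X ^ (7 / 12 + ε) = R * T := by
    rw [hR, hT, ← Real.rpow_add hX0]; congr 1; ring
  rw [hZ]
  have hLA : (0 : ℝ) < L ^ (A + 1) := by positivity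
  have g1 : (2 * Y + 1) * (3 * T) ≤ 9 * (R * T) / L ^ (A + 1) := by
    calc (2 * Y + 1) * (3 * T) ≤ (3 * Y) * (3 * T) :=
          mul_le_mul_of_nonneg_right (by linarith) (by linarith)
      _ = 9 * (R * T) / L ^ (A + 1) := by rw [hY]; ring
  have g2 : (2 * L) * bound = 48 * 3 ^ (A + 2) * (R * T) / L ^ (A + 1) := by
    rw [hbound, div_pow]
    rw [show L ^ (A + 2) = L ^ (A + 1) * L by rw [← pow_succ]]
    field_simp
    ring
  rw [g2]
  have g3 : R * T / L ^ A = L * (R * T) / L ^ (A + 1) := by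
    rw [pow_succ]; field_simp
  rw [g3]
  calc (2 * Y + 1) * (3 * T) + 48 * 3 ^ (A + 2) * (R * T) / L ^ (A + 1)
      ≤ 9 * (R * T) / L ^ (A + 1) + 48 * 3 ^ (A + 2) * (R * T) / L ^ (A + 1) := by linarith
    _ = (9 + 48 * 3 ^ (A + 2)) * (R * T) / L ^ (A + 1) := by ring
    _ ≤ L * (R * T) / L ^ (A + 1) := by
        apply div_le_div_of_nonneg_right _ hLA.le
        apply mul_le_mul_of_nonneg_right _ (by positivity)
        nlinarith

end Pool.Agent.SSQ
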