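import Mathlib

/-!
MODULE SSQ.Pair (pure, Mathlib only).  Correlation of `f` along the linear forms `2 d k + h - d²`, `2 d' k + h - d'²`.

PROOF.  Let `q = 2 (d' - d)`, `J = K / V`.  Split `k ∈ (K, 2K]` as `k = K + j V + i`, `j < J`, `i ∈ [1, V]`, and at most `V` remaining `k`
(trivial bound `V H F²`).  For fixed `j` (`kj = K + j V`), fixed `i` substitute `h' = h + 2 d i`:
`f (2 d (kj + i) + h - d²) = f (2 d kj + h' - d²)`, `f (2 d' (kj + i) + h - d'²) = f (2 d' kj + h' - d'² + q i)`, `h'` in the interval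
`(h₀ + 2 d i, h₀ + H + 2 d i]`; replace it by `(h₀, h₀ + H]`: the symmetric difference has at most `4 d i ≤ 8 D V` elements, error
`8 D V · F²` for each `(j, i)`, total `J V 8 D V F² ≤ 8 D V K F²`.  The main term is at most
`F ∑ j<J ∑ h' |W (bj + h')|`, `W u = ∑ i ∈ [1,V], f (u + q i)`, `bj = 2 d' kj - d'²`; Cauchy: `≤ F √(J H) √(∑ j ∑ h' W (bj + h')²)`;
each `u` is `bj + h'` for at most `H / (2 d' V) + 1 ≤ H / (D V)` pairs `(j, h')` (since `2 D V ≤ H` and the `bj` have distances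
multiples of `2 d' V > 2 D V`), and `0 ≤ bj + h' ≤ 2 x` by `hx`.
-/

set_option autoImplicit false

open Finset

namespace Pool.Agent.SSQ

namespace PairAux

theorem ioc_add {a b c : ℤ} (h1 : a ≤ b) (h2 : b ≤ c) (G : ℤ → ℝ) :
    ∑ h ∈ Ioc a b, G h + ∑ h ∈ Ioc b c, G h = ∑ h ∈ Ioc a c, G h := by
  rw [← Finset.Ioc_union_Ioc_eq_Ioc h1 h2, Finset.sum_union]
  rw [Finset.disjoint_left]
  intro x hx hx'
  rw [mem_Ioc] at hx hx'
  omega

theorem ioc_abs (G : ℤ → ℝ) (C : ℝ) (hG : ∀ h, |G h| ≤ C) (a : ℤ) (s : ℕ) :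
    |∑ h ∈ Ioc a (a + s), G h| ≤ s * C := by
  calc |∑ h ∈ Ioc a (a + s), G h| ≤ ∑ h ∈ Ioc a (a + s), |G h| := Finset.abs_sum_le_sum_abs _ _
    _ ≤ ∑ h ∈ Ioc a (a + (s : ℤ)), C := Finset.sum_le_sum fun h _ => hG h
    _ = s * C := by
        rw [Finset.sum_const, Int.card_Ioc, nsmul_eq_mul]
        congr 2
        omega

theorem shift_abs (G : ℤ → ℝ) (C : ℝ) (hG : ∀ h, |G h| ≤ C) (a : ℤ) (s H : ℕ) :
    |∑ h ∈ Ioc (a + s) (a + s + H), G h - ∑ h ∈ Ioc a (a + H), G h| ≤ 2 * s * C := by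
  have h1 := ioc_add (a := a) (b := a + s) (c := a + s + H) (by omega) (by omega) G
  have h2 := ioc_add (a := a) (b := a + H) (c := a + H + s) (by omega) (by omega) G
  have h3 : a + (H : ℤ) + s = a + s + H := by ring
  rw [h3] at h2
  have h4 := ioc_abs G C hG a s
  have h5 := ioc_abs G C hG (a + H) s
  rw [h3] at h5
  rw [abs_le] at h4 h5 ⊢
  constructor <;> linarith [h4.1, h4.2, h5.1, h5.2]

theorem shift_eq (G : ℤ → ℝ) (a s : ℤ) (H : ℕ) :
    ∑ h ∈ Ioc a (a + H), G (h + s) = ∑ h ∈ Ioc (a + s) (a + s + H), G h := by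
  refine Finset.sum_nbij' (fun h => h + s) (fun h => h - s) ?_ ?_ ?_ ?_ ?_
  · intro h hh
    rw [mem_Ioc] at hh ⊢
    omega
  · intro h hh
    rw [mem_Ioc] at hh ⊢
    omega
  · intro h _
    ring
  · intro h _
    ring
  · intro h _
    rfl

theorem block (Φ : ℕ → ℝ) (m V : ℕ) :
    ∑ k ∈ Ioc m (m + V), Φ k = ∑ i ∈ Icc 1 V, Φ (m + i) := by
  refine (Finset.sum_nbij' (fun i => m + i) (fun k => k - m) ?_ ?_ ?_ ?_ ?_).symm
  · intro h hh
    rw [mem_Icc] at hh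
    rw [mem_Ioc]
    omega
  · intro h hh
    rw [mem_Ioc] at hh
    rw [mem_Icc]
    omega
  · intro h _
    show m + h - m = h
    omega
  · intro h hh
    rw [mem_Ioc] at hh
    show m + (h - m) = h
    omega
  · intro h _
    rfl

theorem blocks (Φ : ℕ → ℝ) (K V J : ℕ) :
    ∑ k ∈ Ioc K (K + J * V), Φ k = ∑ j ∈ range J, ∑ i ∈ Icc 1 V, Φ (K + j * V + i) := by
  induction J with
  | zero => simp
  | succ J ih =>
    rw [Finset.sum_range_succ, ← ih, ← block Φ (K + J * V) V]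
    have h1 : K + (J + 1) * V = K + J * V + V := by ring
    rw [h1]
    exact (Finset.sum_Ioc_consecutive Φ (by omega) (by omega)).symm

/-- the number of terms of a progression in an interval -/
theorem count (J : ℕ) (g H D V : ℕ) (hg : 2 * D * V ≤ g) (hH : 2 * D * V ≤ H) (u b h₀ : ℤ) :
    ((range J).filter fun j : ℕ => h₀ < u - (b + g * j) ∧ u - (b + g * j) ≤ h₀ + H).card * (D * V) ≤
      H := by
  set S := (range J).filter fun j : ℕ => h₀ < u - (b + g * j) ∧ u - (b + g * j) ≤ h₀ + H with hS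
  rcases S.eq_empty_or_nonempty with h0 | h0
  · rw [h0]
    simp
  · obtain ⟨p, hp, hpm⟩ : ∃ p ∈ S, ∀ x ∈ S, p ≤ x :=
      ⟨S.min' h0, S.min'_mem h0, fun x hx => S.min'_le x hx⟩
    obtain ⟨t, ht, htm⟩ : ∃ t ∈ S, ∀ x ∈ S, x ≤ t :=
      ⟨S.max' h0, S.max'_mem h0, fun x hx => S.le_max' x hx⟩
    have hle : p ≤ t := hpm t ht
    have hsub : S ⊆ Icc p t := by
      intro j hj
      rw [mem_Icc]
      exact ⟨hpm j hj, htm j hj⟩
    have hc := Finset.card_le_card hsub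
    rw [Nat.card_Icc] at hc
    rw [hS, mem_filter] at hp ht
    obtain ⟨r, hr⟩ := Nat.exists_eq_add_of_le hle
    have h1 : (g : ℤ) * (t : ℕ) = g * (p : ℕ) + g * r := by
      rw [hr]
      push_cast
      ring
    have h2 : (g : ℤ) * r ≤ H := by
      have h3 := hp.2.2
      have h4 := ht.2.1
      rw [h1] at h4
      linarith
    have h3 : g * r ≤ H := by exact_mod_cast h2
    have h4 : S.card ≤ r + 1 := by omega
    have h5 : 2 * D * V * r ≤ H := (Nat.mul_le_mul_right _ hg).trans h3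
    have h6 : S.card * (D * V) ≤ (r + 1) * (D * V) := Nat.mul_le_mul_right _ h4
    nlinarith

theorem mult (φ : ℤ → ℝ) (hφ : ∀ u, 0 ≤ φ u) (J g H D V X : ℕ) (hD : 1 ≤ D) (hV : 1 ≤ V)
    (hg : 2 * D * V ≤ g) (hH : 2 * D * V ≤ H)
    (b h₀ : ℤ) (hx : ∀ j < J, ∀ h : ℤ, h₀ < h → h ≤ h₀ + H →
      0 ≤ b + g * j + h ∧ b + g * j + h ≤ 2 * X) :
    ∑ j ∈ range J, ∑ h ∈ Ioc h₀ (h₀ + H), φ (b + g * j + h) ≤
      (H : ℝ) / (D * V) * ∑ u ∈ Icc (0 : ℤ) (2 * X), φ u := by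
  have h1 : ∀ j ∈ range J, ∑ h ∈ Ioc h₀ (h₀ + H), φ (b + g * j + h) =
      ∑ u ∈ Icc (0 : ℤ) (2 * X), if h₀ < u - (b + g * j) ∧ u - (b + g * j) ≤ h₀ + H then φ u else 0 := by
    intro j hj
    rw [mem_range] at hj
    rw [← Finset.sum_filter]
    refine Finset.sum_nbij' (fun h => b + g * j + h) (fun u => u - (b + g * j)) ?_ ?_ ?_ ?_ ?_
    · intro h hh
      rw [mem_Ioc] at hh
      rw [mem_filter, mem_Icc]
      refine ⟨hx j hj h hh.1 hh.2, ?_, ?_⟩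
      · linarith [hh.1]
      · linarith [hh.2]
    · intro u hu
      rw [mem_filter] at hu
      rw [mem_Ioc]
      exact hu.2
    · intro h _
      ring
    · intro u _
      ring
    · intro h _
      rfl
  rw [Finset.sum_congr rfl h1, Finset.sum_comm, Finset.mul_sum]
  refine Finset.sum_le_sum fun u _ => ?_
  rw [← Finset.sum_filter, Finset.sum_const, nsmul_eq_mul]
  refine mul_le_mul_of_nonneg_right ?_ (hφ u)
  have h2 := count J g H D V hg hH u b h₀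
  have hDV : (0 : ℝ) < D * V := by
    have h3 : (0 : ℝ) < D := by exact_mod_cast hD
    have h4 : (0 : ℝ) < V := by exact_mod_cast hV
    positivity
  rw [le_div_iff₀ hDV]
  exact_mod_cast h2

end PairAux

open PairAux

theorem pair_bound (f : ℤ → ℝ) (F M : ℝ) (hF : ∀ n, |f n| ≤ F) (x K H D V d d' : ℕ) (h₀ : ℤ)
    (hD1 : 1 ≤ D) (hDd : D < d) (hdd : d < d') (hd' : d' ≤ 2 * D) (hV : 1 ≤ V) (hDV : 2 * D * V ≤ H) (hVK : V ≤ K)
    (hM : ∑ u ∈ Icc (0 : ℤ) (2 * x), (∑ i ∈ Icc 1 V, f (u + 2 * ((d' : ℤ) - d) * i)) ^ 2 ≤ M)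
    (hx : ∀ k : ℕ, K ≤ k → k ≤ 2 * K → ∀ h : ℤ, h₀ < h → h ≤ h₀ + H →
      0 ≤ 2 * (d' : ℤ) * k + h - (d' : ℤ) ^ 2 ∧ 2 * (d' : ℤ) * k + h - (d' : ℤ) ^ 2 ≤ 2 * x) :
    |∑ k ∈ Ioc K (2 * K), ∑ h ∈ Ioc h₀ (h₀ + H),
      f (2 * (d : ℤ) * k + h - (d : ℤ) ^ 2) * f (2 * (d' : ℤ) * k + h - (d' : ℤ) ^ 2)| ≤
      F * Real.sqrt (((K : ℝ) / V * H) * ((H : ℝ) / (D * V) * M)) + 8 * D * V * K * F ^ 2 + V * H * F ^ 2 := by
  have hF0 : 0 ≤ F := (abs_nonneg _).trans (hF 0)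
  have hM0 : 0 ≤ M := (Finset.sum_nonneg fun u _ => sq_nonneg _).trans hM
  have hVR : (0 : ℝ) < V := by exact_mod_cast hV
  have hDR : (0 : ℝ) < D := by exact_mod_cast hD1
  set q : ℤ := 2 * ((d' : ℤ) - d) with hq
  set J : ℕ := K / V with hJ
  have hJV : J * V ≤ K := Nat.div_mul_le_self K V
  have hJV2 : K < J * V + V := by
    have := Nat.lt_div_mul_add (a := K) (b := V) (by omega)
    rw [← hJ] at this
    exact this
  have hff : ∀ a b : ℤ, |f a * f b| ≤ F ^ 2 := by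
    intro a b
    rw [abs_mul, sq]
    exact mul_le_mul (hF a) (hF b) (abs_nonneg _) hF0
  set Φ : ℕ → ℝ := fun k => ∑ h ∈ Ioc h₀ (h₀ + H),
      f (2 * (d : ℤ) * k + h - (d : ℤ) ^ 2) * f (2 * (d' : ℤ) * k + h - (d' : ℤ) ^ 2) with hΦ
  set W : ℤ → ℝ := fun u => ∑ i ∈ Icc 1 V, f (u + q * i) with hW
  set b : ℤ := 2 * (d' : ℤ) * K - (d' : ℤ) ^ 2 with hb
  set b' : ℤ := 2 * (d : ℤ) * K - (d : ℤ) ^ 2 with hb'
  -- one block
  set G : ℕ → ℕ → ℤ → ℝ := fun j i h =>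
    f (b' + (2 * d * V : ℕ) * j + h) * f (b + (2 * d' * V : ℕ) * j + h + q * i) with hG
  have hGle : ∀ j i h, |G j i h| ≤ F ^ 2 := fun j i h => hff _ _
  have step1 : ∀ j i : ℕ, Φ (K + j * V + i) =
      ∑ h ∈ Ioc (h₀ + (2 * d * i : ℕ)) (h₀ + (2 * d * i : ℕ) + H), G j i h := by
    intro j i
    rw [← shift_eq (G j i) h₀ (2 * d * i : ℕ) H]
    refine Finset.sum_congr rfl fun h _ => ?_
    show f _ * f _ = f _ * f _
    congr 2
    · rw [hb']
      push_cast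
      ring
    · rw [hb, hq]
      push_cast
      ring
  have step2 : ∀ j : ℕ, ∀ i ∈ Icc 1 V,
      |Φ (K + j * V + i) - ∑ h ∈ Ioc h₀ (h₀ + H), G j i h| ≤ 8 * D * V * F ^ 2 := by
    intro j i hi
    rw [mem_Icc] at hi
    rw [step1]
    refine (shift_abs (G j i) (F ^ 2) (hGle j i) h₀ (2 * d * i) H).trans ?_
    have h1 : (((2 * d * i : ℕ)) : ℝ) ≤ 4 * D * V := by
      have h2 : 2 * d * i ≤ 4 * D * V := by
        calc 2 * d * i ≤ 2 * (2 * D) * V := Nat.mul_le_mul (by omega) hi.2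
          _ = 4 * D * V := by ring
      exact_mod_cast h2
    have h3 : 0 ≤ F ^ 2 := sq_nonneg F
    nlinarith
  -- the rest
  have hrest : |∑ k ∈ Ioc (K + J * V) (2 * K), Φ k| ≤ V * H * F ^ 2 := by
    calc |∑ k ∈ Ioc (K + J * V) (2 * K), Φ k| ≤ ∑ k ∈ Ioc (K + J * V) (2 * K), |Φ k| :=
          Finset.abs_sum_le_sum_abs _ _
      _ ≤ ∑ k ∈ Ioc (K + J * V) (2 * K), (H : ℝ) * F ^ 2 := Finset.sum_le_sum fun k _ =>
          ioc_abs (fun h => f (2 * (d : ℤ) * k + h - (d : ℤ) ^ 2) *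
            f (2 * (d' : ℤ) * k + h - (d' : ℤ) ^ 2)) (F ^ 2) (fun h => hff _ _) h₀ H
      _ ≤ V * H * F ^ 2 := by
          rw [Finset.sum_const, Nat.card_Ioc, nsmul_eq_mul]
          have h1 : (((2 * K - (K + J * V) : ℕ)) : ℝ) ≤ V := by
            have : 2 * K - (K + J * V) ≤ V := by omega
            exact_mod_cast this
          have h2 : 0 ≤ (H : ℝ) * F ^ 2 := by positivity
          nlinarith
  -- the blocks
  have hsplit : ∑ k ∈ Ioc K (2 * K), Φ k =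
      ∑ j ∈ range J, ∑ i ∈ Icc 1 V, Φ (K + j * V + i) + ∑ k ∈ Ioc (K + J * V) (2 * K), Φ k := by
    rw [← blocks Φ K V J]
    exact (Finset.sum_Ioc_consecutive Φ (by omega) (by omega)).symm
  have herr : |∑ j ∈ range J, ∑ i ∈ Icc 1 V, Φ (K + j * V + i) -
      ∑ j ∈ range J, ∑ i ∈ Icc 1 V, ∑ h ∈ Ioc h₀ (h₀ + H), G j i h| ≤ 8 * D * V * K * F ^ 2 := by
    rw [← Finset.sum_sub_distrib]
    calc |∑ j ∈ range J, (∑ i ∈ Icc 1 V, Φ (K + j * V + i) -
          ∑ i ∈ Icc 1 V, ∑ h ∈ Ioc h₀ (h₀ + H), G j i h)| ≤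
        ∑ j ∈ range J, |∑ i ∈ Icc 1 V, Φ (K + j * V + i) -
          ∑ i ∈ Icc 1 V, ∑ h ∈ Ioc h₀ (h₀ + H), G j i h| := Finset.abs_sum_le_sum_abs _ _
      _ ≤ ∑ j ∈ range J, (V : ℝ) * (8 * D * V * F ^ 2) := by
          refine Finset.sum_le_sum fun j _ => ?_
          rw [← Finset.sum_sub_distrib]
          refine (Finset.abs_sum_le_sum_abs _ _).trans ?_
          refine (Finset.sum_le_sum (step2 j)).trans ?_
          rw [Finset.sum_const, Nat.card_Icc, nsmul_eq_mul]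
          simp
      _ ≤ 8 * D * V * K * F ^ 2 := by
          rw [Finset.sum_const, card_range, nsmul_eq_mul]
          have h1 : (J : ℝ) * V ≤ K := by exact_mod_cast hJV
          have h2 : 0 ≤ 8 * (D : ℝ) * V * F ^ 2 := by positivity
          nlinarith
  -- the main term
  have hmain1 : ∑ j ∈ range J, ∑ i ∈ Icc 1 V, ∑ h ∈ Ioc h₀ (h₀ + H), G j i h =
      ∑ j ∈ range J, ∑ h ∈ Ioc h₀ (h₀ + H),
        f (b' + (2 * d * V : ℕ) * j + h) * W (b + (2 * d' * V : ℕ) * j + h) := by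
    refine Finset.sum_congr rfl fun j _ => ?_
    rw [Finset.sum_comm]
    refine Finset.sum_congr rfl fun h _ => ?_
    show _ = f _ * ∑ i ∈ Icc 1 V, f _
    rw [Finset.mul_sum]
  have hmain2 : |∑ j ∈ range J, ∑ h ∈ Ioc h₀ (h₀ + H),
        f (b' + (2 * d * V : ℕ) * j + h) * W (b + (2 * d' * V : ℕ) * j + h)| ≤
      F * ∑ j ∈ range J, ∑ h ∈ Ioc h₀ (h₀ + H), |W (b + (2 * d' * V : ℕ) * j + h)| := by
    refine (Finset.abs_sum_le_sum_abs _ _).trans ?_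
    rw [Finset.mul_sum]
    refine Finset.sum_le_sum fun j _ => ?_
    refine (Finset.abs_sum_le_sum_abs _ _).trans ?_
    rw [Finset.mul_sum]
    refine Finset.sum_le_sum fun h _ => ?_
    rw [abs_mul]
    exact mul_le_mul_of_nonneg_right (hF _) (abs_nonneg _)
  have hmult : ∑ j ∈ range J, ∑ h ∈ Ioc h₀ (h₀ + H), W (b + (2 * d' * V : ℕ) * j + h) ^ 2 ≤
      (H : ℝ) / (D * V) * M := by
    refine (mult (fun u => W u ^ 2) (fun u => sq_nonneg _) J (2 * d' * V) H D V x hD1 hV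
      (Nat.mul_le_mul_right _ (by omega)) hDV b h₀ ?_).trans ?_
    · intro j hj h h1 h2
      have h3 : j * V ≤ K := (Nat.mul_le_mul_right _ hj.le).trans hJV
      have h4 := hx (K + j * V) (by omega) (by omega) h h1 h2
      have e : b + ((2 * d' * V : ℕ) : ℤ) * j + h =
          2 * (d' : ℤ) * ((K + j * V : ℕ) : ℤ) + h - (d' : ℤ) ^ 2 := by
        rw [hb]
        push_cast
        ring
      rw [e]
      exact h4
    · exact mul_le_mul_of_nonneg_left hM (by positivity)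
  have hcs : ∑ j ∈ range J, ∑ h ∈ Ioc h₀ (h₀ + H), |W (b + (2 * d' * V : ℕ) * j + h)| ≤
      Real.sqrt (((K : ℝ) / V * H) * ((H : ℝ) / (D * V) * M)) := by
    apply Real.le_sqrt_of_sq_le
    rw [← Finset.sum_product']
    refine (sq_sum_le_card_mul_sum_sq).trans ?_
    have e1 : ∑ p ∈ range J ×ˢ Ioc h₀ (h₀ + H), |W (b + (2 * d' * V : ℕ) * p.1 + p.2)| ^ 2 =
        ∑ j ∈ range J, ∑ h ∈ Ioc h₀ (h₀ + H), W (b + (2 * d' * V : ℕ) * j + h) ^ 2 := by
      rw [Finset.sum_product]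
      refine Finset.sum_congr rfl fun j _ => Finset.sum_congr rfl fun h _ => ?_
      rw [sq_abs]
    rw [e1, Finset.card_product, card_range, Int.card_Ioc]
    have e2 : (h₀ + (H : ℤ) - h₀).toNat = H := by omega
    rw [e2]
    have h1 : ((J * H : ℕ) : ℝ) ≤ (K : ℝ) / V * H := by
      push_cast
      refine mul_le_mul_of_nonneg_right ?_ (Nat.cast_nonneg _)
      rw [le_div_iff₀ hVR]
      exact_mod_cast hJV
    have h2 : 0 ≤ ∑ j ∈ range J, ∑ h ∈ Ioc h₀ (h₀ + H), W (b + (2 * d' * V : ℕ) * j + h) ^ 2 :=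
      Finset.sum_nonneg fun j _ => Finset.sum_nonneg fun h _ => sq_nonneg _
    exact mul_le_mul h1 hmult h2 (by positivity)
  have hfin : |∑ j ∈ range J, ∑ i ∈ Icc 1 V, ∑ h ∈ Ioc h₀ (h₀ + H), G j i h| ≤
      F * Real.sqrt (((K : ℝ) / V * H) * ((H : ℝ) / (D * V) * M)) := by
    rw [hmain1]
    exact hmain2.trans (mul_le_mul_of_nonneg_left hcs hF0)
  show |∑ k ∈ Ioc K (2 * K), Φ k| ≤ _
  rw [hsplit]
  rw [abs_le] at hfin herr hrest ⊢
  constructor <;> linarith [hfin.1, hfin.2, herr.1, herr.2, hrest.1, hrest.2]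

end Pool.Agent.SSQ
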