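import Pool.Agent.Lib.VM.SI6
import Pool.Agent.Lib.VK.SI
import Pool.Agent.Lib.SSQ.AP
import Pool.Agent.Lib.SSQ.Pair
import Pool.Agent.Lib.SSQ.All
import Pool.Agent.Lib.SSQ.Sieve

/-!
# The exceptional set
-/

set_option autoImplicit false

open Finset Filter

namespace Pool.Agent.SSQ

open Pool.Agent.HLB Pool.Agent.HLT Pool.Agent.HLU Pool.Agent.SQP

/-- the linear form `n - (k - d)²`, `n = k² + h` -/
def lf (d k : ℕ) (h : ℤ) : ℤ := 2 * (d : ℤ) * k + h - (d : ℤ) ^ 2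

lemma fz_bd {x z : ℕ} (hx : 1 ≤ x) (hL : 2 ≤ Real.log x) (hz : (DZ z)⁻¹ ≤ Real.log x) (n : ℤ) :
    |fz z x n| ≤ 2 * Real.log x := by
  unfold fz
  split_ifs with h
  · exact VK.SIAux.ff_bound hx hL hz n.toNat (by omega)
  · rw [abs_zero]
    linarith

lemma si_ex (A0 B : ℕ) (ε : ℝ) (hε : 0 < ε) : ∃ A c : ℕ, A0 ≤ A ∧ ∀ᶠ x : ℕ in atTop,
    SI x B (zA A x) ((x : ℝ) ^ (1 / 6 + ε)) ((x : ℝ) / Real.log x ^ c) := by
  obtain ⟨A, c, hA, h⟩ := VM.si6 A0 B ε hε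
  refine ⟨A, c, hA, ?_⟩
  filter_upwards [h] with x hx H α h1 h2
  exact hx H α h1 h2

/-- the main estimate for one pair -/
lemma pair_P (x K D H V D0 b c a : ℕ) (h₀ : ℤ) (z : ℕ) (W : ℝ) (hx : x = 5 * D * K) (hD1 : 2 ≤ D) (hK1 : 1 ≤ K) (hDK : 4 * D ≤ K)
    (hH : H ≤ K) (hh : |h₀| ≤ 2 * K) (hL : 2 ≤ Real.log x) (hz : (DZ z)⁻¹ ≤ Real.log x)
    (hSI : SI x (4 * a) z W ((x : ℝ) / Real.log x ^ c))
    (hD0 : Real.log x ^ a ≤ D0) (hD0' : (D0 : ℝ) ≤ 2 * Real.log x ^ a) (hV1 : 1 ≤ V) (hVW : W ≤ V) (hV : V * (D * D0) ≤ H)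
    (hc : (2 * D0 * V : ℝ) ≤ (x : ℝ) / Real.log x ^ c) (hD02 : 2 ≤ D0)
    (d d' : ℕ) (hd : D < d) (hdd : d < d') (hd' : d' ≤ 2 * D) (hd0 : d' < d + D0) :
    |∑ k ∈ Ioc K (2 * K), ∑ h ∈ Ioc h₀ (h₀ + H), fz z x (lf d k h) * fz z x (lf d' k h)| ≤
      56 * (K : ℝ) * H * Real.log x ^ 2 / Real.log x ^ a := by
  set L := Real.log x with hLdef
  have hL0 : 0 < L := by linarith
  obtain ⟨q, hq⟩ : ∃ q : ℕ, q = 2 * (d' - d) := ⟨_, rfl⟩
  have hq1 : 1 ≤ q := by omega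
  have hq2 : q ≤ 2 * D0 := by omega
  have hVpos : (0 : ℝ) < V := by exact_mod_cast hV1
  have hDpos : (0 : ℝ) < D := by
    have : 0 < D := by omega
    exact_mod_cast this
  have hKpos : (0 : ℝ) < K := by exact_mod_cast hK1
  have hD0pos : (0 : ℝ) < D0 := by
    have : 0 < D0 := by omega
    exact_mod_cast this
  have hH0 : (0 : ℝ) ≤ H := Nat.cast_nonneg H
  have hHK : (H : ℝ) ≤ K := by exact_mod_cast hH
  have hqV : ((q * V : ℕ) : ℝ) ≤ 2 * D0 * V := by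
    push_cast
    have : (q : ℝ) ≤ 2 * D0 := by exact_mod_cast hq2
    exact mul_le_mul_of_nonneg_right this hVpos.le
  have hap := ap_ms x (4 * a) z W _ hSI q V hq1 (by
    refine hVW.trans ?_
    have : V ≤ q * V := Nat.le_mul_of_pos_left V (by omega)
    exact_mod_cast this) (hqV.trans hc)
  have hqz : (2 * ((d' : ℤ) - d)) = (q : ℤ) := by
    rw [hq]
    push_cast [Nat.cast_sub hdd.le]
    ring
  have hVH : (V : ℝ) * (D * D0) ≤ H := by exact_mod_cast hV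
  have key := pair_bound (fz z x) (2 * L) (x * ((q : ℝ) * V) ^ 2 / L ^ (4 * a)) (fz_bd (by
      have : 1 ≤ 5 * D * K := Nat.one_le_iff_ne_zero.2 (by positivity)
      omega) hL hz) x K H D V d d' h₀ (by omega) hd hdd hd' hV1 (by
      calc 2 * D * V = V * (D * 2) := by ring
        _ ≤ V * (D * D0) := by gcongr
        _ ≤ H := hV) (by
      calc V = V * (1 * 1) := by ring
        _ ≤ V * (D * D0) := by
            gcongr <;> omega
        _ ≤ H := hV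
        _ ≤ K := hH) (by
      rw [hqz]
      exact hap) (by
      intro k hk1 hk2 h hh1 hh2
      have h1 : (D : ℤ) + 2 ≤ d' := by
        have : D + 2 ≤ d' := by omega
        exact_mod_cast this
      have h2 : (d' : ℤ) ≤ 2 * D := by exact_mod_cast hd'
      have h3 : (K : ℤ) ≤ k := by exact_mod_cast hk1
      have h4 : (k : ℤ) ≤ 2 * K := by exact_mod_cast hk2
      have h5 := abs_le.1 hh
      have h6 : (H : ℤ) ≤ K := by exact_mod_cast hH
      have h7 : (4 : ℤ) * D ≤ K := by exact_mod_cast hDK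
      have h8 : (2 : ℤ) ≤ D := by exact_mod_cast hD1
      have h9 : (0 : ℤ) ≤ K := Int.natCast_nonneg K
      rw [hx]
      push_cast
      constructor
      · have h10 : (d' : ℤ) * (2 * k - d') ≥ 4 * (2 * K - 2 * D) := by
          have h11 : (4 : ℤ) ≤ d' := by linarith
          have h12 : 2 * (K : ℤ) - 2 * D ≤ 2 * k - d' := by linarith
          have h13 : 0 ≤ 2 * (K : ℤ) - 2 * D := by linarith
          exact mul_le_mul h11 h12 h13 (by linarith)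
        nlinarith [h5.1]
      · have h10 : (d' : ℤ) * k ≤ (2 * D) * (2 * K) := mul_le_mul h2 h4 (by linarith) (by linarith)
        have h11 : (2 : ℤ) * K ≤ D * K := mul_le_mul_of_nonneg_right h8 h9
        nlinarith [h5.2, sq_nonneg (d' : ℤ)])
  have e0 : (((K : ℝ) / V * H) * ((H : ℝ) / (D * V) * (x * ((q : ℝ) * V) ^ 2 / L ^ (4 * a)))) ≤
      (5 * (K : ℝ) * H * D0 / L ^ (2 * a)) ^ 2 := by
    have hxr : (x : ℝ) = 5 * D * K := by
      rw [hx]
      push_cast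
      ring
    rw [hxr]
    have h1 : ((K : ℝ) / V * H) * ((H : ℝ) / (D * V) * (5 * D * K * ((q : ℝ) * V) ^ 2 / L ^ (4 * a))) =
        5 * (K : ℝ) ^ 2 * H ^ 2 * q ^ 2 / L ^ (4 * a) := by
      field_simp
    rw [h1, div_pow, ← pow_mul, show 2 * a * 2 = 4 * a by ring]
    refine div_le_div_of_nonneg_right ?_ (by positivity)
    have h2 : (q : ℝ) ≤ 2 * D0 := by exact_mod_cast hq2
    have h3 : (q : ℝ) ^ 2 ≤ (2 * D0) ^ 2 := pow_le_pow_left₀ (Nat.cast_nonneg _) h2 2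
    have h4 : (0 : ℝ) ≤ (K : ℝ) ^ 2 * H ^ 2 := by positivity
    nlinarith
  have e1 : Real.sqrt (((K : ℝ) / V * H) * ((H : ℝ) / (D * V) * (x * ((q : ℝ) * V) ^ 2 / L ^ (4 * a)))) ≤
      5 * (K : ℝ) * H * D0 / L ^ (2 * a) := by
    refine Real.sqrt_le_iff.2 ⟨by positivity, e0⟩
  have hLa : 0 < L ^ a := by positivity
  have e2 : 5 * (K : ℝ) * H * D0 / L ^ (2 * a) ≤ 10 * K * H / L ^ a := by
    rw [div_le_div_iff₀ (by positivity) (by positivity), two_mul, pow_add]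
    have h1 : (0 : ℝ) ≤ K * H := by positivity
    have h2 : (K : ℝ) * H * D0 ≤ K * H * (2 * L ^ a) := mul_le_mul_of_nonneg_left hD0' h1
    nlinarith
  have e3 : 8 * (D : ℝ) * V * K * (2 * L) ^ 2 ≤ 32 * K * H * L ^ 2 / L ^ a := by
    rw [le_div_iff₀ hLa]
    have h1 : (V : ℝ) * D * L ^ a ≤ H := by
      calc (V : ℝ) * D * L ^ a ≤ V * D * D0 := mul_le_mul_of_nonneg_left hD0 (by positivity)
        _ = V * (D * D0) := by ring
        _ ≤ H := hVH
    have h2 : (0 : ℝ) ≤ 32 * K * L ^ 2 := by positivity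
    calc 8 * (D : ℝ) * V * K * (2 * L) ^ 2 * L ^ a = 32 * K * L ^ 2 * (V * D * L ^ a) := by ring
      _ ≤ 32 * K * L ^ 2 * H := mul_le_mul_of_nonneg_left h1 h2
      _ = 32 * K * H * L ^ 2 := by ring
  have e4 : (V : ℝ) * H * (2 * L) ^ 2 ≤ 4 * K * H * L ^ 2 / L ^ a := by
    rw [le_div_iff₀ hLa]
    have h1 : (V : ℝ) * L ^ a ≤ K := by
      have hD1' : (1 : ℝ) ≤ D := by
        have : 1 ≤ D := by omega
        exact_mod_cast this
      calc (V : ℝ) * L ^ a ≤ V * D0 := mul_le_mul_of_nonneg_left hD0 hVpos.le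
        _ ≤ V * (D * D0) := by
            refine mul_le_mul_of_nonneg_left ?_ hVpos.le
            nlinarith
        _ ≤ H := hVH
        _ ≤ K := hHK
    have h2 : (0 : ℝ) ≤ 4 * H * L ^ 2 := by positivity
    calc (V : ℝ) * H * (2 * L) ^ 2 * L ^ a = 4 * H * L ^ 2 * (V * L ^ a) := by ring
      _ ≤ 4 * H * L ^ 2 * K := mul_le_mul_of_nonneg_left h1 h2
      _ = 4 * K * H * L ^ 2 := by ring
  have e5 : 2 * L * (10 * (K : ℝ) * H / L ^ a) ≤ 20 * K * H * L ^ 2 / L ^ a := by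
    have h1 : 2 * L * (10 * (K : ℝ) * H / L ^ a) = 20 * K * H * L / L ^ a := by ring
    rw [h1]
    refine div_le_div_of_nonneg_right ?_ hLa.le
    have h2 : (0 : ℝ) ≤ K * H := by positivity
    have h3 : L ≤ L ^ 2 := by nlinarith
    nlinarith
  have e6 : 56 * (K : ℝ) * H * L ^ 2 / L ^ a = 20 * K * H * L ^ 2 / L ^ a + 32 * K * H * L ^ 2 / L ^ a +
      4 * K * H * L ^ 2 / L ^ a := by ring
  rw [e6]
  unfold lf
  refine key.trans ?_
  refine add_le_add (add_le_add ?_ e3) e4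
  exact (mul_le_mul_of_nonneg_left (e1.trans e2) (by positivity)).trans e5

end Pool.Agent.SSQ
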