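import Pool.Agent.Lib.SSQ.Exc

/-!
# The exceptional set, for differences of size a power of the logarithm
-/

set_option autoImplicit false

open Finset Filter

namespace Pool.Agent.SSQ

open Pool.Agent.HLB Pool.Agent.HLT Pool.Agent.HLU Pool.Agent.SQP

/-- the exceptional set, for `D` at least a power of the logarithm -/
theorem excL (ε : ℝ) (hε : 0 < ε) (A B0 : ℕ) : ∃ B N : ℕ, B0 ≤ B ∧ ∀ᶠ x : ℕ in atTop, ∀ K D H : ℕ, ∀ h₀ : ℤ,
    x = 5 * D * K → 1 ≤ K → 4 * D ≤ K → (D : ℝ) * ((D : ℝ) * K) ^ (1 / 6 + ε) ≤ H → H ≤ K → |h₀| ≤ 2 * K →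
    4 * Real.log x ^ N ≤ D → ∀ c : ℕ → ℝ, (∀ d, |c d| ≤ 1) →
    ∃ E : Finset (ℕ × ℤ), (E.card : ℝ) ≤ K * H / Real.log x ^ A ∧
      ∀ k ∈ Ioc K (2 * K), ∀ h ∈ Ioc h₀ (h₀ + H), (k, h) ∉ E → ∀ y : ℕ, D ≤ y → y ≤ 2 * D →
        |∑ d ∈ Ioc D y, c d * fz (zA B x) x (lf d k h)| ≤ 2 * (D : ℝ) / Real.log x ^ A := by
  classical
  obtain ⟨a, ha⟩ : ∃ a : ℕ, a = 3 * A + 5 := ⟨_, rfl⟩
  obtain ⟨B, c0, hB, hsi⟩ := si_ex B0 (4 * a) (ε / 2) (by linarith)
  refine ⟨B, max (a + 1 + A) c0, hB, ?_⟩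
  filter_upwards [hsi, DZ_inv_le B, ev_L 7, ev_pow a ε hε] with
    x hsi hz hL hpow K D H h₀ hx hK1 hDK hDH hHK hh hDbig c hc
  set L := Real.log x with hLdef
  have hL0 : 0 < L := by linarith
  have hL1 : 1 ≤ L := by linarith
  have hD1 : 1 ≤ D := by
    rcases Nat.eq_zero_or_pos D with h | h
    · rw [h, Nat.cast_zero] at hDbig
      have : 0 < L ^ (max (a + 1 + A) c0) := by positivity
      linarith
    · exact h
  have hDpos : (0 : ℝ) < D := by exact_mod_cast hD1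
  have hKpos : (0 : ℝ) < K := by exact_mod_cast hK1
  have hxr : (x : ℝ) = 5 * D * K := by
    rw [hx]
    push_cast
    ring
  have hLa : 1 ≤ L ^ a := one_le_pow₀ hL1
  obtain ⟨D0, hD0⟩ : ∃ D0 : ℕ, D0 = ⌈L ^ a⌉₊ := ⟨_, rfl⟩
  have hD0a : L ^ a ≤ D0 := by rw [hD0]; exact Nat.le_ceil _
  have hD0b : (D0 : ℝ) ≤ 2 * L ^ a := by
    have := (Nat.ceil_lt_add_one (by positivity : (0 : ℝ) ≤ L ^ a)).le
    rw [hD0]
    linarith
  have hD02 : 2 ≤ D0 := by
    have h1 : (2 : ℝ) ≤ L ^ a := by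
      calc (2 : ℝ) ≤ L := by linarith
        _ ≤ L ^ a := le_self_pow₀ hL1 (by omega)
    exact_mod_cast h1.trans hD0a
  have hD0pos : (0 : ℝ) < D0 := by
    have : 0 < D0 := by omega
    exact_mod_cast this
  have hbA : 4 * L ^ (a + 1 + A) ≤ D := by
    refine le_trans ?_ hDbig
    exact mul_le_mul_of_nonneg_left (pow_le_pow_right₀ hL1 (le_max_left _ _)) (by norm_num)
  have hbc : 4 * L ^ c0 ≤ D := by
    refine le_trans ?_ hDbig
    exact mul_le_mul_of_nonneg_left (pow_le_pow_right₀ hL1 (le_max_right _ _)) (by norm_num)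
  have hD2 : 2 ≤ D := by
    have h1 : (1 : ℝ) ≤ L ^ c0 := one_le_pow₀ hL1
    have h2 : (2 : ℝ) ≤ D := by linarith
    exact_mod_cast h2
  obtain ⟨V, hV⟩ : ∃ V : ℕ, V = H / (D * D0) := ⟨_, rfl⟩
  have hDD0 : 0 < D * D0 := Nat.mul_pos hD1 (by omega)
  have hVH : V * (D * D0) ≤ H := by rw [hV]; exact Nat.div_mul_le_self _ _
  have hVW : (x : ℝ) ^ (1 / 6 + ε / 2) ≤ V := by
    have h1 : (H : ℝ) / (D * D0) < V + 1 := by
      have h2 := Nat.lt_div_mul_add (a := H) hDD0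
      have h3 : H < (V + 1) * (D * D0) := by
        rw [hV]
        linarith
      have h4 : (H : ℝ) < ((V : ℝ) + 1) * (D * D0) := by exact_mod_cast h3
      rwa [div_lt_iff₀ (by positivity)]
    have h5 : ((x : ℝ) / 5) ^ (1 / 6 + ε) / (2 * L ^ a) ≤ (H : ℝ) / (D * D0) := by
      have h6 : (x : ℝ) / 5 = D * K := by
        rw [hxr]
        ring
      rw [h6, div_le_div_iff₀ (by positivity) (by positivity)]
      have h7 : (0 : ℝ) ≤ ((D : ℝ) * K) ^ (1 / 6 + ε) := by positivity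
      calc ((D : ℝ) * K) ^ (1 / 6 + ε) * (D * D0) = (D * ((D : ℝ) * K) ^ (1 / 6 + ε)) * D0 := by ring
        _ ≤ H * (2 * L ^ a) := mul_le_mul hDH hD0b hD0pos.le (Nat.cast_nonneg _)
    linarith [hpow]
  have hx0 : (1 : ℝ) ≤ x := by
    rw [hxr]
    have h1 : (1 : ℝ) ≤ D := by exact_mod_cast hD1
    have h2 : (1 : ℝ) ≤ K := by exact_mod_cast hK1
    nlinarith
  have hV1 : 1 ≤ V := by
    have h1 : (1 : ℝ) ≤ (x : ℝ) ^ (1 / 6 + ε / 2) := Real.one_le_rpow hx0 (by linarith)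
    exact_mod_cast h1.trans hVW
  have hVHr : (V : ℝ) * (D * D0) ≤ H := by exact_mod_cast hVH
  have hHKr : (H : ℝ) ≤ K := by exact_mod_cast hHK
  have hcz : (2 * D0 * V : ℝ) ≤ (x : ℝ) / L ^ c0 := by
    rw [le_div_iff₀ (by positivity), hxr]
    have h1 : (V : ℝ) * D0 * D ≤ K := by
      calc (V : ℝ) * D0 * D = V * (D * D0) := by ring
        _ ≤ K := hVHr.trans hHKr
    have h2 : (1 : ℝ) ≤ D := by exact_mod_cast hD1
    have h3 : (V : ℝ) * D0 ≤ K := by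
      have h4 : (0 : ℝ) ≤ V * D0 := by positivity
      nlinarith
    have h5 : L ^ c0 ≤ D := by
      have : 0 ≤ L ^ c0 := by positivity
      linarith
    calc 2 * (D0 : ℝ) * V * L ^ c0 = 2 * (V * D0) * L ^ c0 := by ring
      _ ≤ 2 * K * D := by
          refine mul_le_mul ?_ h5 (by positivity) (by positivity)
          linarith
      _ ≤ 5 * D * K := by nlinarith
  -- the sum over the blocks
  set g : ℕ → ℕ → ℤ → ℝ := fun d k h => c d * fz (zA B x) x (lf d k h) with hg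
  have hx1 : 1 ≤ x := by exact_mod_cast hx0
  have hfz := fun n => fz_bd (x := x) (z := zA B x) hx1 (by linarith) hz n
  have hgF : ∀ d k h, |g d k h| ≤ 2 * L := by
    intro d k h
    rw [hg]
    simp only
    rw [abs_mul]
    calc |c d| * |fz (zA B x) x (lf d k h)| ≤ 1 * (2 * L) :=
          mul_le_mul (hc d) (hfz _) (abs_nonneg _) (by norm_num)
      _ = 2 * L := one_mul _
  set P : ℝ := 56 * (K : ℝ) * H * L ^ 2 / L ^ a with hP
  have hP0 : 0 ≤ P := by positivity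
  have hD0D : D0 ≤ D := by
    have h1 : (D0 : ℝ) ≤ D := by
      refine hD0b.trans (le_trans ?_ hbA)
      have h2 : L ^ a ≤ L ^ (a + 1 + A) := pow_le_pow_right₀ hL1 (by omega)
      have h3 : 0 ≤ L ^ a := by positivity
      linarith
    exact_mod_cast h1
  have hall := all_bound g (2 * L) P hgF hP0 K H D D0 h₀ (by omega) hD0D (fun d d' h1 h2 h3 h4 => by
    have h5 := pair_P x K D H V D0 0 c0 a h₀ (zA B x) _ hx hD2 hK1 hDK hHK hh (by linarith) hz hsi hD0a hD0b hV1 hVW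
      hVH hcz hD02 d d' h1 h2 h3 h4
    have h6 : ∑ k ∈ Ioc K (2 * K), ∑ h ∈ Ioc h₀ (h₀ + H), g d k h * g d' k h =
        (c d * c d') * ∑ k ∈ Ioc K (2 * K), ∑ h ∈ Ioc h₀ (h₀ + H),
          fz (zA B x) x (lf d k h) * fz (zA B x) x (lf d' k h) := by
      rw [Finset.mul_sum]
      refine Finset.sum_congr rfl fun k _ => ?_
      rw [Finset.mul_sum]
      refine Finset.sum_congr rfl fun h _ => ?_
      rw [hg]
      simp only
      ring
    rw [h6, abs_mul, abs_mul]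
    have h7 : |c d| * |c d'| ≤ 1 := by
      have := mul_le_mul (hc d) (hc d') (abs_nonneg _) (by norm_num : (0 : ℝ) ≤ 1)
      linarith
    calc |c d| * |c d'| * _ ≤ 1 * P := mul_le_mul h7 h5 (abs_nonneg _) (by norm_num)
      _ = P := one_mul _)
  set S : ℕ → ℤ → ℝ := fun k h => ∑ b ∈ range (D / D0 + 1), |∑ d ∈ blk D D0 b, g d k h| with hS
  set E : Finset (ℕ × ℤ) := (Ioc K (2 * K) ×ˢ Ioc h₀ (h₀ + H)).filter (fun kh => (D : ℝ) / L ^ A < S kh.1 kh.2) with hE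
  refine ⟨E, ?_, ?_⟩
  · -- the cardinality
    have h1 : (E.card : ℝ) * ((D : ℝ) / L ^ A) ^ 2 ≤
        ∑ k ∈ Ioc K (2 * K), ∑ h ∈ Ioc h₀ (h₀ + H), S k h ^ 2 := by
      rw [← Finset.sum_product']
      calc (E.card : ℝ) * ((D : ℝ) / L ^ A) ^ 2 = ∑ _kh ∈ E, ((D : ℝ) / L ^ A) ^ 2 := by
            rw [Finset.sum_const, nsmul_eq_mul]
        _ ≤ ∑ kh ∈ E, S kh.1 kh.2 ^ 2 := by
            refine Finset.sum_le_sum fun kh hkh => ?_
            exact pow_le_pow_left₀ (by positivity) (Finset.mem_filter.1 hkh).2.le 2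
        _ ≤ _ := Finset.sum_le_sum_of_subset_of_nonneg (Finset.filter_subset _ _) fun _ _ _ => sq_nonneg _
    have h2 := h1.trans hall
    have h3 : 4 * (D : ℝ) ^ 2 * ((K : ℝ) * H * (2 * L) ^ 2 / D0 + P) ≤
        240 * (D : ℝ) ^ 2 * (K * H * L ^ 2 / L ^ a) := by
      have h4 : (K : ℝ) * H * (2 * L) ^ 2 / D0 ≤ 4 * (K * H * L ^ 2 / L ^ a) := by
        have h5 : (K : ℝ) * H * (2 * L) ^ 2 / D0 ≤ (K : ℝ) * H * (2 * L) ^ 2 / L ^ a :=
          div_le_div_of_nonneg_left (by positivity) (by positivity) hD0a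
        refine h5.trans (le_of_eq ?_)
        ring
      have h5 : P = 56 * (K * H * L ^ 2 / L ^ a) := by
        rw [hP]
        ring
      rw [h5]
      have h6 : (0 : ℝ) ≤ (D : ℝ) ^ 2 := by positivity
      nlinarith
    have h4 : (E.card : ℝ) * ((D : ℝ) / L ^ A) ^ 2 ≤ 240 * (D : ℝ) ^ 2 * (K * H * L ^ 2 / L ^ a) := h2.trans h3
    have h5 : (E.card : ℝ) * (D : ℝ) ^ 2 ≤ (D : ℝ) ^ 2 * (K * H / L ^ A * (240 / L ^ 3)) := by
      have h6 : (E.card : ℝ) * ((D : ℝ) / L ^ A) ^ 2 = (E.card : ℝ) * (D : ℝ) ^ 2 / (L ^ A) ^ 2 := by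
        rw [div_pow]
        ring
      rw [h6, div_le_iff₀ (by positivity)] at h4
      refine h4.trans (le_of_eq ?_)
      have h7 : L ^ a = (L ^ A) ^ 2 * L ^ A * L ^ 5 := by
        rw [ha]
        ring
      rw [h7]
      field_simp
    have h6 : (240 : ℝ) / L ^ 3 ≤ 1 := by
      rw [div_le_one (by positivity)]
      have : (7 : ℝ) ^ 3 ≤ L ^ 3 := pow_le_pow_left₀ (by norm_num) hL 3
      norm_num at this
      linarith
    have h7 : (E.card : ℝ) * (D : ℝ) ^ 2 ≤ (K * H / L ^ A) * (D : ℝ) ^ 2 := by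
      refine h5.trans ?_
      have h8 : (0 : ℝ) ≤ K * H / L ^ A := by positivity
      have h9 : K * H / L ^ A * (240 / L ^ 3) ≤ K * H / L ^ A := mul_le_of_le_one_right h8 h6
      have h10 : (0 : ℝ) ≤ (D : ℝ) ^ 2 := by positivity
      nlinarith
    exact le_of_mul_le_mul_right h7 (by positivity)
  · intro k hk h hh' hkh y hy1 hy2
    have h1 : S k h ≤ (D : ℝ) / L ^ A := by
      by_contra hcon
      push Not at hcon
      exact hkh (Finset.mem_filter.2 ⟨Finset.mem_product.2 ⟨hk, hh'⟩, hcon⟩)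
    have h2 := part_bound (fun d => g d k h) (2 * L) (fun d => hgF d k h) D D0 y (by omega) hy1 hy2
    have h3 : (D0 : ℝ) * (2 * L) ≤ (D : ℝ) / L ^ A := by
      rw [le_div_iff₀ (by positivity)]
      calc (D0 : ℝ) * (2 * L) * L ^ A ≤ (2 * L ^ a) * (2 * L) * L ^ A := by gcongr
        _ = 4 * L ^ (a + 1 + A) := by ring
        _ ≤ D := hbA
    calc |∑ d ∈ Ioc D y, c d * fz (zA B x) x (lf d k h)| ≤ S k h + D0 * (2 * L) := h2
      _ ≤ (D : ℝ) / L ^ A + (D : ℝ) / L ^ A := add_le_add h1 h3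
      _ = 2 * (D : ℝ) / L ^ A := by ring

end Pool.Agent.SSQ
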