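import Pool.Agent.Lib.SSQ.SecG

/-!
# The number of exceptions for `D` of size `log K`
-/

set_option autoImplicit false

open Finset Filter

namespace Pool.Agent.SSQ

open Pool.Agent.HLB Pool.Agent.HLT Pool.Agent.HLU Pool.Agent.SQP

namespace KeyCbAux

theorem cheb {ι : Type*} (S : Finset ι) (f : ι → ℝ) (τ : ℝ) (hτ : 0 ≤ τ) :
    ((S.filter (fun t => τ < |f t|)).card : ℝ) * τ ^ 2 ≤ ∑ t ∈ S, f t ^ 2 := by
  calc ((S.filter (fun t => τ < |f t|)).card : ℝ) * τ ^ 2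
      = ∑ t ∈ S.filter (fun t => τ < |f t|), τ ^ 2 := by
        rw [Finset.sum_const, nsmul_eq_mul]
    _ ≤ ∑ t ∈ S.filter (fun t => τ < |f t|), f t ^ 2 := by
        refine Finset.sum_le_sum fun t ht => ?_
        rw [← sq_abs (f t)]
        exact pow_le_pow_left₀ hτ (Finset.mem_filter.1 ht).2.le 2
    _ ≤ _ := Finset.sum_le_sum_of_subset_of_nonneg (Finset.filter_subset _ _)
        (fun t _ _ => sq_nonneg _)

/-- from a second moment to a number of exceptions -/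
theorem cheb2 {ι : Type*} (S : Finset ι) (f : ι → ℝ) (Z lam D M A : ℝ) (hZ : 0 < Z) (hlam : Z⁻¹ ≤ lam)
    (hD : 0 < D) (hS : ∑ t ∈ S, f t ^ 2 ≤ M * A) :
    ((S.filter (fun t => D * Z ^ 3 / 16 < |f t|)).card : ℝ) ≤ M * (256 * lam ^ 6 * A / D ^ 2) := by
  have h1 := cheb S f (D * Z ^ 3 / 16) (by positivity)
  have hl0 : 0 < lam := (inv_pos.2 hZ).trans_le hlam
  have h2 : 1 ≤ lam * Z := by
    rw [inv_le_iff_one_le_mul₀ hZ] at hlam
    exact hlam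
  have h3 : (1 : ℝ) ≤ (lam * Z) ^ 6 := one_le_pow₀ h2
  set c : ℝ := ((S.filter (fun t => D * Z ^ 3 / 16 < |f t|)).card : ℝ) with hc
  have hc0 : 0 ≤ c := Nat.cast_nonneg _
  have h4 : c * (D ^ 2 / (256 * lam ^ 6)) ≤ M * A := by
    refine le_trans ?_ (h1.trans hS)
    apply mul_le_mul_of_nonneg_left _ hc0
    rw [div_le_iff₀ (by positivity)]
    calc D ^ 2 = D ^ 2 * 1 := by ring
      _ ≤ D ^ 2 * (lam * Z) ^ 6 := mul_le_mul_of_nonneg_left h3 (by positivity)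
      _ = (D * Z ^ 3 / 16) ^ 2 * (256 * lam ^ 6) := by ring
  calc c = c * (D ^ 2 / (256 * lam ^ 6)) * (256 * lam ^ 6 / D ^ 2) := by field_simp
    _ ≤ M * A * (256 * lam ^ 6 / D ^ 2) := mul_le_mul_of_nonneg_right h4 (by positivity)
    _ = M * (256 * lam ^ 6 * A / D ^ 2) := by ring

end KeyCbAux

open KeyCbAux in
theorem cntC (ε : ℝ) (hε : 0 < ε) (δ : ℝ) (hδ : 0 < δ) (D₀ : ℕ → ℕ) : ∃ w B C₂ K₀ : ℕ, 2 ≤ w ∧ 1 ≤ C₂ ∧ ∀ K H : ℕ, ∀ h₀ : ℤ, K₀ ≤ K → (K : ℝ) ^ (1 / 6 + ε) ≤ H → H ≤ K → |h₀| ≤ 2 * K → ∃ D x : ℕ, x = 5 * D * K ∧ 1 ≤ K ∧ 4 * D ≤ K ∧ 2 ≤ D ∧ D₀ w ≤ D ∧ (D : ℝ) ≤ Real.log x ^ 2 ∧ (D : ℝ) ≤ C₂ * Real.log K ∧ ∃ E : Finset (ℕ × ℤ), (E.card : ℝ) ≤ δ * (K * H) ∧ ∀ t ∈ Ioc K (2 * K) ×ˢ Ioc h₀ (h₀ + H), t ∉ E → |∑ d ∈ Ioc D (2 * D), fz (zA B x) x (lf d t.1 t.2)| ≤ (D : ℝ) * DZ w ^ 3 / 16 ∧ |∑ d ∈ Ioc D (2 * D), (nuz (zA B x) (lf d t.1 t.2).toNat - nuz w (lf d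 t.1 t.2).toNat)| ≤ (D : ℝ) * DZ w ^ 3 / 16 := by
  classical
  -- the level `w`
  obtain ⟨x₁, hx₁, hx₁'⟩ := ((DZ_inv_le 20).and (ev_L (200000 / δ + 10))).exists
  obtain ⟨lam, hlam⟩ : ∃ lam : ℝ, lam = Real.log x₁ := ⟨_, rfl⟩
  rw [← hlam] at hx₁ hx₁'
  have hd0 : 0 < 200000 / δ := by positivity
  have hlam10 : 10 ≤ lam := by linarith
  have hlam0 : 0 < lam := by linarith
  have hlam1 : 1 ≤ lam := by linarith
  obtain ⟨w, hw⟩ : ∃ w : ℕ, w = zA 20 x₁ := ⟨_, rfl⟩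
  rw [← hw] at hx₁
  have hwl : lam ^ 19 ≤ w := by
    have h1 : lam ^ 20 < (w : ℝ) + 1 := by
      rw [hw, hlam]
      exact Nat.lt_floor_add_one _
    have h2 : (1 : ℝ) ≤ lam ^ 19 := one_le_pow₀ hlam1
    have h3 : lam ^ 20 = lam * lam ^ 19 := by ring
    nlinarith
  have hw2 : 2 ≤ w := by
    have h1 : lam ≤ lam ^ 19 := le_self_pow₀ hlam1 (by norm_num)
    have h2 : (2 : ℝ) ≤ w := by linarith
    exact_mod_cast h2
  have hwpos : (0 : ℝ) < w := by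
    have : 0 < w := by omega
    exact_mod_cast this
  obtain ⟨e, he⟩ : ∃ e : ℝ, e = 1 / lam ^ 19 := ⟨_, rfl⟩
  have he0 : 0 < e := by rw [he]; positivity
  have he1 : e ≤ 1 / 2 := by
    rw [he]
    refine one_div_le_one_div_of_le (by norm_num) ?_
    have h1 : lam ≤ lam ^ 19 := le_self_pow₀ hlam1 (by norm_num)
    linarith
  have hlast : 256 * lam ^ 6 * (2 * lam * (22 / w + 9 * e)) ≤ δ / 8 := by
    have h1 : 22 / (w : ℝ) ≤ 22 / lam ^ 19 := div_le_div_of_nonneg_left (by norm_num) (by positivity) hwl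
    have h2 : 22 / (w : ℝ) + 9 * e ≤ 31 / lam ^ 19 := by
      rw [he]
      have : 31 / lam ^ 19 = 22 / lam ^ 19 + 9 * (1 / lam ^ 19) := by ring
      linarith
    calc 256 * lam ^ 6 * (2 * lam * (22 / w + 9 * e)) ≤ 256 * lam ^ 6 * (2 * lam * (31 / lam ^ 19)) := by gcongr
      _ = 15872 / lam ^ 12 := by
          field_simp
          ring
      _ ≤ 15872 / lam := by
          refine div_le_div_of_nonneg_left (by norm_num) hlam0 ?_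
          exact le_self_pow₀ hlam1 (by norm_num)
      _ ≤ δ / 8 := by
          rw [div_le_iff₀ hlam0]
          have h3 : 200000 / δ ≤ lam := by linarith
          rw [div_le_iff₀ hδ] at h3
          linarith
  obtain ⟨B, hB, C, hC, hF⟩ := secF ε hε 1
  have hG := secG he0 he1 w B hw2 hB
  obtain ⟨X₀, hX₀⟩ := eventually_atTop.mp (hF.and hG)
  obtain ⟨C', hC'⟩ := exists_nat_ge (256 * lam ^ 6 * (C + 4) * 16 / δ + 1)
  have hC'1 : (1 : ℝ) ≤ C' := by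
    have : 0 ≤ 256 * lam ^ 6 * (C + 4) * 16 / δ := by positivity
    linarith
  have hC'0 : (0 : ℝ) < C' := by linarith
  have hlim : ∀ᶠ K : ℕ in atTop, Real.log K ^ 2 ≤ (K : ℝ) ^ (1 / 6 : ℝ) := ev_lp 2
  obtain ⟨K₁, hK₁⟩ := eventually_atTop.mp ((ev_L (256 * lam ^ 6 * C * 8 / δ + 40 * (C' + 1) + 10 + D₀ w)).and
    ((ev_lp 3).and (eventually_ge_atTop (max X₀ 1))))
  refine ⟨w, B, C' + 1, K₁, hw2, by omega, fun K H h₀ hK hKH hHK hh => ?_⟩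
  obtain ⟨hLK, hlp, hKX⟩ := hK₁ K hK
  have hK1 : 1 ≤ K := (le_max_right _ _).trans hKX
  have hKpos : (0 : ℝ) < K := by exact_mod_cast hK1
  obtain ⟨ℓ, hℓ⟩ : ∃ ℓ : ℝ, ℓ = Real.log K := ⟨_, rfl⟩
  rw [← hℓ] at hLK hlp
  have hq0 : 0 ≤ 256 * lam ^ 6 * C * 8 / δ := by positivity
  have hD₀0 : (0 : ℝ) ≤ D₀ w := Nat.cast_nonneg _
  have hℓ40 : 40 * ((C' : ℝ) + 1) ≤ ℓ := by linarith
  have hℓ10 : 10 ≤ ℓ := by nlinarith
  have hℓ0 : 0 < ℓ := by linarith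
  obtain ⟨D, hD⟩ : ∃ D : ℕ, D = ⌈C' * ℓ⌉₊ := ⟨_, rfl⟩
  have hD1 : C' * ℓ ≤ D := by rw [hD]; exact Nat.le_ceil _
  have hD2 : (D : ℝ) ≤ (C' + 1) * ℓ := by
    have := (Nat.ceil_lt_add_one (by positivity : (0 : ℝ) ≤ C' * ℓ)).le
    rw [hD]
    nlinarith
  have hDℓ : ℓ ≤ D := by nlinarith
  have hDpos : (0 : ℝ) < D := by linarith
  have hD3 : 2 ≤ D := by
    have : (2 : ℝ) ≤ D := by linarith
    exact_mod_cast this
  have hD4 : D₀ w ≤ D := by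
    have : (D₀ w : ℝ) ≤ D := by linarith
    exact_mod_cast this
  have hKb : ℓ ^ 3 ≤ K := by
    refine hlp.trans ?_
    have hK1r : (1 : ℝ) ≤ K := by exact_mod_cast hK1
    calc (K : ℝ) ^ (1 / 6 : ℝ) ≤ (K : ℝ) ^ (1 : ℝ) := Real.rpow_le_rpow_of_exponent_le hK1r (by norm_num)
      _ = K := Real.rpow_one _
  have hDℓ2 : 40 * (D : ℝ) ≤ ℓ ^ 2 := by nlinarith
  have hℓ23 : ℓ ^ 2 ≤ ℓ ^ 3 := pow_le_pow_right₀ (by linarith) (by norm_num)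
  have hDK : 4 * D ≤ K := by
    have : (4 : ℝ) * D ≤ K := by linarith
    exact_mod_cast this
  obtain ⟨x, hx⟩ : ∃ x : ℕ, x = 5 * D * K := ⟨_, rfl⟩
  have hxr : (x : ℝ) = 5 * D * K := by
    rw [hx]
    push_cast
    ring
  have hKx : K ≤ x := by
    rw [hx]
    exact Nat.le_mul_of_pos_left _ (by omega)
  have hxpos : (0 : ℝ) < x := by
    have : 0 < x := by omega
    exact_mod_cast this
  obtain ⟨L, hL⟩ : ∃ L : ℝ, L = Real.log x := ⟨_, rfl⟩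
  have hL1 : ℓ ≤ L := by
    rw [hL, hℓ]
    exact Real.log_le_log hKpos (by exact_mod_cast hKx)
  have hL2 : L ≤ 2 * ℓ := by
    have h1 : (x : ℝ) ≤ (K : ℝ) ^ 2 := by
      rw [hxr]
      have h2 : 5 * (D : ℝ) ≤ K := by linarith
      nlinarith
    have h2 := Real.log_le_log hxpos h1
    rw [Real.log_pow] at h2
    push_cast at h2
    rw [hL, hℓ]
    exact h2
  have hL0 : 0 < L := by linarith
  have hDL : (D : ℝ) ≤ Real.log x ^ 2 := by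
    rw [← hL]
    nlinarith
  obtain ⟨h1, h2⟩ := hX₀ x (((le_max_left _ _).trans hKX).trans hKx)
  have hF1 := h1 K D H h₀ hx hK1 hDK hD3 hDL hKH hHK hh
  have hK6 : (K : ℝ) ^ (1 / 6 : ℝ) ≤ H := by
    refine le_trans ?_ hKH
    exact Real.rpow_le_rpow_of_exponent_le (by exact_mod_cast hK1) (by linarith)
  have hG1 := h2 K D H h₀ hx hK1 hDK hD3 hDL hK6 hHK hh
  rw [← hL] at hF1 hG1
  have hM0 : (0 : ℝ) ≤ K * H := by positivity
  have hLD : L / D ≤ 2 / C' := by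
    rw [div_le_div_iff₀ hDpos hC'0]
    nlinarith
  set X := Ioc K (2 * K) ×ˢ Ioc h₀ (h₀ + (H : ℤ)) with hX
  have c1 := cheb2 X (fun t => ∑ d ∈ Ioc D (2 * D), fz (zA B x) x (lf d t.1 t.2)) (DZ w) lam D (K * H)
    (C * (D * L + (D : ℝ) ^ 2 / L)) (DZ_pos w) hx₁ hDpos (hF1.trans (le_of_eq (by ring)))
  have c2 := cheb2 X (fun t => ∑ d ∈ Ioc D (2 * D), (nuz (zA B x) (lf d t.1 t.2).toNat - nuz w (lf d t.1 t.2).toNat))
    (DZ w) lam D (K * H) (4 * D * L + 2 * lam * (D : ℝ) ^ 2 * (22 / w + 9 * e)) (DZ_pos w) hx₁ hDpos (by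
      refine hG1.trans ?_
      refine mul_le_mul_of_nonneg_left ?_ hM0
      have : 2 * (DZ w)⁻¹ * (D : ℝ) ^ 2 * (22 / w + 9 * e) ≤ 2 * lam * (D : ℝ) ^ 2 * (22 / w + 9 * e) := by gcongr
      linarith)
  have hkey : 256 * lam ^ 6 * (C + 4) * (2 / C') ≤ δ / 8 := by
    have h3 : 256 * lam ^ 6 * (C + 4) * 16 / δ ≤ C' := by linarith
    rw [div_le_iff₀ hδ] at h3
    have h4 : 256 * lam ^ 6 * (C + 4) * (2 / C') = 256 * lam ^ 6 * (C + 4) * 2 / C' := by ring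
    rw [h4, div_le_iff₀ hC'0]
    linarith
  have hCL : 256 * lam ^ 6 * C / L ≤ δ / 8 := by
    have h3 : 256 * lam ^ 6 * C * 8 / δ ≤ L := by linarith
    rw [div_le_iff₀ hδ] at h3
    rw [div_le_iff₀ hL0]
    linarith
  have d1 : 256 * lam ^ 6 * (C * (D * L + (D : ℝ) ^ 2 / L)) / D ^ 2 ≤ δ / 8 + δ / 8 := by
    have e1 : 256 * lam ^ 6 * (C * (D * L + (D : ℝ) ^ 2 / L)) / D ^ 2 =
        256 * lam ^ 6 * C * (L / D) + 256 * lam ^ 6 * C / L := by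
      field_simp
    rw [e1]
    have h3 : 256 * lam ^ 6 * C * (L / D) ≤ 256 * lam ^ 6 * (C + 4) * (2 / C') := by
      have : 0 ≤ L / D := by positivity
      gcongr
      linarith
    linarith
  have d2 : 256 * lam ^ 6 * (4 * D * L + 2 * lam * (D : ℝ) ^ 2 * (22 / w + 9 * e)) / D ^ 2 ≤ δ / 8 + δ / 8 := by
    have e1 : 256 * lam ^ 6 * (4 * D * L + 2 * lam * (D : ℝ) ^ 2 * (22 / w + 9 * e)) / D ^ 2 =
        256 * lam ^ 6 * 4 * (L / D) + 256 * lam ^ 6 * (2 * lam * (22 / w + 9 * e)) := by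
      field_simp
    rw [e1]
    have h3 : 256 * lam ^ 6 * 4 * (L / D) ≤ 256 * lam ^ 6 * (C + 4) * (2 / C') := by
      have : 0 ≤ L / D := by positivity
      gcongr
      linarith
    linarith
  refine ⟨D, x, hx, hK1, hDK, hD3, hD4, hDL, by push_cast; rw [← hℓ]; exact hD2,
    X.filter (fun t => (D : ℝ) * DZ w ^ 3 / 16 < |∑ d ∈ Ioc D (2 * D), fz (zA B x) x (lf d t.1 t.2)|) ∪
    X.filter (fun t => (D : ℝ) * DZ w ^ 3 / 16 <
      |∑ d ∈ Ioc D (2 * D), (nuz (zA B x) (lf d t.1 t.2).toNat - nuz w (lf d t.1 t.2).toNat)|), ?_, ?_⟩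
  · refine (Nat.cast_le.2 (Finset.card_union_le _ _)).trans ?_
    push_cast
    have f1 := c1.trans (mul_le_mul_of_nonneg_left d1 hM0)
    have f2 := c2.trans (mul_le_mul_of_nonneg_left d2 hM0)
    have f3 : (K * H : ℝ) * (δ / 8 + δ / 8) + (K * H) * (δ / 8 + δ / 8) ≤ δ * (K * H) := by
      have : 0 ≤ δ * (K * H : ℝ) := by positivity
      linarith
    exact (add_le_add f1 f2).trans f3
  · intro t ht htE
    rw [Finset.mem_union, Finset.mem_filter, Finset.mem_filter] at htE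
    push Not at htE
    exact ⟨htE.1 ht, htE.2 ht⟩

end Pool.Agent.SSQ
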