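import Pool.Agent.Lib.SSQ.LowG

/-!
# A lower bound for the sieve model with a fixed level
-/

set_option autoImplicit false

open Finset Filter

namespace Pool.Agent.SSQ

open Pool.Agent.HLB Pool.Agent.HLT Pool.Agent.HLU Pool.Agent.SQP

open SieveAux

theorem low_W (w : ℕ) : ∃ D₀ : ℕ, ∀ n m₀ D : ℕ, D₀ ≤ D → (m₀ + D) ^ 2 + 2 ≤ n →
    (D : ℝ) * DZ w ^ 3 / 4 ≤ ∑ m ∈ Ioc m₀ (m₀ + D), nuz w (n - m ^ 2) := by
  classical
  obtain ⟨K, hK⟩ := low_det 2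
  have hZ := DZ_pos w
  obtain ⟨D₀, hD₀⟩ := exists_nat_ge (4 * (((w + 1) ^ K : ℕ) : ℝ) ^ 2 / DZ w ^ 3)
  refine ⟨D₀, fun n m₀ D hD hMn => ?_⟩
  have hle : ∀ m : ℕ, m ≤ m₀ + D → m ^ 2 + 2 ≤ n := fun m hm => by
    have := Nat.pow_le_pow_left hm 2
    omega
  have hDr : 4 * (((w + 1) ^ K : ℕ) : ℝ) ^ 2 / DZ w ^ 3 ≤ D := hD₀.trans (by exact_mod_cast hD)
  rw [div_le_iff₀ (by positivity)] at hDr
  set ρ : ℝ := ∏ p ∈ Nat.primesLE w, (1 - ((sqr n p).card : ℝ) / p) with hρ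
  have hρF : ∏ p ∈ Nat.primesLE w, (1 - ((Fs n m₀ p).card : ℝ) / p) = ρ := by
    rw [hρ]
    refine Finset.prod_congr rfl fun p hp => ?_
    rw [card_Fs n m₀ (Nat.mem_primesLE.1 hp).2.pos]
  have hρ1 : DZ w ^ 3 ≤ ρ := by
    have h1 := prod_sqr w n
    have h2 := SQ_ge w n
    have h4 : ρ = DZ w * SQ w n := by
      rw [← h1, hρ, ← mul_assoc, mul_inv_cancel₀ hZ.ne', one_mul]
    have h5 : DZ w * DZ w ^ 2 ≤ ρ := by
      rw [h4]
      exact mul_le_mul_of_nonneg_left h2 hZ.le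
    calc DZ w ^ 3 = DZ w * DZ w ^ 2 := by ring
      _ ≤ ρ := h5
  have hs := hK w D (Fs n m₀) (fun p hp =>
      ⟨Fs_sub n m₀ p, by
        rw [card_Fs n m₀ (Nat.mem_primesLE.1 hp).2.pos]
        exact card_sqr_le n (Nat.mem_primesLE.1 hp).2⟩)
  rw [hρF] at hs
  set T := (Ioc m₀ (m₀ + D)).filter (fun m => ∀ p ∈ Nat.primesLE w, m % p ∉ sqr n p) with hT
  have hcard : ((Icc 1 D).filter (fun n_1 => ∀ p ∈ Nat.primesLE w, n_1 % p ∉ Fs n m₀ p)).card ≤ T.card := by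
    refine Finset.card_le_card_of_injOn (fun i => m₀ + i) ?_ ?_
    · intro i hi
      rw [Finset.mem_coe, Finset.mem_filter, Finset.mem_Icc] at hi
      change m₀ + i ∈ (T : Set ℕ)
      rw [Finset.mem_coe, hT, Finset.mem_filter, Finset.mem_Ioc]
      refine ⟨⟨by omega, by omega⟩, fun p hp => ?_⟩
      rw [mem_Fs n m₀ i (Nat.mem_primesLE.1 hp).2.pos]
      exact hi.2 p hp
    · intro a _ b _ hab
      simpa using hab
  have hDpos0 : (0 : ℝ) ≤ D := Nat.cast_nonneg D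
  have hcount : (D : ℝ) * DZ w ^ 3 / 4 ≤ T.card := by
    have h1 : (((Icc 1 D).filter (fun n_1 => ∀ p ∈ Nat.primesLE w, n_1 % p ∉ Fs n m₀ p)).card : ℝ) ≤ T.card := by
      exact_mod_cast hcard
    have h2 : (D : ℝ) * DZ w ^ 3 ≤ D * ρ := mul_le_mul_of_nonneg_left hρ1 hDpos0
    linarith
  calc (D : ℝ) * DZ w ^ 3 / 4 ≤ T.card := hcount
    _ = ∑ _m ∈ T, (1 : ℝ) := by rw [Finset.sum_const, nsmul_eq_mul, mul_one]
    _ ≤ ∑ m ∈ T, nuz w (n - m ^ 2) := by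
        refine Finset.sum_le_sum fun m hm => ?_
        rw [hT, Finset.mem_filter] at hm
        have hm2 := Finset.mem_Ioc.1 hm.1
        have h1 := hle m hm2.2
        unfold nuz
        rw [ic_eq (by omega : m ^ 2 ≤ n), if_pos hm.2, mul_one]
        exact (one_le_inv₀ (DZ_pos w)).2 (DZ_le_one' w)
    _ ≤ _ := by
        refine Finset.sum_le_sum_of_subset_of_nonneg (by rw [hT]; exact Finset.filter_subset _ _) fun m _ _ => ?_
        unfold nuz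
        exact mul_nonneg (inv_nonneg.2 (DZ_pos w).le) (ic_nonneg _ _)

end Pool.Agent.SSQ
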