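import Pool.Agent.Lib.SSQ.CorC
import Pool.Agent.Lib.SSQ.LowW
import Pool.Agent.Lib.SSQ.Final
import Pool.Agent.Lib.SSQ.KeyCb

/-!
Almost all `k ^ 2 + h` are `m ^ 2 + p` with `p ≤ C K log K`: from the exceptional set of `cntC`.
-/

set_option autoImplicit false

open Finset Filter

namespace Pool.Agent.SSQ

open Pool.Agent.HLB Pool.Agent.HLT Pool.Agent.HLU Pool.Agent.SQP

namespace KeyCAux

/-- a prime `n - m ^ 2` -/
theorem prime_of_small {K D H : ℕ} {h₀ : ℤ} {x k n : ℕ} {h : ℤ} (g : Geo K D H h₀ x k n h) (w z : ℕ)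
    (hlow : ∀ n m₀ D' : ℕ, D ≤ D' → (m₀ + D') ^ 2 + 2 ≤ n →
      (D' : ℝ) * DZ w ^ 3 / 4 ≤ ∑ m ∈ Ioc m₀ (m₀ + D'), nuz w (n - m ^ 2))
    (h1 : |∑ d ∈ Ioc D (2 * D), fz z x (lf d k h)| ≤ (D : ℝ) * DZ w ^ 3 / 16)
    (h2 : |∑ d ∈ Ioc D (2 * D), (nuz z (lf d k h).toNat - nuz w (lf d k h).toNat)| ≤
      (D : ℝ) * DZ w ^ 3 / 16) :
    ∃ m p : ℕ, p.Prime ∧ (k : ℤ) ^ 2 + h = (m : ℤ) ^ 2 + p ∧ p ≤ 9 * D * K := by
  have hD := g.hD
  have hkK : K < k := (Finset.mem_Ioc.1 g.hk).1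
  have hDK := g.hDK
  have hDZ := DZ_pos w
  have hrefl : ∀ f : ℕ → ℝ, ∑ d ∈ Ioc D (2 * D), f d = ∑ m ∈ Ico (k - 2 * D) (k - D), f (k - m) := by
    intro f
    rw [sum_refl f k (k - 2 * D) (k - D) (by omega) (by omega)]
    congr 2 <;> omega
  have hm : ∀ m ∈ Ico (k - 2 * D) (k - D), m + D ≤ k ∧ k ≤ m + 2 * D := by
    intro m hm
    rw [Finset.mem_Ico] at hm
    omega
  have e1 : ∑ d ∈ Ioc D (2 * D), fz z x (lf d k h) =
      ∑ m ∈ Ico (k - 2 * D) (k - D), ff z (n - m ^ 2) := by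
    rw [hrefl]
    exact Finset.sum_congr rfl fun m h' => g.fz z (hm m h').1 (hm m h').2
  have e2 : ∑ d ∈ Ioc D (2 * D), (nuz z (lf d k h).toNat - nuz w (lf d k h).toNat) =
      ∑ m ∈ Ico (k - 2 * D) (k - D), (nuz z (n - m ^ 2) - nuz w (n - m ^ 2)) := by
    rw [hrefl (fun d => nuz z (lf d k h).toNat - nuz w (lf d k h).toNat)]
    refine Finset.sum_congr rfl fun m h' => ?_
    rw [g.form (hm m h').1, Int.toNat_natCast]
  have e3 : (D : ℝ) * DZ w ^ 3 / 4 ≤ ∑ m ∈ Ico (k - 2 * D) (k - D), nuz w (n - m ^ 2) := by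
    have hset : Ico (k - 2 * D) (k - D) = Ioc (k - 2 * D - 1) (k - 2 * D - 1 + D) := by
      ext m
      rw [Finset.mem_Ico, Finset.mem_Ioc]
      omega
    rw [hset]
    exact hlow n _ D le_rfl (g.sq_lt (by omega))
  rw [e1] at h1
  rw [e2] at h2
  have hsum : ∑ m ∈ Ico (k - 2 * D) (k - D), HLT.lp (n - m ^ 2) =
      ∑ m ∈ Ico (k - 2 * D) (k - D), ff z (n - m ^ 2) +
        ∑ m ∈ Ico (k - 2 * D) (k - D), (nuz z (n - m ^ 2) - nuz w (n - m ^ 2)) +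
        ∑ m ∈ Ico (k - 2 * D) (k - D), nuz w (n - m ^ 2) := by
    rw [← Finset.sum_add_distrib, ← Finset.sum_add_distrib]
    refine Finset.sum_congr rfl fun m _ => ?_
    unfold ff
    ring
  have hpos : 0 < (D : ℝ) * DZ w ^ 3 := by
    have : (0 : ℝ) < D := by
      have : 0 < D := by omega
      exact_mod_cast this
    positivity
  have hlp : 0 < ∑ m ∈ Ico (k - 2 * D) (k - D), HLT.lp (n - m ^ 2) := by
    rw [hsum]
    have a1 := (abs_le.1 h1).1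
    have a2 := (abs_le.1 h2).1
    linarith
  obtain ⟨m, hmm, hmp⟩ := Finset.exists_lt_of_sum_lt (s := Ico (k - 2 * D) (k - D))
    (f := fun _ => (0 : ℝ)) (g := fun m => HLT.lp (n - m ^ 2)) (by simpa using hlp)
  have hp : (n - m ^ 2).Prime := by
    by_contra hno
    simp only [HLT.lp, if_neg hno, lt_irrefl] at hmp
  have hle := g.sq_lt (hm m hmm).1
  refine ⟨m, n - m ^ 2, hp, ?_, (g.upper (hm m hmm).1 (hm m hmm).2).1⟩
  rw [Nat.cast_sub (by omega), g.hn]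
  push_cast
  ring

end KeyCAux

open KeyCAux in
theorem keyC (ε : ℝ) (hε : 0 < ε) : Key4 ε := by
  intro δ hδ
  choose D₀ hD₀ using low_W
  obtain ⟨w, B, C₂, K₀, hw, hC₂, hmain⟩ := cntC ε hε δ hδ (fun w => max 3 (D₀ w))
  refine ⟨9 * C₂, K₀, fun K H h₀ hK hH hHK hh₀ => ?_⟩
  obtain ⟨D, x, hx, hK1, hDK, hD2, hDD, _, hDC, E, hE, hE2⟩ := hmain K H h₀ hK hH hHK hh₀
  refine ⟨E, hE, fun k hk h hh hkh => ?_⟩
  obtain ⟨b1, b2⟩ := hE2 (k, h) (Finset.mem_product.2 ⟨hk, hh⟩) hkh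
  have hkK : (K : ℤ) < k := by exact_mod_cast (Finset.mem_Ioc.1 hk).1
  have hh1 := (Finset.mem_Ioc.1 hh).1
  have hh2 := (abs_le.1 hh₀).1
  have hn0 : 0 ≤ (k : ℤ) ^ 2 + h := by nlinarith
  have g : Geo K D H h₀ x k ((k : ℤ) ^ 2 + h).toNat h :=
    ⟨hx, (le_max_left _ _).trans hDD, hDK, hHK, hh₀, hk, hh, Int.toNat_of_nonneg hn0⟩
  obtain ⟨m, p, hp, hmp, hpD⟩ := prime_of_small g w (zA B x)
    (fun n m₀ D' hD' hn => hD₀ w n m₀ D' (((le_max_right _ _).trans hDD).trans hD') hn) b1 b2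
  refine ⟨m, p, hp, hmp, ?_⟩
  have hKr : (0 : ℝ) ≤ K := Nat.cast_nonneg K
  calc (p : ℝ) ≤ ((9 * D * K : ℕ) : ℝ) := by exact_mod_cast hpD
    _ = 9 * (D * K) := by push_cast; ring
    _ ≤ 9 * ((C₂ * Real.log K) * K) := by
        apply mul_le_mul_of_nonneg_left _ (by norm_num)
        exact mul_le_mul_of_nonneg_right hDC hKr
    _ = ((9 * C₂ : ℕ) : ℝ) * (K * Real.log K) := by push_cast; ring

end Pool.Agent.SSQ
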