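import Pool.Agent.Lib.SSQ.Block
import Pool.Agent.Lib.SSQ.Cor2

/-!
# Existence, for one block
-/

set_option autoImplicit false

open Finset Filter

namespace Pool.Agent.SSQ

open Pool.Agent.HLB Pool.Agent.HLT Pool.Agent.HLU Pool.Agent.SQP

lemma ev_D2 (ε : ℝ) (hε : 0 < ε) : ∀ᶠ K : ℕ in atTop,
    (Real.exp (Real.log (Real.log K) ^ 4) + 1) ^ 2 ≤ (K : ℝ) ^ (ε / 2) := by
  have h0 : Tendsto (fun x : ℕ => Real.log (Real.log x)) atTop atTop :=
    Real.tendsto_log_atTop.comp (Real.tendsto_log_atTop.comp tendsto_natCast_atTop_atTop)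
  have h1 : (fun t : ℝ => t ^ 4) =o[atTop] Real.exp := Real.isLittleO_pow_exp_atTop
  have h2 := (h1.comp_tendsto h0).bound (show (0:ℝ) < ε / 8 by linarith)
  filter_upwards [h2, h0.eventually (eventually_ge_atTop (1 : ℝ)), ev_L (16 / ε + 1), eventually_ge_atTop 1] with
    K h2 ht hL hK1
  have hKp : (0 : ℝ) < K := by exact_mod_cast hK1
  have hl1 : 1 ≤ Real.log K := by
    have : 0 ≤ 16 / ε := by positivity
    linarith
  set t := Real.log (Real.log K) with ht0
  have hel : Real.exp t = Real.log K := Real.exp_log (by linarith)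
  simp only [Function.comp_def] at h2
  rw [Real.norm_of_nonneg (by positivity), Real.norm_of_nonneg (Real.exp_pos _).le, ← ht0, hel] at h2
  have h3 : (1 : ℝ) ≤ Real.exp (t ^ 4) := Real.one_le_exp (by positivity)
  have h4 : (2 : ℝ) ≤ Real.exp 1 := by linarith [Real.exp_one_gt_d9]
  calc (Real.exp (t ^ 4) + 1) ^ 2 ≤ (Real.exp 1 * Real.exp (t ^ 4)) ^ 2 := by
        refine pow_le_pow_left₀ (by positivity) ?_ 2
        nlinarith [Real.exp_pos (t ^ 4)]
    _ = Real.exp (2 * (1 + t ^ 4)) := by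
        rw [← Real.exp_add, ← Real.exp_nat_mul]
        norm_num
    _ ≤ Real.exp (Real.log K * (ε / 2)) := by
        refine Real.exp_le_exp.2 ?_
        have h5 : 2 * t ^ 4 ≤ ε / 4 * Real.log K := by linarith
        have h6 : 2 ≤ ε / 4 * Real.log K := by
          have h7 : 16 / ε ≤ Real.log K := by linarith
          have h8 : ε / 4 * (16 / ε) ≤ ε / 4 * Real.log K := mul_le_mul_of_nonneg_left h7 (by linarith)
          have h9 : ε / 4 * (16 / ε) = 4 := by
            field_simp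
            norm_num
          linarith
        nlinarith
    _ = (K : ℝ) ^ (ε / 2) := by rw [Real.rpow_def_of_pos hKp]

theorem key (ε : ℝ) (hε : 0 < ε) : Key2 ε := by
  intro A
  obtain ⟨B, -, K₁, hblk⟩ := block (ε / 2) (by linarith) (A + 5) 0
  obtain ⟨K₀, hK₀⟩ := eventually_atTop.mp ((ev_D2 ε hε).and ((ev_par (ε / 2) (by linarith) 0).and
    ((ev_L 48).and (eventually_ge_atTop (max K₁ 2)))))
  obtain ⟨x₀, hx₀⟩ := eventually_atTop.mp (DZ_inv_le B)
  refine ⟨max K₀ x₀, fun K H h₀ hK hHl hHK hh => ?_⟩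
  obtain ⟨hD2, hpar, hL, hKK⟩ := hK₀ K ((le_max_left _ _).trans hK)
  have hK1 : K₁ ≤ K := (le_max_left _ _).trans hKK
  have hK2 : 2 ≤ K := (le_max_right _ _).trans hKK
  have hKr : (2 : ℝ) ≤ K := by exact_mod_cast hK2
  set l := Real.log K with hl
  have hl0 : 0 < l := by linarith
  obtain ⟨D, hD⟩ : ∃ D : ℕ, D = ⌈Real.exp (Real.log l ^ 4)⌉₊ := ⟨_, rfl⟩
  have hDe : Real.exp (Real.log l ^ 4) ≤ D := by rw [hD]; exact Nat.le_ceil _
  have hDu : (D : ℝ) ≤ Real.exp (Real.log l ^ 4) + 1 := by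
    rw [hD]
    exact (Nat.ceil_lt_add_one (Real.exp_pos _).le).le
  have hD1 : (1 : ℝ) ≤ D := by
    refine le_trans ?_ hDe
    exact Real.one_le_exp (by positivity)
  have hDK : (D : ℝ) ^ 2 ≤ (K : ℝ) ^ (ε / 2) :=
    (pow_le_pow_left₀ (by linarith) hDu 2).trans hD2
  by_cases hε1 : 1 / 6 + ε / 2 ≤ 1
  swap
  · -- `ε > 5/3`: impossible for large `K`
    exfalso
    push Not at hε1
    have h1 : (K : ℝ) ^ (1 : ℝ) < (K : ℝ) ^ (1 / 6 + ε) :=
      Real.rpow_lt_rpow_of_exponent_lt (by linarith) (by linarith)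
    rw [Real.rpow_one] at h1
    have h2 : (H : ℝ) ≤ K := by exact_mod_cast hHK
    linarith
  have hDH : (D : ℝ) * ((D : ℝ) * K) ^ (1 / 6 + ε / 2) ≤ H := by
    refine le_trans ?_ hHl
    have h1 : ((D : ℝ) * K) ^ (1 / 6 + ε / 2) ≤ D * (K : ℝ) ^ (1 / 6 + ε / 2) := by
      rw [Real.mul_rpow (by linarith) (by linarith)]
      refine mul_le_mul_of_nonneg_right ?_ (by positivity)
      calc (D : ℝ) ^ (1 / 6 + ε / 2) ≤ (D : ℝ) ^ (1 : ℝ) := Real.rpow_le_rpow_of_exponent_le hD1 hε1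
        _ = D := Real.rpow_one _
    calc (D : ℝ) * ((D : ℝ) * K) ^ (1 / 6 + ε / 2) ≤ D * (D * (K : ℝ) ^ (1 / 6 + ε / 2)) :=
          mul_le_mul_of_nonneg_left h1 (by linarith)
      _ = (D : ℝ) ^ 2 * (K : ℝ) ^ (1 / 6 + ε / 2) := by ring
      _ ≤ (K : ℝ) ^ (ε / 2) * (K : ℝ) ^ (1 / 6 + ε / 2) := mul_le_mul_of_nonneg_right hDK (by positivity)
      _ = (K : ℝ) ^ (1 / 6 + ε) := by
          rw [← Real.rpow_add (by linarith)]
          congr 1
          ring
  obtain ⟨-, -, hD2', h4D, hl1, hl2, -⟩ := hpar D H hDe hDH hHK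
  obtain ⟨hw, hs⟩ := hblk K D H h₀ hK1 hDe hDH hHK hh
  obtain ⟨E, hE1, hE2⟩ := hw (fun _ => 1) (fun _ => by simp)
  refine ⟨E, ?_, fun k hk h hh' hkh => ?_⟩
  · refine hE1.trans ?_
    refine div_le_div_of_nonneg_left (by positivity) (by positivity) ?_
    exact pow_le_pow_right₀ (by linarith) (by omega)
  have hk' := Finset.mem_Ioc.1 hk
  have hh'' := Finset.mem_Ioc.1 hh'
  have hpos : 0 ≤ (k : ℤ) ^ 2 + h := by
    have h1 := abs_le.1 hh
    have h2 : (K : ℤ) + 1 ≤ k := by exact_mod_cast hk'.1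
    have h3 : (0 : ℤ) ≤ K := Int.natCast_nonneg K
    nlinarith [hh''.1, h1.1]
  obtain ⟨n, hn⟩ : ∃ n : ℕ, (n : ℤ) = (k : ℤ) ^ 2 + h := ⟨((k : ℤ) ^ 2 + h).toNat, Int.toNat_of_nonneg hpos⟩
  have g : Geo K D H h₀ (5 * D * K) k n h := ⟨rfl, hD2', h4D, hHK, hh, hk, hh', hn⟩
  have h1 := hE2 k hk h hh' hkh n hn (k - 2 * D) (k - D) (by omega) (by omega) (by omega)
  have h2 := hs k hk h hh' n hn (k - 2 * D) (k - D) (by omega) (by omega) (by omega)
  set x := 5 * D * K with hx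
  set L := Real.log (x : ℝ) with hLd
  have hL0 : 0 < L := by linarith
  have hxx : x₀ ≤ x := by
    have h3 : K ≤ 5 * D * K := Nat.le_mul_of_pos_left K (by omega)
    exact ((le_max_right _ _).trans hK).trans h3
  have hDZ := hx₀ x hxx
  simp only [one_mul] at h1
  rw [Finset.sum_sub_distrib] at h1
  obtain ⟨W, hW⟩ : ∃ W, W = ∑ m ∈ Ico (k - 2 * D) (k - D), 1 / Real.log ((n - m ^ 2 : ℕ) : ℝ) := ⟨_, rfl⟩
  rw [← hW] at h2
  have hW1 : (D : ℝ) / (2 * L) ≤ W := by
    rw [hW]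
    calc (D : ℝ) / (2 * L) = ∑ _m ∈ Ico (k - 2 * D) (k - D), 1 / (2 * L) := by
          rw [Finset.sum_const, Nat.card_Ico, nsmul_eq_mul]
          have : k - D - (k - 2 * D) = D := by omega
          rw [this]
          ring
      _ ≤ _ := by
          refine Finset.sum_le_sum fun m hm => ?_
          rw [Finset.mem_Ico] at hm
          have h3 := g.sq_lt (m := m) (by omega)
          have h4 := (g.upper (m := m) (by omega) (by omega)).2
          have h5 : 2 ≤ n - m ^ 2 := by omega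
          have h6 : (0 : ℝ) < Real.log ((n - m ^ 2 : ℕ) : ℝ) := Real.log_pos (by exact_mod_cast h5)
          refine one_div_le_one_div_of_le h6 ?_
          have h7 : ((n - m ^ 2 : ℕ) : ℝ) ≤ (x : ℝ) * 2 := by
            have : n - m ^ 2 ≤ x * 2 := by omega
            exact_mod_cast this
          have h8 : (0 : ℝ) < ((n - m ^ 2 : ℕ) : ℝ) := by
            have : 0 < n - m ^ 2 := by omega
            exact_mod_cast this
          have h9 := Real.log_le_log h8 h7
          have hx0 : (0 : ℝ) < x := by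
            have h10 : 0 < 5 * D * K := by positivity
            have h11 : 0 < x := by rw [hx]; exact h10
            exact_mod_cast h11
          rw [Real.log_mul hx0.ne' (by norm_num)] at h9
          have h10 := Real.log_two_lt_d9
          linarith
  have hSQ : 1 / L ^ 2 ≤ SQ (zA B x) n := by
    refine le_trans ?_ (SQ_ge _ n)
    have h7 : 1 / L ≤ DZ (zA B x) := by
      rw [div_le_iff₀ hL0]
      have h8 := DZ_pos (zA B x)
      calc (1 : ℝ) = DZ (zA B x) * (DZ (zA B x))⁻¹ := (mul_inv_cancel₀ h8.ne').symm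
        _ ≤ DZ (zA B x) * L := mul_le_mul_of_nonneg_left hDZ h8.le
    calc 1 / L ^ 2 = (1 / L) ^ 2 := by rw [div_pow, one_pow]
      _ ≤ DZ (zA B x) ^ 2 := pow_le_pow_left₀ (by positivity) h7 2
  have hmain : (D : ℝ) / (2 * L ^ 3) ≤ SQ (zA B x) n * W := by
    calc (D : ℝ) / (2 * L ^ 3) = (1 / L ^ 2) * (D / (2 * L)) := by
          field_simp
      _ ≤ _ := mul_le_mul hSQ hW1 (by positivity) (SQ_nonneg _ _)
  have herr : 2 * ((D : ℝ) / l ^ (A + 5)) < D / (2 * L ^ 3) := by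
    have h3 : (D : ℝ) / l ^ (A + 5) ≤ D / l ^ 5 :=
      div_le_div_of_nonneg_left (by linarith) (by positivity) (pow_le_pow_right₀ (by linarith) (by omega))
    have h4 : 2 * ((D : ℝ) / l ^ 5) < D / (2 * L ^ 3) := by
      rw [← mul_div_assoc, div_lt_div_iff₀ (by positivity) (by positivity)]
      have h5 : L ^ 3 ≤ (3 * l) ^ 3 := pow_le_pow_left₀ hL0.le hl2 3
      have h6 : 2 * D * (2 * L ^ 3) ≤ D * (108 * l ^ 3) := by
        have : (0 : ℝ) ≤ D := by linarith
        nlinarith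
      refine lt_of_le_of_lt h6 ?_
      refine mul_lt_mul_of_pos_left ?_ (by linarith)
      have h7 : l ^ 5 = l ^ 2 * l ^ 3 := by ring
      rw [h7]
      refine mul_lt_mul_of_pos_right ?_ (by positivity)
      nlinarith
    linarith
  have hsum : 0 < ∑ m ∈ Ico (k - 2 * D) (k - D), G0 (n - m ^ 2) := by
    rw [abs_le] at h1 h2
    have h3 : ((D : ℝ) / l ^ (A + 5)) + D / l ^ (A + 5) = 2 * ((D : ℝ) / l ^ (A + 5)) := by ring
    linarith [h1.1, h2.1]
  obtain ⟨m, hm, hm0⟩ := Finset.exists_ne_zero_of_sum_ne_zero hsum.ne'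
  have hp : (n - m ^ 2).Prime := by
    unfold G0 at hm0
    by_contra hcon
    rw [if_neg hcon] at hm0
    exact hm0 rfl
  rw [Finset.mem_Ico] at hm
  have h3 := g.sq_lt (m := m) (by omega)
  have h4 := (g.upper (m := m) (by omega) (by omega)).1
  refine ⟨m, n - m ^ 2, hp, ?_, ?_⟩
  · rw [← hn, Nat.cast_sub (by omega : m ^ 2 ≤ n)]
    push_cast
    ring
  · calc ((n - m ^ 2 : ℕ) : ℝ) ≤ ((9 * D * K : ℕ) : ℝ) := by exact_mod_cast h4
      _ = 9 * K * D := by push_cast; ring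
      _ ≤ 9 * K * (Real.exp (Real.log l ^ 4) + 1) := mul_le_mul_of_nonneg_left hDu (by positivity)

end Pool.Agent.SSQ
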