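import Pool.Agent.Lib.P83e.BTa
import Pool.Agent.Lib.SSQ.Sieve

/-!
# Few integers near a square are a square plus a prime smaller than `c √n log n`
-/

set_option autoImplicit false

open Finset Filter

namespace Pool.Agent.SSQ

namespace LowPAux

/-- the covering set -/
def cov (s k₀ J t : ℕ) : Finset ℕ :=
  ((range (k₀ + 1)).biUnion (fun k => Icc (k ^ 2 - t) (k ^ 2 + t))) ∪
  ((Icc 1 (s + 1)).biUnion (fun k => (Icc (k - J) (k + J)).biUnion (fun m =>
    ((Ioc (k ^ 2 - (m ^ 2 + t + 1)) (k ^ 2 - (m ^ 2 + t + 1) + (2 * t + 2))).filter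
      (fun p => p.Prime ∧ p ≡ 0 [MOD 1])).image (fun p => m ^ 2 + p))))

lemma card_cov (C : ℝ) (hbt : ∀ h : ℕ, 2 ≤ h → ∀ u q v : ℕ, 0 < q → q ^ 4 ≤ h → v.Coprime q →
    (((Ioc u (u + h)).filter (fun p => p.Prime ∧ p ≡ v [MOD q])).card : ℝ) ≤
      C * h / ((q.totient : ℝ) * Real.log h)) (s k₀ J t : ℕ) :
    ((cov s k₀ J t).card : ℝ) ≤ (k₀ + 1) * (2 * t + 1) +
      (s + 1) * ((2 * J + 1) * (C * (2 * t + 2) / Real.log (2 * t + 2))) := by
  classical
  have hb : ∀ u : ℕ, (((Ioc u (u + (2 * t + 2))).filter (fun p => p.Prime ∧ p ≡ 0 [MOD 1])).card : ℝ) ≤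
      C * (2 * t + 2) / Real.log (2 * t + 2) := by
    intro u
    have h1 := hbt (2 * t + 2) (by omega) u 1 0 one_pos (by omega) (by decide)
    refine h1.trans (le_of_eq ?_)
    push_cast
    simp
  have hb0 : 0 ≤ C * (2 * t + 2) / Real.log (2 * t + 2) := (Nat.cast_nonneg _).trans (hb 0)
  unfold cov
  refine (Nat.cast_le.2 (Finset.card_union_le _ _)).trans ?_
  push_cast
  refine add_le_add ?_ ?_
  · refine (Nat.cast_le.2 Finset.card_biUnion_le).trans ?_
    push_cast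
    calc ∑ k ∈ range (k₀ + 1), ((Icc (k ^ 2 - t) (k ^ 2 + t)).card : ℝ) ≤ ∑ _k ∈ range (k₀ + 1), (2 * t + 1 : ℝ) := by
          refine Finset.sum_le_sum fun k _ => ?_
          have : (Icc (k ^ 2 - t) (k ^ 2 + t)).card ≤ 2 * t + 1 := by
            rw [Nat.card_Icc]
            omega
          exact_mod_cast this
      _ = (k₀ + 1) * (2 * t + 1) := by
          rw [Finset.sum_const, nsmul_eq_mul, Finset.card_range]
          push_cast
          ring
  · refine (Nat.cast_le.2 Finset.card_biUnion_le).trans ?_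
    push_cast
    have hin : ∀ k : ℕ, (((Icc (k - J) (k + J)).biUnion (fun m =>
        ((Ioc (k ^ 2 - (m ^ 2 + t + 1)) (k ^ 2 - (m ^ 2 + t + 1) + (2 * t + 2))).filter
          (fun p => p.Prime ∧ p ≡ 0 [MOD 1])).image (fun p => m ^ 2 + p))).card : ℝ) ≤
        (2 * J + 1) * (C * (2 * t + 2) / Real.log (2 * t + 2)) := by
      intro k
      refine (Nat.cast_le.2 Finset.card_biUnion_le).trans ?_
      push_cast
      calc _ ≤ ∑ _m ∈ Icc (k - J) (k + J), (C * (2 * t + 2) / Real.log (2 * t + 2)) := by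
            refine Finset.sum_le_sum fun m _ => ?_
            refine (Nat.cast_le.2 Finset.card_image_le).trans ?_
            exact hb _
        _ = ((Icc (k - J) (k + J)).card : ℝ) * (C * (2 * t + 2) / Real.log (2 * t + 2)) := by
            rw [Finset.sum_const, nsmul_eq_mul]
        _ ≤ _ := by
            refine mul_le_mul_of_nonneg_right ?_ hb0
            have : (Icc (k - J) (k + J)).card ≤ 2 * J + 1 := by
              rw [Nat.card_Icc]
              omega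
            exact_mod_cast this
    calc _ ≤ ∑ _k ∈ Icc 1 (s + 1), (2 * J + 1) * (C * (2 * t + 2) / Real.log (2 * t + 2)) :=
          Finset.sum_le_sum fun k _ => hin k
      _ = _ := by
          rw [Finset.sum_const, nsmul_eq_mul, Nat.card_Icc]
          push_cast
          simp

/-- membership -/
lemma mem_cov {s k₀ J t x n k m p : ℕ} (hx : x < (s + 1) ^ 2) (hts : t ≤ s) (hn : n ≤ x) (h1 : n ≤ k ^ 2 + t)
    (h2 : k ^ 2 ≤ n + t) (hp : p.Prime) (hmp : n = m ^ 2 + p) (hJ : k₀ < k → t + p < (J + 1) * (k₀ + 1)) :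
    n ∈ cov s k₀ J t := by
  classical
  unfold cov
  rw [Finset.mem_union]
  rcases Nat.lt_or_ge k₀ k with hk | hk
  · right
    have hJ := hJ hk
    rw [Finset.mem_biUnion]
    have hks : k ≤ s + 1 := by
      by_contra hcon
      push Not at hcon
      have h3 : (s + 2) ^ 2 ≤ k ^ 2 := Nat.pow_le_pow_left hcon 2
      nlinarith
    refine ⟨k, Finset.mem_Icc.2 ⟨by omega, hks⟩, ?_⟩
    rw [Finset.mem_biUnion]
    refine ⟨m, Finset.mem_Icc.2 ⟨?_, ?_⟩, ?_⟩
    · by_contra hcon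
      push Not at hcon
      have h3 : m + (J + 1) ≤ k := by omega
      have h4 : k ^ 2 ≤ m ^ 2 + (p + t) := by omega
      have h5 : (J + 1) * (k₀ + 1) ≤ (J + 1) * k := Nat.mul_le_mul_left _ hk
      have h6 : m ^ 2 + (J + 1) * k ≤ k ^ 2 := by
        obtain ⟨r, hr⟩ := Nat.exists_eq_add_of_le h3
        rw [hr]
        nlinarith
      omega
    · by_contra hcon
      push Not at hcon
      have h3 : k + (J + 1) ≤ m := by omega
      have h4 : m ^ 2 ≤ k ^ 2 + t := by omega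
      have h5 : (J + 1) * (k₀ + 1) ≤ (J + 1) * k := Nat.mul_le_mul_left _ hk
      have h6 : k ^ 2 + (J + 1) * k ≤ m ^ 2 := by
        obtain ⟨r, hr⟩ := Nat.exists_eq_add_of_le h3
        rw [hr]
        nlinarith
      omega
    · rw [Finset.mem_image]
      refine ⟨p, ?_, hmp.symm⟩
      rw [Finset.mem_filter, Finset.mem_Ioc]
      have := hp.pos
      exact ⟨⟨by omega, by omega⟩, hp, Nat.modEq_one⟩
  · left
    rw [Finset.mem_biUnion]
    refine ⟨k, Finset.mem_range.2 (by omega), ?_⟩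
    rw [Finset.mem_Icc]
    omega

end LowPAux

open LowPAux in
theorem lowP (θ : ℝ) (hθ : 1 / 12 < θ) (hθ1 : θ ≤ 1 / 2) (δ : ℝ) (hδ : 0 < δ) : ∃ c : ℝ, 0 < c ∧ ∃ x₀ : ℕ, ∀ x : ℕ,
    x₀ ≤ x → ∀ S : Finset ℕ, S ⊆ Icc 1 x → (∀ n ∈ S, ∃ k : ℕ, |(n : ℝ) - (k : ℝ) ^ 2| ≤ (x : ℝ) ^ θ) →
      (∀ n ∈ S, ∃ m p : ℕ, p.Prime ∧ n = m ^ 2 + p ∧ (p : ℝ) ≤ Real.sqrt n * (c * Real.log n)) →
      (S.card : ℝ) ≤ δ * (x : ℝ) ^ (1 / 2 + θ) := by
  classical
  obtain ⟨C, hC, hbt⟩ := Pool.Agent.P83e.brun_titchmarsh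
  obtain ⟨δ', hδ'⟩ : ∃ δ' : ℝ, δ' = min (δ / 24) 1 := ⟨_, rfl⟩
  have hδ'0 : 0 < δ' := by rw [hδ']; positivity
  have hδ'1 : δ' ≤ 1 := by rw [hδ']; exact min_le_right _ _
  have hδ'2 : δ' ≤ δ / 24 := by rw [hδ']; exact min_le_left _ _
  obtain ⟨c, hc⟩ : ∃ c : ℝ, c = δ * δ' / (768 * C) := ⟨_, rfl⟩
  have hc0 : 0 < c := by rw [hc]; positivity
  have hlog : ∀ᶠ x : ℕ in atTop, 1152 * C / (δ * δ') + 12 ≤ Real.log x :=
    (Real.tendsto_log_atTop.comp tendsto_natCast_atTop_atTop).eventually_ge_atTop _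
  have hsq : ∀ᶠ x : ℕ in atTop, 1 / δ' + 1 ≤ Real.sqrt x :=
    (Real.tendsto_sqrt_atTop.comp tendsto_natCast_atTop_atTop).eventually_ge_atTop _
  have hT : ∀ᶠ x : ℕ in atTop, (2 : ℝ) ≤ (x : ℝ) ^ θ :=
    ((tendsto_rpow_atTop (by linarith : 0 < θ)).comp tendsto_natCast_atTop_atTop).eventually_ge_atTop _
  obtain ⟨x₀, hx₀⟩ := eventually_atTop.mp (hlog.and (hsq.and (hT.and (eventually_ge_atTop 1))))
  refine ⟨c, hc0, x₀, fun x hx S hS hnear hrep => ?_⟩
  obtain ⟨h1, h2, h3, hx1⟩ := hx₀ x hx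
  set L := Real.log x with hL
  set q := Real.sqrt x with hq
  set T := (x : ℝ) ^ θ with hTd
  have hxr : (1 : ℝ) ≤ x := by exact_mod_cast hx1
  have hxpos : (0 : ℝ) < x := by linarith
  have hA0 : 0 < 1152 * C / (δ * δ') := by positivity
  have hL12 : 12 ≤ L := by linarith
  have hL0 : 0 < L := by linarith
  have hB0 : 0 < 1 / δ' := by positivity
  have hq1 : 1 ≤ q := by linarith
  have hq0 : 0 < q := by linarith
  have hqd : 1 ≤ δ' * q := by
    have : 1 / δ' ≤ q := by linarith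
    rw [div_le_iff₀ hδ'0] at this
    linarith
  have hTq : T ≤ q := by
    rw [hTd, hq, Real.sqrt_eq_rpow]
    exact Real.rpow_le_rpow_of_exponent_le hxr hθ1
  have hTq2 : (x : ℝ) ^ (1 / 2 + θ) = q * T := by
    rw [Real.rpow_add hxpos, hq, Real.sqrt_eq_rpow]
  obtain ⟨t, ht⟩ : ∃ t : ℕ, t = ⌊T⌋₊ := ⟨_, rfl⟩
  have htT : (t : ℝ) ≤ T := by rw [ht]; exact Nat.floor_le (by linarith)
  have htT2 : T < t + 1 := by rw [ht]; exact Nat.lt_floor_add_one _
  obtain ⟨s, hs⟩ : ∃ s : ℕ, s = Nat.sqrt x := ⟨_, rfl⟩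
  have hs1 : x < (s + 1) ^ 2 := by
    rw [hs]
    have := Nat.lt_succ_sqrt x
    calc x < (Nat.sqrt x).succ * (Nat.sqrt x).succ := this
      _ = (Nat.sqrt x + 1) ^ 2 := by rw [Nat.succ_eq_add_one]; ring
  have hs2 : (s : ℝ) ≤ q := by
    rw [hq]
    refine Real.le_sqrt_of_sq_le ?_
    have : s ^ 2 ≤ x := by rw [hs]; exact Nat.sqrt_le' x
    exact_mod_cast this
  have hts : t ≤ s := by
    rw [hs]
    refine Nat.le_sqrt'.2 ?_
    have h4 : (t : ℝ) ^ 2 ≤ x := by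
      calc (t : ℝ) ^ 2 ≤ q ^ 2 := pow_le_pow_left₀ (Nat.cast_nonneg _) (htT.trans hTq) 2
        _ = x := Real.sq_sqrt hxpos.le
    exact_mod_cast h4
  obtain ⟨k₀, hk₀⟩ : ∃ k₀ : ℕ, k₀ = ⌊δ' * q⌋₊ := ⟨_, rfl⟩
  have hk1 : (k₀ : ℝ) ≤ δ' * q := by rw [hk₀]; exact Nat.floor_le (by positivity)
  have hk2 : δ' * q < k₀ + 1 := by rw [hk₀]; exact Nat.lt_floor_add_one _
  obtain ⟨J, hJ⟩ : ∃ J : ℕ, J = ⌊(1 + c * L) / δ'⌋₊ := ⟨_, rfl⟩
  have hJ1 : (J : ℝ) ≤ (1 + c * L) / δ' := by rw [hJ]; exact Nat.floor_le (by positivity)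
  have hJ2 : (1 + c * L) / δ' < J + 1 := by rw [hJ]; exact Nat.lt_floor_add_one _
  have hsub : S ⊆ cov s k₀ J t := by
    intro n hn
    obtain ⟨k, hk⟩ := hnear n hn
    obtain ⟨m, p, hp, hmp, hple⟩ := hrep n hn
    have hnx := Finset.mem_Icc.1 (hS hn)
    have hk' := abs_le.1 hk
    have a1 : n ≤ k ^ 2 + t := by
      have : (n : ℝ) < ((k ^ 2 + t + 1 : ℕ) : ℝ) := by
        push_cast
        linarith [hk'.2]
      have : n < k ^ 2 + t + 1 := by exact_mod_cast this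
      omega
    have a2 : k ^ 2 ≤ n + t := by
      have : ((k ^ 2 : ℕ) : ℝ) < ((n + t + 1 : ℕ) : ℝ) := by
        push_cast
        linarith [hk'.1]
      have : k ^ 2 < n + t + 1 := by exact_mod_cast this
      omega
    refine mem_cov hs1 hts hnx.2 a1 a2 hp hmp fun _ => ?_
    have b1 : (p : ℝ) ≤ q * (c * L) := by
      refine hple.trans ?_
      have e1 : Real.sqrt n ≤ q := Real.sqrt_le_sqrt (by exact_mod_cast hnx.2)
      have e2 : Real.log n ≤ L := Real.log_le_log (by exact_mod_cast hnx.1) (by exact_mod_cast hnx.2)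
      have e3 : 0 ≤ Real.log n := Real.log_nonneg (by exact_mod_cast hnx.1)
      exact mul_le_mul e1 (mul_le_mul_of_nonneg_left e2 hc0.le) (by positivity) hq0.le
    have b2 : q + q * (c * L) < ((J : ℝ) + 1) * (k₀ + 1) := by
      calc q + q * (c * L) = ((1 + c * L) / δ') * (δ' * q) := by
            field_simp
        _ < ((J : ℝ) + 1) * (k₀ + 1) := by
            refine mul_lt_mul hJ2 hk2.le (by positivity) (by positivity)
    have b3 : (t : ℝ) + p < ((J : ℝ) + 1) * (k₀ + 1) := by linarith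
    exact_mod_cast b3
  have hcard : (S.card : ℝ) ≤ ((cov s k₀ J t).card : ℝ) := by exact_mod_cast Finset.card_le_card hsub
  refine hcard.trans ((card_cov C hbt s k₀ J t).trans ?_)
  rw [hTq2]
  have hT0 : 0 < T := by linarith
  have c1 : ((k₀ : ℝ) + 1) * (2 * t + 1) ≤ δ / 4 * (q * T) := by
    have d1 : (k₀ : ℝ) + 1 ≤ 2 * (δ' * q) := by linarith
    have d2 : 2 * (t : ℝ) + 1 ≤ 3 * T := by linarith
    calc ((k₀ : ℝ) + 1) * (2 * t + 1) ≤ (2 * (δ' * q)) * (3 * T) := by gcongr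
      _ = 6 * δ' * (q * T) := by ring
      _ ≤ δ / 4 * (q * T) := by
          refine mul_le_mul_of_nonneg_right (by linarith) (by positivity)
  have hlogt : L / 12 ≤ Real.log (2 * t + 2) := by
    have e1 : Real.log T ≤ Real.log (2 * t + 2) := Real.log_le_log hT0 (by linarith)
    have e2 : Real.log T = θ * L := by rw [hTd, Real.log_rpow hxpos]
    rw [e2] at e1
    nlinarith
  have hlt0 : 0 < Real.log (2 * t + 2) := by linarith
  have c2 : C * (2 * t + 2) / Real.log (2 * t + 2) ≤ 48 * C * T / L := by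
    rw [div_le_div_iff₀ hlt0 hL0]
    have e1 : (2 * (t : ℝ) + 2) ≤ 4 * T := by linarith
    have e2 : C * (2 * t + 2) * L ≤ C * (4 * T) * L := by gcongr
    have e3 : 48 * C * T * (L / 12) ≤ 48 * C * T * Real.log (2 * t + 2) :=
      mul_le_mul_of_nonneg_left hlogt (by positivity)
    linarith
  have c3 : (2 * (J : ℝ) + 1) ≤ (3 + 2 * (c * L)) / δ' := by
    have e1 : (3 + 2 * (c * L)) / δ' = 2 * ((1 + c * L) / δ') + 1 / δ' := by ring
    have e2 : 1 ≤ 1 / δ' := by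
      rw [le_div_iff₀ hδ'0]
      linarith
    rw [e1]
    linarith
  have c4 : ((s : ℝ) + 1) * ((2 * J + 1) * (C * (2 * t + 2) / Real.log (2 * t + 2))) ≤ δ / 2 * (q * T) := by
    have e1 : (s : ℝ) + 1 ≤ 2 * q := by linarith
    calc ((s : ℝ) + 1) * ((2 * J + 1) * (C * (2 * t + 2) / Real.log (2 * t + 2))) ≤
          (2 * q) * ((3 + 2 * (c * L)) / δ' * (48 * C * T / L)) := by gcongr
      _ = (96 * C * (3 + 2 * (c * L)) / (δ' * L)) * (q * T) := by
          field_simp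
          norm_num
      _ ≤ δ / 2 * (q * T) := by
          refine mul_le_mul_of_nonneg_right ?_ (by positivity)
          rw [div_le_iff₀ (by positivity)]
          have e2 : 96 * C * (2 * (c * L)) = δ / 4 * (δ' * L) := by
            rw [hc]
            field_simp
            ring
          have e3 : 1152 * C / (δ * δ') ≤ L := by linarith
          rw [div_le_iff₀ (by positivity)] at e3
          have e4 : 96 * C * 3 ≤ δ / 4 * (δ' * L) := by nlinarith
          nlinarith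
  have hfin : δ / 4 * (q * T) + δ / 2 * (q * T) ≤ δ * (q * T) := by
    have : 0 ≤ δ * (q * T) := by positivity
    linarith
  linarith

end Pool.Agent.SSQ
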