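import Pool.Agent.Lib.SSQ.Sieve
import Pool.Agent.Lib.HLB.Hooley
import Pool.Agent.Lib.SQP.Trunc

/-!
# A lower bound for the sieve model in a very short interval (Brun-Hooley sieve)
-/

set_option autoImplicit false

open Finset Filter

namespace Pool.Agent.SSQ

open Pool.Agent.HLB Pool.Agent.HLT Pool.Agent.HLU Pool.Agent.SQP

open SieveAux

/-- Deterministic lower bound sieve. -/
theorem low_det (κ : ℕ) : ∃ K : ℕ, ∀ z y : ℕ, ∀ F : ℕ → Finset ℕ,
    (∀ p ∈ Nat.primesLE z, F p ⊆ range p ∧ (F p).card ≤ κ) →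
    1 / 2 * (y * ∏ p ∈ Nat.primesLE z, (1 - ((F p).card : ℝ) / p)) - (((z + 1) ^ K : ℕ) : ℝ) ^ 2 ≤
      (((Icc 1 y).filter (fun n => ∀ p ∈ Nat.primesLE z, n % p ∉ F p)).card : ℝ) := by
  classical
  obtain ⟨K, hK⟩ := hooley κ (ε := 1 / 2) (by norm_num)
  refine ⟨K, fun z y F hF => ?_⟩
  obtain ⟨lam, h1, h2, h3, h4⟩ := hK z
  set R : ℝ := (((z + 1) ^ K : ℕ) : ℝ) with hR
  have hR0 : 0 ≤ R := by positivity
  set g : ℕ → ℝ := fun p => ((F p).card : ℝ) / p with hg
  have hadm : ∀ p ∈ Nat.primesLE z, 0 ≤ g p ∧ g p ≤ 1 ∧ g p * ((p : ℝ) - 1) ≤ κ := by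
    intro p hp
    have hpp := (Nat.mem_primesLE.mp hp).2
    have hp0 : (0 : ℝ) < p := by exact_mod_cast hpp.pos
    have hc1 : ((F p).card : ℝ) ≤ p := by
      have e1 := Finset.card_le_card (hF p hp).1
      rw [Finset.card_range] at e1
      exact_mod_cast e1
    have hc2 : ((F p).card : ℝ) ≤ κ := by exact_mod_cast (hF p hp).2
    have hc0 : (0 : ℝ) ≤ ((F p).card : ℝ) := Nat.cast_nonneg _
    refine ⟨by positivity, ?_, ?_⟩
    · simp only [hg]
      rw [div_le_one hp0]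
      exact hc1
    · simp only [hg]
      calc ((F p).card : ℝ) / p * ((p : ℝ) - 1) ≤ ((F p).card : ℝ) / p * p := by
            refine mul_le_mul_of_nonneg_left (by linarith) (by positivity)
        _ = (F p).card := div_mul_cancel₀ _ hp0.ne'
        _ ≤ κ := hc2
  have hmain := h4 g hadm
  have hy0 : (0 : ℝ) ≤ y := Nat.cast_nonneg y
  -- upper bound by the number of survivors
  have hup : ∑ s ∈ (Nat.primesLE z).powerset, lam s * ∑ n ∈ Icc 1 y, ∏ p ∈ s, brunH F n p ≤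
      (((Icc 1 y).filter (fun n => ∀ p ∈ Nat.primesLE z, n % p ∉ F p)).card : ℝ) := by
    calc ∑ s ∈ (Nat.primesLE z).powerset, lam s * ∑ n ∈ Icc 1 y, ∏ p ∈ s, brunH F n p =
        ∑ n ∈ Icc 1 y, ∑ s ∈ (Nat.primesLE z).powerset, lam s * ∏ p ∈ s, brunH F n p := by
          rw [Finset.sum_comm]
          refine Finset.sum_congr rfl fun s _ => ?_
          rw [Finset.mul_sum]
      _ ≤ ∑ n ∈ Icc 1 y, (if ∀ p ∈ Nat.primesLE z, n % p ∉ F p then (1 : ℝ) else 0) := by
          refine Finset.sum_le_sum fun n _ => ?_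
          refine (h3 (brunH F n) (fun p => ⟨brunH_nonneg F n p, brunH_le F n p⟩)).trans (le_of_eq ?_)
          have e1 : ∀ p ∈ Nat.primesLE z, (1 - brunH F n p) = if n % p ∉ F p then (1 : ℝ) else 0 := by
            intro p _
            unfold brunH
            by_cases h : n % p ∈ F p
            · simp [h]
            · simp [h]
          rw [Finset.prod_congr rfl e1, Finset.prod_ite_zero, Finset.prod_const_one]
      _ = _ := by
          rw [Finset.card_filter]
          push_cast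
          rfl
  -- the error of one term
  have hT : ∀ s ∈ (Nat.primesLE z).powerset, lam s ≠ 0 →
      |∑ n ∈ Icc 1 y, ∏ p ∈ s, brunH F n p - y * ∏ p ∈ s, g p| ≤ R := by
    intro s hs hne
    have hd := h2 s hs hne
    rw [Finset.mem_powerset] at hs
    have hsp : ∀ p ∈ s, p.Prime := fun p hp => (Nat.mem_primesLE.mp (hs hp)).2
    refine (brun_count s hsp F (fun p hp => (hF p (hs hp)).1) y).trans ?_
    have e1 : ∏ p ∈ s, ((F p).card : ℝ) ≤ ∏ p ∈ s, (p : ℝ) := by
      refine Finset.prod_le_prod (fun p _ => Nat.cast_nonneg _) fun p hp => ?_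
      have e2 := Finset.card_le_card (hF p (hs hp)).1
      rw [Finset.card_range] at e2
      exact_mod_cast e2
    refine e1.trans ?_
    rw [hR]
    have e3 : (∏ p ∈ s, (p : ℝ)) = ((∏ p ∈ s, p : ℕ) : ℝ) := by push_cast; rfl
    rw [e3]
    exact_mod_cast hd
  have hlow : y * ∑ s ∈ (Nat.primesLE z).powerset, lam s * ∏ p ∈ s, g p - R * R ≤
      ∑ s ∈ (Nat.primesLE z).powerset, lam s * ∑ n ∈ Icc 1 y, ∏ p ∈ s, brunH F n p := by
    rw [Finset.mul_sum, sub_le_iff_le_add, ← sub_le_iff_le_add', ← Finset.sum_sub_distrib]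
    have e1 : ∀ s ∈ (Nat.primesLE z).powerset,
        y * (lam s * ∏ p ∈ s, g p) - lam s * ∑ n ∈ Icc 1 y, ∏ p ∈ s, brunH F n p ≤
          if ∏ p ∈ s, p ≤ (z + 1) ^ K then R else 0 := by
      intro s hs
      by_cases hne : lam s = 0
      · rw [hne]
        simp only [zero_mul, mul_zero, sub_zero]
        split_ifs <;> positivity
      · rw [if_pos (h2 s hs hne)]
        have e2 := hT s hs hne
        have e3 : y * (lam s * ∏ p ∈ s, g p) - lam s * ∑ n ∈ Icc 1 y, ∏ p ∈ s, brunH F n p =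
            -(lam s * (∑ n ∈ Icc 1 y, ∏ p ∈ s, brunH F n p - y * ∏ p ∈ s, g p)) := by ring
        rw [e3]
        refine (neg_le_abs _).trans ?_
        rw [abs_mul]
        calc |lam s| * |∑ n ∈ Icc 1 y, ∏ p ∈ s, brunH F n p - y * ∏ p ∈ s, g p| ≤
            1 * |∑ n ∈ Icc 1 y, ∏ p ∈ s, brunH F n p - y * ∏ p ∈ s, g p| :=
              mul_le_mul_of_nonneg_right (h1 s) (abs_nonneg _)
          _ ≤ _ := by rw [one_mul]; exact e2
    refine (Finset.sum_le_sum e1).trans ?_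
    rw [← Finset.sum_filter, Finset.sum_const, nsmul_eq_mul]
    apply mul_le_mul_of_nonneg_right _ hR0
    have e4 := Pool.Agent.Lib.Sieve4.card_DD_le (Nat.primesLE z) (fun p hp => (Nat.mem_primesLE.mp hp).2) ((z + 1) ^ K)
    unfold Pool.Agent.Lib.Sieve4.DD at e4
    rw [hR]
    exact_mod_cast e4
  have e5 : y * ((1 - 1 / 2) * ∏ p ∈ Nat.primesLE z, (1 - g p)) ≤
      y * ∑ s ∈ (Nat.primesLE z).powerset, lam s * ∏ p ∈ s, g p := mul_le_mul_of_nonneg_left hmain hy0
  have e6 : y * ((1 - 1 / 2) * ∏ p ∈ Nat.primesLE z, (1 - g p)) =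
      1 / 2 * (y * ∏ p ∈ Nat.primesLE z, (1 - ((F p).card : ℝ) / p)) := by
    rw [hg]
    ring
  have e7 : R ^ 2 = R * R := by ring
  rw [e7]
  linarith

end Pool.Agent.SSQ
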