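import Pool.Agent.Lib.SQP.TruncAll

/-!
MODULE SSQ.TruncPair.  All truncations of the singular series agree for almost all `n = k² + h`, `K < k ≤ 2K`, `h₀ < h ≤ h₀ + H`.

PROOF.  Adapt SQP/TruncAll.lean (`trunc`) and `VV_sq`, `VV_bad` of SQP/Trunc.lean.  For an interval `(y, y + H]` in place of `Icc 1 x`:
`∑ n ∈ Ioc y (y + H), VV z1 z n ^ 2 ≤ H (2 / z1) + 8 z²` (the off-diagonal sums are differences of two sums of `sum_two`, so `2 p q` in place
of `p q`).  For each `k` use the interval `n = k² + h`, `h ∈ (h₀, h₀ + H]` (all `n ≥ 1` since `|h₀| ≤ 2K`, `K < k`), sum over the `K` values of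
`k`: at most `K (H 2 / z1 + 8 z²) / δ²` bad pairs for one `z` of the grid `gr U K`, `U = ⌈L^(A+4)⌉`, `L = log K`, `δ = 1 / L^(A+2)`,
`z1 = zA B K`; `8 z² ≤ 8 K^(1/10) ≤ H / L^B` because `H ≥ K^(1/6)`.  The rest is as in `trunc`.
-/

set_option autoImplicit false

open Finset Filter

namespace Pool.Agent.SSQ

open Pool.Agent.HLB Pool.Agent.HLT Pool.Agent.HLU Pool.Agent.SQP

namespace TruncPairAux

/-- The mean square. -/
lemma VV_sq_int (z1 z y H : ℕ) (hz : 2 ≤ z1) :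
    ∑ n ∈ Ioc y (y + H), VV z1 z n ^ 2 ≤ H * (2 / z1) + 8 * (z : ℝ) ^ 2 := by
  classical
  have h1 : ∑ n ∈ Ioc y (y + H), VV z1 z n ^ 2 = ∑ p ∈ pb z1 z, ∑ q ∈ pb z1 z,
      1 / ((p : ℝ) - 1) * (1 / ((q : ℝ) - 1)) * ∑ n ∈ Ioc y (y + H), jr n p * jr n q := by
    have h2 : ∀ n ∈ Ioc y (y + H), VV z1 z n ^ 2 = ∑ p ∈ pb z1 z, ∑ q ∈ pb z1 z,
        1 / ((p : ℝ) - 1) * (1 / ((q : ℝ) - 1)) * (jr n p * jr n q) := by
      intro n _
      unfold VV
      rw [sq, Finset.sum_mul_sum]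
      refine Finset.sum_congr rfl fun p _ => Finset.sum_congr rfl fun q _ => ?_
      ring
    rw [Finset.sum_congr rfl h2, Finset.sum_comm]
    refine Finset.sum_congr rfl fun p _ => ?_
    rw [Finset.sum_comm]
    refine Finset.sum_congr rfl fun q _ => ?_
    rw [Finset.mul_sum]
  rw [h1]
  have h3 : ∀ p ∈ pb z1 z, ∀ q ∈ pb z1 z,
      1 / ((p : ℝ) - 1) * (1 / ((q : ℝ) - 1)) * ∑ n ∈ Ioc y (y + H), jr n p * jr n q ≤
        (if p = q then H * (1 / ((p : ℝ) - 1) ^ 2) else 0) + 8 := by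
    intro p hp q hq
    have hp' := mem_pb.mp hp
    have hq' := mem_pb.mp hq
    have hp1 : (2 : ℝ) ≤ p := by exact_mod_cast hp'.1.2.two_le
    have hq1 : (2 : ℝ) ≤ q := by exact_mod_cast hq'.1.2.two_le
    by_cases hpq : p = q
    · subst hpq
      rw [if_pos rfl]
      have h4 : ∑ n ∈ Ioc y (y + H), jr n p * jr n p ≤ H := by
        calc ∑ n ∈ Ioc y (y + H), jr n p * jr n p ≤ ∑ _n ∈ Ioc y (y + H), (1 : ℝ) :=
              Finset.sum_le_sum fun n _ => jr_sq_le n p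
          _ = H := by simp
      have h5 : 0 ≤ 1 / ((p : ℝ) - 1) * (1 / ((p : ℝ) - 1)) := by
        have : 0 < (p : ℝ) - 1 := by linarith
        positivity
      calc 1 / ((p : ℝ) - 1) * (1 / ((p : ℝ) - 1)) * ∑ n ∈ Ioc y (y + H), jr n p * jr n p ≤
          1 / ((p : ℝ) - 1) * (1 / ((p : ℝ) - 1)) * H := mul_le_mul_of_nonneg_left h4 h5
        _ = H * (1 / ((p : ℝ) - 1) ^ 2) := by
            field_simp
        _ ≤ _ := by linarith
    · rw [if_neg hpq, zero_add]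
      have h4 : ∑ n ∈ Ioc y (y + H), jr n p * jr n q ≤ 2 * (p * q) := by
        have t1 := sum_two hp'.1.2 (by omega) hq'.1.2 hpq (y + H)
        have t2 := sum_two hp'.1.2 (by omega) hq'.1.2 hpq y
        have t3 : ∑ n ∈ Icc 1 y, jr n p * jr n q + ∑ n ∈ Ioc y (y + H), jr n p * jr n q =
            ∑ n ∈ Icc 1 (y + H), jr n p * jr n q := by
          have t4 := Finset.sum_Ioc_consecutive (fun n => jr n p * jr n q) (Nat.zero_le y)
            (Nat.le_add_right y H)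
          exact t4
        rw [abs_le] at t1 t2
        linarith [t1.2, t2.1]
      have h5 : 0 ≤ 1 / ((p : ℝ) - 1) * (1 / ((q : ℝ) - 1)) := by
        have : 0 < (p : ℝ) - 1 := by linarith
        have : 0 < (q : ℝ) - 1 := by linarith
        positivity
      calc 1 / ((p : ℝ) - 1) * (1 / ((q : ℝ) - 1)) * ∑ n ∈ Ioc y (y + H), jr n p * jr n q ≤
          1 / ((p : ℝ) - 1) * (1 / ((q : ℝ) - 1)) * (2 * (p * q)) := mul_le_mul_of_nonneg_left h4 h5
        _ = 2 * ((p / ((p : ℝ) - 1)) * (q / ((q : ℝ) - 1))) := by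
            field_simp
        _ ≤ 2 * (2 * 2) := by
            refine mul_le_mul_of_nonneg_left ?_ (by norm_num)
            have h6 : (p : ℝ) / ((p : ℝ) - 1) ≤ 2 := by
              rw [div_le_iff₀ (by linarith)]
              linarith
            have h7 : (q : ℝ) / ((q : ℝ) - 1) ≤ 2 := by
              rw [div_le_iff₀ (by linarith)]
              linarith
            have h8 : 0 ≤ (q : ℝ) / ((q : ℝ) - 1) := div_nonneg (by linarith) (by linarith)
            exact mul_le_mul h6 h7 h8 (by norm_num)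
        _ = 8 := by norm_num
  calc ∑ p ∈ pb z1 z, ∑ q ∈ pb z1 z,
      1 / ((p : ℝ) - 1) * (1 / ((q : ℝ) - 1)) * ∑ n ∈ Ioc y (y + H), jr n p * jr n q ≤
      ∑ p ∈ pb z1 z, ∑ q ∈ pb z1 z, ((if p = q then H * (1 / ((p : ℝ) - 1) ^ 2) else 0) + 8) :=
        Finset.sum_le_sum fun p hp => Finset.sum_le_sum fun q hq => h3 p hp q hq
    _ = H * ∑ p ∈ pb z1 z, 1 / ((p : ℝ) - 1) ^ 2 + 8 * ((pb z1 z).card : ℝ) ^ 2 := by
        simp only [Finset.sum_add_distrib, Finset.sum_const, nsmul_eq_mul]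
        rw [Finset.mul_sum]
        congr 1
        · refine Finset.sum_congr rfl fun p hp => ?_
          rw [Finset.sum_ite_eq, if_pos hp]
        · ring
    _ ≤ H * (2 / z1) + 8 * (z : ℝ) ^ 2 := by
        have h4 : ((pb z1 z).card : ℝ) ≤ z := by exact_mod_cast card_pb z1 z
        have h5 := sum_inv_sq z1 z hz
        have h6 : ((pb z1 z).card : ℝ) ^ 2 ≤ (z : ℝ) ^ 2 := pow_le_pow_left₀ (Nat.cast_nonneg _) h4 2
        have h7 : (H : ℝ) * ∑ p ∈ pb z1 z, 1 / ((p : ℝ) - 1) ^ 2 ≤ H * (2 / z1) :=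
          mul_le_mul_of_nonneg_left h5 (Nat.cast_nonneg _)
        linarith

/-- the mean square over the pairs `(k, h)` -/
lemma VV_pairs (z1 z K H : ℕ) (h₀ : ℤ) (hz : 2 ≤ z1) (hh : |h₀| ≤ 2 * K) :
    ∑ w ∈ (Ioc K (2 * K)) ×ˢ (Ioc h₀ (h₀ + H)), VV z1 z ((w.1 : ℤ) ^ 2 + w.2).toNat ^ 2 ≤
      K * (H * (2 / z1) + 8 * (z : ℝ) ^ 2) := by
  rw [Finset.sum_product]
  calc ∑ k ∈ Ioc K (2 * K), ∑ h ∈ Ioc h₀ (h₀ + (H : ℤ)), VV z1 z ((k : ℤ) ^ 2 + h).toNat ^ 2
      ≤ ∑ _k ∈ Ioc K (2 * K), ((H : ℝ) * (2 / z1) + 8 * (z : ℝ) ^ 2) := by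
        refine Finset.sum_le_sum fun k hk => ?_
        rw [Finset.mem_Ioc] at hk
        refine le_trans (le_of_eq ?_) (VV_sq_int z1 z ((k : ℤ) ^ 2 + h₀).toNat H hz)
        have h1 : (0 : ℤ) ≤ (k : ℤ) ^ 2 + h₀ := by
          have h2 : -(2 * (K : ℤ)) ≤ h₀ := (abs_le.mp hh).1
          have h3 : (K : ℤ) + 1 ≤ k := by exact_mod_cast hk.1
          have h4 : (0 : ℤ) ≤ K := by positivity
          have h5 : (1 : ℤ) ≤ k := by
            have : 1 ≤ k := by omega
            exact_mod_cast this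
          nlinarith
        generalize (k : ℤ) ^ 2 = s at h1
        refine Finset.sum_nbij' (fun h => (s + h).toNat) (fun n => (n : ℤ) - s) ?_ ?_ ?_ ?_ ?_
        · intro h hm
          rw [Finset.mem_Ioc] at hm ⊢
          omega
        · intro n hm
          rw [Finset.mem_Ioc] at hm ⊢
          omega
        · intro h hm
          rw [Finset.mem_Ioc] at hm
          omega
        · intro n hm
          rw [Finset.mem_Ioc] at hm
          omega
        · intro h _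
          rfl
    _ = K * (H * (2 / z1) + 8 * (z : ℝ) ^ 2) := by
        rw [Finset.sum_const, Nat.card_Ioc, nsmul_eq_mul]
        have e1 : 2 * K - K = K := by omega
        rw [e1]

lemma VV_bad_pairs (z1 z K H : ℕ) (h₀ : ℤ) (hz : 2 ≤ z1) (hh : |h₀| ≤ 2 * K) (δ : ℝ) (hδ : 0 < δ) :
    ((((Ioc K (2 * K)) ×ˢ (Ioc h₀ (h₀ + H))).filter
      (fun w => δ < |VV z1 z ((w.1 : ℤ) ^ 2 + w.2).toNat|)).card : ℝ) ≤
      K * ((H * (2 / z1) + 8 * (z : ℝ) ^ 2) / δ ^ 2) := by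
  rw [← mul_div_assoc, le_div_iff₀ (by positivity)]
  refine le_trans ?_ (VV_pairs z1 z K H h₀ hz hh)
  set D := ((Ioc K (2 * K)) ×ˢ (Ioc h₀ (h₀ + (H : ℤ)))).filter
    (fun w => δ < |VV z1 z ((w.1 : ℤ) ^ 2 + w.2).toNat|) with hD
  calc (D.card : ℝ) * δ ^ 2 = ∑ _n ∈ D, δ ^ 2 := by rw [Finset.sum_const, nsmul_eq_mul]
    _ ≤ ∑ w ∈ D, VV z1 z ((w.1 : ℤ) ^ 2 + w.2).toNat ^ 2 := by
        refine Finset.sum_le_sum fun n hn => ?_
        rw [← sq_abs (VV z1 z _)]
        exact pow_le_pow_left₀ hδ.le (Finset.mem_filter.mp hn).2.le 2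
    _ ≤ ∑ w ∈ (Ioc K (2 * K)) ×ˢ (Ioc h₀ (h₀ + (H : ℤ))), VV z1 z ((w.1 : ℤ) ^ 2 + w.2).toNat ^ 2 :=
        Finset.sum_le_sum_of_subset_of_nonneg (Finset.filter_subset _ _) fun n _ _ => sq_nonneg _

end TruncPairAux

open TruncPairAux

theorem trunc_pair (A B : ℕ) (hB : 4 * A + 13 ≤ B) : ∀ᶠ K : ℕ in atTop, ∀ (H : ℕ) (h₀ : ℤ),
    (K : ℝ) ^ (1 / 6 : ℝ) ≤ H → H ≤ K → |h₀| ≤ 2 * K →
    ∃ E : Finset (ℕ × ℤ), (E.card : ℝ) ≤ K * H / Real.log K ^ A ∧
      ∀ k ∈ Ioc K (2 * K), ∀ h ∈ Ioc h₀ (h₀ + H), (k, h) ∉ E → ∀ n : ℕ, (n : ℤ) = (k : ℤ) ^ 2 + h →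
        ∀ z : ℕ, zA B K ≤ z → (z : ℝ) ≤ (K : ℝ) ^ (1 / 20 : ℝ) →
          |SQ z n - SQ (zA B K) n| ≤ 1 / Real.log K ^ A := by
  classical
  have e2 : ∀ᶠ K : ℕ in atTop, 8 * (K : ℝ) ^ (1 / 10 : ℝ) ≤ (K : ℝ) ^ (1 / 6 : ℝ) / Real.log K ^ B := by
    have h1 : (fun x : ℝ => Real.log x ^ B) =o[atTop] (fun x : ℝ => x ^ (1 / 15 : ℝ)) := by
      have h := isLittleO_log_rpow_rpow_atTop (B : ℝ) (show (0:ℝ) < 1 / 15 by norm_num)
      simp only [Real.rpow_natCast] at h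
      exact h
    have h2 := (h1.comp_tendsto tendsto_natCast_atTop_atTop).bound (show (0:ℝ) < 1 / 8 by norm_num)
    filter_upwards [h2, ev_log 1, eventually_ge_atTop 1] with x hx hL hx1
    have hx0 : (0 : ℝ) < x := by exact_mod_cast hx1
    simp only [Function.comp_def] at hx
    rw [Real.norm_of_nonneg (by positivity), Real.norm_of_nonneg (by positivity)] at hx
    rw [le_div_iff₀ (by positivity)]
    have h3 : (x : ℝ) ^ (1 / 10 : ℝ) * (x : ℝ) ^ (1 / 15 : ℝ) = (x : ℝ) ^ (1 / 6 : ℝ) := by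
      rw [← Real.rpow_add hx0]
      norm_num
    have h4 : (0 : ℝ) ≤ (x : ℝ) ^ (1 / 10 : ℝ) := by positivity
    nlinarith
  filter_upwards [e2, ev_log 16, DZ_inv_le B, eventually_ge_atTop 1] with x e2 hL hD hx1 H h₀ hH1 hH2 hh
  set L := Real.log x with hLdef
  set z1 := zA B x with hz1
  have hL0 : 0 < L := by linarith
  have hx0 : (0 : ℝ) < x := by exact_mod_cast hx1
  have hH0 : (0 : ℝ) ≤ H := Nat.cast_nonneg _
  have e3 : 8 * (x : ℝ) ^ (1 / 10 : ℝ) ≤ H / L ^ B :=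
    e2.trans (div_le_div_of_nonneg_right hH1 (by positivity))
  have hz1a : L ^ B / 2 ≤ z1 := by
    have h1 : L ^ B < z1 + 1 := by
      rw [hz1]
      unfold zA
      exact Nat.lt_floor_add_one _
    have h2 : L ≤ L ^ B := le_self_pow₀ (by linarith) (by omega)
    linarith
  have hz1b : 3 ≤ z1 := by
    have h2 : L ≤ L ^ B := le_self_pow₀ (by linarith) (by omega)
    have h3 : (3 : ℝ) ≤ z1 := by linarith
    exact_mod_cast h3
  have hz1p : (0 : ℝ) < z1 := by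
    have : (3 : ℝ) ≤ z1 := by exact_mod_cast hz1b
    linarith
  set U := ⌈L ^ (A + 4)⌉₊ with hU
  have hp1 : (1 : ℝ) ≤ L ^ (A + 4) := one_le_pow₀ (by linarith)
  have hU1 : L ^ (A + 4) ≤ U := Nat.le_ceil _
  have hU2 : (U : ℝ) ≤ 2 * L ^ (A + 4) := by
    have := (Nat.ceil_lt_add_one (by positivity : (0 : ℝ) ≤ L ^ (A + 4))).le
    linarith
  have hU0 : 1 ≤ U := by
    have : (1 : ℝ) ≤ U := hp1.trans hU1
    exact_mod_cast this
  set δ : ℝ := 1 / L ^ (A + 2) with hδ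
  have hδ0 : 0 < δ := by positivity
  set cond : ℕ → Prop := fun z => (z : ℝ) ≤ (x : ℝ) ^ (1 / 20 : ℝ) with hcond
  set bad : ℕ → Finset (ℕ × ℤ) := fun z => ((Ioc x (2 * x)) ×ˢ (Ioc h₀ (h₀ + H))).filter
    (fun w => δ < |VV z1 z ((w.1 : ℤ) ^ 2 + w.2).toNat|) with hbad
  have hbadc : ∀ z : ℕ, cond z → ((bad z).card : ℝ) ≤ x * (H / L ^ (2 * A + 6)) := by
    intro z hz
    refine (VV_bad_pairs z1 z x H h₀ (by omega) hh δ hδ0).trans ?_
    refine mul_le_mul_of_nonneg_left ?_ hx0.le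
    have h1 : (H : ℝ) * (2 / z1) ≤ 4 * (H / L ^ B) := by
      have h2 : 2 / (z1 : ℝ) ≤ 4 / L ^ B := by
        rw [div_le_div_iff₀ hz1p (by positivity)]
        linarith
      calc (H : ℝ) * (2 / z1) ≤ H * (4 / L ^ B) := mul_le_mul_of_nonneg_left h2 hH0
        _ = 4 * (H / L ^ B) := by ring
    have h3 : 8 * (z : ℝ) ^ 2 ≤ H / L ^ B := by
      refine le_trans ?_ e3
      have h4 : (z : ℝ) ^ 2 ≤ ((x : ℝ) ^ (1 / 20 : ℝ)) ^ 2 := pow_le_pow_left₀ (Nat.cast_nonneg _) hz 2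
      have h5 : ((x : ℝ) ^ (1 / 20 : ℝ)) ^ 2 = (x : ℝ) ^ (1 / 10 : ℝ) := by
        rw [← Real.rpow_natCast, ← Real.rpow_mul hx0.le]
        norm_num
      rw [h5] at h4
      linarith
    have h6 : ((H : ℝ) * (2 / z1) + 8 * (z : ℝ) ^ 2) / δ ^ 2 ≤ (5 * (H / L ^ B)) / δ ^ 2 :=
      div_le_div_of_nonneg_right (by linarith) (by positivity)
    refine h6.trans ?_
    have h7 : (5 * ((H : ℝ) / L ^ B)) / δ ^ 2 = H * (5 * L ^ (2 * A + 4) / L ^ B) := by
      rw [hδ, div_pow, one_pow, ← pow_mul, show (A + 2) * 2 = 2 * A + 4 by ring]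
      field_simp
    rw [h7, div_eq_mul_one_div (H : ℝ)]
    refine mul_le_mul_of_nonneg_left ?_ hH0
    rw [div_le_div_iff₀ (by positivity) (by positivity), one_mul]
    calc 5 * L ^ (2 * A + 4) * L ^ (2 * A + 6) ≤ L * L ^ (2 * A + 4) * L ^ (2 * A + 6) := by
          refine mul_le_mul_of_nonneg_right ?_ (by positivity)
          exact mul_le_mul_of_nonneg_right (by linarith) (by positivity)
      _ = L ^ (4 * A + 11) := by ring
      _ ≤ L ^ B := pow_le_pow_right₀ (by linarith) (by omega)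
  set E : Finset (ℕ × ℤ) := ((gr U x).filter cond).biUnion bad with hE
  refine ⟨E, ?_, fun k hk h hm hnE n hn z hz hzx => ?_⟩
  · have h2 : (E.card : ℝ) ≤ ∑ z ∈ (gr U x).filter cond, ((bad z).card : ℝ) := by
      exact_mod_cast Finset.card_biUnion_le
    have h5 : (((gr U x).filter cond).card : ℝ) ≤ L ^ (A + 6) := by
      have h6 : ((gr U x).filter cond).card ≤ (U + 1) * (Nat.log 2 x + 1) :=
        (Finset.card_le_card (Finset.filter_subset _ _)).trans (gr_card U x)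
      have h7 : (((gr U x).filter cond).card : ℝ) ≤ (U + 1) * (Nat.log 2 x + 1) := by exact_mod_cast h6
      have h8 := log_two_le' hx1
      have h10 : (U : ℝ) + 1 ≤ 3 * L ^ (A + 4) := by linarith
      have h11 : (Nat.log 2 x : ℝ) + 1 ≤ 3 * L := by linarith
      calc (((gr U x).filter cond).card : ℝ) ≤ (U + 1) * (Nat.log 2 x + 1) := h7
        _ ≤ (3 * L ^ (A + 4)) * (3 * L) := mul_le_mul h10 h11 (by positivity) (by positivity)
        _ = 9 * L ^ (A + 5) := by ring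
        _ ≤ L * L ^ (A + 5) := mul_le_mul_of_nonneg_right (by linarith) (by positivity)
        _ = L ^ (A + 6) := by ring
    calc (E.card : ℝ) ≤ ∑ z ∈ (gr U x).filter cond, ((bad z).card : ℝ) := h2
      _ ≤ ∑ _z ∈ (gr U x).filter cond, x * (H / L ^ (2 * A + 6)) :=
          Finset.sum_le_sum fun z hz => hbadc z (Finset.mem_filter.mp hz).2
      _ = ((gr U x).filter cond).card * (x * (H / L ^ (2 * A + 6))) := by rw [Finset.sum_const, nsmul_eq_mul]
      _ ≤ L ^ (A + 6) * (x * (H / L ^ (2 * A + 6))) := mul_le_mul_of_nonneg_right h5 (by positivity)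
      _ = x * H / L ^ A := by
          rw [show 2 * A + 6 = (A + 6) + A by ring, pow_add L (A + 6) A]
          field_simp
  · have hUz : U ≤ z := by
      have h1 : 2 * L ^ (A + 4) ≤ L ^ B / 2 := by
        have h2 : L * L ^ (A + 4) ≤ L ^ B := by
          rw [← pow_succ']
          exact pow_le_pow_right₀ (by linarith) (by omega)
        nlinarith
      have h3 : (z1 : ℝ) ≤ z := by exact_mod_cast hz
      have h4 : (U : ℝ) ≤ z := by linarith
      exact_mod_cast h4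
    have hzx' : z ≤ x := by
      have h1 : (x : ℝ) ^ (1 / 20 : ℝ) ≤ x := by
        calc (x : ℝ) ^ (1 / 20 : ℝ) ≤ (x : ℝ) ^ (1 : ℝ) :=
              Real.rpow_le_rpow_of_exponent_le (by exact_mod_cast hx1) (by norm_num)
          _ = x := Real.rpow_one _
      have h2 : (z : ℝ) ≤ x := hzx.trans h1
      exact_mod_cast h2
    obtain ⟨z', hz'g, hz'z, hz'U⟩ := gr_near hU0 hUz hzx'
    have hz'zr : (z' : ℝ) ≤ z := by exact_mod_cast hz'z
    have hz0 : (0 : ℝ) < z := by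
      have : 1 ≤ z := by omega
      exact_mod_cast this
    have hUr : (0 : ℝ) < U := by exact_mod_cast hU0
    have hd1 : ((z : ℝ) - z') * U ≤ z := by
      have h1 : (((z - z') * U : ℕ) : ℝ) ≤ z := by exact_mod_cast hz'U
      rwa [Nat.cast_mul, Nat.cast_sub hz'z] at h1
    have hU16 : (16 : ℝ) ≤ U := by
      have : L ≤ L ^ (A + 4) := le_self_pow₀ (by linarith) (by omega)
      linarith
    have hz'2 : (z : ℝ) / 2 ≤ z' := by nlinarith
    have hz'1 : 1 ≤ z' := by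
      have : (0 : ℝ) < z' := by linarith
      exact_mod_cast this
    have hV' : |VV z1 z' n| ≤ δ := by
      by_contra hcon
      rw [not_le] at hcon
      apply hnE
      rw [hE, Finset.mem_biUnion]
      refine ⟨z', Finset.mem_filter.mpr ⟨hz'g, hz'zr.trans hzx⟩, Finset.mem_filter.mpr ⟨?_, ?_⟩⟩
      · exact Finset.mem_product.mpr ⟨hk, hm⟩
      · have hn' : ((k : ℤ) ^ 2 + h).toNat = n := by rw [← hn]; exact Int.toNat_natCast n
        show δ < |VV z1 z' ((k : ℤ) ^ 2 + h).toNat|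
        rw [hn']
        exact hcon
    have hV := VV_diff z1 z' z n hz'1 hz'z
    have hd2 : ((z : ℝ) - z') / z' ≤ 2 / U := by
      have hz'p : (0 : ℝ) < z' := by exact_mod_cast hz'1
      rw [div_le_div_iff₀ hz'p hUr]
      linarith
    have hd3 : 2 / (U : ℝ) ≤ 2 * δ := by
      rw [hδ, mul_one_div]
      refine div_le_div_of_nonneg_left (by norm_num) (by positivity) (le_trans ?_ hU1)
      exact pow_le_pow_right₀ (by linarith) (by omega)
    have hz14 : 4 / (z1 : ℝ) ≤ δ := by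
      rw [hδ, div_le_div_iff₀ hz1p (by positivity), one_mul]
      have h1 : 16 * L ^ (A + 2) ≤ L ^ B := by
        calc 16 * L ^ (A + 2) ≤ L * L ^ (A + 2) := mul_le_mul_of_nonneg_right hL (by positivity)
          _ = L ^ (A + 3) := by ring
          _ ≤ L ^ B := pow_le_pow_right₀ (by linarith) (by omega)
      have h2 : (0 : ℝ) ≤ L ^ (A + 2) := by positivity
      nlinarith
    have hδ4 : 4 * δ ≤ 1 := by
      rw [hδ, mul_one_div, div_le_one (by positivity)]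
      have : L ≤ L ^ (A + 2) := le_self_pow₀ (by linarith) (by omega)
      linarith
    have hR := SQ_ratio z1 z n hz1b hz (4 * δ) (by linarith) hδ4
    refine hR.trans ?_
    have hS := (SQ_le z1 n).trans hD
    calc SQ z1 n * (2 * (4 * δ)) ≤ L * (2 * (4 * δ)) := mul_le_mul_of_nonneg_right hS (by positivity)
      _ = (1 / L ^ A) * (8 / L) := by
          rw [hδ, pow_add]
          field_simp
          ring
      _ ≤ 1 / L ^ A := by
          refine mul_le_of_le_one_right (by positivity) ?_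
          rw [div_le_one hL0]
          linarith

end Pool.Agent.SSQ
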