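import Pool.Agent.Lib.SSQ.Block
import Pool.Agent.Lib.SSQ.TruncPair

/-!
# All intervals of `m`, all truncations
-/

set_option autoImplicit false

open Finset Filter

namespace Pool.Agent.SSQ

open Pool.Agent.HLB Pool.Agent.HLT Pool.Agent.HLU Pool.Agent.SQP

lemma ev_exp45 (N : ℕ) : ∀ᶠ K : ℕ in atTop,
    (Real.exp (Real.log (Real.log K) ^ 4) + 1) * (60 * Real.log K ^ N) ≤ Real.exp (Real.log (Real.log K) ^ 5) := by
  have h0 : Tendsto (fun x : ℕ => Real.log (Real.log x)) atTop atTop :=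
    Real.tendsto_log_atTop.comp (Real.tendsto_log_atTop.comp tendsto_natCast_atTop_atTop)
  filter_upwards [h0.eventually (eventually_ge_atTop ((N : ℝ) + 8)), ev_L 1] with K hx hL
  set t := Real.log (Real.log K) with ht
  have hN : (0 : ℝ) ≤ N := Nat.cast_nonneg N
  have h1 : Real.log K ^ N = Real.exp (N * t) := by
    rw [Real.exp_nat_mul, ht, Real.exp_log (by linarith)]
  have h2 : (60 : ℝ) ≤ Real.exp 5 := by
    have h3 := Real.exp_one_gt_d9
    have h4 : Real.exp 5 = Real.exp 1 ^ 5 := by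
      rw [← Real.exp_nat_mul]
      norm_num
    rw [h4]
    calc (60 : ℝ) ≤ (2.5 : ℝ) ^ 5 := by norm_num
      _ ≤ _ := pow_le_pow_left₀ (by norm_num) (by linarith) 5
  have h3 : (1 : ℝ) ≤ Real.exp (t ^ 4) := Real.one_le_exp (by positivity)
  have h4 : (2 : ℝ) ≤ Real.exp 1 := by linarith [Real.exp_one_gt_d9]
  rw [h1]
  calc (Real.exp (t ^ 4) + 1) * (60 * Real.exp (N * t)) ≤
      (Real.exp 1 * Real.exp (t ^ 4)) * (Real.exp 5 * Real.exp (N * t)) := by
        refine mul_le_mul ?_ (mul_le_mul_of_nonneg_right h2 (Real.exp_pos _).le) (by positivity) (by positivity)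
        nlinarith [Real.exp_pos (t ^ 4)]
    _ = Real.exp (1 + t ^ 4 + (5 + N * t)) := by
        rw [← Real.exp_add, ← Real.exp_add, ← Real.exp_add]
    _ ≤ Real.exp (t ^ 5) := by
        refine Real.exp_le_exp.2 ?_
        have h5 : 8 ≤ t := by linarith
        have h6 : (1 : ℝ) ≤ t ^ 3 := one_le_pow₀ (by linarith)
        have h7 : t ≤ t ^ 4 := by
          calc t = t * 1 := (mul_one t).symm
            _ ≤ t * t ^ 3 := mul_le_mul_of_nonneg_left h6 (by linarith)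
            _ = t ^ 4 := by ring
        have h8 : (1 : ℝ) ≤ t ^ 4 := one_le_pow₀ (by linarith)
        have h9 : 1 + t ^ 4 + (5 + N * t) ≤ (N + 7) * t ^ 4 := by nlinarith
        have h10 : ((N : ℝ) + 7) * t ^ 4 ≤ t * t ^ 4 := mul_le_mul_of_nonneg_right (by linarith) (by positivity)
        calc _ ≤ (N + 7) * t ^ 4 := h9
          _ ≤ t * t ^ 4 := h10
          _ = t ^ 5 := by ring

lemma zA_mono (B : ℕ) {x y : ℕ} (h : Real.log x ≤ Real.log y) (h0 : 0 ≤ Real.log x) : zA B x ≤ zA B y := by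
  unfold zA
  exact Nat.floor_mono (pow_le_pow_left₀ h0 h B)

lemma ev_z (B : ℕ) : ∀ᶠ K : ℕ in atTop, (3 * Real.log K) ^ B ≤ (K : ℝ) ^ (1 / 20 : ℝ) := by
  have h1 : (fun x : ℝ => Real.log x ^ B) =o[atTop] (fun x : ℝ => x ^ (1 / 20 : ℝ)) := by
    have h := isLittleO_log_rpow_rpow_atTop ((B : ℕ) : ℝ) (show (0:ℝ) < 1 / 20 by norm_num)
    simp only [Real.rpow_natCast] at h
    exact h
  have h2 := (h1.comp_tendsto tendsto_natCast_atTop_atTop).bound (show (0:ℝ) < 1 / 3 ^ B by positivity)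
  filter_upwards [h2, ev_L 1] with x hx hL
  simp only [Function.comp_def] at hx
  rw [Real.norm_of_nonneg (by positivity), Real.norm_of_nonneg (by positivity)] at hx
  rw [mul_pow]
  have h3 := mul_le_mul_of_nonneg_left hx (by positivity : (0 : ℝ) ≤ 3 ^ B)
  refine h3.trans (le_of_eq ?_)
  field_simp

theorem main (ε : ℝ) (hε : 0 < ε) (A B0 : ℕ) : ∃ B : ℕ, B0 ≤ B ∧ ∃ K₀ : ℕ, ∀ K H : ℕ, ∀ h₀ : ℤ, K₀ ≤ K →
    H ≤ K → |h₀| ≤ 2 * K → ∃ E : Finset (ℕ × ℤ), (E.card : ℝ) ≤ K * H / Real.log K ^ A ∧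
      ∀ k ∈ Ioc K (2 * K), ∀ h ∈ Ioc h₀ (h₀ + H), (k, h) ∉ E → ∀ n : ℕ, (n : ℤ) = (k : ℤ) ^ 2 + h →
        ∀ M₁ M₂ z : ℕ, M₁ ≤ M₂ → M₂ ≤ k → Real.exp (Real.log (Real.log K) ^ 5) ≤ ((k - M₁ : ℕ) : ℝ) →
          ((k - M₁ : ℕ) : ℝ) * (((k - M₁ : ℕ) : ℝ) * K) ^ (1 / 6 + ε) ≤ H → zA B K ≤ z →
          (z : ℝ) ≤ (K : ℝ) ^ (1 / 20 : ℝ) →
          |∑ m ∈ Ico M₁ M₂, G0 (n - m ^ 2) -
            SQ z n * ∑ m ∈ Ico M₁ M₂, 1 / Real.log ((n - m ^ 2 : ℕ) : ℝ)| ≤
              ((k - M₁ : ℕ) : ℝ) / Real.log K ^ A := by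
  classical
  obtain ⟨B, hB, K₁, hblk⟩ := block ε hε (A + 2) (max B0 (4 * (A + 2) + 13))
  refine ⟨B, (le_max_left _ _).trans hB, ?_⟩
  obtain ⟨K₀, hK₀⟩ := eventually_atTop.mp ((trunc_pair (A + 2) B ((le_max_right _ _).trans hB)).and
    ((ev_exp45 (A + 1)).and ((ev_L 48).and ((ev_z B).and ((DZ_inv_le B).and
      ((ev_par ε hε 0).and (eventually_ge_atTop (max K₁ 2))))))))
  refine ⟨K₀, fun K H h₀ hK hHK hh => ?_⟩
  obtain ⟨htr, hexp, hL, hz, hDZ, hpar, hKK⟩ := hK₀ K hK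
  have hK1 : K₁ ≤ K := (le_max_left _ _).trans hKK
  have hK2 : 2 ≤ K := (le_max_right _ _).trans hKK
  have hKr : (2 : ℝ) ≤ K := by exact_mod_cast hK2
  set l := Real.log K with hl
  have hl0 : 0 < l := by linarith
  have hKH0 : (0 : ℝ) ≤ K * H / l ^ A := by positivity
  by_cases hH : (K : ℝ) ^ (1 / 6 : ℝ) ≤ H
  swap
  · refine ⟨∅, by simpa using hKH0, fun k hk h hh' _ n hn M₁ M₂ z hM1 hM2 hR hRH _ _ => ?_⟩
    exfalso
    apply hH
    have hR1 : (1 : ℝ) ≤ ((k - M₁ : ℕ) : ℝ) := by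
      refine le_trans ?_ hR
      exact Real.one_le_exp (pow_nonneg (Real.log_nonneg (by linarith)) 5)
    have h1 : (K : ℝ) ^ (1 / 6 : ℝ) ≤ (((k - M₁ : ℕ) : ℝ) * K) ^ (1 / 6 : ℝ) :=
      Real.rpow_le_rpow (by linarith) (by nlinarith) (by norm_num)
    have h2 : (((k - M₁ : ℕ) : ℝ) * K) ^ (1 / 6 : ℝ) ≤ (((k - M₁ : ℕ) : ℝ) * K) ^ (1 / 6 + ε) :=
      Real.rpow_le_rpow_of_exponent_le (by nlinarith) (by linarith)
    have h3 : (0 : ℝ) ≤ (((k - M₁ : ℕ) : ℝ) * K) ^ (1 / 6 + ε) := by positivity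
    nlinarith
  obtain ⟨ET, hET1, hET2⟩ := htr H h₀ hH hHK hh
  obtain ⟨Dm, hDm⟩ : ∃ Dm : ℕ, Dm = ⌈Real.exp (Real.log l ^ 4)⌉₊ := ⟨_, rfl⟩
  have hDm1 : Real.exp (Real.log l ^ 4) ≤ Dm := by rw [hDm]; exact Nat.le_ceil _
  have hDm2 : (Dm : ℝ) ≤ Real.exp (Real.log l ^ 4) + 1 := by
    rw [hDm]
    exact (Nat.ceil_lt_add_one (Real.exp_pos _).le).le
  have hDm0 : 0 < Dm := by
    have h1 : (0 : ℝ) < Dm := lt_of_lt_of_le (Real.exp_pos _) hDm1
    exact_mod_cast h1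
  -- the sets for the blocks
  have hch : ∀ D : ℕ, ∃ E : Finset (ℕ × ℤ), (E.card : ℝ) ≤ K * H / l ^ (A + 2) ∧
      (Real.exp (Real.log l ^ 4) ≤ D → (D : ℝ) * ((D : ℝ) * K) ^ (1 / 6 + ε) ≤ H →
        ∀ k ∈ Ioc K (2 * K), ∀ h ∈ Ioc h₀ (h₀ + H), (k, h) ∉ E → ∀ n : ℕ, (n : ℤ) = (k : ℤ) ^ 2 + h →
        ∀ M₁ M₂ : ℕ, k ≤ M₁ + 2 * D → M₁ ≤ M₂ → M₂ + D ≤ k →
          |∑ m ∈ Ico M₁ M₂, (G0 (n - m ^ 2) - G1 (zA B (5 * D * K)) (n - m ^ 2))| ≤
            D / l ^ (A + 2)) := by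
    intro D
    by_cases hc : Real.exp (Real.log l ^ 4) ≤ D ∧ (D : ℝ) * ((D : ℝ) * K) ^ (1 / 6 + ε) ≤ H
    · obtain ⟨E, hE1, hE2⟩ := (hblk K D H h₀ hK1 hc.1 hc.2 hHK hh).1 (fun _ => 1) (fun _ => by simp)
      refine ⟨E, hE1, fun _ _ k hk h hh' hkh n hn M₁ M₂ h1 h2 h3 => ?_⟩
      have h4 := hE2 k hk h hh' hkh n hn M₁ M₂ h1 h2 h3
      simpa only [one_mul] using h4
    · refine ⟨∅, by
        have : (0 : ℝ) ≤ K * H / l ^ (A + 2) := by positivity
        simpa using this, fun h1 h2 => absurd ⟨h1, h2⟩ hc⟩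
  choose EE hEE1 hEE2 using hch
  obtain ⟨J, hJ⟩ : ∃ J : ℕ, J = Nat.log 2 K + 2 := ⟨_, rfl⟩
  refine ⟨ET ∪ (range J).biUnion (fun j => EE (2 ^ j * Dm)), ?_, ?_⟩
  · have h1 : ((ET ∪ (range J).biUnion (fun j => EE (2 ^ j * Dm))).card : ℝ) ≤
        ET.card + ∑ j ∈ range J, ((EE (2 ^ j * Dm)).card : ℝ) := by
      have h2 := Finset.card_union_le ET ((range J).biUnion (fun j => EE (2 ^ j * Dm)))
      have h3 : ((range J).biUnion (fun j => EE (2 ^ j * Dm))).card ≤ ∑ j ∈ range J, (EE (2 ^ j * Dm)).card :=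
        Finset.card_biUnion_le
      have h4 := h2.trans (Nat.add_le_add_left h3 _)
      exact_mod_cast h4
    refine h1.trans ?_
    have h2 : ∑ j ∈ range J, ((EE (2 ^ j * Dm)).card : ℝ) ≤ J * (K * H / l ^ (A + 2)) := by
      calc ∑ j ∈ range J, ((EE (2 ^ j * Dm)).card : ℝ) ≤ ∑ _j ∈ range J, (K * H / l ^ (A + 2) : ℝ) :=
            Finset.sum_le_sum fun j _ => hEE1 _
        _ = J * (K * H / l ^ (A + 2)) := by rw [Finset.sum_const, Finset.card_range, nsmul_eq_mul]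
    have h3 : (J : ℝ) ≤ 2 * l + 2 := by
      rw [hJ]
      push_cast
      have := log_two_le' (by omega : 1 ≤ K)
      linarith
    have h4 : (K : ℝ) * H / l ^ (A + 2) = K * H / l ^ A * (1 / l ^ 2) := by
      rw [pow_add]
      field_simp
    have h5 : (0 : ℝ) ≤ K * H / l ^ (A + 2) := by positivity
    calc (ET.card : ℝ) + ∑ j ∈ range J, ((EE (2 ^ j * Dm)).card : ℝ) ≤
        K * H / l ^ (A + 2) + (2 * l + 2) * (K * H / l ^ (A + 2)) :=
          add_le_add hET1 (h2.trans (mul_le_mul_of_nonneg_right h3 h5))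
      _ = K * H / l ^ A * ((2 * l + 3) / l ^ 2) := by
          rw [h4]
          ring
      _ ≤ K * H / l ^ A := by
          refine mul_le_of_le_one_right hKH0 ?_
          rw [div_le_one (by positivity)]
          nlinarith
  · intro k hk h hh' hkh n hn M₁ M₂ z hM1 hM2 hR hRH hz1 hz2
    rw [Finset.mem_union, not_or, Finset.mem_biUnion, not_exists] at hkh
    obtain ⟨hkT, hkE⟩ := hkh
    have hk' := Finset.mem_Ioc.1 hk
    have hT := hET2 k hk h hh' hkT n hn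
    obtain ⟨R, hRdef⟩ : ∃ R : ℕ, R = k - M₁ := ⟨_, rfl⟩
    rw [← hRdef] at hR hRH ⊢
    have hRk : R ≤ k := by omega
    have hla : (0 : ℝ) < l ^ (A + 2) := by positivity
    have hSz : |SQ z n - SQ (zA B K) n| ≤ 1 / l ^ (A + 2) := hT z hz1 hz2
    have hSQ0 : 0 ≤ SQ z n := SQ_nonneg z n
    have hSQ : SQ z n ≤ l + 1 := by
      have h1 := (SQ_le (zA B K) n).trans hDZ
      have h2 : 1 / l ^ (A + 2) ≤ 1 := by
        rw [div_le_one hla]
        exact one_le_pow₀ (by linarith)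
      have h3 := (abs_le.1 hSz).2
      linarith
    set u : ℕ → ℝ := fun m => G0 (n - m ^ 2) - SQ z n * (1 / Real.log ((n - m ^ 2 : ℕ) : ℝ)) with hu
    set T : ℕ → ℝ := fun y => ∑ m ∈ Ico (k - y) k, u m with hTd
    have hu1 : ∀ m, |u m| ≤ 2 * l + 3 := by
      intro m
      rw [hu]
      simp only
      have h1 := G0_nonneg (n - m ^ 2)
      have h2 := G0_le (n - m ^ 2)
      have h3 := inv_log_nonneg (n - m ^ 2)
      have h4 := inv_log_le (n - m ^ 2)
      have h5 : SQ z n * (1 / Real.log ((n - m ^ 2 : ℕ) : ℝ)) ≤ (l + 1) * 2 :=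
        mul_le_mul hSQ h4 h3 (by linarith)
      have h6 : 0 ≤ SQ z n * (1 / Real.log ((n - m ^ 2 : ℕ) : ℝ)) := mul_nonneg hSQ0 h3
      rw [abs_le]
      constructor <;> linarith
    have hT0 : ∀ y ≤ Dm, |T y| ≤ Dm * (2 * l + 3) := by
      intro y hy
      calc |T y| ≤ ∑ m ∈ Ico (k - y) k, |u m| := Finset.abs_sum_le_sum_abs _ _
        _ ≤ ∑ _m ∈ Ico (k - y) k, (2 * l + 3) := Finset.sum_le_sum fun m _ => hu1 m
        _ = ((k - (k - y) : ℕ) : ℝ) * (2 * l + 3) := by rw [Finset.sum_const, Nat.card_Ico, nsmul_eq_mul]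
        _ ≤ Dm * (2 * l + 3) := by
            refine mul_le_mul_of_nonneg_right ?_ (by linarith)
            have : k - (k - y) ≤ Dm := by omega
            exact_mod_cast this
    -- one block
    have hone : ∀ j y : ℕ, 2 ^ j * Dm ≤ y → y ≤ 2 * (2 ^ j * Dm) → y ≤ R →
        |T y - T (2 ^ j * Dm)| ≤ 6 * ((2 ^ j * Dm : ℕ) : ℝ) / l ^ (A + 2) := by
      intro j y hy1 hy2 hyR
      obtain ⟨D, hD⟩ : ∃ D, D = 2 ^ j * Dm := ⟨_, rfl⟩
      rw [← hD] at hy1 hy2 ⊢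
      have hDmD : Dm ≤ D := by
        rw [hD]
        exact Nat.le_mul_of_pos_left Dm (by positivity)
      have hDR : D ≤ R := hy1.trans hyR
      have hDe : Real.exp (Real.log l ^ 4) ≤ D := hDm1.trans (by exact_mod_cast hDmD)
      have hDr : (D : ℝ) ≤ R := by exact_mod_cast hDR
      have hD0 : (0 : ℝ) ≤ D := Nat.cast_nonneg D
      have hDH : (D : ℝ) * ((D : ℝ) * K) ^ (1 / 6 + ε) ≤ H := by
        refine le_trans ?_ hRH
        have h1 : ((D : ℝ) * K) ^ (1 / 6 + ε) ≤ ((R : ℝ) * K) ^ (1 / 6 + ε) :=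
          Real.rpow_le_rpow (by positivity) (mul_le_mul_of_nonneg_right hDr (by linarith)) (by linarith)
        exact mul_le_mul hDr h1 (by positivity) (Nat.cast_nonneg R)
      obtain ⟨-, -, hD2, h4D, hl1, hl2, -⟩ := hpar D H hDe hDH hHK
      have hjJ : j ∈ range J := by
        rw [Finset.mem_range, hJ]
        have h1 : 2 ^ j ≤ K := by
          have h2 : 2 ^ j ≤ D := by
            rw [hD]
            exact Nat.le_mul_of_pos_right _ hDm0
          omega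
        have h3 : j ≤ Nat.log 2 K := Nat.le_log_of_pow_le (by norm_num) h1
        omega
      have hkE' : (k, h) ∉ EE D := by
        intro hcon
        exact hkE j ⟨hjJ, by rw [← hD]; exact hcon⟩
      have hb1 := hEE2 D hDe hDH k hk h hh' hkE' n hn (k - y) (k - D) (by omega) (by omega) (by omega)
      have hb2 := (hblk K D H h₀ hK1 hDe hDH hHK hh).2 k hk h hh' n hn (k - y) (k - D) (by omega) (by omega) (by omega)
      have hzD1 : zA B K ≤ zA B (5 * D * K) := zA_mono B hl1 hl0.le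
      have hzD2 : ((zA B (5 * D * K) : ℕ) : ℝ) ≤ (K : ℝ) ^ (1 / 20 : ℝ) := by
        refine le_trans ?_ hz
        unfold zA
        refine (Nat.floor_le (by positivity)).trans ?_
        exact pow_le_pow_left₀ (by linarith) hl2 B
      have hSD := hT _ hzD1 hzD2
      have hSdiff : |SQ (zA B (5 * D * K)) n - SQ z n| ≤ 2 / l ^ (A + 2) := by
        have h1 : (2 : ℝ) / l ^ (A + 2) = 1 / l ^ (A + 2) + 1 / l ^ (A + 2) := by ring
        rw [h1]
        rw [abs_le] at hSD hSz ⊢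
        constructor <;> linarith [hSD.1, hSD.2, hSz.1, hSz.2]
      obtain ⟨W, hW⟩ : ∃ W, W = ∑ m ∈ Ico (k - y) (k - D), 1 / Real.log ((n - m ^ 2 : ℕ) : ℝ) := ⟨_, rfl⟩
      have hW0 : 0 ≤ W := by
        rw [hW]
        exact Finset.sum_nonneg fun m _ => inv_log_nonneg _
      have hW2 : W ≤ 2 * D := by
        rw [hW]
        calc ∑ m ∈ Ico (k - y) (k - D), 1 / Real.log ((n - m ^ 2 : ℕ) : ℝ) ≤ ∑ _m ∈ Ico (k - y) (k - D), (2 : ℝ) :=
              Finset.sum_le_sum fun m _ => inv_log_le _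
          _ = (((k - D) - (k - y) : ℕ) : ℝ) * 2 := by rw [Finset.sum_const, Nat.card_Ico, nsmul_eq_mul]
          _ ≤ (D : ℝ) * 2 := by
              refine mul_le_mul_of_nonneg_right ?_ (by norm_num)
              have : (k - D) - (k - y) ≤ D := by omega
              exact_mod_cast this
          _ = 2 * D := by ring
      have hTdiff : T y - T D = ∑ m ∈ Ico (k - y) (k - D), u m := by
        have h1 : T y = ∑ m ∈ Ico (k - y) (k - D), u m + T D := by
          rw [hTd]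
          simp only
          exact (Finset.sum_Ico_consecutive _ (by omega) (by omega)).symm
        linarith
      have hsplit : ∑ m ∈ Ico (k - y) (k - D), u m =
          ∑ m ∈ Ico (k - y) (k - D), (G0 (n - m ^ 2) - G1 (zA B (5 * D * K)) (n - m ^ 2)) +
            (∑ m ∈ Ico (k - y) (k - D), G1 (zA B (5 * D * K)) (n - m ^ 2) - SQ (zA B (5 * D * K)) n * W) +
            (SQ (zA B (5 * D * K)) n - SQ z n) * W := by
        rw [hu]
        simp only
        rw [Finset.sum_sub_distrib, Finset.sum_sub_distrib, ← Finset.mul_sum, ← hW]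
        ring
      rw [hTdiff, hsplit]
      rw [← hW] at hb2
      have h3 : |(SQ (zA B (5 * D * K)) n - SQ z n) * W| ≤ 2 / l ^ (A + 2) * (2 * D) := by
        rw [abs_mul, abs_of_nonneg hW0]
        exact mul_le_mul hSdiff hW2 hW0 (by positivity)
      calc _ ≤ |∑ m ∈ Ico (k - y) (k - D), (G0 (n - m ^ 2) - G1 (zA B (5 * D * K)) (n - m ^ 2))| +
            |∑ m ∈ Ico (k - y) (k - D), G1 (zA B (5 * D * K)) (n - m ^ 2) - SQ (zA B (5 * D * K)) n * W| +
            |(SQ (zA B (5 * D * K)) n - SQ z n) * W| := abs_add_three _ _ _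
        _ ≤ D / l ^ (A + 2) + D / l ^ (A + 2) + 2 / l ^ (A + 2) * (2 * D) := add_le_add (add_le_add hb1 hb2) h3
        _ = 6 * (D : ℝ) / l ^ (A + 2) := by ring
    -- induction
    have hind : ∀ j : ℕ, 2 ^ j * Dm ≤ R →
        |T (2 ^ j * Dm)| ≤ Dm * (2 * l + 3) + 6 * ((2 ^ j * Dm : ℕ) : ℝ) / l ^ (A + 2) := by
      intro j
      induction j with
      | zero =>
        intro _
        rw [pow_zero, one_mul]
        have h1 := hT0 Dm le_rfl
        have h2 : (0 : ℝ) ≤ 6 * (Dm : ℝ) / l ^ (A + 2) := by positivity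
        linarith
      | succ j ih =>
        intro hj
        have e : 2 ^ (j + 1) * Dm = 2 * (2 ^ j * Dm) := by ring
        have h1 := ih (by rw [e] at hj; omega)
        have h2 := hone j (2 ^ (j + 1) * Dm) (by rw [e]; omega) (by rw [e]) hj
        have h3 : ((2 ^ (j + 1) * Dm : ℕ) : ℝ) = 2 * ((2 ^ j * Dm : ℕ) : ℝ) := by
          rw [e]
          push_cast
          ring
        rw [h3]
        have h4 : |T (2 ^ (j + 1) * Dm)| ≤ |T (2 ^ j * Dm)| + |T (2 ^ (j + 1) * Dm) - T (2 ^ j * Dm)| := by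
          have := abs_add_le (T (2 ^ j * Dm)) (T (2 ^ (j + 1) * Dm) - T (2 ^ j * Dm))
          rwa [add_sub_cancel] at this
        calc |T (2 ^ (j + 1) * Dm)| ≤ |T (2 ^ j * Dm)| + |T (2 ^ (j + 1) * Dm) - T (2 ^ j * Dm)| := h4
          _ ≤ (Dm * (2 * l + 3) + 6 * ((2 ^ j * Dm : ℕ) : ℝ) / l ^ (A + 2)) +
              6 * ((2 ^ j * Dm : ℕ) : ℝ) / l ^ (A + 2) := add_le_add h1 h2
          _ = Dm * (2 * l + 3) + 6 * (2 * ((2 ^ j * Dm : ℕ) : ℝ)) / l ^ (A + 2) := by ring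
    have hall : ∀ y ≤ R, |T y| ≤ Dm * (2 * l + 3) + 12 * (R : ℝ) / l ^ (A + 2) := by
      intro y hy
      have hR0 : (0 : ℝ) ≤ R := Nat.cast_nonneg R
      rcases Nat.lt_or_ge y Dm with h1 | h1
      · have h2 := hT0 y h1.le
        have h3 : (0 : ℝ) ≤ 12 * (R : ℝ) / l ^ (A + 2) := by positivity
        linarith
      · obtain ⟨j, hj⟩ : ∃ j, j = Nat.log 2 (y / Dm) := ⟨_, rfl⟩
        have hq : y / Dm ≠ 0 := by
          have := Nat.div_pos h1 hDm0
          omega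
        have h2 : 2 ^ j ≤ y / Dm := by rw [hj]; exact Nat.pow_log_le_self 2 hq
        have h3 : y / Dm < 2 ^ (j + 1) := by rw [hj]; exact Nat.lt_pow_succ_log_self (by norm_num) _
        have h4 : 2 ^ j * Dm ≤ y := (Nat.mul_le_mul_right _ h2).trans (Nat.div_mul_le_self _ _)
        have h5 : y ≤ 2 * (2 ^ j * Dm) := by
          have h6 : y < 2 ^ (j + 1) * Dm := (Nat.div_lt_iff_lt_mul hDm0).1 h3
          have e : 2 ^ (j + 1) * Dm = 2 * (2 ^ j * Dm) := by ring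
          omega
        have h6 := hind j (h4.trans hy)
        have h7 := hone j y h4 h5 hy
        have h8 : |T y| ≤ |T (2 ^ j * Dm)| + |T y - T (2 ^ j * Dm)| := by
          have := abs_add_le (T (2 ^ j * Dm)) (T y - T (2 ^ j * Dm))
          rwa [add_sub_cancel] at this
        have h9 : ((2 ^ j * Dm : ℕ) : ℝ) ≤ R := by exact_mod_cast h4.trans hy
        have h10 : 6 * ((2 ^ j * Dm : ℕ) : ℝ) / l ^ (A + 2) ≤ 6 * (R : ℝ) / l ^ (A + 2) :=
          div_le_div_of_nonneg_right (by linarith) hla.le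
        have h11 : 12 * (R : ℝ) / l ^ (A + 2) = 6 * (R : ℝ) / l ^ (A + 2) + 6 * (R : ℝ) / l ^ (A + 2) := by ring
        rw [h11]
        linarith
    -- the conclusion
    have hsum : ∑ m ∈ Ico M₁ M₂, G0 (n - m ^ 2) - SQ z n * ∑ m ∈ Ico M₁ M₂, 1 / Real.log ((n - m ^ 2 : ℕ) : ℝ) =
        T R - T (k - M₂) := by
      have h1 : T R = ∑ m ∈ Ico M₁ M₂, u m + T (k - M₂) := by
        rw [hTd]
        simp only
        have e1 : k - R = M₁ := by omega
        have e2 : k - (k - M₂) = M₂ := by omega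
        rw [e1, e2]
        exact (Finset.sum_Ico_consecutive _ hM1 hM2).symm
      rw [h1, hu]
      simp only
      rw [Finset.sum_sub_distrib, ← Finset.mul_sum]
      ring
    rw [hsum]
    have h1 := hall R le_rfl
    have h2 := hall (k - M₂) (by omega)
    have h3 : |T R - T (k - M₂)| ≤ 2 * (Dm * (2 * l + 3) + 12 * (R : ℝ) / l ^ (A + 2)) := by
      rw [abs_le] at h1 h2 ⊢
      constructor <;> linarith [h1.1, h1.2, h2.1, h2.2]
    refine h3.trans ?_
    have h4 : (Dm : ℝ) * (2 * l + 3) ≤ (R : ℝ) / (4 * l ^ A) := by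
      rw [le_div_iff₀ (by positivity)]
      have h5 := hexp.trans hR
      have h6 : (0 : ℝ) ≤ Real.exp (Real.log l ^ 4) + 1 := by positivity
      calc (Dm : ℝ) * (2 * l + 3) * (4 * l ^ A) ≤ (Real.exp (Real.log l ^ 4) + 1) * (3 * l) * (4 * l ^ A) := by
            have h7 : 2 * l + 3 ≤ 3 * l := by linarith
            gcongr
        _ = (Real.exp (Real.log l ^ 4) + 1) * (12 * l ^ (A + 1)) := by ring
        _ ≤ (Real.exp (Real.log l ^ 4) + 1) * (60 * l ^ (A + 1)) := by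
            refine mul_le_mul_of_nonneg_left ?_ h6
            have : (0 : ℝ) ≤ l ^ (A + 1) := by positivity
            linarith
        _ ≤ R := h5
    have h5 : 12 * (R : ℝ) / l ^ (A + 2) ≤ (R : ℝ) / (4 * l ^ A) := by
      rw [div_le_div_iff₀ hla (by positivity)]
      have h6 : l ^ (A + 2) = l ^ A * l ^ 2 := by ring
      rw [h6]
      have h7 : (48 : ℝ) ≤ l ^ 2 := by nlinarith
      have h8 : (0 : ℝ) ≤ R * l ^ A := by positivity
      nlinarith
    have h6 : (R : ℝ) / l ^ A = 2 * (R / (4 * l ^ A) + R / (4 * l ^ A)) := by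
      field_simp
      ring
    rw [h6]
    linarith

end Pool.Agent.SSQ
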