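import Pool.Agent.Lib.SSQ.TwoS

/-!
# The sieve model in very short intervals, with a small relative error
-/

set_option autoImplicit false

open Finset Filter Topology

namespace Pool.Agent.SSQ

open Pool.Agent.HLB Pool.Agent.HLT Pool.Agent.HLU Pool.Agent.SQP

open SieveAux

theorem two_G1 {η : ℝ} (hη : 0 < η) (hη1 : η ≤ 1) : ∃ Ks : ℕ, ∀ B : ℕ, ∀ᶠ x : ℕ in atTop, ∀ n m₀ N W K : ℕ,
    Real.log x ^ (2 * Ks * (B + 1) + 4) ≤ W → N ≤ W → 2 ≤ K → (m₀ + N) ^ 2 + K ≤ n →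
    |∑ m ∈ Ioc m₀ (m₀ + N), G1 (zA B x) (n - m ^ 2) -
      SQ (zA B x) n * ∑ m ∈ Ioc m₀ (m₀ + N), 1 / Real.log ((n - m ^ 2 : ℕ) : ℝ)| ≤
        η * SQ (zA B x) n * W / Real.log K := by
  classical
  obtain ⟨Ks, hK⟩ := two_det 2 (ε := η / 8) (by linarith) (by linarith)
  refine ⟨Ks, fun B => ?_⟩
  filter_upwards [DZ_inv_le B, HLU.ev_log (4 / η + 4)] with x hDZ hL n m₀ N W K hWL hNW hK2 hMn
  set L := Real.log x with hLdef
  set z := zA B x with hz
  have h4η : 0 < 4 / η := by positivity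
  have hL4 : 4 ≤ L := by linarith
  have hL0 : 0 < L := by linarith
  have hL1 : 1 ≤ L := by linarith
  have hLη : 4 ≤ η * L := by
    have h1 : 4 / η ≤ L := by linarith
    rw [div_le_iff₀ hη] at h1
    linarith
  have hW0 : (0 : ℝ) ≤ W := Nat.cast_nonneg W
  have hKr : (2 : ℝ) ≤ K := by exact_mod_cast hK2
  have hlK : 0 < Real.log K := Real.log_pos (by linarith)
  have hSQ0 := SQ_nonneg z n
  rcases Nat.eq_zero_or_pos N with hN | hN
  · subst hN
    simp only [Nat.add_zero, Finset.Ioc_self, Finset.sum_empty, mul_zero, sub_zero, abs_zero]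
    positivity
  obtain ⟨M, rfl⟩ : ∃ M, N = M + 1 := ⟨N - 1, by omega⟩
  have hle : ∀ m : ℕ, m ≤ m₀ + (M + 1) → m ^ 2 + K ≤ n := fun m hm => by
    have := Nat.pow_le_pow_left hm 2
    omega
  -- the level
  have hzL : (z : ℝ) ≤ L ^ B := Nat.floor_le (by positivity)
  have hz1 : ((z + 1 : ℕ) : ℝ) ≤ L ^ (B + 1) := by
    push_cast
    have h1 : (1 : ℝ) ≤ L ^ B := one_le_pow₀ hL1
    calc (z : ℝ) + 1 ≤ 2 * L ^ B := by linarith
      _ ≤ L ^ B * L := by nlinarith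
      _ = L ^ (B + 1) := by rw [pow_succ]
  have hR : (((z + 1) ^ Ks : ℕ) : ℝ) ^ 2 ≤ L ^ (2 * Ks * (B + 1)) := by
    push_cast at hz1 ⊢
    calc (((z : ℝ) + 1) ^ Ks) ^ 2 ≤ ((L ^ (B + 1)) ^ Ks) ^ 2 :=
          pow_le_pow_left₀ (by positivity) (pow_le_pow_left₀ (by positivity) hz1 Ks) 2
      _ = L ^ (2 * Ks * (B + 1)) := by
          rw [← pow_mul, ← pow_mul]
          congr 1
          ring
  set ρ : ℝ := ∏ p ∈ Nat.primesLE z, (1 - ((sqr n p).card : ℝ) / p) with hρ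
  have hρF : ∏ p ∈ Nat.primesLE z, (1 - ((Fs n m₀ p).card : ℝ) / p) = ρ := by
    rw [hρ]
    refine Finset.prod_congr rfl fun p hp => ?_
    rw [card_Fs n m₀ (Nat.mem_primesLE.1 hp).2.pos]
  have hρS : (DZ z)⁻¹ * ρ = SQ z n := prod_sqr z n
  have hDZp := DZ_pos z
  have hDZ1 : 1 / L ≤ DZ z := by
    rw [div_le_iff₀ hL0]
    calc (1 : ℝ) = DZ z * (DZ z)⁻¹ := (mul_inv_cancel₀ hDZp.ne').symm
      _ ≤ DZ z * L := mul_le_mul_of_nonneg_left hDZ hDZp.le
  have hSQ2 : 1 / L ^ 2 ≤ SQ z n := by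
    refine le_trans ?_ (SQ_ge _ n)
    calc 1 / L ^ 2 = (1 / L) ^ 2 := by rw [div_pow, one_pow]
      _ ≤ DZ z ^ 2 := pow_le_pow_left₀ (by positivity) hDZ1 2
  have hρ0 : 0 ≤ ρ := by
    have : ρ = DZ z * SQ z n := by
      rw [← hρS, ← mul_assoc, mul_inv_cancel₀ hDZp.ne', one_mul]
    rw [this]
    positivity
  set ind : ℕ → ℝ := fun i => if ∀ p ∈ Nat.primesLE z, (i + 1) % p ∉ Fs n m₀ p then 1 else 0 with hind
  set c : ℕ → ℝ := fun i => ind i - ρ with hc
  set g : ℕ → ℝ := fun i => 1 / Real.log ((n - (m₀ + (i + 1)) ^ 2 : ℕ) : ℝ) with hg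
  have hC : ∀ y ≤ M, |∑ i ∈ range (y + 1), c i| ≤ η / 4 * (W * ρ) + L ^ (2 * Ks * (B + 1)) := by
    intro y hy
    have h1 := hK z (y + 1) (Fs n m₀) (fun p hp =>
      ⟨Fs_sub n m₀ p, by
        rw [card_Fs n m₀ (Nat.mem_primesLE.1 hp).2.pos]
        exact card_sqr_le n (Nat.mem_primesLE.1 hp).2⟩)
    rw [hρF] at h1
    have h2 : ∑ i ∈ range (y + 1), c i =
        (((Icc 1 (y + 1)).filter (fun n_1 => ∀ p ∈ Nat.primesLE z, n_1 % p ∉ Fs n m₀ p)).card : ℝ) -
          ((y + 1 : ℕ) : ℝ) * ρ := by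
      rw [hc]
      simp only
      rw [Finset.sum_sub_distrib, Finset.sum_const, Finset.card_range, nsmul_eq_mul,
        Finset.card_filter]
      push_cast
      congr 1
      rw [hind, Finset.range_eq_Ico]
      have := Finset.sum_Ico_add' (fun i : ℕ => if ∀ p ∈ Nat.primesLE z, i % p ∉ Fs n m₀ p then (1 : ℝ) else 0)
        0 (y + 1) 1
      rw [this]
      rfl
    have hyW : ((y + 1 : ℕ) : ℝ) ≤ W := by
      have : y + 1 ≤ W := by omega
      exact_mod_cast this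
    rw [h2]
    refine h1.trans (add_le_add ?_ hR)
    have h3 : ((y + 1 : ℕ) : ℝ) * ρ ≤ W * ρ := mul_le_mul_of_nonneg_right hyW hρ0
    have h4 : 2 * (η / 8) = η / 4 := by ring
    rw [h4]
    exact mul_le_mul_of_nonneg_left h3 (by positivity)
  have hgM : ∀ i ≤ M, K ≤ n - (m₀ + (i + 1)) ^ 2 := fun i hi => by
    have := hle (m₀ + (i + 1)) (by omega)
    omega
  have key := abel_mono M c g (1 / Real.log K) (η / 4 * (W * ρ) + L ^ (2 * Ks * (B + 1)))
    (fun m _ => inv_log_nonneg _) (by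
      rw [hg]
      simp only
      have h1 := hgM M le_rfl
      refine one_div_le_one_div_of_le hlK (Real.log_le_log (by linarith) ?_)
      exact_mod_cast h1)
    (fun m hm => by
      rw [hg]
      simp only
      have h1 := hgM (m + 1) hm
      have h2 : n - (m₀ + (m + 1 + 1)) ^ 2 ≤ n - (m₀ + (m + 1)) ^ 2 :=
        Nat.sub_le_sub_left (Nat.pow_le_pow_left (by omega) 2) n
      have h3 : (0 : ℝ) < Real.log ((n - (m₀ + (m + 1 + 1)) ^ 2 : ℕ) : ℝ) := by
        refine Real.log_pos ?_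
        have : 2 ≤ n - (m₀ + (m + 1 + 1)) ^ 2 := by omega
        exact_mod_cast this
      refine one_div_le_one_div_of_le h3 (Real.log_le_log ?_ (by exact_mod_cast h2))
      have : 0 < n - (m₀ + (m + 1 + 1)) ^ 2 := by omega
      exact_mod_cast this) hC
  have hmain : ∑ m ∈ Ioc m₀ (m₀ + (M + 1)), G1 z (n - m ^ 2) -
      SQ z n * ∑ m ∈ Ioc m₀ (m₀ + (M + 1)), 1 / Real.log ((n - m ^ 2 : ℕ) : ℝ) =
      (DZ z)⁻¹ * ∑ m ∈ range (M + 1), g m * c m := by
    rw [sum_shift m₀ (M + 1) (fun m => G1 z (n - m ^ 2)),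
      sum_shift m₀ (M + 1) (fun m => 1 / Real.log ((n - m ^ 2 : ℕ) : ℝ)),
      ← prod_sqr, ← hρ, mul_assoc, Finset.mul_sum, Finset.mul_sum, Finset.mul_sum,
      ← Finset.sum_sub_distrib]
    refine Finset.sum_congr rfl fun m hm => ?_
    have hm' : m ≤ M := Nat.lt_succ_iff.mp (Finset.mem_range.mp hm)
    have h1 := hle (m₀ + (m + 1)) (by omega)
    have hicF : ic z (n - (m₀ + (m + 1)) ^ 2) = ind m := by
      rw [ic_eq (by omega : (m₀ + (m + 1)) ^ 2 ≤ n), hind]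
      refine if_congr ?_ rfl rfl
      refine forall_congr' fun p => forall_congr' fun hp => ?_
      rw [mem_Fs n m₀ (m + 1) (Nat.mem_primesLE.1 hp).2.pos]
    unfold G1 nuz
    rw [hicF]
    rw [hc, hg]
    simp only
    ring
  rw [hmain, abs_mul, abs_of_nonneg (inv_nonneg.mpr hDZp.le)]
  have hP0 : (0 : ℝ) ≤ L ^ (2 * Ks * (B + 1)) := by positivity
  calc (DZ z)⁻¹ * |∑ m ∈ range (M + 1), g m * c m| ≤
        (DZ z)⁻¹ * (2 * (1 / Real.log K) * (η / 4 * (W * ρ) + L ^ (2 * Ks * (B + 1)))) :=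
        mul_le_mul_of_nonneg_left key (inv_nonneg.mpr hDZp.le)
    _ = (2 * (η / 4 * (W * ((DZ z)⁻¹ * ρ)) + (DZ z)⁻¹ * L ^ (2 * Ks * (B + 1)))) / Real.log K := by
        field_simp
    _ ≤ (η * SQ z n * W) / Real.log K := by
        refine div_le_div_of_nonneg_right ?_ hlK.le
        rw [hρS]
        have h1 : (DZ z)⁻¹ * L ^ (2 * Ks * (B + 1)) ≤ L * L ^ (2 * Ks * (B + 1)) :=
          mul_le_mul_of_nonneg_right hDZ hP0
        have h2 : 4 * (L * L ^ (2 * Ks * (B + 1))) ≤ η * (SQ z n * W) := by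
          calc 4 * (L * L ^ (2 * Ks * (B + 1))) ≤ (η * L) * (L * L ^ (2 * Ks * (B + 1))) :=
                mul_le_mul_of_nonneg_right hLη (by positivity)
            _ = η * (1 / L ^ 2 * L ^ (2 * Ks * (B + 1) + 4)) := by
                rw [pow_add]
                field_simp
            _ ≤ η * (SQ z n * W) := by
                refine mul_le_mul_of_nonneg_left ?_ hη.le
                exact mul_le_mul hSQ2 hWL (by positivity) hSQ0
        have h3 : η * SQ z n * W = η * (SQ z n * W) := by ring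
        have h4 : 2 * (η / 4 * (W * SQ z n)) = η * (SQ z n * W) / 2 := by ring
        linarith

end Pool.Agent.SSQ
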