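import Pool.Agent.Lib.SSQ.ExcL
import Pool.Agent.Lib.SSQ.TwoG
import Pool.Agent.Lib.SSQ.Main

/-!
# All intervals of `m` longer than a power of the logarithm, with a small relative error
-/

set_option autoImplicit false

open Finset Filter

namespace Pool.Agent.SSQ

open Pool.Agent.HLB Pool.Agent.HLT Pool.Agent.HLU Pool.Agent.SQP

/-- dyadic summation -/
lemma dyad (T : ℕ → ℝ) (Dm R : ℕ) (b c : ℝ) (hDm : 0 < Dm) (hc : 0 ≤ c) (hT0 : ∀ y ≤ Dm, |T y| ≤ b)
    (hone : ∀ j y : ℕ, 2 ^ j * Dm ≤ y → y ≤ 2 * (2 ^ j * Dm) → y ≤ R →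
      |T y - T (2 ^ j * Dm)| ≤ c * ((2 ^ j * Dm : ℕ) : ℝ)) :
    ∀ y ≤ R, |T y| ≤ b + 2 * c * R := by
  have hind : ∀ j : ℕ, 2 ^ j * Dm ≤ R → |T (2 ^ j * Dm)| ≤ b + c * ((2 ^ j * Dm : ℕ) : ℝ) := by
    intro j
    induction j with
    | zero =>
      intro _
      rw [pow_zero, one_mul]
      have h1 := hT0 Dm le_rfl
      have h2 : (0 : ℝ) ≤ c * (Dm : ℝ) := by positivity
      linarith
    | succ j ih =>
      intro hj
      have e : 2 ^ (j + 1) * Dm = 2 * (2 ^ j * Dm) := by ring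
      have h1 := ih (by rw [e] at hj; omega)
      have h2 := hone j (2 ^ (j + 1) * Dm) (by rw [e]; omega) (by rw [e]) hj
      have h3 : ((2 ^ (j + 1) * Dm : ℕ) : ℝ) = 2 * ((2 ^ j * Dm : ℕ) : ℝ) := by
        rw [e]
        push_cast
        ring
      rw [h3]
      have h4 : |T (2 ^ (j + 1) * Dm)| ≤ |T (2 ^ j * Dm)| + |T (2 ^ (j + 1) * Dm) - T (2 ^ j * Dm)| := by
        have := abs_add_le (T (2 ^ j * Dm)) (T (2 ^ (j + 1) * Dm) - T (2 ^ j * Dm))
        rwa [add_sub_cancel] at this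
      calc |T (2 ^ (j + 1) * Dm)| ≤ |T (2 ^ j * Dm)| + |T (2 ^ (j + 1) * Dm) - T (2 ^ j * Dm)| := h4
        _ ≤ (b + c * ((2 ^ j * Dm : ℕ) : ℝ)) + c * ((2 ^ j * Dm : ℕ) : ℝ) := add_le_add h1 h2
        _ = b + c * (2 * ((2 ^ j * Dm : ℕ) : ℝ)) := by ring
  intro y hy
  have hR0 : (0 : ℝ) ≤ R := Nat.cast_nonneg R
  rcases Nat.lt_or_ge y Dm with h1 | h1
  · have h2 := hT0 y h1.le
    have h3 : (0 : ℝ) ≤ 2 * c * R := by positivity
    linarith
  · obtain ⟨j, hj⟩ : ∃ j, j = Nat.log 2 (y / Dm) := ⟨_, rfl⟩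
    have hq : y / Dm ≠ 0 := by
      have := Nat.div_pos h1 hDm
      omega
    have h2 : 2 ^ j ≤ y / Dm := by rw [hj]; exact Nat.pow_log_le_self 2 hq
    have h3 : y / Dm < 2 ^ (j + 1) := by rw [hj]; exact Nat.lt_pow_succ_log_self (by norm_num) _
    have h4 : 2 ^ j * Dm ≤ y := (Nat.mul_le_mul_right _ h2).trans (Nat.div_mul_le_self _ _)
    have h5 : y ≤ 2 * (2 ^ j * Dm) := by
      have h6 : y < 2 ^ (j + 1) * Dm := (Nat.div_lt_iff_lt_mul hDm).1 h3
      have e : 2 ^ (j + 1) * Dm = 2 * (2 ^ j * Dm) := by ring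
      omega
    have h6 := hind j (h4.trans hy)
    have h7 := hone j y h4 h5 hy
    have h8 : |T y| ≤ |T (2 ^ j * Dm)| + |T y - T (2 ^ j * Dm)| := by
      have := abs_add_le (T (2 ^ j * Dm)) (T y - T (2 ^ j * Dm))
      rwa [add_sub_cancel] at this
    have h9 : ((2 ^ j * Dm : ℕ) : ℝ) ≤ R := by exact_mod_cast h4.trans hy
    have h10 : c * ((2 ^ j * Dm : ℕ) : ℝ) ≤ c * R := mul_le_mul_of_nonneg_left h9 hc
    linarith

/-- the parameters, for `D ≥ 3` -/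
lemma ev_parR (ε : ℝ) (hε : 0 < ε) (x₀ : ℕ) : ∀ᶠ K : ℕ in atTop, ∀ D H : ℕ, 3 ≤ D →
    (D : ℝ) * ((D : ℝ) * K) ^ (1 / 6 + ε) ≤ H → H ≤ K →
    x₀ ≤ 5 * D * K ∧ 1 ≤ K ∧ 4 * D ≤ K ∧ Real.log K ≤ Real.log ((5 * D * K : ℕ) : ℝ) ∧
      Real.log ((5 * D * K : ℕ) : ℝ) ≤ 3 * Real.log K := by
  have e1 : ∀ᶠ K : ℕ in atTop, (4 : ℝ) ≤ (K : ℝ) ^ (1 / 6 : ℝ) :=
    ((tendsto_rpow_atTop (by norm_num : (0 : ℝ) < 1 / 6)).comp tendsto_natCast_atTop_atTop).eventually
      (eventually_ge_atTop _)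
  filter_upwards [e1, eventually_ge_atTop (max x₀ 5)] with K e1 hK D H hD hDH hHK
  have hK5 : 5 ≤ K := (le_max_right _ _).trans hK
  have hKx : x₀ ≤ K := (le_max_left _ _).trans hK
  have hK0 : (5 : ℝ) ≤ K := by exact_mod_cast hK5
  have hD3r : (3 : ℝ) ≤ D := by exact_mod_cast hD
  have hpow : (4 : ℝ) ≤ ((D : ℝ) * K) ^ (1 / 6 + ε) := by
    have h1 : (K : ℝ) ^ (1 / 6 : ℝ) ≤ ((D : ℝ) * K) ^ (1 / 6 : ℝ) :=
      Real.rpow_le_rpow (by linarith) (by nlinarith) (by norm_num)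
    have h2 : ((D : ℝ) * K) ^ (1 / 6 : ℝ) ≤ ((D : ℝ) * K) ^ (1 / 6 + ε) :=
      Real.rpow_le_rpow_of_exponent_le (by nlinarith) (by linarith)
    linarith
  have h4D : (4 : ℝ) * D ≤ K := by
    have h1 : (H : ℝ) ≤ K := by exact_mod_cast hHK
    nlinarith
  have h4Dn : 4 * D ≤ K := by exact_mod_cast h4D
  have hxc : ((5 * D * K : ℕ) : ℝ) = 5 * D * K := by push_cast; ring
  have hlow : (K : ℝ) ≤ ((5 * D * K : ℕ) : ℝ) := by
    rw [hxc]
    nlinarith
  have hupp : ((5 * D * K : ℕ) : ℝ) ≤ (K : ℝ) ^ 3 := by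
    rw [hxc]
    have h1 : (D : ℝ) ≤ K := by linarith
    have h2 : (5 : ℝ) * D * K ≤ K * K * K := by
      have h3 : (5 : ℝ) * D ≤ K * K := mul_le_mul hK0 h1 (by linarith) (by linarith)
      exact mul_le_mul_of_nonneg_right h3 (by linarith)
    nlinarith
  have hl1 : Real.log K ≤ Real.log ((5 * D * K : ℕ) : ℝ) := Real.log_le_log (by linarith) hlow
  have hl2 : Real.log ((5 * D * K : ℕ) : ℝ) ≤ 3 * Real.log K := by
    have h1 := Real.log_le_log (by linarith) hupp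
    rw [Real.log_pow] at h1
    exact_mod_cast h1
  refine ⟨?_, by omega, h4Dn, hl1, hl2⟩
  have h1 : K ≤ 5 * D * K := Nat.le_mul_of_pos_left K (by omega)
  exact hKx.trans h1

lemma Geo.sq_add_K {K D H : ℕ} {h₀ : ℤ} {x k n : ℕ} {h : ℤ} (g : Geo K D H h₀ x k n h) {m : ℕ} (hm : m + D ≤ k) :
    m ^ 2 + K ≤ n := by
  obtain ⟨hx, hD, hDK, hH, hh, hk, hh', hn⟩ := g
  rw [Finset.mem_Ioc] at hk hh'
  have h1 := abs_le.1 hh
  have h2 : (m : ℤ) + D ≤ k := by exact_mod_cast hm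
  have h3 : (3 : ℤ) ≤ D := by exact_mod_cast hD
  have h4 : (4 : ℤ) * D ≤ K := by exact_mod_cast hDK
  have h5 : (K : ℤ) < k := by exact_mod_cast hk.1
  have h6 : (0 : ℤ) ≤ m := Nat.cast_nonneg m
  have h7 : ((m : ℤ)) ^ 2 + K ≤ n := by
    rw [hn]
    have h8 : (m : ℤ) ^ 2 ≤ (k - D) ^ 2 := by
      apply pow_le_pow_left₀ h6
      linarith
    have h9 : (D : ℤ) * (2 * k - D) ≥ 3 * (2 * K - D) := by
      have h10 : 2 * (K : ℤ) - D ≤ 2 * k - D := by linarith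
      have h11 : 0 ≤ 2 * (K : ℤ) - D := by linarith
      exact mul_le_mul h3 h10 h11 (by linarith)
    nlinarith [hh'.1]
  exact_mod_cast h7

theorem mainR (ε η : ℝ) (hε : 0 < ε) (hη : 0 < η) (hη1 : η ≤ 1) (A B0 : ℕ) : ∃ B N : ℕ, B0 ≤ B ∧ ∃ K₀ : ℕ,
    ∀ K H : ℕ, ∀ h₀ : ℤ, K₀ ≤ K →
    H ≤ K → |h₀| ≤ 2 * K → ∃ E : Finset (ℕ × ℤ), (E.card : ℝ) ≤ K * H / Real.log K ^ A ∧
      ∀ k ∈ Ioc K (2 * K), ∀ h ∈ Ioc h₀ (h₀ + H), (k, h) ∉ E → ∀ n : ℕ, (n : ℤ) = (k : ℤ) ^ 2 + h →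
        ∀ M₁ M₂ z : ℕ, M₁ ≤ M₂ → M₂ ≤ k → Real.log K ^ N ≤ ((k - M₁ : ℕ) : ℝ) →
          ((k - M₁ : ℕ) : ℝ) * (((k - M₁ : ℕ) : ℝ) * K) ^ (1 / 6 + ε) ≤ H → zA B K ≤ z →
          (z : ℝ) ≤ (K : ℝ) ^ (1 / 20 : ℝ) →
          |∑ m ∈ Ico M₁ M₂, G0 (n - m ^ 2) -
            SQ z n * ∑ m ∈ Ico M₁ M₂, 1 / Real.log ((n - m ^ 2 : ℕ) : ℝ)| ≤
              η * SQ z n * ((k - M₁ : ℕ) : ℝ) / Real.log K := by
  classical
  obtain ⟨η₁, hη₁⟩ : ∃ η₁ : ℝ, η₁ = η / 24 := ⟨_, rfl⟩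
  have hη₁0 : 0 < η₁ := by rw [hη₁]; positivity
  have hη₁1 : η₁ ≤ 1 := by rw [hη₁]; linarith
  obtain ⟨B, N0, hB, hexc0⟩ := excL ε hε (A + 7) (max B0 (4 * (A + 5) + 13))
  obtain ⟨Ks, htwo0⟩ := two_G1 hη₁0 hη₁1
  obtain ⟨N1, hN1⟩ : ∃ N1 : ℕ, N1 = max N0 (2 * Ks * (B + 1) + 4) := ⟨_, rfl⟩
  refine ⟨B, 2 * N1 + 6, (le_max_left _ _).trans hB, ?_⟩
  obtain ⟨x₀, hx₀⟩ := eventually_atTop.mp (hexc0.and (htwo0 B))
  obtain ⟨K₀, hK₀⟩ := eventually_atTop.mp ((trunc_pair (A + 5) B ((le_max_right _ _).trans hB)).and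
    ((ev_L (5 * 3 ^ N1 + 1000 / η + 48)).and ((ev_z B).and ((DZ_inv_le B).and
      ((ev_parR ε hε x₀).and (eventually_ge_atTop 2))))))
  refine ⟨K₀, fun K H h₀ hK hHK hh => ?_⟩
  obtain ⟨htr, hL, hz, hDZ, hpar, hK2⟩ := hK₀ K hK
  have hKr : (2 : ℝ) ≤ K := by exact_mod_cast hK2
  set l := Real.log K with hl
  have h3N : (1 : ℝ) ≤ 3 ^ N1 := one_le_pow₀ (by norm_num)
  have hη2 : 0 < 1000 / η := by positivity
  have hl48 : 48 ≤ l := by linarith
  have hl0 : 0 < l := by linarith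
  have hl1' : 1 ≤ l := by linarith
  have hlη : 1000 ≤ η * l := by
    have h1 : 1000 / η ≤ l := by linarith
    rw [div_le_iff₀ hη] at h1
    linarith
  have hKH0 : (0 : ℝ) ≤ K * H / l ^ A := by positivity
  by_cases hH : (K : ℝ) ^ (1 / 6 : ℝ) ≤ H
  swap
  · refine ⟨∅, by simpa using hKH0, fun k hk h hh' _ n hn M₁ M₂ z hM1 hM2 hR hRH _ _ => ?_⟩
    exfalso
    apply hH
    have hR1 : (1 : ℝ) ≤ ((k - M₁ : ℕ) : ℝ) := by
      refine le_trans ?_ hR
      exact one_le_pow₀ hl1'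
    have h1 : (K : ℝ) ^ (1 / 6 : ℝ) ≤ (((k - M₁ : ℕ) : ℝ) * K) ^ (1 / 6 : ℝ) :=
      Real.rpow_le_rpow (by linarith) (by nlinarith) (by norm_num)
    have h2 : (((k - M₁ : ℕ) : ℝ) * K) ^ (1 / 6 : ℝ) ≤ (((k - M₁ : ℕ) : ℝ) * K) ^ (1 / 6 + ε) :=
      Real.rpow_le_rpow_of_exponent_le (by nlinarith) (by linarith)
    have h3 : (0 : ℝ) ≤ (((k - M₁ : ℕ) : ℝ) * K) ^ (1 / 6 + ε) := by positivity
    nlinarith
  obtain ⟨ET, hET1, hET2⟩ := htr H h₀ hH hHK hh
  obtain ⟨Dm, hDm⟩ : ∃ Dm : ℕ, Dm = ⌈4 * (3 * l) ^ N1⌉₊ := ⟨_, rfl⟩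
  have hDm1 : 4 * (3 * l) ^ N1 ≤ Dm := by rw [hDm]; exact Nat.le_ceil _
  have hpow1 : (1 : ℝ) ≤ (3 * l) ^ N1 := one_le_pow₀ (by linarith)
  have hDm2 : (Dm : ℝ) ≤ l ^ (2 * N1 + 1) := by
    have h1 : (Dm : ℝ) ≤ 4 * (3 * l) ^ N1 + 1 := by
      rw [hDm]
      exact (Nat.ceil_lt_add_one (by positivity)).le
    have h2 : (3 * l) ^ N1 = 3 ^ N1 * l ^ N1 := mul_pow _ _ _
    have h3 : 1 ≤ l ^ N1 := one_le_pow₀ hl1'
    calc (Dm : ℝ) ≤ 5 * (3 * l) ^ N1 := by linarith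
      _ = (5 * 3 ^ N1) * l ^ N1 := by rw [h2]; ring
      _ ≤ l * l ^ N1 := mul_le_mul_of_nonneg_right (by linarith) (by positivity)
      _ = l ^ (N1 + 1) := by rw [pow_succ]; ring
      _ ≤ l ^ (2 * N1 + 1) := pow_le_pow_right₀ hl1' (by omega)
  have hDm3 : 3 ≤ Dm := by
    have : (3 : ℝ) ≤ Dm := by linarith
    exact_mod_cast this
  have hDm0 : 0 < Dm := by omega
  -- the sets for the blocks
  have hch : ∀ D : ℕ, ∃ E : Finset (ℕ × ℤ), (E.card : ℝ) ≤ K * H / l ^ (A + 2) ∧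
      (Dm ≤ D → (D : ℝ) * ((D : ℝ) * K) ^ (1 / 6 + ε) ≤ H →
        ∀ k ∈ Ioc K (2 * K), ∀ h ∈ Ioc h₀ (h₀ + H), (k, h) ∉ E → ∀ n : ℕ, (n : ℤ) = (k : ℤ) ^ 2 + h →
        ∀ M₁ M₂ : ℕ, k ≤ M₁ + 2 * D → M₁ ≤ M₂ → M₂ + D ≤ k →
          |∑ m ∈ Ico M₁ M₂, (G0 (n - m ^ 2) - G1 (zA B (5 * D * K)) (n - m ^ 2))| ≤
            16 * D / l ^ (A + 7)) := by
    intro D
    by_cases hc : Dm ≤ D ∧ (D : ℝ) * ((D : ℝ) * K) ^ (1 / 6 + ε) ≤ H
    · obtain ⟨hx, hK1, h4D, hl1, hl2⟩ := hpar D H (hDm3.trans hc.1) hc.2 hHK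
      obtain ⟨hexc, -⟩ := hx₀ _ hx
      have hL0 : 0 < Real.log ((5 * D * K : ℕ) : ℝ) := by linarith
      have hDN : 4 * Real.log ((5 * D * K : ℕ) : ℝ) ^ N0 ≤ D := by
        have h1 : (Dm : ℝ) ≤ D := by exact_mod_cast hc.1
        refine le_trans ?_ (hDm1.trans h1)
        refine mul_le_mul_of_nonneg_left ?_ (by norm_num)
        calc Real.log ((5 * D * K : ℕ) : ℝ) ^ N0 ≤ Real.log ((5 * D * K : ℕ) : ℝ) ^ N1 :=
              pow_le_pow_right₀ (by linarith) (by rw [hN1]; exact le_max_left _ _)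
          _ ≤ (3 * l) ^ N1 := pow_le_pow_left₀ hL0.le hl2 _
      obtain ⟨E, hE1, hE2⟩ := hexc K D H h₀ rfl hK1 h4D hc.2 hHK hh hDN (fun _ => 1) (fun _ => by simp)
      refine ⟨E, ?_, fun _ _ k hk h hh' hkh n hn M₁ M₂ h1 h2 h3 => ?_⟩
      · refine hE1.trans ?_
        refine div_le_div_of_nonneg_left (by positivity) (by positivity) ?_
        calc l ^ (A + 2) ≤ l ^ (A + 7) := pow_le_pow_right₀ hl1' (by omega)
          _ ≤ _ := pow_le_pow_left₀ hl0.le hl1 _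
      · have g : Geo K D H h₀ (5 * D * K) k n h := ⟨rfl, hDm3.trans hc.1, h4D, hHK, hh, hk, hh', hn⟩
        have h4 := g.weights (zA B (5 * D * K)) (fun _ => 1)
          (2 * (D : ℝ) / Real.log ((5 * D * K : ℕ) : ℝ) ^ (A + 7))
          (fun y hy1 hy2 => hE2 k hk h hh' hkh y hy1 hy2) M₁ M₂ h1 h2 h3
        simp only [one_mul] at h4
        refine h4.trans ?_
        have h5 : 8 * (2 * (D : ℝ) / Real.log ((5 * D * K : ℕ) : ℝ) ^ (A + 7)) =
            16 * D / Real.log ((5 * D * K : ℕ) : ℝ) ^ (A + 7) := by ring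
        rw [h5]
        exact div_le_div_of_nonneg_left (by positivity) (by positivity) (pow_le_pow_left₀ hl0.le hl1 _)
    · refine ⟨∅, by
        have : (0 : ℝ) ≤ K * H / l ^ (A + 2) := by positivity
        simpa using this, fun h1 h2 => absurd ⟨h1, h2⟩ hc⟩
  choose EE hEE1 hEE2 using hch
  obtain ⟨J, hJ⟩ : ∃ J : ℕ, J = Nat.log 2 K + 2 := ⟨_, rfl⟩
  refine ⟨ET ∪ (range J).biUnion (fun j => EE (2 ^ j * Dm)), ?_, ?_⟩
  · have h1 : ((ET ∪ (range J).biUnion (fun j => EE (2 ^ j * Dm))).card : ℝ) ≤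
        ET.card + ∑ j ∈ range J, ((EE (2 ^ j * Dm)).card : ℝ) := by
      have h2 := Finset.card_union_le ET ((range J).biUnion (fun j => EE (2 ^ j * Dm)))
      have h3 : ((range J).biUnion (fun j => EE (2 ^ j * Dm))).card ≤ ∑ j ∈ range J, (EE (2 ^ j * Dm)).card :=
        Finset.card_biUnion_le
      have h4 := h2.trans (Nat.add_le_add_left h3 _)
      exact_mod_cast h4
    refine h1.trans ?_
    have h2 : ∑ j ∈ range J, ((EE (2 ^ j * Dm)).card : ℝ) ≤ J * (K * H / l ^ (A + 2)) := by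
      calc ∑ j ∈ range J, ((EE (2 ^ j * Dm)).card : ℝ) ≤ ∑ _j ∈ range J, (K * H / l ^ (A + 2) : ℝ) :=
            Finset.sum_le_sum fun j _ => hEE1 _
        _ = J * (K * H / l ^ (A + 2)) := by rw [Finset.sum_const, Finset.card_range, nsmul_eq_mul]
    have h3 : (J : ℝ) ≤ 2 * l + 2 := by
      rw [hJ]
      push_cast
      have := log_two_le' (by omega : 1 ≤ K)
      linarith
    have h4 : (K : ℝ) * H / l ^ (A + 2) = K * H / l ^ A * (1 / l ^ 2) := by
      rw [pow_add]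
      field_simp
    have h5 : (0 : ℝ) ≤ K * H / l ^ (A + 2) := by positivity
    have h6 : (ET.card : ℝ) ≤ K * H / l ^ (A + 2) := by
      refine hET1.trans ?_
      exact div_le_div_of_nonneg_left (by positivity) (by positivity) (pow_le_pow_right₀ hl1' (by omega))
    calc (ET.card : ℝ) + ∑ j ∈ range J, ((EE (2 ^ j * Dm)).card : ℝ) ≤
        K * H / l ^ (A + 2) + (2 * l + 2) * (K * H / l ^ (A + 2)) :=
          add_le_add h6 (h2.trans (mul_le_mul_of_nonneg_right h3 h5))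
      _ = K * H / l ^ A * ((2 * l + 3) / l ^ 2) := by
          rw [h4]
          ring
      _ ≤ K * H / l ^ A := by
          refine mul_le_of_le_one_right hKH0 ?_
          rw [div_le_one (by positivity)]
          nlinarith
  · intro k hk h hh' hkh n hn M₁ M₂ z hM1 hM2 hR hRH hz1 hz2
    rw [Finset.mem_union, not_or, Finset.mem_biUnion, not_exists] at hkh
    obtain ⟨hkT, hkE⟩ := hkh
    have hk' := Finset.mem_Ioc.1 hk
    have hT := hET2 k hk h hh' hkT n hn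
    obtain ⟨R, hRdef⟩ : ∃ R : ℕ, R = k - M₁ := ⟨_, rfl⟩
    rw [← hRdef] at hR hRH ⊢
    have hRk : R ≤ k := by omega
    have hSz : |SQ z n - SQ (zA B K) n| ≤ 1 / l ^ (A + 5) := hT z hz1 hz2
    have hSQ0 : 0 ≤ SQ z n := SQ_nonneg z n
    have hA5 : (1 : ℝ) / l ^ (A + 5) ≤ 1 / l ^ 5 :=
      one_div_le_one_div_of_le (by positivity) (pow_le_pow_right₀ hl1' (by omega))
    have hl5 : (1 : ℝ) / l ^ 5 ≤ 1 / (4 * l ^ 2) := by
      refine one_div_le_one_div_of_le (by positivity) ?_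
      have h1 : l ^ 5 = l ^ 3 * l ^ 2 := by ring
      rw [h1]
      refine mul_le_mul_of_nonneg_right ?_ (by positivity)
      have h2 : (48 : ℝ) ^ 3 ≤ l ^ 3 := pow_le_pow_left₀ (by norm_num) hl48 3
      norm_num at h2
      linarith
    have hSlow : 1 / (2 * l ^ 2) ≤ SQ z n := by
      have h1 : 1 / l ^ 2 ≤ SQ (zA B K) n := by
        refine le_trans ?_ (SQ_ge _ n)
        have h7 : 1 / l ≤ DZ (zA B K) := by
          rw [div_le_iff₀ hl0]
          have h8 := DZ_pos (zA B K)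
          calc (1 : ℝ) = DZ (zA B K) * (DZ (zA B K))⁻¹ := (mul_inv_cancel₀ h8.ne').symm
            _ ≤ DZ (zA B K) * l := mul_le_mul_of_nonneg_left hDZ h8.le
        calc 1 / l ^ 2 = (1 / l) ^ 2 := by rw [div_pow, one_pow]
          _ ≤ DZ (zA B K) ^ 2 := pow_le_pow_left₀ (by positivity) h7 2
      have h2 := (abs_le.1 hSz).1
      have h3 : 1 / (2 * l ^ 2) + 1 / (4 * l ^ 2) ≤ 1 / l ^ 2 := by
        have h4 : 1 / (2 * l ^ 2) + 1 / (4 * l ^ 2) = 3 / 4 * (1 / l ^ 2) := by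
          field_simp
          norm_num
        rw [h4]
        have h5 : 0 ≤ 1 / l ^ 2 := by positivity
        linarith
      linarith
    have hSQ : SQ z n ≤ l + 1 := by
      have h1 := (SQ_le (zA B K) n).trans hDZ
      have h2 : 1 / l ^ (A + 5) ≤ 1 := by
        rw [div_le_one (by positivity)]
        exact one_le_pow₀ (by linarith)
      have h3 := (abs_le.1 hSz).2
      linarith
    set S := SQ z n with hS
    set u : ℕ → ℝ := fun m => G0 (n - m ^ 2) - S * (1 / Real.log ((n - m ^ 2 : ℕ) : ℝ)) with hu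
    set T : ℕ → ℝ := fun y => ∑ m ∈ Ico (k - y) k, u m with hTd
    have hu1 : ∀ m, |u m| ≤ 2 * l + 3 := by
      intro m
      rw [hu]
      simp only
      have h1 := G0_nonneg (n - m ^ 2)
      have h2 := G0_le (n - m ^ 2)
      have h3 := inv_log_nonneg (n - m ^ 2)
      have h4 := inv_log_le (n - m ^ 2)
      have h5 : S * (1 / Real.log ((n - m ^ 2 : ℕ) : ℝ)) ≤ (l + 1) * 2 :=
        mul_le_mul hSQ h4 h3 (by linarith)
      have h6 : 0 ≤ S * (1 / Real.log ((n - m ^ 2 : ℕ) : ℝ)) := mul_nonneg hSQ0 h3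
      rw [abs_le]
      constructor <;> linarith
    have hT0 : ∀ y ≤ Dm, |T y| ≤ Dm * (2 * l + 3) := by
      intro y hy
      calc |T y| ≤ ∑ m ∈ Ico (k - y) k, |u m| := Finset.abs_sum_le_sum_abs _ _
        _ ≤ ∑ _m ∈ Ico (k - y) k, (2 * l + 3) := Finset.sum_le_sum fun m _ => hu1 m
        _ = ((k - (k - y) : ℕ) : ℝ) * (2 * l + 3) := by rw [Finset.sum_const, Nat.card_Ico, nsmul_eq_mul]
        _ ≤ Dm * (2 * l + 3) := by
            refine mul_le_mul_of_nonneg_right ?_ (by linarith)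
            have : k - (k - y) ≤ Dm := by omega
            exact_mod_cast this
    -- one block
    have hone : ∀ j y : ℕ, 2 ^ j * Dm ≤ y → y ≤ 2 * (2 ^ j * Dm) → y ≤ R →
        |T y - T (2 ^ j * Dm)| ≤ (3 * η₁ * S / l) * ((2 ^ j * Dm : ℕ) : ℝ) := by
      intro j y hy1 hy2 hyR
      obtain ⟨D, hD⟩ : ∃ D, D = 2 ^ j * Dm := ⟨_, rfl⟩
      rw [← hD] at hy1 hy2 ⊢
      have hDmD : Dm ≤ D := by
        rw [hD]
        exact Nat.le_mul_of_pos_left Dm (by positivity)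
      have hDR : D ≤ R := hy1.trans hyR
      have hDr : (D : ℝ) ≤ R := by exact_mod_cast hDR
      have hDmr : (Dm : ℝ) ≤ D := by exact_mod_cast hDmD
      have hD0 : (0 : ℝ) ≤ D := Nat.cast_nonneg D
      have hDH : (D : ℝ) * ((D : ℝ) * K) ^ (1 / 6 + ε) ≤ H := by
        refine le_trans ?_ hRH
        have h1 : ((D : ℝ) * K) ^ (1 / 6 + ε) ≤ ((R : ℝ) * K) ^ (1 / 6 + ε) :=
          Real.rpow_le_rpow (by positivity) (mul_le_mul_of_nonneg_right hDr (by linarith)) (by linarith)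
        exact mul_le_mul hDr h1 (by positivity) (Nat.cast_nonneg R)
      obtain ⟨hx, hK1, h4D, hl1, hl2⟩ := hpar D H (hDm3.trans hDmD) hDH hHK
      obtain ⟨-, htwo⟩ := hx₀ _ hx
      have hL0 : 0 < Real.log ((5 * D * K : ℕ) : ℝ) := by linarith
      have hjJ : j ∈ range J := by
        rw [Finset.mem_range, hJ]
        have h1 : 2 ^ j ≤ K := by
          have h2 : 2 ^ j ≤ D := by
            rw [hD]
            exact Nat.le_mul_of_pos_right _ hDm0
          omega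
        have h3 : j ≤ Nat.log 2 K := Nat.le_log_of_pow_le (by norm_num) h1
        omega
      have hkE' : (k, h) ∉ EE D := by
        intro hcon
        exact hkE j ⟨hjJ, by rw [← hD]; exact hcon⟩
      have g : Geo K D H h₀ (5 * D * K) k n h := ⟨rfl, hDm3.trans hDmD, h4D, hHK, hh, hk, hh', hn⟩
      have hb1 := hEE2 D hDmD hDH k hk h hh' hkE' n hn (k - y) (k - D) (by omega) (by omega) (by omega)
      have hI : Ico (k - y) (k - D) = Ioc (k - y - 1) ((k - y - 1) + (y - D)) := by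
        ext m
        rw [Finset.mem_Ico, Finset.mem_Ioc]
        omega
      have hb2 := htwo n (k - y - 1) (y - D) D K (by
          refine le_trans ?_ hDmr
          refine le_trans ?_ hDm1
          have h1 : Real.log ((5 * D * K : ℕ) : ℝ) ^ (2 * Ks * (B + 1) + 4) ≤ (3 * l) ^ N1 := by
            calc Real.log ((5 * D * K : ℕ) : ℝ) ^ (2 * Ks * (B + 1) + 4) ≤
                Real.log ((5 * D * K : ℕ) : ℝ) ^ N1 :=
                  pow_le_pow_right₀ (by linarith) (by rw [hN1]; exact le_max_right _ _)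
              _ ≤ (3 * l) ^ N1 := pow_le_pow_left₀ hL0.le hl2 _
          linarith) (by omega) hK2 (g.sq_add_K (by omega))
      rw [← hI] at hb2
      have hzD1 : zA B K ≤ zA B (5 * D * K) := zA_mono B hl1 hl0.le
      have hzD2 : ((zA B (5 * D * K) : ℕ) : ℝ) ≤ (K : ℝ) ^ (1 / 20 : ℝ) := by
        refine le_trans ?_ hz
        unfold zA
        refine (Nat.floor_le (by positivity)).trans ?_
        exact pow_le_pow_left₀ (by linarith) hl2 B
      have hSD := hT _ hzD1 hzD2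
      have hSdiff : |SQ (zA B (5 * D * K)) n - S| ≤ 2 / l ^ (A + 5) := by
        have h1 : (2 : ℝ) / l ^ (A + 5) = 1 / l ^ (A + 5) + 1 / l ^ (A + 5) := by ring
        rw [h1]
        rw [abs_le] at hSD hSz ⊢
        constructor <;> linarith [hSD.1, hSD.2, hSz.1, hSz.2]
      have hS2 : SQ (zA B (5 * D * K)) n ≤ 2 * S := by
        have h1 := (abs_le.1 hSdiff).2
        have h2 : (2 : ℝ) / l ^ (A + 5) = 2 * (1 / l ^ (A + 5)) := by ring
        have h3 : 2 * (1 / (4 * l ^ 2)) = 1 / (2 * l ^ 2) := by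
          field_simp
          norm_num
        linarith
      obtain ⟨W, hW⟩ : ∃ W, W = ∑ m ∈ Ico (k - y) (k - D), 1 / Real.log ((n - m ^ 2 : ℕ) : ℝ) := ⟨_, rfl⟩
      have hW0 : 0 ≤ W := by
        rw [hW]
        exact Finset.sum_nonneg fun m _ => inv_log_nonneg _
      have hW2 : W ≤ 2 * D := by
        rw [hW]
        calc ∑ m ∈ Ico (k - y) (k - D), 1 / Real.log ((n - m ^ 2 : ℕ) : ℝ) ≤ ∑ _m ∈ Ico (k - y) (k - D), (2 : ℝ) :=
              Finset.sum_le_sum fun m _ => inv_log_le _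
          _ = (((k - D) - (k - y) : ℕ) : ℝ) * 2 := by rw [Finset.sum_const, Nat.card_Ico, nsmul_eq_mul]
          _ ≤ (D : ℝ) * 2 := by
              refine mul_le_mul_of_nonneg_right ?_ (by norm_num)
              have : (k - D) - (k - y) ≤ D := by omega
              exact_mod_cast this
          _ = 2 * D := by ring
      have hTdiff : T y - T D = ∑ m ∈ Ico (k - y) (k - D), u m := by
        have h1 : T y = ∑ m ∈ Ico (k - y) (k - D), u m + T D := by
          rw [hTd]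
          simp only
          exact (Finset.sum_Ico_consecutive _ (by omega) (by omega)).symm
        linarith
      have hsplit : ∑ m ∈ Ico (k - y) (k - D), u m =
          ∑ m ∈ Ico (k - y) (k - D), (G0 (n - m ^ 2) - G1 (zA B (5 * D * K)) (n - m ^ 2)) +
            (∑ m ∈ Ico (k - y) (k - D), G1 (zA B (5 * D * K)) (n - m ^ 2) - SQ (zA B (5 * D * K)) n * W) +
            (SQ (zA B (5 * D * K)) n - S) * W := by
        rw [hu]
        simp only
        rw [Finset.sum_sub_distrib, Finset.sum_sub_distrib, ← Finset.mul_sum, ← hW]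
        ring
      rw [hTdiff, hsplit]
      rw [← hW] at hb2
      have h3 : |(SQ (zA B (5 * D * K)) n - S) * W| ≤ 2 / l ^ (A + 5) * (2 * D) := by
        rw [abs_mul, abs_of_nonneg hW0]
        exact mul_le_mul hSdiff hW2 hW0 (by positivity)
      have h4 : η₁ * SQ (zA B (5 * D * K)) n * D / l ≤ (2 * η₁ * S / l) * D := by
        have h5 : (2 * η₁ * S / l) * D = η₁ * (2 * S) * D / l := by ring
        rw [h5]
        gcongr
      have h6 : 16 * (D : ℝ) / l ^ (A + 7) + 2 / l ^ (A + 5) * (2 * D) ≤ (η₁ * S / l) * D := by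
        have h7 : (16 : ℝ) / l ^ (A + 7) ≤ 16 / l ^ 5 :=
          div_le_div_of_nonneg_left (by norm_num) (by positivity) (pow_le_pow_right₀ hl1' (by omega))
        have h8 : (4 : ℝ) / l ^ (A + 5) ≤ 4 / l ^ 5 :=
          div_le_div_of_nonneg_left (by norm_num) (by positivity) (pow_le_pow_right₀ hl1' (by omega))
        have h9 : (20 : ℝ) / l ^ 5 ≤ η₁ * S / l := by
          have h10 : η₁ * (1 / (2 * l ^ 2)) / l ≤ η₁ * S / l := by gcongr
          refine le_trans ?_ h10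
          have h11 : η₁ * (1 / (2 * l ^ 2)) / l = (η * l ^ 2 / 48) / l ^ 5 := by
            rw [hη₁]
            field_simp
            norm_num
          rw [h11]
          refine div_le_div_of_nonneg_right ?_ (by positivity)
          have h12 : η * l ^ 2 = (η * l) * l := by ring
          rw [h12]
          nlinarith
        have h13 : 16 * (D : ℝ) / l ^ (A + 7) + 2 / l ^ (A + 5) * (2 * D) =
            (16 / l ^ (A + 7) + 4 / l ^ (A + 5)) * D := by ring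
        rw [h13]
        refine mul_le_mul_of_nonneg_right ?_ hD0
        have h14 : (20 : ℝ) / l ^ 5 = 16 / l ^ 5 + 4 / l ^ 5 := by ring
        linarith
      calc _ ≤ |∑ m ∈ Ico (k - y) (k - D), (G0 (n - m ^ 2) - G1 (zA B (5 * D * K)) (n - m ^ 2))| +
            |∑ m ∈ Ico (k - y) (k - D), G1 (zA B (5 * D * K)) (n - m ^ 2) - SQ (zA B (5 * D * K)) n * W| +
            |(SQ (zA B (5 * D * K)) n - S) * W| := abs_add_three _ _ _
        _ ≤ 16 * D / l ^ (A + 7) + (2 * η₁ * S / l) * D + 2 / l ^ (A + 5) * (2 * D) :=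
            add_le_add (add_le_add hb1 (hb2.trans h4)) h3
        _ ≤ (3 * η₁ * S / l) * D := by
            have h15 : (3 * η₁ * S / l) * (D : ℝ) = (2 * η₁ * S / l) * D + (η₁ * S / l) * D := by ring
            rw [h15]
            linarith
    have hc0 : 0 ≤ 3 * η₁ * S / l := by positivity
    have hall := dyad T Dm R (Dm * (2 * l + 3)) (3 * η₁ * S / l) hDm0 hc0 hT0 hone
    -- the conclusion
    have hsum : ∑ m ∈ Ico M₁ M₂, G0 (n - m ^ 2) - S * ∑ m ∈ Ico M₁ M₂, 1 / Real.log ((n - m ^ 2 : ℕ) : ℝ) =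
        T R - T (k - M₂) := by
      have h1 : T R = ∑ m ∈ Ico M₁ M₂, u m + T (k - M₂) := by
        rw [hTd]
        simp only
        have e1 : k - R = M₁ := by omega
        have e2 : k - (k - M₂) = M₂ := by omega
        rw [e1, e2]
        exact (Finset.sum_Ico_consecutive _ hM1 hM2).symm
      rw [h1, hu]
      simp only
      rw [Finset.sum_sub_distrib, ← Finset.mul_sum]
      ring
    rw [hsum]
    have h1 := hall R le_rfl
    have h2 := hall (k - M₂) (by omega)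
    have h3 : |T R - T (k - M₂)| ≤ 2 * (Dm * (2 * l + 3) + 2 * (3 * η₁ * S / l) * R) := by
      rw [abs_le] at h1 h2 ⊢
      constructor <;> linarith [h1.1, h1.2, h2.1, h2.2]
    refine h3.trans ?_
    have hR0 : (0 : ℝ) ≤ R := Nat.cast_nonneg R
    have h4 : (Dm : ℝ) * (2 * l + 3) ≤ η * S * R / (4 * l) := by
      have h5 : η * (1 / (2 * l ^ 2)) * R / (4 * l) ≤ η * S * R / (4 * l) := by gcongr
      refine le_trans ?_ h5
      have h6 : η * (1 / (2 * l ^ 2)) * R / (4 * l) = η * R / (8 * l ^ 3) := by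
        field_simp
        ring
      rw [h6, le_div_iff₀ (by positivity)]
      have h7 : (2 * l + 3) ≤ 3 * l := by linarith
      calc (Dm : ℝ) * (2 * l + 3) * (8 * l ^ 3) ≤ l ^ (2 * N1 + 1) * (3 * l) * (8 * l ^ 3) := by gcongr
        _ = 24 * l ^ (2 * N1 + 5) := by
            rw [pow_add, pow_add l (2 * N1) 5]
            ring
        _ ≤ (η * l) * l ^ (2 * N1 + 5) := mul_le_mul_of_nonneg_right (by linarith) (by positivity)
        _ = η * l ^ (2 * N1 + 6) := by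
            rw [show 2 * N1 + 6 = (2 * N1 + 5) + 1 from rfl, pow_succ]
            ring
        _ ≤ η * R := mul_le_mul_of_nonneg_left hR hη.le
    have h8 : 2 * (Dm * (2 * l + 3) + 2 * (3 * η₁ * S / l) * R) =
        2 * (Dm * (2 * l + 3)) + η * S * R / (2 * l) := by
      rw [hη₁]
      field_simp
      ring
    have h9 : η * S * R / l = 2 * (η * S * R / (4 * l)) + η * S * R / (2 * l) := by
      field_simp
      ring
    rw [h8, h9]
    linarith

end Pool.Agent.SSQ
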