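import Pool.Agent.Lib.SSQ.TwoF

/-!
# Pair correlation of the difference of two models
-/

set_option autoImplicit false

open Finset

namespace Pool.Agent.SSQ

open Pool.Agent.HLB Pool.Agent.HLT Pool.Agent.HLU Pool.Agent.SQP

namespace PairGAux

lemma split (z w : ℕ) (f : ℕ → ℝ) : ∏ p ∈ Nat.primesLE z, f p =
    (∏ p ∈ (Nat.primesLE z).filter (fun p => w < p), f p) *
      ∏ p ∈ (Nat.primesLE z).filter (fun p => ¬ w < p), f p :=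
  (Finset.prod_filter_mul_prod_filter_not _ _ _).symm

lemma low_eq {z w : ℕ} (h : w ≤ z) :
    (Nat.primesLE z).filter (fun p => ¬ w < p) = Nat.primesLE w := by
  ext p
  rw [Finset.mem_filter, Nat.mem_primesLE, Nat.mem_primesLE]
  constructor
  · rintro ⟨⟨_, h2⟩, h3⟩
    exact ⟨by omega, h2⟩
  · rintro ⟨h1, h2⟩
    exact ⟨⟨by omega, h2⟩, by omega⟩

lemma fac {p : ℕ} (hp : p.Prime) : 0 < 1 - 1 / (p : ℝ) ∧ 1 - 1 / (p : ℝ) ≤ 1 ∧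
    0 ≤ 1 - 2 / (p : ℝ) ∧ 1 - 2 / (p : ℝ) ≤ (1 - 1 / (p : ℝ)) ^ 2 ∧
      1 - 2 / (p : ℝ) ≤ 1 - 1 / (p : ℝ) := by
  have h2 : (2 : ℝ) ≤ p := by exact_mod_cast hp.two_le
  have h0 : (0 : ℝ) < p := by linarith
  have h1 : 1 / (p : ℝ) ≤ 1 / 2 := one_div_le_one_div_of_le (by norm_num) h2
  have h3 : 0 < 1 / (p : ℝ) := by positivity
  have h4 : 2 / (p : ℝ) = 2 * (1 / (p : ℝ)) := by ring
  rw [h4]
  refine ⟨by linarith, by linarith, by linarith, ?_, by linarith⟩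
  nlinarith [sq_nonneg (1 / (p : ℝ))]

end PairGAux

open PairGAux

theorem pairG {ε : ℝ} (hε : 0 < ε) (hε1 : ε ≤ 1 / 2) : ∃ K₁ : ℕ, ∀ z w y A₁ A₂ N : ℕ,
    w ≤ z → 0 < N → A₁ = A₂ + N ∨ A₂ = A₁ + N →
    ∑ n ∈ Icc 1 y, (nuz z (A₁ + n) - nuz w (A₁ + n)) * (nuz z (A₂ + n) - nuz w (A₂ + n)) ≤
      y * (DZ w)⁻¹ * ((1 + 2 * ε) * (∏ p ∈ ((Nat.primesLE z).filter (fun p => w < p)).filter
        (fun p => p ∣ N), (1 - 1 / (p : ℝ))⁻¹) - 1 + 6 * ε) +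
        4 * (((DZ z)⁻¹) ^ 2 * (((z + 1) ^ K₁ : ℕ) : ℝ) ^ 2) := by
  classical
  obtain ⟨K₁, hK⟩ := two_form hε hε1
  refine ⟨K₁, fun z w y A₁ A₂ N hwz _ hN => ?_⟩
  have hdvd : ∀ p : ℕ, (p : ℤ) ∣ (A₁ : ℤ) - A₂ ↔ p ∣ N := by
    intro p
    rcases hN with h | h
    · have e : (A₁ : ℤ) - A₂ = (N : ℤ) := by rw [h]; push_cast; ring
      rw [e, Int.natCast_dvd_natCast]
    · have e : (A₁ : ℤ) - A₂ = -(N : ℤ) := by rw [h]; push_cast; ring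
      rw [e, dvd_neg, Int.natCast_dvd_natCast]
  have Szz := hK z z z y A₁ A₂ le_rfl le_rfl
  have Szw := hK z z w y A₁ A₂ le_rfl hwz
  have Swz := hK z w z y A₁ A₂ hwz le_rfl
  have Sww := hK z w w y A₁ A₂ hwz hwz
  obtain ⟨R, hR⟩ : ∃ R : ℝ, R = (((z + 1) ^ K₁ : ℕ) : ℝ) ^ 2 := ⟨_, rfl⟩
  have hR0 : 0 ≤ R := by rw [hR]; positivity
  rw [← hR] at Szz Szw Swz Sww ⊢
  -- products over the small primes
  obtain ⟨P1, hP1⟩ : ∃ P1, P1 = (Nat.primesLE z).filter (fun p => ¬ w < p) := ⟨_, rfl⟩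
  obtain ⟨P2, hP2⟩ : ∃ P2, P2 = (Nat.primesLE z).filter (fun p => w < p) := ⟨_, rfl⟩
  have hm1 : ∀ p ∈ P1, p.Prime ∧ p ≤ w ∧ p ≤ z := by
    intro p hp
    rw [hP1, Finset.mem_filter, Nat.mem_primesLE] at hp
    exact ⟨hp.1.2, by omega, hp.1.1⟩
  have hm2 : ∀ p ∈ P2, p.Prime ∧ w < p ∧ p ≤ z := by
    intro p hp
    rw [hP2, Finset.mem_filter, Nat.mem_primesLE] at hp
    exact ⟨hp.1.2, hp.2, hp.1.1⟩
  have hsp : ∀ f : ℕ → ℝ, ∏ p ∈ Nat.primesLE z, f p = (∏ p ∈ P2, f p) * ∏ p ∈ P1, f p := by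
    intro f
    rw [hP1, hP2]
    exact split z w f
  obtain ⟨A, hA⟩ : ∃ A : ℝ, A = ∏ p ∈ P1, (1 - ((nuF w w A₁ A₂ p).card : ℝ) / p) := ⟨_, rfl⟩
  obtain ⟨B1, hB1⟩ : ∃ B1 : ℝ, B1 = ∏ p ∈ P2, (1 - 1 / (p : ℝ)) := ⟨_, rfl⟩
  obtain ⟨B2, hB2⟩ : ∃ B2 : ℝ, B2 = ∏ p ∈ P2, (1 - ((nuF z z A₁ A₂ p).card : ℝ) / p) := ⟨_, rfl⟩
  have hDw : DZ w = ∏ p ∈ P1, (1 - 1 / (p : ℝ)) := by
    rw [hP1, low_eq hwz]
    rfl
  have hDz : DZ z = B1 * DZ w := by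
    rw [hB1, hDw]
    exact hsp _
  have e1 : ∀ a b : ℕ, w ≤ a → w ≤ b →
      ∏ p ∈ P1, (1 - ((nuF a b A₁ A₂ p).card : ℝ) / p) = A := by
    intro a b ha hb
    rw [hA]
    apply Finset.prod_congr rfl
    intro p hp
    obtain ⟨h1, h2, _⟩ := hm1 p hp
    rw [card_nuF_two h1 (h2.trans ha) (h2.trans hb), card_nuF_two h1 h2 h2]
  have e2 : ∏ p ∈ P2, (1 - ((nuF z w A₁ A₂ p).card : ℝ) / p) = B1 := by
    rw [hB1]
    apply Finset.prod_congr rfl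
    intro p hp
    obtain ⟨_, h2, h3⟩ := hm2 p hp
    rw [card_nuF_left h3 h2, Nat.cast_one]
  have e3 : ∏ p ∈ P2, (1 - ((nuF w z A₁ A₂ p).card : ℝ) / p) = B1 := by
    rw [hB1]
    apply Finset.prod_congr rfl
    intro p hp
    obtain ⟨_, h2, h3⟩ := hm2 p hp
    rw [card_nuF_right h2 h3, Nat.cast_one]
  have e4 : ∏ p ∈ P2, (1 - ((nuF w w A₁ A₂ p).card : ℝ) / p) = 1 := by
    apply Finset.prod_eq_one
    intro p hp
    obtain ⟨_, h2, _⟩ := hm2 p hp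
    rw [card_nuF_none h2 h2, Nat.cast_zero, zero_div, sub_zero]
  rw [hsp, ← hB2, e1 z z hwz hwz] at Szz
  rw [hsp, e2, e1 z w hwz le_rfl] at Szw
  rw [hsp, e3, e1 w z le_rfl hwz] at Swz
  rw [hsp, e4, e1 w w le_rfl le_rfl] at Sww
  -- signs
  have hw0 : 0 < DZ w := DZ_pos w
  have hz0 : 0 < DZ z := DZ_pos z
  have hB10 : 0 < B1 := by
    rw [hB1]
    exact Finset.prod_pos fun p hp => (fac (hm2 p hp).1).1
  have hB11 : B1 ≤ 1 := by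
    rw [hB1]
    exact Finset.prod_le_one (fun p hp => (fac (hm2 p hp).1).1.le) fun p hp =>
      (fac (hm2 p hp).1).2.1
  have hcard : ∀ p ∈ P1, (nuF w w A₁ A₂ p).card = 1 ∨ (nuF w w A₁ A₂ p).card = 2 := by
    intro p hp
    obtain ⟨h1, h2, _⟩ := hm1 p hp
    rw [card_nuF_two h1 h2 h2]
    split_ifs
    · exact Or.inl rfl
    · exact Or.inr rfl
  have hfA : ∀ p ∈ P1, 0 ≤ 1 - ((nuF w w A₁ A₂ p).card : ℝ) / p ∧
      1 - ((nuF w w A₁ A₂ p).card : ℝ) / p ≤ 1 - 1 / (p : ℝ) := by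
    intro p hp
    obtain ⟨f1, _, f3, _, f5⟩ := fac (hm1 p hp).1
    rcases hcard p hp with h | h
    · rw [h, Nat.cast_one]
      exact ⟨f1.le, le_rfl⟩
    · rw [h, Nat.cast_ofNat]
      exact ⟨f3, f5⟩
  have hA0 : 0 ≤ A := by
    rw [hA]
    exact Finset.prod_nonneg fun p hp => (hfA p hp).1
  have hAD : A ≤ DZ w := by
    rw [hA, hDw]
    exact Finset.prod_le_prod (fun p hp => (hfA p hp).1) fun p hp => (hfA p hp).2
  obtain ⟨T, hT⟩ : ∃ T : ℝ, T = ∏ p ∈ P2.filter (fun p => p ∣ N), (1 - 1 / (p : ℝ))⁻¹ := ⟨_, rfl⟩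
  have hT1 : 1 ≤ T := by
    rw [hT]
    have h1 : ∏ p ∈ P2.filter (fun p => p ∣ N), (1 : ℝ) ≤
        ∏ p ∈ P2.filter (fun p => p ∣ N), (1 - 1 / (p : ℝ))⁻¹ := by
      apply Finset.prod_le_prod (fun _ _ => by norm_num)
      intro p hp
      obtain ⟨f1, f2, _⟩ := fac (hm2 p (Finset.mem_filter.1 hp).1).1
      exact (one_le_inv₀ f1).2 f2
    rwa [Finset.prod_const_one] at h1
  have hB2T : B2 ≤ B1 ^ 2 * T := by
    rw [hB2, hB1, hT, Finset.prod_filter, ← Finset.prod_pow, ← Finset.prod_mul_distrib]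
    apply Finset.prod_le_prod
    · intro p hp
      obtain ⟨h1, _, h3⟩ := hm2 p hp
      obtain ⟨f1, _, f3, _⟩ := fac h1
      rw [card_nuF_two h1 h3 h3]
      split_ifs
      · rw [Nat.cast_one]
        exact f1.le
      · rw [Nat.cast_ofNat]
        exact f3
    · intro p hp
      obtain ⟨h1, _, h3⟩ := hm2 p hp
      obtain ⟨f1, _, f3, f4, _⟩ := fac h1
      rw [card_nuF_two h1 h3 h3]
      by_cases hd : p ∣ N
      · rw [if_pos ((hdvd p).2 hd), if_pos hd, Nat.cast_one, sq, mul_assoc,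
          mul_inv_cancel₀ f1.ne', mul_one]
      · rw [if_neg (fun h => hd ((hdvd p).1 h)), if_neg hd, Nat.cast_ofNat, mul_one]
        exact f4
  -- the main terms
  obtain ⟨M, hM⟩ : ∃ M : ℝ, M = (DZ w)⁻¹ * (DZ w)⁻¹ * A := ⟨_, rfl⟩
  have hM0 : 0 ≤ M := by
    rw [hM]
    positivity
  have hMD : M ≤ (DZ w)⁻¹ := by
    rw [hM]
    calc (DZ w)⁻¹ * (DZ w)⁻¹ * A ≤ (DZ w)⁻¹ * (DZ w)⁻¹ * DZ w :=
          mul_le_mul_of_nonneg_left hAD (by positivity)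
      _ = (DZ w)⁻¹ := by rw [mul_assoc, inv_mul_cancel₀ hw0.ne', mul_one]
  have v1 : (DZ z)⁻¹ * (DZ w)⁻¹ * (B1 * A) = M := by
    rw [hM, hDz]
    field_simp
  have v2 : (DZ w)⁻¹ * (DZ z)⁻¹ * (B1 * A) = M := by
    rw [← v1]
    ring
  have v3 : (DZ w)⁻¹ * (DZ w)⁻¹ * (1 * A) = M := by
    rw [hM, one_mul]
  have v4 : (DZ z)⁻¹ * (DZ z)⁻¹ * (B2 * A) ≤ M * T := by
    calc (DZ z)⁻¹ * (DZ z)⁻¹ * (B2 * A) ≤ (DZ z)⁻¹ * (DZ z)⁻¹ * (B1 ^ 2 * T * A) := by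
          apply mul_le_mul_of_nonneg_left _ (by positivity)
          exact mul_le_mul_of_nonneg_right hB2T hA0
      _ = M * T := by
          rw [hM, hDz]
          field_simp
  rw [v1] at Szw
  rw [v2] at Swz
  rw [v3] at Sww
  obtain ⟨V, hV⟩ : ∃ V : ℝ, V = (DZ z)⁻¹ * (DZ z)⁻¹ * (B2 * A) := ⟨_, rfl⟩
  rw [← hV] at Szz v4
  -- errors
  have hinv : (DZ w)⁻¹ ≤ (DZ z)⁻¹ := by
    apply inv_anti₀ hz0
    rw [hDz]
    calc B1 * DZ w ≤ 1 * DZ w := mul_le_mul_of_nonneg_right hB11 hw0.le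
      _ = DZ w := one_mul _
  obtain ⟨E, hE⟩ : ∃ E : ℝ, E = (DZ z)⁻¹ ^ 2 * R := ⟨_, rfl⟩
  have hzi : 0 ≤ (DZ z)⁻¹ := (inv_pos.2 hz0).le
  have hwi : 0 ≤ (DZ w)⁻¹ := (inv_pos.2 hw0).le
  have E1 : (DZ z)⁻¹ * (DZ z)⁻¹ * R = E := by rw [hE]; ring
  have E2 : (DZ z)⁻¹ * (DZ w)⁻¹ * R ≤ E := by
    rw [← E1]
    exact mul_le_mul_of_nonneg_right (mul_le_mul_of_nonneg_left hinv hzi) hR0
  have E3 : (DZ w)⁻¹ * (DZ z)⁻¹ * R ≤ E := by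
    rw [← E1]
    exact mul_le_mul_of_nonneg_right (mul_le_mul_of_nonneg_right hinv hzi) hR0
  have E4 : (DZ w)⁻¹ * (DZ w)⁻¹ * R ≤ E := by
    rw [← E1]
    exact mul_le_mul_of_nonneg_right (mul_le_mul hinv hinv hwi hzi) hR0
  rw [E1] at Szz
  have Szz' := (abs_le.1 Szz).2
  have Szw' := (abs_le.1 Szw).1
  have Swz' := (abs_le.1 Swz).1
  have Sww' := (abs_le.1 Sww).2
  have hy0 : (0 : ℝ) ≤ y := Nat.cast_nonneg y
  have hexp : ∑ n ∈ Icc 1 y, (nuz z (A₁ + n) - nuz w (A₁ + n)) *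
      (nuz z (A₂ + n) - nuz w (A₂ + n)) =
      ∑ n ∈ Icc 1 y, nuz z (A₁ + n) * nuz z (A₂ + n) -
        ∑ n ∈ Icc 1 y, nuz z (A₁ + n) * nuz w (A₂ + n) -
        ∑ n ∈ Icc 1 y, nuz w (A₁ + n) * nuz z (A₂ + n) +
        ∑ n ∈ Icc 1 y, nuz w (A₁ + n) * nuz w (A₂ + n) := by
    rw [← Finset.sum_sub_distrib, ← Finset.sum_sub_distrib, ← Finset.sum_add_distrib]
    apply Finset.sum_congr rfl
    intro n _
    ring
  rw [hexp, ← hP2, ← hT, ← hE]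
  have k1 : (1 + 2 * ε) * (y * V) ≤ (1 + 2 * ε) * (y * (M * T)) := by
    apply mul_le_mul_of_nonneg_left _ (by linarith)
    exact mul_le_mul_of_nonneg_left v4 hy0
  have k2 : 0 ≤ (1 + 2 * ε) * T - 1 + 6 * ε := by
    have : (1 + 2 * ε) * 1 ≤ (1 + 2 * ε) * T := mul_le_mul_of_nonneg_left hT1 (by linarith)
    linarith
  have k3 : y * M * ((1 + 2 * ε) * T - 1 + 6 * ε) ≤
      y * (DZ w)⁻¹ * ((1 + 2 * ε) * T - 1 + 6 * ε) := by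
    apply mul_le_mul_of_nonneg_right _ k2
    exact mul_le_mul_of_nonneg_left hMD hy0
  have k4 : y * M * ((1 + 2 * ε) * T - 1 + 6 * ε) =
      (1 + 2 * ε) * (y * (M * T)) - 2 * (y * M) + 4 * ε * (y * M) + y * M + 2 * ε * (y * M) := by
    ring
  nlinarith

end Pool.Agent.SSQ
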