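import Pool.Agent.Lib.SSQ.Exc
import Pool.Agent.Lib.SSQ.LowG
import Pool.Agent.Lib.P83e.BTa

/-!
# The second moment of the error of the model, `D` of size `log`
-/

set_option autoImplicit false

open Finset Filter

namespace Pool.Agent.SSQ

open Pool.Agent.HLB Pool.Agent.HLT Pool.Agent.HLU Pool.Agent.SQP

lemma DZ_anti {z z' : ℕ} (h : z ≤ z') : DZ z' ≤ DZ z := by
  classical
  have hsub : Nat.primesLE z ⊆ Nat.primesLE z' := by
    intro p hp
    rw [Nat.mem_primesLE] at hp ⊢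
    exact ⟨hp.1.trans h, hp.2⟩
  have h1 : DZ z' = (∏ p ∈ Nat.primesLE z' \ Nat.primesLE z, (1 - 1 / (p : ℝ))) * DZ z := by
    unfold DZ
    exact (Finset.prod_sdiff hsub).symm
  have h2 : ∏ p ∈ Nat.primesLE z' \ Nat.primesLE z, (1 - 1 / (p : ℝ)) ≤ 1 := by
    refine Finset.prod_le_one (fun p hp => ?_) fun p _ => ?_
    · rw [Finset.mem_sdiff] at hp
      exact (Pool.Agent.HL.one_sub_inv_pos (Nat.mem_primesLE.1 hp.1).2).le
    · have : (0 : ℝ) ≤ 1 / (p : ℝ) := by positivity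
      linarith
  rw [h1]
  exact mul_le_of_le_one_left (DZ_pos z).le h2

/-- a finer bound for the level -/
theorem DZ_inv_sqrt (B : ℕ) : ∀ᶠ x : ℕ in atTop, (DZ (zA B x))⁻¹ ≤ 2 * Real.sqrt (Real.log x) := by
  obtain ⟨y₀, hy₀⟩ := eventually_atTop.mp (DZ_inv_le (2 * B))
  filter_upwards [ev_L ((y₀ : ℝ) ^ 2 + 1)] with x hL
  set L := Real.log x with hLd
  have hL1 : 1 ≤ L := by nlinarith [sq_nonneg (y₀ : ℝ)]
  obtain ⟨s, hs⟩ : ∃ s : ℝ, s = Real.sqrt L := ⟨_, rfl⟩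
  have hs0 : 0 ≤ s := by rw [hs]; exact Real.sqrt_nonneg _
  have hss : s ^ 2 = L := by rw [hs]; exact Real.sq_sqrt (by linarith)
  have hs1 : 1 ≤ s := by
    rw [hs]
    exact Real.one_le_sqrt.2 hL1
  obtain ⟨y, hy⟩ : ∃ y : ℕ, y = ⌈Real.exp s⌉₊ := ⟨_, rfl⟩
  have hy1 : Real.exp s ≤ y := by rw [hy]; exact Nat.le_ceil _
  have hy2 : (y : ℝ) ≤ 2 * Real.exp s := by
    have h1 := (Nat.ceil_lt_add_one (Real.exp_pos s).le).le
    have h2 : 1 ≤ Real.exp s := Real.one_le_exp hs0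
    rw [hy]
    linarith
  have hyy : y₀ ≤ y := by
    have h1 : (y₀ : ℝ) ≤ s := by
      rw [hs]
      refine Real.le_sqrt_of_sq_le ?_
      linarith
    have h2 : s ≤ Real.exp s := by linarith [Real.add_one_le_exp s]
    exact_mod_cast (h1.trans h2).trans hy1
  have hypos : (0 : ℝ) < y := (Real.exp_pos s).trans_le hy1
  have h1 := hy₀ y hyy
  have h2 : s ≤ Real.log y := by
    rw [Real.le_log_iff_exp_le hypos]
    exact hy1
  have h3 : Real.log y ≤ 2 * s := by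
    have h4 := Real.log_le_log hypos hy2
    rw [Real.log_mul (by norm_num) (Real.exp_pos s).ne', Real.log_exp] at h4
    have := Real.log_two_lt_d9
    linarith
  have h4 : zA B x ≤ zA (2 * B) y := by
    unfold zA
    refine Nat.floor_le_floor ?_
    rw [← hLd, ← hss, ← pow_mul]
    exact pow_le_pow_left₀ hs0 h2 _
  have h5 : (DZ (zA B x))⁻¹ ≤ (DZ (zA (2 * B) y))⁻¹ :=
    inv_anti₀ (DZ_pos _) (DZ_anti h4)
  rw [← hs]
  linarith

/-- expanding the square -/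
lemma sq_expand {ι : Type*} (X : Finset ι) (S : Finset ℕ) (g : ℕ → ι → ℝ) :
    ∑ t ∈ X, (∑ d ∈ S, g d t) ^ 2 = ∑ d ∈ S, ∑ d' ∈ S, ∑ t ∈ X, g d t * g d' t := by
  have e1 : ∀ t, (∑ d ∈ S, g d t) ^ 2 = ∑ d ∈ S, ∑ d' ∈ S, g d t * g d' t := by
    intro t
    rw [sq, Finset.sum_mul_sum]
  simp only [e1]
  rw [Finset.sum_comm]
  refine Finset.sum_congr rfl fun d _ => ?_
  rw [Finset.sum_comm]

/-- second moment from the diagonal and the pairs -/
lemma sq_bound {ι : Type*} (X : Finset ι) (S : Finset ℕ) (g : ℕ → ι → ℝ) (Q P : ℝ) (hP : 0 ≤ P)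
    (hdiag : ∀ d ∈ S, ∑ t ∈ X, g d t * g d t ≤ Q)
    (hoff : ∀ d ∈ S, ∀ d' ∈ S, d < d' → ∑ t ∈ X, g d t * g d' t ≤ P) :
    ∑ t ∈ X, (∑ d ∈ S, g d t) ^ 2 ≤ S.card * Q + (S.card : ℝ) ^ 2 * P := by
  classical
  rw [sq_expand]
  calc ∑ d ∈ S, ∑ d' ∈ S, ∑ t ∈ X, g d t * g d' t
      ≤ ∑ d ∈ S, ∑ d' ∈ S, ((if d' = d then Q else 0) + P) := by
        refine Finset.sum_le_sum fun d hd => Finset.sum_le_sum fun d' hd' => ?_
        rcases lt_trichotomy d d' with h | h | h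
        · rw [if_neg (by omega), zero_add]
          exact hoff d hd d' hd' h
        · subst h
          rw [if_pos rfl]
          have := hdiag d hd
          linarith
        · rw [if_neg (by omega), zero_add]
          have e : ∑ t ∈ X, g d t * g d' t = ∑ t ∈ X, g d' t * g d t :=
            Finset.sum_congr rfl fun t _ => mul_comm _ _
          rw [e]
          exact hoff d' hd' d hd h
    _ = ∑ d ∈ S, (Q + S.card * P) := by
        refine Finset.sum_congr rfl fun d hd => ?_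
        rw [Finset.sum_add_distrib, Finset.sum_ite_eq', if_pos hd, Finset.sum_const, nsmul_eq_mul]
    _ = S.card * Q + (S.card : ℝ) ^ 2 * P := by
        rw [Finset.sum_const, nsmul_eq_mul]
        ring

/-- the diagonal for one `d` and `k` -/
lemma diag_lp : ∃ C : ℝ, 0 < C ∧ ∀ H : ℕ, 2 ≤ H → ∀ u x : ℕ, ∀ h₀ : ℤ, ∀ v : ℤ, v + h₀ = u → 2 ≤ Real.log x → 1 ≤ x →
    ∑ h ∈ Ioc h₀ (h₀ + (H : ℤ)), (if 1 ≤ v + h ∧ v + h ≤ 2 * (x : ℤ) then lp (v + h).toNat ^ 2 else 0) ≤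
      4 * Real.log x ^ 2 * (C * H / Real.log H) := by
  classical
  obtain ⟨C, hC, hbt⟩ := Pool.Agent.P83e.brun_titchmarsh
  refine ⟨C, hC, fun H hH u x h₀ v hv hL hx => ?_⟩
  set L := Real.log x with hLd
  have hx0 : (0 : ℝ) < x := by exact_mod_cast hx
  have h1 := hbt H hH u 1 0 one_pos (by omega) (by decide)
  set T := (Ioc h₀ (h₀ + (H : ℤ))).filter (fun h => 1 ≤ v + h ∧ v + h ≤ 2 * (x : ℤ) ∧ (v + h).toNat.Prime) with hT
  have hcard : T.card ≤ ((Ioc u (u + H)).filter (fun p => p.Prime ∧ p ≡ 0 [MOD 1])).card := by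
    refine Finset.card_le_card_of_injOn (fun h => (v + h).toNat) ?_ ?_
    · intro h hh
      rw [Finset.mem_coe, hT, Finset.mem_filter, Finset.mem_Ioc] at hh
      change (v + h).toNat ∈ (((Ioc u (u + H)).filter (fun p => p.Prime ∧ p ≡ 0 [MOD 1]) : Finset ℕ) : Set ℕ)
      rw [Finset.mem_coe, Finset.mem_filter, Finset.mem_Ioc]
      refine ⟨by omega, hh.2.2.2, ?_⟩
      exact Nat.modEq_one
    · intro a ha b hb hab
      rw [Finset.mem_coe, hT, Finset.mem_filter, Finset.mem_Ioc] at ha hb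
      simp only at hab
      omega
  have hle : ∀ h ∈ Ioc h₀ (h₀ + (H : ℤ)), (if 1 ≤ v + h ∧ v + h ≤ 2 * (x : ℤ) then lp (v + h).toNat ^ 2 else 0) ≤
      if h ∈ T then 4 * L ^ 2 else 0 := by
    intro h hh
    by_cases h1 : 1 ≤ v + h ∧ v + h ≤ 2 * (x : ℤ)
    · rw [if_pos h1]
      by_cases h2 : (v + h).toNat.Prime
      · rw [if_pos (by rw [hT, Finset.mem_filter]; exact ⟨hh, h1.1, h1.2, h2⟩)]
        have h3 : lp (v + h).toNat ≤ 2 * L := by
          refine (lp_le _).trans ?_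
          have h4 : (((v + h).toNat : ℕ) : ℝ) ≤ 2 * (x : ℝ) := by
            have : (v + h).toNat ≤ 2 * x := by omega
            exact_mod_cast this
          have h5 : (0 : ℝ) < (((v + h).toNat : ℕ) : ℝ) := by exact_mod_cast h2.pos
          have h6 := Real.log_le_log h5 h4
          rw [Real.log_mul (by norm_num) hx0.ne'] at h6
          have := Real.log_two_lt_d9
          linarith
        have h4 := lp_nonneg (v + h).toNat
        calc lp (v + h).toNat ^ 2 ≤ (2 * L) ^ 2 := pow_le_pow_left₀ h4 h3 2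
          _ = 4 * L ^ 2 := by ring
      · have h3 : Pool.Agent.HLT.lp (v + h).toNat = 0 := by
          unfold Pool.Agent.HLT.lp
          rw [if_neg h2]
        rw [h3, zero_pow two_ne_zero]
        split_ifs
        · positivity
        · exact le_rfl
    · rw [if_neg h1]
      split_ifs <;> positivity
  calc _ ≤ ∑ h ∈ Ioc h₀ (h₀ + (H : ℤ)), (if h ∈ T then 4 * L ^ 2 else 0) := Finset.sum_le_sum hle
    _ = ((Ioc h₀ (h₀ + (H : ℤ))).filter (fun h => h ∈ T)).card * (4 * L ^ 2) := by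
        rw [← Finset.sum_filter, Finset.sum_const, nsmul_eq_mul]
    _ ≤ T.card * (4 * L ^ 2) := by
        refine mul_le_mul_of_nonneg_right ?_ (by positivity)
        have : ((Ioc h₀ (h₀ + (H : ℤ))).filter (fun h => h ∈ T)).card ≤ T.card := by
          refine Finset.card_le_card fun h hh => (Finset.mem_filter.1 hh).2
        exact_mod_cast this
    _ ≤ (C * H / Real.log H) * (4 * L ^ 2) := by
        refine mul_le_mul_of_nonneg_right ?_ (by positivity)
        have h2 : (T.card : ℝ) ≤ (((Ioc u (u + H)).filter (fun p => p.Prime ∧ p ≡ 0 [MOD 1])).card : ℝ) := by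
          exact_mod_cast hcard
        refine h2.trans (h1.trans (le_of_eq ?_))
        simp
    _ = _ := by ring

lemma int_card (h₀ : ℤ) (H : ℕ) : ((Ioc h₀ (h₀ + (H : ℤ))).card : ℝ) = H := by
  rw [Int.card_Ioc]
  have : (h₀ + (H : ℤ) - h₀).toNat = H := by omega
  rw [this]

/-- `2 d k + h₀ - d²` is positive -/
lemma base_pos {K D k d : ℕ} {h₀ : ℤ} (hDK : 4 * D ≤ K) (hD : 2 ≤ D) (hh : |h₀| ≤ 2 * K) (hk : k ∈ Ioc K (2 * K))
    (hd : d ∈ Ioc D (2 * D)) : ∃ u : ℕ, 2 * (d : ℤ) * k - (d : ℤ) ^ 2 + h₀ = u ∧ 1 ≤ u := by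
  rw [Finset.mem_Ioc] at hk hd
  have h1 : (3 : ℤ) ≤ d := by
    have : 3 ≤ d := by omega
    exact_mod_cast this
  have h2 : (d : ℤ) ≤ 2 * D := by exact_mod_cast hd.2
  have h3 : (K : ℤ) + 1 ≤ k := by exact_mod_cast hk.1
  have h4 : (4 : ℤ) * D ≤ K := by exact_mod_cast hDK
  have h5 := abs_le.1 hh
  have h6 : (0 : ℤ) ≤ D := Int.natCast_nonneg D
  have h7 : (d : ℤ) * (2 * k - d) ≥ 3 * (2 * (K + 1) - 2 * D) := by
    have h8 : 2 * ((K : ℤ) + 1) - 2 * D ≤ 2 * k - d := by linarith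
    exact mul_le_mul h1 h8 (by linarith) (by linarith)
  have h9 : 1 ≤ 2 * (d : ℤ) * k - (d : ℤ) ^ 2 + h₀ := by nlinarith [h5.1]
  refine ⟨(2 * (d : ℤ) * k - (d : ℤ) ^ 2 + h₀).toNat, ?_, ?_⟩
  · omega
  · omega

theorem secF (ε : ℝ) (hε : 0 < ε) (B0 : ℕ) : ∃ B : ℕ, B0 ≤ B ∧ ∃ C : ℝ, 0 < C ∧ ∀ᶠ x : ℕ in atTop, ∀ K D H : ℕ, ∀ h₀ : ℤ,
    x = 5 * D * K → 1 ≤ K → 4 * D ≤ K → 2 ≤ D → (D : ℝ) ≤ Real.log x ^ 2 → (K : ℝ) ^ (1 / 6 + ε) ≤ H → H ≤ K →
    |h₀| ≤ 2 * K →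
    ∑ t ∈ Ioc K (2 * K) ×ˢ Ioc h₀ (h₀ + H), (∑ d ∈ Ioc D (2 * D), fz (zA B x) x (lf d t.1 t.2)) ^ 2 ≤
      C * (K * H) * (D * Real.log x + (D : ℝ) ^ 2 / Real.log x) := by
  classical
  obtain ⟨B, c0, hB, hsi⟩ := si_ex B0 (4 * 3) (ε / 2) (by linarith)
  obtain ⟨C, hC, hdg⟩ := diag_lp
  obtain ⟨m, hm⟩ := exists_nat_ge (2 * (1 / 6 + ε))
  refine ⟨B, hB, 96 * C + 64, by positivity, ?_⟩
  filter_upwards [hsi, DZ_inv_le B, DZ_inv_sqrt B, ev_L 7, ev_pow (m + c0 + 7) ε hε, ev_L (12 * Real.log 5 + 24 * 24 * 24)] with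
    x hsi hz hz2 hL hpow hL5 K D H h₀ hx hK1 hDK hD2 hDL hKH hHK hh
  set L := Real.log x with hLdef
  have hL0 : 0 < L := by linarith
  have hL1 : 1 ≤ L := by linarith
  have hD1 : 1 ≤ D := by omega
  have hDpos : (0 : ℝ) < D := by exact_mod_cast hD1
  have hKpos : (0 : ℝ) < K := by exact_mod_cast hK1
  have hxr : (x : ℝ) = 5 * D * K := by
    rw [hx]
    push_cast
    ring
  have hx0 : (1 : ℝ) ≤ x := by
    rw [hxr]
    have h1 : (1 : ℝ) ≤ D := by exact_mod_cast hD1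
    have h2 : (1 : ℝ) ≤ K := by exact_mod_cast hK1
    nlinarith
  have hx1 : 1 ≤ x := by exact_mod_cast hx0
  obtain ⟨D0, hD0⟩ : ∃ D0 : ℕ, D0 = ⌈L ^ 3⌉₊ := ⟨_, rfl⟩
  obtain ⟨D1, hD1'⟩ : ∃ D1 : ℕ, D1 = ⌈L ^ c0⌉₊ := ⟨_, rfl⟩
  have hLa : 1 ≤ L ^ 3 := one_le_pow₀ hL1
  have hLc : 1 ≤ L ^ c0 := one_le_pow₀ hL1
  have hD0a : L ^ 3 ≤ D0 := by rw [hD0]; exact Nat.le_ceil _
  have hD0b : (D0 : ℝ) ≤ 2 * L ^ 3 := by
    have := (Nat.ceil_lt_add_one (by positivity : (0 : ℝ) ≤ L ^ 3)).le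
    rw [hD0]
    linarith
  have hD1a : L ^ c0 ≤ D1 := by rw [hD1']; exact Nat.le_ceil _
  have hD1b : (D1 : ℝ) ≤ 2 * L ^ c0 := by
    have := (Nat.ceil_lt_add_one (by positivity : (0 : ℝ) ≤ L ^ c0)).le
    rw [hD1']
    linarith
  have hD1c : 1 ≤ D1 := by exact_mod_cast hLc.trans hD1a
  have hD02 : 2 ≤ D0 := by
    have h1 : (2 : ℝ) ≤ L ^ 3 := by
      calc (2 : ℝ) ≤ L := by linarith
        _ ≤ L ^ 3 := le_self_pow₀ hL1 (by omega)
    exact_mod_cast h1.trans hD0a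
  have hD0pos : (0 : ℝ) < D0 := by
    have : 0 < D0 := by omega
    exact_mod_cast this
  have hD1pos : (0 : ℝ) < D1 := by exact_mod_cast hD1c
  obtain ⟨V, hV⟩ : ∃ V : ℕ, V = H / (D * D0 * D1) := ⟨_, rfl⟩
  have hDD0 : 0 < D * D0 * D1 := by positivity
  have hVH : V * (D * D0 * D1) ≤ H := by rw [hV]; exact Nat.div_mul_le_self _ _
  have hVW : (x : ℝ) ^ (1 / 6 + ε / 2) ≤ V := by
    have h1 : (H : ℝ) / (D * D0 * D1) < V + 1 := by
      have h2 := Nat.lt_div_mul_add (a := H) hDD0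
      have h3 : H < (V + 1) * (D * D0 * D1) := by
        rw [hV]
        linarith
      have h4 : (H : ℝ) < ((V : ℝ) + 1) * (D * D0 * D1) := by exact_mod_cast h3
      rwa [div_lt_iff₀ (by positivity)]
    have h5 : ((x : ℝ) / 5) ^ (1 / 6 + ε) / (2 * L ^ (m + c0 + 7)) ≤ (H : ℝ) / (D * D0 * D1) := by
      have h6 : (x : ℝ) / 5 = D * K := by
        rw [hxr]
        ring
      rw [h6, Real.mul_rpow hDpos.le hKpos.le, div_le_div_iff₀ (by positivity) (by positivity)]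
      have h7 : (D : ℝ) ^ (1 / 6 + ε) ≤ L ^ m := by
        calc (D : ℝ) ^ (1 / 6 + ε) ≤ (L ^ 2) ^ (1 / 6 + ε) := Real.rpow_le_rpow hDpos.le hDL (by linarith)
          _ = L ^ (2 * (1 / 6 + ε)) := by
              rw [← Real.rpow_natCast, ← Real.rpow_mul hL0.le]
              norm_num
          _ ≤ L ^ (m : ℝ) := Real.rpow_le_rpow_of_exponent_le hL1 hm
          _ = L ^ m := Real.rpow_natCast _ _
      have h8 : (D : ℝ) * D0 * D1 ≤ 4 * L ^ (c0 + 5) := by
        calc (D : ℝ) * D0 * D1 ≤ L ^ 2 * (2 * L ^ 3) * (2 * L ^ c0) := by gcongr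
          _ = 4 * L ^ (c0 + 5) := by ring
      calc (D : ℝ) ^ (1 / 6 + ε) * (K : ℝ) ^ (1 / 6 + ε) * (D * D0 * D1) ≤ L ^ m * H * (4 * L ^ (c0 + 5)) := by gcongr
        _ = 4 * (H * L ^ (m + c0 + 5)) := by ring
        _ ≤ (2 * L ^ 2) * (H * L ^ (m + c0 + 5)) := by
            refine mul_le_mul_of_nonneg_right ?_ (by positivity)
            nlinarith
        _ = H * (2 * L ^ (m + c0 + 7)) := by ring
    linarith [hpow]
  have hV1 : 1 ≤ V := by
    have h1 : (1 : ℝ) ≤ (x : ℝ) ^ (1 / 6 + ε / 2) := Real.one_le_rpow hx0 (by linarith)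
    exact_mod_cast h1.trans hVW
  have hVH2 : V * (D * D0) ≤ H := by
    refine le_trans ?_ hVH
    have : D * D0 ≤ D * D0 * D1 := Nat.le_mul_of_pos_right _ hD1c
    exact Nat.mul_le_mul_left _ this
  have hcz : (2 * D0 * V : ℝ) ≤ (x : ℝ) / L ^ c0 := by
    rw [le_div_iff₀ (by positivity), hxr]
    have h1 : (V : ℝ) * (D * D0 * D1) ≤ K := by
      have : V * (D * D0 * D1) ≤ K := hVH.trans hHK
      exact_mod_cast this
    have h2 : (1 : ℝ) ≤ D := by exact_mod_cast hD1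
    have h3 : (V : ℝ) * D0 * D1 ≤ K := by
      have h4 : (0 : ℝ) ≤ (V : ℝ) * D0 * D1 := by positivity
      nlinarith
    calc 2 * (D0 : ℝ) * V * L ^ c0 ≤ 2 * D0 * V * D1 := mul_le_mul_of_nonneg_left hD1a (by positivity)
      _ = 2 * (V * D0 * D1) := by ring
      _ ≤ 2 * K := by linarith
      _ ≤ 5 * D * K := by nlinarith
  set P : ℝ := 56 * (K : ℝ) * H * L ^ 2 / L ^ 3 with hP
  have hP0 : 0 ≤ P := by positivity
  -- the diagonal
  have hlogH : L / 12 ≤ Real.log H := by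
    have h2 : Real.log ((K : ℝ) ^ (1 / 6 + ε)) ≤ Real.log H := Real.log_le_log (by positivity) hKH
    rw [Real.log_rpow hKpos] at h2
    have h3 : L ≤ Real.log 5 + 2 * Real.log L + Real.log K := by
      have h4 : Real.log D ≤ Real.log (L ^ 2) := Real.log_le_log hDpos hDL
      rw [Real.log_pow] at h4
      push_cast at h4
      have h5 : L = Real.log 5 + Real.log D + Real.log K := by
        rw [hLdef, hxr, Real.log_mul (by positivity) hKpos.ne', Real.log_mul (by norm_num) hDpos.ne']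
      linarith
    have h5 : 0 ≤ Real.log K := Real.log_nonneg (by exact_mod_cast hK1)
    have h6 : 1 / 6 * Real.log K ≤ (1 / 6 + ε) * Real.log K := by nlinarith
    have h7 : 2 * Real.log L ≤ L / 4 := by
      have h8 : Real.log (Real.sqrt L) ≤ Real.sqrt L - 1 := Real.log_le_sub_one_of_pos (Real.sqrt_pos.2 hL0)
      rw [Real.log_sqrt hL0.le] at h8
      have h9 : 24 * 24 ≤ L := by
        have := Real.log_nonneg (by norm_num : (1 : ℝ) ≤ 5)
        linarith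
      have h10 : Real.sqrt L * 24 ≤ L := by
        have h11 : 24 ≤ Real.sqrt L := by
          refine Real.le_sqrt_of_sq_le ?_
          norm_num
          norm_num at h9
          exact h9
        nlinarith [Real.mul_self_sqrt hL0.le]
      linarith
    have h8 : Real.log 5 ≤ L / 12 := by linarith
    linarith
  have hH2 : 2 ≤ H := by
    have h1 : 0 < Real.log H := by
      have : 0 < L / 12 := by positivity
      linarith
    by_contra hcon
    push Not at hcon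
    interval_cases H
    · simp at h1
    · simp at h1
  have hlogHpos : 0 < Real.log H := by
    have : 0 < L / 12 := by positivity
    linarith
  have hHr : (0 : ℝ) ≤ H := Nat.cast_nonneg H
  have hdiag : ∀ d ∈ Ioc D (2 * D), ∑ t ∈ Ioc K (2 * K) ×ˢ Ioc h₀ (h₀ + (H : ℤ)),
      fz (zA B x) x (lf d t.1 t.2) * fz (zA B x) x (lf d t.1 t.2) ≤ (96 * C + 8) * (K * H * L) := by
    intro d hd
    rw [Finset.sum_product]
    have hone : ∀ k ∈ Ioc K (2 * K), ∑ h ∈ Ioc h₀ (h₀ + (H : ℤ)),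
        fz (zA B x) x (lf d k h) * fz (zA B x) x (lf d k h) ≤ (96 * C + 8) * (H * L) := by
      intro k hk
      obtain ⟨u, hu, -⟩ := base_pos hDK hD2 hh hk hd
      have h1 := hdg H hH2 u x h₀ (2 * (d : ℤ) * k - (d : ℤ) ^ 2) hu (by linarith) hx1
      have h2 : ∀ h ∈ Ioc h₀ (h₀ + (H : ℤ)), fz (zA B x) x (lf d k h) * fz (zA B x) x (lf d k h) ≤
          2 * (if 1 ≤ (2 * (d : ℤ) * k - (d : ℤ) ^ 2) + h ∧ (2 * (d : ℤ) * k - (d : ℤ) ^ 2) + h ≤ 2 * (x : ℤ) then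
            Pool.Agent.HLT.lp ((2 * (d : ℤ) * k - (d : ℤ) ^ 2) + h).toNat ^ 2 else 0) + 8 * L := by
        intro h _
        have e : lf d k h = (2 * (d : ℤ) * k - (d : ℤ) ^ 2) + h := by
          unfold lf
          ring
        rw [e]
        unfold fz
        by_cases hc : 1 ≤ (2 * (d : ℤ) * k - (d : ℤ) ^ 2) + h ∧ (2 * (d : ℤ) * k - (d : ℤ) ^ 2) + h ≤ 2 * (x : ℤ)
        · rw [if_pos hc, if_pos hc]
          set q := ((2 * (d : ℤ) * k - (d : ℤ) ^ 2) + h).toNat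
          have h3 : nuz (zA B x) q ≤ 2 * Real.sqrt L := (nuz_le _ _).trans hz2
          have h4 := nuz_nonneg (zA B x) q
          have h5 : nuz (zA B x) q ^ 2 ≤ 4 * L := by
            calc nuz (zA B x) q ^ 2 ≤ (2 * Real.sqrt L) ^ 2 := pow_le_pow_left₀ h4 h3 2
              _ = 4 * (Real.sqrt L * Real.sqrt L) := by ring
              _ = 4 * L := by rw [Real.mul_self_sqrt hL0.le]
          unfold ff
          nlinarith [sq_nonneg (Pool.Agent.HLT.lp q + nuz (zA B x) q)]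
        · rw [if_neg hc, if_neg hc]
          simp only [mul_zero, zero_add]
          positivity
      refine (Finset.sum_le_sum h2).trans ?_
      rw [Finset.sum_add_distrib, ← Finset.mul_sum, Finset.sum_const, nsmul_eq_mul, int_card]
      have h3 : C * H / Real.log H ≤ 12 * C * H / L := by
        rw [div_le_div_iff₀ hlogHpos hL0]
        have h4 : 0 ≤ C * H := by positivity
        nlinarith
      have h4 : 4 * L ^ 2 * (C * H / Real.log H) ≤ 4 * L ^ 2 * (12 * C * H / L) :=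
        mul_le_mul_of_nonneg_left h3 (by positivity)
      have h5 : 4 * L ^ 2 * (12 * C * H / L) = 48 * C * (H * L) := by
        field_simp
        ring
      have h6 : (96 * C + 8) * (H * L) = 2 * (48 * C * (H * L)) + H * (8 * L) := by ring
      rw [h6]
      linarith
    refine (Finset.sum_le_sum hone).trans (le_of_eq ?_)
    rw [Finset.sum_const, nsmul_eq_mul, Nat.card_Ioc]
    have e1 : 2 * K - K = K := by omega
    rw [e1]
    ring
  have hmain := sq_bound (Ioc K (2 * K) ×ˢ Ioc h₀ (h₀ + (H : ℤ))) (Ioc D (2 * D))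
    (fun d t => fz (zA B x) x (lf d t.1 t.2)) ((96 * C + 8) * (K * H * L)) P hP0 hdiag (fun d hd d' hd' hdd => by
      rw [Finset.mem_Ioc] at hd hd'
      have hD2D0 : 2 * D ≤ D + D0 := by
        have h1 : (D : ℝ) ≤ D0 := by
          refine hDL.trans (le_trans ?_ hD0a)
          exact pow_le_pow_right₀ hL1 (by norm_num)
        have h2 : D ≤ D0 := by exact_mod_cast h1
        omega
      have h5 := pair_P x K D H V D0 0 c0 3 h₀ (zA B x) _ hx hD2 hK1 hDK hHK hh (by linarith) hz hsi hD0a hD0b hV1 hVW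
        hVH2 hcz hD02 d d' hd.1 hdd hd'.2 (by omega)
      rw [Finset.sum_product]
      exact (le_abs_self _).trans h5)
  refine hmain.trans ?_
  have hc1 : (((Ioc D (2 * D)).card : ℕ) : ℝ) = D := by
    rw [Nat.card_Ioc]
    have : 2 * D - D = D := by omega
    rw [this]
  rw [hc1]
  have hPe : P = 56 * (K * H) / L := by
    rw [hP]
    field_simp
  rw [hPe]
  have h1 : (0 : ℝ) ≤ K * H := by positivity
  have h2 : (D : ℝ) ^ 2 * (56 * (K * H) / L) = 56 * ((K * H) * ((D : ℝ) ^ 2 / L)) := by ring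
  rw [h2]
  have h3 : (D : ℝ) * ((96 * C + 8) * (K * H * L)) = (96 * C + 8) * ((K * H) * (D * L)) := by ring
  rw [h3]
  have h4 : (96 * C + 64) * (K * H) * (D * L + (D : ℝ) ^ 2 / L) =
      (96 * C + 8) * ((K * H) * (D * L)) + 56 * ((K * H) * ((D : ℝ) ^ 2 / L)) +
      (56 * ((K * H) * (D * L)) + (96 * C + 8) * ((K * H) * ((D : ℝ) ^ 2 / L))) := by ring
  rw [h4]
  have h5 : 0 ≤ 56 * ((K * H : ℝ) * (D * L)) + (96 * C + 8) * ((K * H) * ((D : ℝ) ^ 2 / L)) := by positivity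
  linarith

end Pool.Agent.SSQ
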