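import Pool.Agent.Lib.SSQ.SecF
import Pool.Agent.Lib.SSQ.CntG
import Pool.Agent.Lib.SSQ.PairG

/-!
# The second moment of the difference of two sieve models
-/

set_option autoImplicit false

open Finset Filter

namespace Pool.Agent.SSQ

open Pool.Agent.HLB Pool.Agent.HLT Pool.Agent.HLU Pool.Agent.SQP

/-- change of variable -/
lemma sum_shift_int (h₀ v : ℤ) (H u : ℕ) (hv : v + h₀ = u) (F : ℕ → ℝ) :
    ∑ h ∈ Ioc h₀ (h₀ + (H : ℤ)), F (v + h).toNat = ∑ n ∈ Icc 1 H, F (u + n) := by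
  symm
  refine Finset.sum_bij' (fun n _ => h₀ + (n : ℤ)) (fun h _ => (h - h₀).toNat) ?_ ?_ ?_ ?_ ?_
  · intro n hn
    rw [Finset.mem_Icc] at hn
    rw [Finset.mem_Ioc]
    omega
  · intro h hh
    rw [Finset.mem_Ioc] at hh
    rw [Finset.mem_Icc]
    omega
  · intro n hn
    rw [Finset.mem_Icc] at hn
    omega
  · intro h hh
    rw [Finset.mem_Ioc] at hh
    omega
  · intro n hn
    congr 1
    omega

lemma ev_lp (n : ℕ) : ∀ᶠ x : ℕ in atTop, Real.log x ^ n ≤ (x : ℝ) ^ (1 / 6 : ℝ) := by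
  have h1 : (fun x : ℝ => Real.log x ^ n) =o[atTop] (fun x : ℝ => x ^ (1 / 6 : ℝ)) := by
    have h := isLittleO_log_rpow_rpow_atTop ((n : ℕ) : ℝ) (show (0:ℝ) < 1 / 6 by norm_num)
    simp only [Real.rpow_natCast] at h
    exact h
  have h2 := (h1.comp_tendsto tendsto_natCast_atTop_atTop).bound (show (0:ℝ) < 1 by norm_num)
  filter_upwards [h2, ev_L 1] with x hx hL
  simp only [Function.comp_def] at hx
  rw [Real.norm_of_nonneg (by positivity), Real.norm_of_nonneg (by positivity), one_mul] at hx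
  exact hx

/-- the error term is small -/
lemma ev_junk (ε : ℝ) (hε : 0 < ε) (B K₁ : ℕ) : ∀ᶠ x : ℕ in atTop, ∀ K D H : ℕ, x = 5 * D * K → 1 ≤ K → 1 ≤ D →
    (D : ℝ) ≤ Real.log x ^ 2 → (K : ℝ) ^ (1 / 6 : ℝ) ≤ H → (DZ (zA B x))⁻¹ ≤ Real.log x →
    4 * (((DZ (zA B x))⁻¹) ^ 2 * (((zA B x + 1) ^ K₁ : ℕ) : ℝ) ^ 2) ≤ H * ε := by
  filter_upwards [ev_lp (2 * (B + 1) * K₁ + 5), ev_L (20 / ε + 4)] with x hpow hL K D H hx hK1 hD1 hDL hKH hz
  set L := Real.log x with hLd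
  have h4e : 0 < 20 / ε := by positivity
  have hL4 : 4 ≤ L := by linarith
  have hL0 : 0 < L := by linarith
  have hL1 : 1 ≤ L := by linarith
  have hzL : (zA B x : ℝ) ≤ L ^ B := Nat.floor_le (by positivity)
  have hz1 : (zA B x : ℝ) + 1 ≤ L ^ (B + 1) := by
    have h1 : (1 : ℝ) ≤ L ^ B := one_le_pow₀ hL1
    calc (zA B x : ℝ) + 1 ≤ 2 * L ^ B := by linarith
      _ ≤ L ^ B * L := by nlinarith
      _ = L ^ (B + 1) := by rw [pow_succ]
  have hR : (((zA B x + 1) ^ K₁ : ℕ) : ℝ) ^ 2 ≤ L ^ (2 * (B + 1) * K₁) := by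
    push_cast
    calc (((zA B x : ℝ) + 1) ^ K₁) ^ 2 ≤ ((L ^ (B + 1)) ^ K₁) ^ 2 :=
          pow_le_pow_left₀ (by positivity) (pow_le_pow_left₀ (by positivity) hz1 K₁) 2
      _ = L ^ (2 * (B + 1) * K₁) := by
          rw [← pow_mul, ← pow_mul]
          congr 1
          ring
  have hDZ0 : 0 ≤ (DZ (zA B x))⁻¹ := (inv_pos.2 (DZ_pos _)).le
  obtain ⟨M, hM⟩ : ∃ M : ℕ, M = 2 * (B + 1) * K₁ := ⟨_, rfl⟩
  rw [← hM] at hR hpow
  have h1 : 4 * (((DZ (zA B x))⁻¹) ^ 2 * (((zA B x + 1) ^ K₁ : ℕ) : ℝ) ^ 2) ≤ 4 * (L ^ 2 * L ^ M) := by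
    gcongr
  have hDpos : (0 : ℝ) < D := by exact_mod_cast hD1
  have hKpos : (0 : ℝ) < K := by exact_mod_cast hK1
  have hxr : (x : ℝ) = (5 * D) * K := by
    rw [hx]
    push_cast
    ring
  have h2 : (x : ℝ) ^ (1 / 6 : ℝ) ≤ (5 * L ^ 2) * H := by
    rw [hxr, Real.mul_rpow (by positivity) hKpos.le]
    have h3 : (5 * (D : ℝ)) ^ (1 / 6 : ℝ) ≤ 5 * L ^ 2 := by
      calc (5 * (D : ℝ)) ^ (1 / 6 : ℝ) ≤ (5 * L ^ 2) ^ (1 / 6 : ℝ) :=
            Real.rpow_le_rpow (by positivity) (by linarith) (by norm_num)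
        _ ≤ (5 * L ^ 2) ^ (1 : ℝ) := by
            refine Real.rpow_le_rpow_of_exponent_le ?_ (by norm_num)
            have : (1 : ℝ) ≤ L ^ 2 := one_le_pow₀ hL1
            linarith
        _ = 5 * L ^ 2 := Real.rpow_one _
    exact mul_le_mul h3 hKH (by positivity) (by positivity)
  have h3 : 20 ≤ ε * L := by
    have h4 : 20 / ε ≤ L := by linarith
    rw [div_le_iff₀ hε] at h4
    linarith
  have h5 : 20 * L ^ (M + 4) ≤ ε * ((5 * L ^ 2) * H) := by
    calc 20 * L ^ (M + 4) ≤ (ε * L) * L ^ (M + 4) := mul_le_mul_of_nonneg_right h3 (by positivity)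
      _ = ε * L ^ (M + 5) := by ring
      _ ≤ ε * ((5 * L ^ 2) * H) := mul_le_mul_of_nonneg_left (hpow.trans h2) hε.le
  have h6 : (5 * L ^ 2) * (4 * (L ^ 2 * L ^ M)) ≤ (5 * L ^ 2) * (H * ε) := by
    calc (5 * L ^ 2) * (4 * (L ^ 2 * L ^ M)) = 20 * L ^ (M + 4) := by ring
      _ ≤ _ := h5
      _ = _ := by ring
  exact h1.trans (le_of_mul_le_mul_left h6 (by positivity))

/-- the pair `d < d'` for one `k` -/
lemma N_rel {K D k d d' : ℕ} {h₀ : ℤ} (hDK : 4 * D ≤ K) (hD : 2 ≤ D) (hh : |h₀| ≤ 2 * K) (hk : k ∈ Ioc K (2 * K))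
    (hd : d ∈ Ioc D (2 * D)) (hd' : d' ∈ Ioc D (2 * D)) (hdd : d < d') :
    ∃ u u' : ℕ, 2 * (d : ℤ) * k - (d : ℤ) ^ 2 + h₀ = u ∧ 2 * (d' : ℤ) * k - (d' : ℤ) ^ 2 + h₀ = u' ∧
      u' = u + (d' - d) * (2 * k - (d + d')) ∧ 0 < (d' - d) * (2 * k - (d + d')) := by
  obtain ⟨u, hu, -⟩ := base_pos hDK hD hh hk hd
  obtain ⟨u', hu', -⟩ := base_pos hDK hD hh hk hd'
  rw [Finset.mem_Ioc] at hk hd hd'
  refine ⟨u, u', hu, hu', ?_, ?_⟩
  · have h1 : ((d' - d : ℕ) : ℤ) = (d' : ℤ) - d := by omega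
    have h2 : ((2 * k - (d + d') : ℕ) : ℤ) = 2 * (k : ℤ) - (d + d') := by omega
    have h3 : (u' : ℤ) = u + ((d' - d : ℕ) : ℤ) * ((2 * k - (d + d') : ℕ) : ℤ) := by
      rw [h1, h2, ← hu, ← hu']
      ring
    exact_mod_cast h3
  · exact Nat.mul_pos (by omega) (by omega)

theorem secG {ε : ℝ} (hε : 0 < ε) (hε1 : ε ≤ 1 / 2) (w B : ℕ) (hw : 2 ≤ w) (hB : 1 ≤ B) :
    ∀ᶠ x : ℕ in atTop, ∀ K D H : ℕ, ∀ h₀ : ℤ,
    x = 5 * D * K → 1 ≤ K → 4 * D ≤ K → 2 ≤ D → (D : ℝ) ≤ Real.log x ^ 2 → (K : ℝ) ^ (1 / 6 : ℝ) ≤ H → H ≤ K →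
    |h₀| ≤ 2 * K →
    ∑ t ∈ Ioc K (2 * K) ×ˢ Ioc h₀ (h₀ + H), (∑ d ∈ Ioc D (2 * D),
        (nuz (zA B x) (lf d t.1 t.2).toNat - nuz w (lf d t.1 t.2).toNat)) ^ 2 ≤
      (K * H) * (4 * D * Real.log x + 2 * (DZ w)⁻¹ * (D : ℝ) ^ 2 * (22 / w + 9 * ε)) := by
  classical
  obtain ⟨K₁, hpair⟩ := pairG hε hε1
  filter_upwards [DZ_inv_le B, DZ_inv_sqrt B, ev_L (5 * w + 4), ev_junk ε hε B K₁, ev_lp 4, eventually_ge_atTop 1] with
    x hz hz2 hL hjunk hlp4 hx1 K D H h₀ hx hK1 hDK hD2 hDL hKH hHK hh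
  set L := Real.log x with hLd
  have hwr : (2 : ℝ) ≤ w := by exact_mod_cast hw
  have hwpos : (0 : ℝ) < w := by linarith
  have hL4 : 4 ≤ L := by linarith
  have hL0 : 0 < L := by linarith
  have hL1 : 1 ≤ L := by linarith
  set z := zA B x with hzd
  have hwz : w ≤ z := by
    refine Nat.le_floor ?_
    calc (w : ℝ) ≤ L := by linarith
      _ ≤ L ^ B := le_self_pow₀ hL1 (by omega)
  set lam := (DZ w)⁻¹ with hlam
  have hlam1 : 1 ≤ lam := (one_le_inv₀ (DZ_pos w)).2 (DZ_le_one' w)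
  have hlam2 : lam ≤ (DZ z)⁻¹ := inv_anti₀ (DZ_pos _) (DZ_anti hwz)
  have hKpos : (0 : ℝ) < K := by exact_mod_cast hK1
  have hDpos : (0 : ℝ) < D := by
    have : 0 < D := by omega
    exact_mod_cast this
  have hH0 : (0 : ℝ) ≤ H := Nat.cast_nonneg H
  have hjk := hjunk K D H hx hK1 (by omega) hDL hKH hz
  -- `L ≤ K / w`
  have hLK : L ≤ K / w := by
    have h1 : (x : ℝ) ≤ 5 * L ^ 2 * K := by
      rw [hx]
      push_cast
      have : 5 * (D : ℝ) ≤ 5 * L ^ 2 := by linarith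
      exact mul_le_mul_of_nonneg_right this hKpos.le
    have h2 : L ^ 4 ≤ x := by
      refine hlp4.trans ?_
      have hxr : (1 : ℝ) ≤ x := by exact_mod_cast hx1
      calc (x : ℝ) ^ (1 / 6 : ℝ) ≤ (x : ℝ) ^ (1 : ℝ) := Real.rpow_le_rpow_of_exponent_le hxr (by norm_num)
        _ = x := Real.rpow_one _
    have h3 : L ^ 2 * L ^ 2 ≤ L ^ 2 * (5 * K) := by
      calc L ^ 2 * L ^ 2 = L ^ 4 := by ring
        _ ≤ 5 * L ^ 2 * K := h2.trans h1
        _ = _ := by ring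
    have h4 : L ^ 2 ≤ 5 * K := le_of_mul_le_mul_left h3 (by positivity)
    rw [le_div_iff₀ hwpos]
    have h5 : 5 * (w : ℝ) ≤ L := by linarith
    nlinarith
  set g : ℕ → ℕ × ℤ → ℝ := fun d t => nuz z (lf d t.1 t.2).toNat - nuz w (lf d t.1 t.2).toNat with hg
  set X := Ioc K (2 * K) ×ˢ Ioc h₀ (h₀ + (H : ℤ)) with hX
  set G : ℕ → ℕ → ℝ := fun d d' => ∑ t ∈ X, g d t * g d' t with hG
  set R : ℕ → ℝ := fun N => (K * H * lam) * ((1 + 2 * ε) * (1 + 3 / w) * GGf w z N - 1 + 7 * ε) with hR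
  have hKK : (Ioc K (2 * K)).card = K := by
    rw [Nat.card_Ioc]
    omega
  -- the diagonal
  have hdiag : ∀ d, G d d ≤ (K * H) * (4 * L) := by
    intro d
    have h1 : ∀ t ∈ X, g d t * g d t ≤ 4 * L := by
      intro t _
      rw [hg]
      simp only
      set q := (lf d t.1 t.2).toNat
      have h2 := nuz_nonneg z q
      have h3 := nuz_nonneg w q
      have h4 : nuz z q ≤ 2 * Real.sqrt L := (nuz_le _ _).trans hz2
      have h5 : nuz w q ≤ 2 * Real.sqrt L := ((nuz_le _ _).trans hlam2).trans hz2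
      have h6 : Real.sqrt L * Real.sqrt L = L := Real.mul_self_sqrt hL0.le
      have h7 : |nuz z q - nuz w q| ≤ 2 * Real.sqrt L := by
        rw [abs_le]
        constructor <;> linarith
      calc (nuz z q - nuz w q) * (nuz z q - nuz w q) = |nuz z q - nuz w q| ^ 2 := by rw [sq_abs]; ring
        _ ≤ (2 * Real.sqrt L) ^ 2 := pow_le_pow_left₀ (abs_nonneg _) h7 2
        _ = 4 * (Real.sqrt L * Real.sqrt L) := by ring
        _ = 4 * L := by rw [h6]
    refine (Finset.sum_le_sum h1).trans (le_of_eq ?_)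
    rw [Finset.sum_const, nsmul_eq_mul, hX, Finset.card_product, hKK]
    push_cast
    rw [int_card]
  -- the pairs
  have hoff : ∀ d ∈ Ioc D (2 * D), ∀ d' ∈ Ioc D (2 * D), d < d' → G d d' ≤ R (d' - d) := by
    intro d hd d' hd' hdd
    have hone : ∀ k ∈ Ioc K (2 * K), ∑ h ∈ Ioc h₀ (h₀ + (H : ℤ)), g d (k, h) * g d' (k, h) ≤
        (H * lam) * ((1 + 2 * ε) * GGf w z (d' - d) * GGf w z (2 * k - (d + d')) - 1 + 7 * ε) := by
      intro k hk
      obtain ⟨u, u', hu, hu', huu, hN⟩ := N_rel hDK hD2 hh hk hd hd' hdd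
      have h1 : ∑ h ∈ Ioc h₀ (h₀ + (H : ℤ)), g d (k, h) * g d' (k, h) =
          ∑ n ∈ Icc 1 H, (nuz z (u + n) - nuz w (u + n)) * (nuz z (u' + n) - nuz w (u' + n)) := by
        symm
        refine Finset.sum_bij' (fun n _ => h₀ + (n : ℤ)) (fun h _ => (h - h₀).toNat) ?_ ?_ ?_ ?_ ?_
        · intro n hn
          rw [Finset.mem_Icc] at hn
          rw [Finset.mem_Ioc]
          omega
        · intro h hh
          rw [Finset.mem_Ioc] at hh
          rw [Finset.mem_Icc]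
          omega
        · intro n hn
          rw [Finset.mem_Icc] at hn
          omega
        · intro h hh
          rw [Finset.mem_Ioc] at hh
          omega
        · intro n hn
          have e1 : (lf d k (h₀ + (n : ℤ))).toNat = u + n := by
            have : lf d k (h₀ + (n : ℤ)) = u + n := by
              unfold lf
              rw [← hu]
              ring
            omega
          have e2 : (lf d' k (h₀ + (n : ℤ))).toNat = u' + n := by
            have : lf d' k (h₀ + (n : ℤ)) = u' + n := by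
              unfold lf
              rw [← hu']
              ring
            omega
          rw [hg]
          simp only
          rw [e1, e2]
      rw [h1]
      have h2 := hpair z w H u u' _ hwz hN (Or.inr huu)
      change _ ≤ (H : ℝ) * lam * ((1 + 2 * ε) * GGf w z ((d' - d) * (2 * k - (d + d'))) - 1 + 6 * ε) + _ at h2
      refine h2.trans ?_
      have h3 := GGf_mul w z (d' - d) (2 * k - (d + d'))
      have h4 : (H : ℝ) * lam * ((1 + 2 * ε) * GGf w z ((d' - d) * (2 * k - (d + d'))) - 1 + 6 * ε) ≤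
          (H : ℝ) * lam * ((1 + 2 * ε) * (GGf w z (d' - d) * GGf w z (2 * k - (d + d'))) - 1 + 6 * ε) := by
        refine mul_le_mul_of_nonneg_left ?_ (by positivity)
        have : (1 + 2 * ε) * GGf w z ((d' - d) * (2 * k - (d + d'))) ≤
            (1 + 2 * ε) * (GGf w z (d' - d) * GGf w z (2 * k - (d + d'))) :=
          mul_le_mul_of_nonneg_left h3 (by positivity)
        linarith
      have h5 : (H : ℝ) * ε ≤ H * lam * ε := by
        have : (H : ℝ) * 1 ≤ H * lam := mul_le_mul_of_nonneg_left hlam1 hH0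
        nlinarith
      calc _ ≤ (H : ℝ) * lam * ((1 + 2 * ε) * (GGf w z (d' - d) * GGf w z (2 * k - (d + d'))) - 1 + 6 * ε) + H * lam * ε :=
            add_le_add h4 (hjk.trans h5)
        _ = _ := by ring
    have hprod : G d d' = ∑ k ∈ Ioc K (2 * K), ∑ h ∈ Ioc h₀ (h₀ + (H : ℤ)), g d (k, h) * g d' (k, h) := by
      rw [hG, hX]
      simp only
      rw [Finset.sum_product]
    rw [hprod]
    refine (Finset.sum_le_sum hone).trans ?_
    have hd2 := Finset.mem_Ioc.1 hd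
    have hd2' := Finset.mem_Ioc.1 hd'
    have havg := avg_k w z K (d + d') hw (by omega)
    have h6 : ∑ k ∈ Ioc K (2 * K), GGf w z (2 * k - (d + d')) ≤ K * (1 + 3 / w) := by
      have h7 : (K : ℝ) * (1 + 3 / w) = K * (1 + 2 / w) + K / w := by ring
      rw [h7]
      linarith
    have h8 : ∑ k ∈ Ioc K (2 * K), (H * lam) * ((1 + 2 * ε) * GGf w z (d' - d) * GGf w z (2 * k - (d + d')) - 1 + 7 * ε) =
        (H * lam) * (((1 + 2 * ε) * GGf w z (d' - d)) * (∑ k ∈ Ioc K (2 * K), GGf w z (2 * k - (d + d'))) +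
          K * (- 1 + 7 * ε)) := by
      rw [← Finset.mul_sum, Finset.mul_sum (Ioc K (2 * K)) _ ((1 + 2 * ε) * GGf w z (d' - d))]
      congr 1
      rw [show (K : ℝ) * (-1 + 7 * ε) = ∑ _k ∈ Ioc K (2 * K), (-1 + 7 * ε) by
        rw [Finset.sum_const, nsmul_eq_mul, hKK], ← Finset.sum_add_distrib]
      refine Finset.sum_congr rfl fun k _ => ?_
      ring
    rw [h8, hR]
    simp only
    have h9 : (1 : ℝ) ≤ GGf w z (d' - d) := GGf_ge _ _ _
    have h10 : ((1 + 2 * ε) * GGf w z (d' - d)) * (∑ k ∈ Ioc K (2 * K), GGf w z (2 * k - (d + d'))) ≤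
        ((1 + 2 * ε) * GGf w z (d' - d)) * (K * (1 + 3 / w)) := mul_le_mul_of_nonneg_left h6 (by positivity)
    calc (H * lam) * (((1 + 2 * ε) * GGf w z (d' - d)) * (∑ k ∈ Ioc K (2 * K), GGf w z (2 * k - (d + d'))) +
          K * (- 1 + 7 * ε)) ≤ (H * lam) * (((1 + 2 * ε) * GGf w z (d' - d)) * (K * (1 + 3 / w)) + K * (- 1 + 7 * ε)) :=
          mul_le_mul_of_nonneg_left (by linarith) (by positivity)
      _ = _ := by ring
  -- the sum over the differences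
  have hRsum : ∀ d ∈ Ioc D (2 * D), ∑ d' ∈ Ioc d (2 * D), R (d' - d) ≤ (K * H * lam) * (D * (22 / w + 9 * ε)) := by
    intro d hd
    have hd2 := Finset.mem_Ioc.1 hd
    have h1 := avg_u w z d D (by omega) hd2.2
    obtain ⟨n, hn⟩ : ∃ n : ℕ, n = 2 * D - d := ⟨_, rfl⟩
    rw [← hn] at h1
    have hnD : (n : ℝ) ≤ D := by
      have : n ≤ D := by omega
      exact_mod_cast this
    have hn0 : (0 : ℝ) ≤ n := Nat.cast_nonneg n
    have h2 : ∑ d' ∈ Ioc d (2 * D), R (d' - d) = (K * H * lam) * (((1 + 2 * ε) * (1 + 3 / w)) *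
        (∑ d' ∈ Ioc d (2 * D), GGf w z (d' - d)) + n * (-1 + 7 * ε)) := by
      rw [hR]
      simp only
      rw [← Finset.mul_sum, Finset.mul_sum (Ioc d (2 * D)) _ ((1 + 2 * ε) * (1 + 3 / w))]
      congr 1
      rw [show (n : ℝ) * (-1 + 7 * ε) = ∑ _k ∈ Ioc d (2 * D), (-1 + 7 * ε) by
        rw [Finset.sum_const, nsmul_eq_mul, Nat.card_Ioc, hn], ← Finset.sum_add_distrib]
      refine Finset.sum_congr rfl fun k _ => ?_
      ring
    rw [h2]
    refine mul_le_mul_of_nonneg_left ?_ (by positivity)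
    have h3 : ((1 + 2 * ε) * (1 + 3 / w)) * (∑ d' ∈ Ioc d (2 * D), GGf w z (d' - d)) ≤
        ((1 + 2 * ε) * (1 + 3 / w)) * (n * (1 + 2 / w)) := mul_le_mul_of_nonneg_left h1 (by positivity)
    have h4 : (1 + 2 * ε) * (1 + 3 / (w : ℝ)) * (1 + 2 / w) ≤ 1 + 2 * ε + 22 / w := by
      obtain ⟨s, hs⟩ : ∃ s : ℝ, s = 1 / (w : ℝ) := ⟨_, rfl⟩
      have e1 : 3 / (w : ℝ) = 3 * s := by rw [hs]; ring
      have e2 : 2 / (w : ℝ) = 2 * s := by rw [hs]; ring
      have e3 : 22 / (w : ℝ) = 22 * s := by rw [hs]; ring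
      have hs0 : 0 < s := by rw [hs]; positivity
      have hs1 : s ≤ 1 / 2 := by
        rw [hs]
        exact one_div_le_one_div_of_le (by norm_num) hwr
      rw [e1, e2, e3]
      have h5 : (1 + 3 * s) * (1 + 2 * s) ≤ 1 + 11 * s := by nlinarith
      have h6 : (1 + 2 * ε) * ((1 + 3 * s) * (1 + 2 * s)) ≤ (1 + 2 * ε) * (1 + 11 * s) :=
        mul_le_mul_of_nonneg_left h5 (by positivity)
      have h7 : 2 * ε * (11 * s) ≤ 11 * s := by nlinarith
      nlinarith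
    calc ((1 + 2 * ε) * (1 + 3 / w)) * (∑ d' ∈ Ioc d (2 * D), GGf w z (d' - d)) + n * (-1 + 7 * ε) ≤
          ((1 + 2 * ε) * (1 + 3 / w)) * (n * (1 + 2 / w)) + n * (-1 + 7 * ε) := by linarith
      _ = n * ((1 + 2 * ε) * (1 + 3 / w) * (1 + 2 / w) - 1 + 7 * ε) := by ring
      _ ≤ n * (22 / w + 9 * ε) := mul_le_mul_of_nonneg_left (by linarith) hn0
      _ ≤ D * (22 / w + 9 * ε) := mul_le_mul_of_nonneg_right hnD (by positivity)
  -- conclusion
  have hexp : ∑ t ∈ X, (∑ d ∈ Ioc D (2 * D), g d t) ^ 2 =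
      ∑ d ∈ Ioc D (2 * D), ∑ d' ∈ Ioc D (2 * D), G d d' := sq_expand X (Ioc D (2 * D)) g
  have hsymm : ∀ d d', G d d' = G d' d := fun d d' => Finset.sum_congr rfl fun t _ => mul_comm _ _
  change ∑ t ∈ X, (∑ d ∈ Ioc D (2 * D), g d t) ^ 2 ≤ _
  rw [hexp]
  set S := Ioc D (2 * D) with hS
  have hterm : ∀ d ∈ S, ∀ d' ∈ S, G d d' ≤ (if d' = d then (K * H) * (4 * L) else 0) +
      (if d < d' then R (d' - d) else 0) + (if d' < d then R (d - d') else 0) := by
    intro d hd d' hd'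
    rcases lt_trichotomy d d' with h | h | h
    · rw [if_neg (by omega), if_pos h, if_neg (by omega), zero_add, add_zero]
      exact hoff d hd d' hd' h
    · subst h
      rw [if_pos rfl, if_neg (by omega), add_zero, add_zero]
      exact hdiag d
    · rw [if_neg (by omega), if_neg (by omega), if_pos h, zero_add, zero_add, hsymm]
      exact hoff d' hd' d hd h
  have hlt : ∀ d ∈ S, ∑ d' ∈ S, (if d < d' then R (d' - d) else 0) = ∑ d' ∈ Ioc d (2 * D), R (d' - d) := by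
    intro d hd
    rw [← Finset.sum_filter]
    refine Finset.sum_congr ?_ fun _ _ => rfl
    have hd2 := Finset.mem_Ioc.1 hd
    ext d'
    rw [Finset.mem_filter, hS, Finset.mem_Ioc, Finset.mem_Ioc]
    omega
  have hcS : ((S.card : ℕ) : ℝ) = D := by
    rw [hS, Nat.card_Ioc]
    have : 2 * D - D = D := by omega
    rw [this]
  have hA : ∑ d ∈ S, ∑ d' ∈ S, (if d < d' then R (d' - d) else 0) ≤ D * ((K * H * lam) * (D * (22 / w + 9 * ε))) := by
    calc ∑ d ∈ S, ∑ d' ∈ S, (if d < d' then R (d' - d) else 0) ≤ ∑ _d ∈ S, (K * H * lam) * (D * (22 / w + 9 * ε)) :=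
          Finset.sum_le_sum fun d hd => by
            rw [hlt d hd]
            exact hRsum d hd
      _ = _ := by rw [Finset.sum_const, nsmul_eq_mul, hcS]
  calc ∑ d ∈ S, ∑ d' ∈ S, G d d' ≤ ∑ d ∈ S, ∑ d' ∈ S, ((if d' = d then (K * H) * (4 * L) else 0) +
      (if d < d' then R (d' - d) else 0) + (if d' < d then R (d - d') else 0)) :=
        Finset.sum_le_sum fun d hd => Finset.sum_le_sum fun d' hd' => hterm d hd d' hd'
    _ = ∑ d ∈ S, (K * H) * (4 * L) + ∑ d ∈ S, ∑ d' ∈ S, (if d < d' then R (d' - d) else 0) +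
        ∑ d ∈ S, ∑ d' ∈ S, (if d' < d then R (d - d') else 0) := by
        rw [← Finset.sum_add_distrib, ← Finset.sum_add_distrib]
        refine Finset.sum_congr rfl fun d hd => ?_
        rw [Finset.sum_add_distrib, Finset.sum_add_distrib, Finset.sum_ite_eq', if_pos hd]
    _ = D * ((K * H) * (4 * L)) + 2 * ∑ d ∈ S, ∑ d' ∈ S, (if d < d' then R (d' - d) else 0) := by
        rw [Finset.sum_const, nsmul_eq_mul, hcS]
        rw [Finset.sum_comm (s := S) (t := S) (f := fun d d' => if d' < d then R (d - d') else 0)]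
        ring
    _ ≤ D * ((K * H) * (4 * L)) + 2 * (D * ((K * H * lam) * (D * (22 / w + 9 * ε)))) := by linarith
    _ = _ := by ring

end Pool.Agent.SSQ
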