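import Pool.Agent.Lib.SSQ.TwoS

/-!
# Two forms with different levels
-/

set_option autoImplicit false

open Finset

namespace Pool.Agent.SSQ

open Pool.Agent.HLB Pool.Agent.HLT Pool.Agent.HLU Pool.Agent.SQP

/-- The residues of `n` for which `p ≤ a` divides `A₁ + n` or `p ≤ b` divides `A₂ + n`. -/
def nuF (a b A₁ A₂ p : ℕ) : Finset ℕ :=
  (if p ≤ a then {(p - A₁ % p) % p} else ∅) ∪ (if p ≤ b then {(p - A₂ % p) % p} else ∅)

namespace TwoFAux

lemma res_iff {p : ℕ} (hp : 0 < p) (A n : ℕ) : n % p = (p - A % p) % p ↔ p ∣ A + n := by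
  have h1 : A % p < p := Nat.mod_lt _ hp
  have h2 : A % p + (p - A % p) = p := by omega
  constructor
  · intro h
    have h3 : n ≡ p - A % p [MOD p] := h
    have h4 : A + n ≡ A % p + (p - A % p) [MOD p] := Nat.ModEq.add (Nat.mod_modEq A p).symm h3
    rw [h2] at h4
    exact (Nat.modEq_zero_iff_dvd).1 (h4.trans ((Nat.modEq_zero_iff_dvd).2 dvd_rfl))
  · intro h
    have h3 : A + n ≡ A % p + (p - A % p) [MOD p] := by
      rw [h2]
      exact ((Nat.modEq_zero_iff_dvd).2 h).trans ((Nat.modEq_zero_iff_dvd).2 dvd_rfl).symm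
    have h4 : A % p + n ≡ A % p + (p - A % p) [MOD p] :=
      ((Nat.mod_modEq A p).add_right n).trans h3
    exact Nat.ModEq.add_left_cancel' _ h4

lemma mem_iff {a b A₁ A₂ p : ℕ} (hp : 0 < p) (n : ℕ) : n % p ∈ nuF a b A₁ A₂ p ↔
    (p ≤ a ∧ p ∣ A₁ + n) ∨ (p ≤ b ∧ p ∣ A₂ + n) := by
  unfold nuF
  rw [Finset.mem_union]
  by_cases h1 : p ≤ a <;> by_cases h2 : p ≤ b <;>
    simp [h1, h2, res_iff hp]

lemma sub_range {a b A₁ A₂ p : ℕ} (hp : 0 < p) : nuF a b A₁ A₂ p ⊆ range p := by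
  intro x hx
  unfold nuF at hx
  rw [Finset.mem_union] at hx
  rw [Finset.mem_range]
  rcases hx with hx | hx
  · split_ifs at hx
    · rw [Finset.mem_singleton] at hx
      rw [hx]
      exact Nat.mod_lt _ hp
    · simp at hx
  · split_ifs at hx
    · rw [Finset.mem_singleton] at hx
      rw [hx]
      exact Nat.mod_lt _ hp
    · simp at hx

end TwoFAux

open TwoFAux

theorem card_nuF_le (a b A₁ A₂ p : ℕ) : (nuF a b A₁ A₂ p).card ≤ 2 := by
  unfold nuF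
  refine (Finset.card_union_le _ _).trans ?_
  have h : ∀ (q : Prop) [Decidable q] (x : ℕ), (if q then ({x} : Finset ℕ) else ∅).card ≤ 1 := by
    intro q _ x
    split_ifs <;> simp
  have h1 := h (p ≤ a) ((p - A₁ % p) % p)
  have h2 := h (p ≤ b) ((p - A₂ % p) % p)
  omega

theorem card_nuF_two {a b A₁ A₂ p : ℕ} (hp : p.Prime) (ha : p ≤ a) (hb : p ≤ b) :
    (nuF a b A₁ A₂ p).card = if (p : ℤ) ∣ (A₁ : ℤ) - A₂ then 1 else 2 := by
  have key : (p - A₁ % p) % p = (p - A₂ % p) % p ↔ (p : ℤ) ∣ (A₁ : ℤ) - A₂ := by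
    have e : (p - A₁ % p) % p % p = (p - A₁ % p) % p := Nat.mod_mod _ _
    have h1 : p ∣ A₁ + (p - A₁ % p) % p := (res_iff hp.pos A₁ _).1 e
    have h1' : (p : ℤ) ∣ (A₁ : ℤ) + (((p - A₁ % p) % p : ℕ) : ℤ) := by exact_mod_cast h1
    rw [← e, res_iff hp.pos A₂]
    have e2 : (p ∣ A₂ + (p - A₁ % p) % p) ↔
        (p : ℤ) ∣ (A₂ : ℤ) + (((p - A₁ % p) % p : ℕ) : ℤ) := by
      constructor
      · intro h
        exact_mod_cast h
      · intro h
        exact_mod_cast h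
    rw [e2]
    constructor
    · intro h
      have := dvd_sub h1' h
      rwa [add_sub_add_right_eq_sub] at this
    · intro h
      have := dvd_sub h1' h
      have e3 : (A₁ : ℤ) + (((p - A₁ % p) % p : ℕ) : ℤ) - ((A₁ : ℤ) - A₂) =
          (A₂ : ℤ) + (((p - A₁ % p) % p : ℕ) : ℤ) := by ring
      rwa [e3] at this
  unfold nuF
  rw [if_pos ha, if_pos hb]
  by_cases h : (p : ℤ) ∣ (A₁ : ℤ) - A₂
  · rw [if_pos h, key.2 h, Finset.union_self, Finset.card_singleton]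
  · rw [if_neg h]
    have hne : (p - A₁ % p) % p ≠ (p - A₂ % p) % p := fun e => h (key.1 e)
    rw [Finset.card_union_of_disjoint (Finset.disjoint_singleton.2 hne), Finset.card_singleton,
      Finset.card_singleton]

theorem card_nuF_left {a b A₁ A₂ p : ℕ} (ha : p ≤ a) (hb : b < p) :
    (nuF a b A₁ A₂ p).card = 1 := by
  unfold nuF
  rw [if_pos ha, if_neg (by omega), Finset.union_empty, Finset.card_singleton]

theorem card_nuF_right {a b A₁ A₂ p : ℕ} (ha : a < p) (hb : p ≤ b) :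
    (nuF a b A₁ A₂ p).card = 1 := by
  unfold nuF
  rw [if_neg (by omega), if_pos hb, Finset.empty_union, Finset.card_singleton]

theorem card_nuF_none {a b A₁ A₂ p : ℕ} (ha : a < p) (hb : b < p) :
    (nuF a b A₁ A₂ p).card = 0 := by
  unfold nuF
  rw [if_neg (by omega), if_neg (by omega), Finset.empty_union, Finset.card_empty]

/-- Two forms with different levels. -/
theorem two_form {ε : ℝ} (hε : 0 < ε) (hε1 : ε ≤ 1 / 2) : ∃ K₁ : ℕ, ∀ z a b y A₁ A₂ : ℕ,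
    a ≤ z → b ≤ z →
    |∑ n ∈ Icc 1 y, nuz a (A₁ + n) * nuz b (A₂ + n) -
      y * ((DZ a)⁻¹ * (DZ b)⁻¹ *
        ∏ p ∈ Nat.primesLE z, (1 - ((nuF a b A₁ A₂ p).card : ℝ) / p))| ≤
    2 * ε * (y * ((DZ a)⁻¹ * (DZ b)⁻¹ *
        ∏ p ∈ Nat.primesLE z, (1 - ((nuF a b A₁ A₂ p).card : ℝ) / p))) +
      ((DZ a)⁻¹ * (DZ b)⁻¹) * (((z + 1) ^ K₁ : ℕ) : ℝ) ^ 2 := by
  classical
  obtain ⟨K, hK⟩ := two_det 2 hε hε1
  refine ⟨K, fun z a b y A₁ A₂ ha hb => ?_⟩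
  have h := hK z y (nuF a b A₁ A₂) (fun p hp =>
    ⟨sub_range (Nat.mem_primesLE.1 hp).2.pos, card_nuF_le a b A₁ A₂ p⟩)
  set P : ℝ := ∏ p ∈ Nat.primesLE z, (1 - ((nuF a b A₁ A₂ p).card : ℝ) / p) with hP
  set R : ℝ := (((z + 1) ^ K : ℕ) : ℝ) ^ 2 with hR
  set c : ℝ := (DZ a)⁻¹ * (DZ b)⁻¹ with hc
  have hc0 : 0 ≤ c := mul_nonneg (inv_nonneg.2 (DZ_pos a).le) (inv_nonneg.2 (DZ_pos b).le)
  have hind : ∀ n : ℕ, nuz a (A₁ + n) * nuz b (A₂ + n) =
      c * (if ∀ p ∈ Nat.primesLE z, n % p ∉ nuF a b A₁ A₂ p then (1 : ℝ) else 0) := by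
    intro n
    unfold nuz ic
    have e : (∀ p ∈ Nat.primesLE z, n % p ∉ nuF a b A₁ A₂ p) ↔
        ((∀ p ∈ Nat.primesLE a, ¬ p ∣ A₁ + n) ∧ ∀ p ∈ Nat.primesLE b, ¬ p ∣ A₂ + n) := by
      constructor
      · intro h1
        constructor
        · intro p hp hd
          obtain ⟨h2, h3⟩ := Nat.mem_primesLE.1 hp
          exact h1 p (Nat.mem_primesLE.2 ⟨h2.trans ha, h3⟩)
            ((mem_iff h3.pos n).2 (Or.inl ⟨h2, hd⟩))
        · intro p hp hd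
          obtain ⟨h2, h3⟩ := Nat.mem_primesLE.1 hp
          exact h1 p (Nat.mem_primesLE.2 ⟨h2.trans hb, h3⟩)
            ((mem_iff h3.pos n).2 (Or.inr ⟨h2, hd⟩))
      · rintro ⟨h1, h2⟩ p hp hm
        obtain ⟨_, h3⟩ := Nat.mem_primesLE.1 hp
        rcases (mem_iff h3.pos n).1 hm with ⟨h4, h5⟩ | ⟨h4, h5⟩
        · exact h1 p (Nat.mem_primesLE.2 ⟨h4, h3⟩) h5
        · exact h2 p (Nat.mem_primesLE.2 ⟨h4, h3⟩) h5
    by_cases h1 : ∀ p ∈ Nat.primesLE a, ¬ p ∣ A₁ + n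
    · by_cases h2 : ∀ p ∈ Nat.primesLE b, ¬ p ∣ A₂ + n
      · rw [if_pos h1, if_pos h2, if_pos (e.2 ⟨h1, h2⟩), hc]
        ring
      · rw [if_neg h2, if_neg (fun h3 => h2 (e.1 h3).2)]
        ring
    · rw [if_neg h1, if_neg (fun h3 => h1 (e.1 h3).1)]
      ring
  have hsum : ∑ n ∈ Icc 1 y, nuz a (A₁ + n) * nuz b (A₂ + n) =
      c * (((Icc 1 y).filter (fun n => ∀ p ∈ Nat.primesLE z, n % p ∉ nuF a b A₁ A₂ p)).card : ℝ) := by
    rw [Finset.card_filter]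
    push_cast
    rw [Finset.mul_sum]
    exact Finset.sum_congr rfl fun n _ => hind n
  rw [hsum]
  set M : ℝ := (((Icc 1 y).filter (fun n => ∀ p ∈ Nat.primesLE z,
    n % p ∉ nuF a b A₁ A₂ p)).card : ℝ) with hM
  have e1 : c * M - y * (c * P) = c * (M - y * P) := by ring
  rw [e1, abs_mul, abs_of_nonneg hc0]
  calc c * |M - y * P| ≤ c * (2 * ε * (y * P) + R) := mul_le_mul_of_nonneg_left h hc0
    _ = 2 * ε * (y * (c * P)) + c * R := by ring

end Pool.Agent.SSQ
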