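import Pool.Agent.Lib.SSQ.LowG

/-!
# The sieve in very short intervals, with a small relative error (Brun-Hooley sieve)
-/

set_option autoImplicit false

open Finset Filter Topology

namespace Pool.Agent.SSQ

open Pool.Agent.HLB Pool.Agent.HLT Pool.Agent.HLU Pool.Agent.SQP

open SieveAux

/-- Lower and upper weights. -/
theorem hooley2 (κ : ℕ) {ε : ℝ} (hε : 0 < ε) : ∃ K : ℕ, ∀ z : ℕ, ∃ L U : Finset ℕ → ℝ,
    (∀ s, |L s| ≤ 1) ∧ (∀ s, |U s| ≤ 1) ∧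
    (∀ s ∈ (Nat.primesLE z).powerset, (L s ≠ 0 ∨ U s ≠ 0) → ∏ p ∈ s, p ≤ (z + 1) ^ K) ∧
    (∀ h : ℕ → ℝ, (∀ p ∈ Nat.primesLE z, 0 ≤ h p ∧ h p ≤ 1) →
      ∑ s ∈ (Nat.primesLE z).powerset, L s * ∏ p ∈ s, h p ≤ ∏ p ∈ Nat.primesLE z, (1 - h p)) ∧
    (∀ h : ℕ → ℝ, (∀ p ∈ Nat.primesLE z, 0 ≤ h p ∧ h p ≤ 1) →
      ∏ p ∈ Nat.primesLE z, (1 - h p) ≤ ∑ s ∈ (Nat.primesLE z).powerset, U s * ∏ p ∈ s, h p) ∧
    (∀ g : ℕ → ℝ, (∀ p ∈ Nat.primesLE z, 0 ≤ g p ∧ g p ≤ 1 ∧ g p * ((p : ℝ) - 1) ≤ κ) →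
      (1 - ε) * ∑ s ∈ (Nat.primesLE z).powerset, U s * ∏ p ∈ s, g p
        ≤ ∑ s ∈ (Nat.primesLE z).powerset, L s * ∏ p ∈ s, g p) := by
  obtain ⟨k, hk⟩ := ((htl_tendsto κ).eventually (eventually_lt_nhds hε)).exists
  set W := ∏ p ∈ Nat.primesLE ((2 * κ + 5) ^ 2), p with hW
  refine ⟨W + (4 * k + 8), fun z => ?_⟩
  obtain ⟨L, U, H⟩ := hwt_exists κ z k
  refine ⟨L, U, H.bL, H.bU, ?_, H.lo, H.up, ?_⟩
  · intro s hs hne
    rw [Finset.mem_powerset] at hs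
    rcases Nat.eq_zero_or_pos z with rfl | hz
    · have : s = ∅ := by
        rw [Finset.eq_empty_iff_forall_notMem]
        intro p hp
        have := Nat.mem_primesLE.mp (hs hp)
        have := this.2.two_le
        omega
      rw [this, Finset.prod_empty]
      exact Nat.one_le_pow _ _ (by omega)
    · refine (H.lev hz s hs hne).trans ?_
      rw [pow_add (z + 1)]
      apply Nat.mul_le_mul
      · calc W ≤ 2 ^ W := (Nat.lt_two_pow_self).le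
          _ ≤ (z + 1) ^ W := Nat.pow_le_pow_left (show 2 ≤ z + 1 by omega) _
      · exact Nat.pow_le_pow_left (show z ≤ z + 1 by omega) _
  · intro g hg
    have h1 := H.rat g hg
    have h2 := H.up g (fun p hp => ⟨(hg p hp).1, (hg p hp).2.1⟩)
    have h3 := prod_one_sub_nonneg (Nat.primesLE z) g (fun p hp => ⟨(hg p hp).1, (hg p hp).2.1⟩)
    refine le_trans ?_ h1
    exact mul_le_mul_of_nonneg_right (by linarith) (h3.trans h2)

/-- the sum of weights over an interval -/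
lemma weight_sum (z y R : ℕ) (F : ℕ → Finset ℕ) (hF : ∀ p ∈ Nat.primesLE z, F p ⊆ range p) (w : Finset ℕ → ℝ)
    (hw : ∀ s, |w s| ≤ 1) (hlev : ∀ s ∈ (Nat.primesLE z).powerset, w s ≠ 0 → ∏ p ∈ s, p ≤ R) :
    |∑ s ∈ (Nat.primesLE z).powerset, w s * ∑ n ∈ Icc 1 y, ∏ p ∈ s, brunH F n p -
      y * ∑ s ∈ (Nat.primesLE z).powerset, w s * ∏ p ∈ s, (((F p).card : ℝ) / p)| ≤ (R : ℝ) * R := by
  classical
  have hR0 : (0 : ℝ) ≤ R := Nat.cast_nonneg R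
  rw [Finset.mul_sum, ← Finset.sum_sub_distrib]
  have e1 : ∀ s ∈ (Nat.primesLE z).powerset,
      |w s * ∑ n ∈ Icc 1 y, ∏ p ∈ s, brunH F n p - y * (w s * ∏ p ∈ s, (((F p).card : ℝ) / p))| ≤
        if ∏ p ∈ s, p ≤ R then (R : ℝ) else 0 := by
    intro s hs
    by_cases hne : w s = 0
    · rw [hne]
      simp only [zero_mul, mul_zero, sub_zero, abs_zero]
      split_ifs <;> positivity
    · have hd := hlev s hs hne
      rw [if_pos hd]
      rw [Finset.mem_powerset] at hs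
      have hsp : ∀ p ∈ s, p.Prime := fun p hp => (Nat.mem_primesLE.mp (hs hp)).2
      have e2 := brun_count s hsp F (fun p hp => hF p (hs hp)) y
      have e3 : w s * ∑ n ∈ Icc 1 y, ∏ p ∈ s, brunH F n p - y * (w s * ∏ p ∈ s, (((F p).card : ℝ) / p)) =
          w s * (∑ n ∈ Icc 1 y, ∏ p ∈ s, brunH F n p - y * ∏ p ∈ s, (((F p).card : ℝ) / p)) := by ring
      have e4 : ∏ p ∈ s, ((F p).card : ℝ) ≤ R := by
        have e5 : ∏ p ∈ s, ((F p).card : ℝ) ≤ ∏ p ∈ s, (p : ℝ) := by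
          refine Finset.prod_le_prod (fun p _ => Nat.cast_nonneg _) fun p hp => ?_
          have e2 := Finset.card_le_card (hF p (hs hp))
          rw [Finset.card_range] at e2
          exact_mod_cast e2
        refine e5.trans ?_
        have e6 : (∏ p ∈ s, (p : ℝ)) = ((∏ p ∈ s, p : ℕ) : ℝ) := by push_cast; rfl
        rw [e6]
        exact_mod_cast hd
      rw [e3, abs_mul]
      calc |w s| * |∑ n ∈ Icc 1 y, ∏ p ∈ s, brunH F n p - y * ∏ p ∈ s, (((F p).card : ℝ) / p)| ≤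
          1 * |∑ n ∈ Icc 1 y, ∏ p ∈ s, brunH F n p - y * ∏ p ∈ s, (((F p).card : ℝ) / p)| :=
            mul_le_mul_of_nonneg_right (hw s) (abs_nonneg _)
        _ ≤ R := by rw [one_mul]; exact e2.trans e4
  refine (Finset.abs_sum_le_sum_abs _ _).trans ((Finset.sum_le_sum e1).trans ?_)
  rw [← Finset.sum_filter, Finset.sum_const, nsmul_eq_mul]
  apply mul_le_mul_of_nonneg_right _ hR0
  have e4 := Pool.Agent.Lib.Sieve4.card_DD_le (Nat.primesLE z) (fun p hp => (Nat.mem_primesLE.mp hp).2) R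
  unfold Pool.Agent.Lib.Sieve4.DD at e4
  exact_mod_cast e4

/-- Deterministic two-sided sieve. -/
theorem two_det (κ : ℕ) {ε : ℝ} (hε : 0 < ε) (hε1 : ε ≤ 1 / 2) : ∃ K : ℕ, ∀ z y : ℕ, ∀ F : ℕ → Finset ℕ,
    (∀ p ∈ Nat.primesLE z, F p ⊆ range p ∧ (F p).card ≤ κ) →
    |(((Icc 1 y).filter (fun n => ∀ p ∈ Nat.primesLE z, n % p ∉ F p)).card : ℝ) -
      y * ∏ p ∈ Nat.primesLE z, (1 - ((F p).card : ℝ) / p)| ≤
      2 * ε * (y * ∏ p ∈ Nat.primesLE z, (1 - ((F p).card : ℝ) / p)) + (((z + 1) ^ K : ℕ) : ℝ) ^ 2 := by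
  classical
  obtain ⟨K, hK⟩ := hooley2 κ hε
  refine ⟨K, fun z y F hF => ?_⟩
  obtain ⟨L, U, hL, hU, hlev, hlo, hup, hrat⟩ := hK z
  set g : ℕ → ℝ := fun p => ((F p).card : ℝ) / p with hg
  have hadm : ∀ p ∈ Nat.primesLE z, 0 ≤ g p ∧ g p ≤ 1 ∧ g p * ((p : ℝ) - 1) ≤ κ := by
    intro p hp
    have hpp := (Nat.mem_primesLE.mp hp).2
    have hp0 : (0 : ℝ) < p := by exact_mod_cast hpp.pos
    have hc1 : ((F p).card : ℝ) ≤ p := by
      have e1 := Finset.card_le_card (hF p hp).1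
      rw [Finset.card_range] at e1
      exact_mod_cast e1
    have hc2 : ((F p).card : ℝ) ≤ κ := by exact_mod_cast (hF p hp).2
    have hc0 : (0 : ℝ) ≤ ((F p).card : ℝ) := Nat.cast_nonneg _
    refine ⟨by positivity, ?_, ?_⟩
    · simp only [hg]
      rw [div_le_one hp0]
      exact hc1
    · simp only [hg]
      calc ((F p).card : ℝ) / p * ((p : ℝ) - 1) ≤ ((F p).card : ℝ) / p * p := by
            refine mul_le_mul_of_nonneg_left (by linarith) (by positivity)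
        _ = (F p).card := div_mul_cancel₀ _ hp0.ne'
        _ ≤ κ := hc2
  have hadm' : ∀ p ∈ Nat.primesLE z, 0 ≤ g p ∧ g p ≤ 1 := fun p hp => ⟨(hadm p hp).1, (hadm p hp).2.1⟩
  have hy0 : (0 : ℝ) ≤ y := Nat.cast_nonneg y
  set V : ℝ := ∏ p ∈ Nat.primesLE z, (1 - g p) with hV
  have hV0 : 0 ≤ V := prod_one_sub_nonneg _ _ hadm'
  have h1 := hrat g hadm
  have h2 := hlo g hadm'
  have h3 := hup g hadm'
  set SL := ∑ s ∈ (Nat.primesLE z).powerset, L s * ∏ p ∈ s, g p with hSL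
  set SU := ∑ s ∈ (Nat.primesLE z).powerset, U s * ∏ p ∈ s, g p with hSU
  have hSL1 : (1 - ε) * V ≤ SL := (mul_le_mul_of_nonneg_left h3 (by linarith)).trans h1
  have hSU1 : SU ≤ (1 + 2 * ε) * V := by
    have h4 : (1 - ε) * SU ≤ V := h1.trans h2
    have h5 : V ≤ (1 - ε) * ((1 + 2 * ε) * V) := by
      have h6 : (1 - ε) * ((1 + 2 * ε) * V) = V + ε * (1 - 2 * ε) * V := by ring
      have h7 : 0 ≤ ε * (1 - 2 * ε) * V := by
        have : 0 ≤ 1 - 2 * ε := by linarith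
        positivity
      linarith
    exact le_of_mul_le_mul_left (h4.trans h5) (by linarith)
  -- the counts
  have hind : ∀ n : ℕ, ∏ p ∈ Nat.primesLE z, (1 - brunH F n p) =
      if ∀ p ∈ Nat.primesLE z, n % p ∉ F p then (1 : ℝ) else 0 := by
    intro n
    have e1 : ∀ p ∈ Nat.primesLE z, (1 - brunH F n p) = if n % p ∉ F p then (1 : ℝ) else 0 := by
      intro p _
      unfold brunH
      by_cases h : n % p ∈ F p
      · simp [h]
      · simp [h]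
    rw [Finset.prod_congr rfl e1, Finset.prod_ite_zero, Finset.prod_const_one]
  have hcnt : (((Icc 1 y).filter (fun n => ∀ p ∈ Nat.primesLE z, n % p ∉ F p)).card : ℝ) =
      ∑ n ∈ Icc 1 y, ∏ p ∈ Nat.primesLE z, (1 - brunH F n p) := by
    rw [Finset.card_filter]
    push_cast
    refine Finset.sum_congr rfl fun n _ => ?_
    rw [hind n]
  have hsw : ∀ w : Finset ℕ → ℝ, ∑ s ∈ (Nat.primesLE z).powerset, w s * ∑ n ∈ Icc 1 y, ∏ p ∈ s, brunH F n p =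
      ∑ n ∈ Icc 1 y, ∑ s ∈ (Nat.primesLE z).powerset, w s * ∏ p ∈ s, brunH F n p := by
    intro w
    rw [Finset.sum_comm]
    refine Finset.sum_congr rfl fun s _ => ?_
    rw [Finset.mul_sum]
  have hbH : ∀ n : ℕ, ∀ p ∈ Nat.primesLE z, 0 ≤ brunH F n p ∧ brunH F n p ≤ 1 :=
    fun n p _ => ⟨brunH_nonneg F n p, brunH_le F n p⟩
  have hcL : ∑ s ∈ (Nat.primesLE z).powerset, L s * ∑ n ∈ Icc 1 y, ∏ p ∈ s, brunH F n p ≤
      (((Icc 1 y).filter (fun n => ∀ p ∈ Nat.primesLE z, n % p ∉ F p)).card : ℝ) := by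
    rw [hcnt, hsw]
    exact Finset.sum_le_sum fun n _ => hlo _ (hbH n)
  have hcU : (((Icc 1 y).filter (fun n => ∀ p ∈ Nat.primesLE z, n % p ∉ F p)).card : ℝ) ≤
      ∑ s ∈ (Nat.primesLE z).powerset, U s * ∑ n ∈ Icc 1 y, ∏ p ∈ s, brunH F n p := by
    rw [hcnt, hsw]
    exact Finset.sum_le_sum fun n _ => hup _ (hbH n)
  have hwL := weight_sum z y ((z + 1) ^ K) F (fun p hp => (hF p hp).1) L hL
    (fun s hs hne => hlev s hs (Or.inl hne))
  have hwU := weight_sum z y ((z + 1) ^ K) F (fun p hp => (hF p hp).1) U hU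
    (fun s hs hne => hlev s hs (Or.inr hne))
  have e0 : (((z + 1) ^ K : ℕ) : ℝ) ^ 2 = (((z + 1) ^ K : ℕ) : ℝ) * (((z + 1) ^ K : ℕ) : ℝ) := by ring
  rw [e0]
  have hL1 := (abs_le.1 hwL).1
  have hU1 := (abs_le.1 hwU).2
  change |_ - (y : ℝ) * V| ≤ 2 * ε * (y * V) + _
  have e5 : (y : ℝ) * ((1 - ε) * V) ≤ y * SL := mul_le_mul_of_nonneg_left hSL1 hy0
  have e6 : (y : ℝ) * SU ≤ y * ((1 + 2 * ε) * V) := mul_le_mul_of_nonneg_left hSU1 hy0
  have e7 : 0 ≤ ε * (y * V) := by positivity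
  have hL2 : -((((z + 1) ^ K : ℕ) : ℝ) * (((z + 1) ^ K : ℕ) : ℝ)) ≤
      ∑ s ∈ (Nat.primesLE z).powerset, L s * ∑ n ∈ Icc 1 y, ∏ p ∈ s, brunH F n p - y * SL := hL1
  have hU2 : ∑ s ∈ (Nat.primesLE z).powerset, U s * ∑ n ∈ Icc 1 y, ∏ p ∈ s, brunH F n p - y * SU ≤
      (((z + 1) ^ K : ℕ) : ℝ) * (((z + 1) ^ K : ℕ) : ℝ) := hU1
  rw [abs_le]
  constructor
  · nlinarith
  · nlinarith

end Pool.Agent.SSQ
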